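import Pool.Agent.NG.Clop

/-!
# NG BOUND: the Jacobians are bounded

`A := chart K x i`. If the statement fails, for every `n : ℕ` there is `t_n ∈ Tmax f i` with `mv t_n (ι (J a b)) > n`; `u` := image of the hyperfilter on `ℕ`. `Tmax f i ∈ u`, so `A` is bounded along `u`; `p` := centre
(`exists_cen`). `p` is not a point (`no_point`, `S.θ₁`). If `p = ⊥` everything is bounded (`bd_of_cen_bot`): contradiction. So `p ≠ ⊥`. If there is a derivation `δ` of `L` preserving `A` with `pair θ₂ δ ∉ p` (it is in `A` by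
`pair_mem_of_regA`), then by `S.J_mul`: `J a b = (D a δ b - D b δ a) / pair θ₂ δ`, where `(pair θ₂ δ)⁻¹` is bounded (`bd_inv_of_not_tz`) and `D a`, `D b` are bounded (`S.flow`, `mv_der`): contradiction. Otherwise `exists_curve` gives the data
of the curve (`θ₂ ≠ 0` by `S.h22`) and `not_cen` gives a contradiction.
-/

set_option linter.unusedSectionVars false

open Filter Topology
open scoped NNReal KaehlerDifferential

noncomputable section

namespace Pool.Agent.NG

variable {K : Type*} [NontriviallyNormedField K] [IsUltrametricDist K] [CompleteSpace K]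
  [IsAlgClosed K] [CharZero K] {L : Type*} [Field L] [Algebra K L] {N : ℕ}

variable {x : Fin (N + 1) → L} {f : Fin (N + 1) → An K}

private theorem bound_neg {ι : L →ₐ[K] Mer K} {u : Filter ℝ} {g : L} (hg : Bd ι u g) :
    Bd ι u (-g) := by
  obtain ⟨C, hC⟩ := hg
  refine ⟨C, ?_⟩
  filter_upwards [hC] with t ht
  rw [map_neg, mv_neg]
  exact ht

theorem bound_J (S : Flow x f) {i : Fin (N + 1)} (hi : x i ≠ 0) {a b : L}
    (ha : a ∈ chart K x i) (hb : b ∈ chart K x i) :
    ∃ C : ℝ≥0, ∀ t ∈ Tmax f i, mv t (S.ι (S.J a b)) ≤ C := by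
  by_contra hcon
  push Not at hcon
  choose τ hτ hτJ using fun n : ℕ => hcon (n : ℝ≥0)
  let u : Ultrafilter ℝ := (Filter.hyperfilter ℕ).map τ
  have hTu : Tmax f i ∈ u := by
    rw [Ultrafilter.mem_map]
    exact Filter.univ_mem' hτ
  have hnb : ¬ Bd S.ι u (S.J a b) := by
    rintro ⟨C, hC⟩
    have h1 : ∀ᶠ n in (Filter.hyperfilter ℕ : Filter ℕ), mv (τ n) (S.ι (S.J a b)) ≤ C := hC
    have h2 : ∀ᶠ n : ℕ in (Filter.hyperfilter ℕ : Filter ℕ), C ≤ (n : ℝ≥0) := by
      have h3 : ∀ᶠ n : ℕ in Filter.atTop, C ≤ (n : ℝ≥0) :=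
        tendsto_natCast_atTop_atTop.eventually_ge_atTop C
      exact Filter.Eventually.filter_mono Nat.hyperfilter_le_atTop h3
    obtain ⟨n, h3, h4⟩ := (h1.and h2).exists
    exact absurd (hτJ n) (not_lt.2 (h3.trans h4))
  have hA : Surf K (chart K x i) := surf_chart S.surf hi
  have hbd := bd_of_bdOn (S.toEmb.bdOn_chart hi) hTu
  obtain ⟨p, hpp, hcen⟩ := exists_cen hbd
  have hreg₁ : S.θ₁ ∈ regA K (chart K x i) := S.reg₁ i hi
  have hreg₂ : S.θ₂ ∈ regA K (chart K x i) := S.reg₂ i hi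
  have hnp : ¬ IsPoint K (chart K x i) p := no_point hcen S.flow hreg₁ S.h11
  have hp : p ≠ ⊥ := by
    rintro rfl
    exact hnb (bd_of_cen_bot hA hcen _)
  have hDbd : ∀ g ∈ chart K x i, Bd S.ι u (S.D g) := by
    intro g hg
    obtain ⟨C, hC⟩ := hbd g hg
    refine ⟨C, ?_⟩
    filter_upwards [hC] with t ht
    rw [S.flow]
    exact (mv_der t _).trans ht
  have hz : ∀ δ : Derivation K L L, (∀ a ∈ chart K x i, δ a ∈ chart K x i) →
      ∀ c : chart K x i, (c : L) = pair K S.θ₂ δ → c ∈ p := by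
    intro δ hδ c hc
    by_contra hcp
    apply hnb
    have h1 : ¬ Tz S.ι u (c : L) := fun h => hcp ((hcen.2 c).1 h)
    have h2 := bd_inv_of_not_tz h1
    have h3 : (c : L) ≠ 0 := by
      intro h0
      apply hcp
      have : c = 0 := Subtype.ext h0
      rw [this]
      exact p.zero_mem
    have h4 : S.J a b = (S.D a * δ b + -(S.D b * δ a)) * (c : L)⁻¹ := by
      rw [← sub_eq_add_neg, ← S.J_mul δ a b, ← hc, mul_assoc, mul_inv_cancel₀ h3, mul_one]
    rw [h4]
    exact (((hDbd a ha).mul (hbd _ (hδ b hb))).add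
      (bound_neg ((hDbd b hb).mul (hbd _ (hδ a ha))))).mul h2
  have hθ₂ : S.θ₂ ≠ 0 := by
    intro h0
    have h1 := S.h22
    rw [h0] at h1
    have h2 : pair K (0 : Ω[L⁄K]) S.D' = 0 := map_zero _
    rw [h2] at h1
    exact zero_ne_one h1
  obtain ⟨c⟩ := exists_curve hA hp hnp hθ₂ hreg₂ S.cl₂ hz
  exact not_cen S hi hp hnp c u hcen

end Pool.Agent.NG
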