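import Pool.Agent.NG.EmbDefs
import Pool.Agent.NG.Bound

/-!
# NG CANON: products of Jacobians from the canonical bundle

`J a₀ b₀ ≠ 0` by `S.expandD`; `c ∈ canIdeal i a₀ b₀ → c J a₀ b₀ ∈ JI i`; `h := g (J a₀ b₀) ^ m`.
-/

set_option linter.unusedSectionVars false

open Filter Topology
open scoped NNReal KaehlerDifferential

noncomputable section

namespace Pool.Agent.NG

variable {K : Type*} [NontriviallyNormedField K] [IsUltrametricDist K] [CompleteSpace K]
  [IsAlgClosed K] [CharZero K] {L : Type*} [Field L] [Algebra K L] {N : ℕ}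

variable {x : Fin (N + 1) → L} {f : Fin (N + 1) → An K}

/-- the fractional ideal generated by the Jacobians -/
def Flow.JI (S : Flow x f) (i : Fin (N + 1)) : Submodule (chart K x i) L :=
  Submodule.span (chart K x i) {c : L | ∃ a ∈ chart K x i, ∃ b ∈ chart K x i, c = S.J a b}

theorem exists_big (S : Flow x f) (hb : CanonicalBig K x) :
    ∃ (m : ℕ) (h : L), h ≠ 0 ∧ ∀ i, x i ≠ 0 → h * x i ∈ S.JI i ^ m := by
  obtain ⟨a₀, b₀, ⟨δ₁, δ₂, h12⟩, m, -, g, hg, hm⟩ := hb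
  have hφ : S.J a₀ b₀ ≠ 0 := by
    intro h0
    apply h12
    have h1 : S.D a₀ * S.D' b₀ - S.D b₀ * S.D' a₀ = 0 := h0
    unfold jac
    rw [S.expandD δ₁ a₀, S.expandD δ₂ b₀, S.expandD δ₂ a₀, S.expandD δ₁ b₀]
    linear_combination (pair K S.θ₁ δ₁ * pair K S.θ₂ δ₂ - pair K S.θ₂ δ₁ * pair K S.θ₁ δ₂) * h1
  refine ⟨m, g * S.J a₀ b₀ ^ m, mul_ne_zero hg (pow_ne_zero _ hφ), fun i hi => ?_⟩
  have h1 : Submodule.span (chart K x i) {S.J a₀ b₀} * canIdeal K x i a₀ b₀ ≤ S.JI i := by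
    unfold canIdeal
    rw [Submodule.span_mul_span, Submodule.span_le]
    rintro _ ⟨c, hc, d, ⟨a, ha, b, hb, hd⟩, rfl⟩
    rw [Set.mem_singleton_iff] at hc
    subst hc
    refine Submodule.subset_span ⟨a, ha, b, hb, ?_⟩
    have h2 := hd S.D S.D'
    unfold jac at h2
    change (S.D a₀ * S.D' b₀ - S.D b₀ * S.D' a₀) * d = S.D a * S.D' b - S.D b * S.D' a
    linear_combination -h2
  have h2 : (Submodule.span (chart K x i) {S.J a₀ b₀}) ^ m * (canIdeal K x i a₀ b₀) ^ m ≤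
      S.JI i ^ m := by
    rw [← mul_pow]
    exact pow_le_pow_left' h1 m
  have h3 : S.J a₀ b₀ ^ m * (g * x i) ∈ S.JI i ^ m :=
    h2 (Submodule.mul_mem_mul (Submodule.pow_mem_pow _ (Submodule.mem_span_singleton_self _) m)
      (hm i hi))
  convert h3 using 1
  ring

theorem exists_factor_E (S : Flow x f) {h : L} (hh : h ≠ 0) :
    ∃ e : Mer K, e ≠ 0 ∧ ∀ i, S.ι (h * x i) = e * am (f i) := by
  obtain ⟨j, hj⟩ := S.nz 1
  have hfj : f j ≠ 0 := by
    intro h0
    rw [h0] at hj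
    exact hj rfl
  have hxj : x j ≠ 0 := fun h0 => hfj ((S.zero_iff j).1 h0)
  have ham : am (f j) ≠ 0 := fun h0 => hfj (am_eq_zero.1 h0)
  have hinj : ∀ a : L, a ≠ 0 → S.ι a ≠ 0 := fun a ha h0 => ha (S.ι.toRingHom.injective (by
    change S.ι a = S.ι 0
    rw [h0, map_zero]))
  refine ⟨S.ι (h * x j) / am (f j), div_ne_zero (hinj _ (mul_ne_zero hh hxj)) ham, fun i => ?_⟩
  rw [div_mul_eq_mul_div, eq_div_iff ham, map_mul, map_mul, mul_assoc, S.prop i j, mul_assoc]

theorem bd_prod (S : Flow x f) {i : Fin (N + 1)} (hi : x i ≠ 0) {m : ℕ} {c : L}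
    (hc : c ∈ S.JI i ^ m) : ∃ C : ℝ≥0, ∀ t ∈ Tmax f i, mv t (S.ι c) ≤ C := by
  have hmem : ∀ c ∈ S.JI i, ∃ C : ℝ≥0, ∀ t ∈ Tmax f i, mv t (S.ι c) ≤ C := by
    intro c hc
    induction hc using Submodule.span_induction with
    | mem w h =>
      obtain ⟨a, ha, b, hb, rfl⟩ := h
      exact bound_J S hi ha hb
    | zero => exact ⟨0, fun t _ => by rw [map_zero, mv_zero]⟩
    | add w w' _ _ h h' =>
      obtain ⟨C, hC⟩ := h
      obtain ⟨C', hC'⟩ := h'
      refine ⟨max C C', fun t ht => ?_⟩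
      rw [map_add]
      exact (mv_add t _ _).trans (max_le_max (hC t ht) (hC' t ht))
    | smul a w _ h =>
      obtain ⟨C, hC⟩ := h
      obtain ⟨C', hC'⟩ := S.toEmb.bdOn_chart hi a a.2
      refine ⟨C' * C, fun t ht => ?_⟩
      have e : (a • w : L) = (a : L) * w := rfl
      rw [e, map_mul, mv_mul]
      exact mul_le_mul' (hC' t ht) (hC t ht)
  refine Submodule.pow_induction_on_left (S.JI i)
    (C := fun c => ∃ C : ℝ≥0, ∀ t ∈ Tmax f i, mv t (S.ι c) ≤ C) ?_ ?_ ?_ hc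
  · intro r
    exact S.toEmb.bdOn_chart hi r r.2
  · rintro a b ⟨C, hC⟩ ⟨C', hC'⟩
    refine ⟨max C C', fun t ht => ?_⟩
    rw [map_add]
    exact (mv_add t _ _).trans (max_le_max (hC t ht) (hC' t ht))
  · rintro a ha b ⟨C, hC⟩
    obtain ⟨C', hC'⟩ := hmem a ha
    refine ⟨C' * C, fun t ht => ?_⟩
    rw [map_mul, mv_mul]
    exact mul_le_mul' (hC' t ht) (hC t ht)

/-- the Jacobians are regular outside the hits -/
theorem reg_prod (S : Flow x f) {i : Fin (N + 1)} {z : Kˣ} (hz : (f i).1 z ≠ 0)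
    {δ : Derivation K L L} (hδ : ∀ a ∈ chart K x i, δ a ∈ chart K x i)
    (hne : ev z (S.ι (pair K S.θ₂ δ)) ≠ 0) {m : ℕ} {c : L} (hc : c ∈ S.JI i ^ m) :
    RegAt z (S.ι c) := by
  have hi : x i ≠ 0 := fun h0 => hz (by rw [(S.zero_iff i).1 h0]; rfl)
  have hch := S.toEmb.reg_chart hz
  have hpair : pair K S.θ₂ δ ∈ chart K x i :=
    pair_mem_of_regA (S.reg₂ i hi) le_rfl hδ
  have hinv := (hch _ hpair).inv hne
  have hp0 : S.ι (pair K S.θ₂ δ) ≠ 0 := by
    intro h0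
    apply hne
    rw [h0]
    have := ev_const (K := K) z 0
    rwa [map_zero] at this
  have hmem : ∀ c ∈ S.JI i, RegAt z (S.ι c) := by
    intro c hc
    induction hc using Submodule.span_induction with
    | mem w h =>
      obtain ⟨a, ha, b, hb, rfl⟩ := h
      have e : S.ι (S.J a b) = (der K (S.ι a) * S.ι (δ b) - der K (S.ι b) * S.ι (δ a)) *
          (S.ι (pair K S.θ₂ δ))⁻¹ := by
        rw [eq_mul_inv_iff_mul_eq₀ hp0, ← map_mul, S.J_mul, map_sub, map_mul, map_mul, S.flow,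
          S.flow]
      rw [e]
      exact (((hch a ha).der.mul (hch _ (hδ b hb))).sub
        ((hch b hb).der.mul (hch _ (hδ a ha)))).mul hinv
    | zero =>
      rw [map_zero]
      have := regAt_const (K := K) z 0
      rwa [map_zero] at this
    | add w w' _ _ h h' =>
      rw [map_add]
      exact h.add h'
    | smul a w _ h =>
      have e : (a • w : L) = (a : L) * w := rfl
      rw [e, map_mul]
      exact (hch a a.2).mul h
  refine Submodule.pow_induction_on_left (S.JI i) (C := fun c => RegAt z (S.ι c)) ?_ ?_ ?_ hc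
  · intro r
    exact hch r r.2
  · intro a b ha hb
    rw [map_add]
    exact ha.add hb
  · intro a ha b hb
    rw [map_mul]
    exact (hmem a ha).mul hb

end Pool.Agent.NG
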