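import Pool.Agent.NG.Mer

/-!
# NG FACT: factorials in a non-archimedean field of characteristic zero (module to prove)

`‖(n : K)‖ ≤ 1` for all `n : ℕ`. If `‖(q : K)‖ = 1` for all primes `q`, then all factorials have norm one. Otherwise let `q` be a prime with
`r = ‖(q : K)‖ < 1` (`r > 0`, characteristic zero); all other primes have norm one (`1 = u q + v q'` and the ultrametric inequality), so
`‖(n! : K)‖ = r ^ (v_q (n!))` and `v_q (n!) ≤ n` (`Nat.Prime.multiplicity_factorial_le...`, `sub_one_mul_padicValNat_factorial`, or directly: `v_q(n!) < n`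
from Legendre). `R := r⁻¹`.
(Alternatively by induction: `‖(n : K)‖ ≥ r ^ (v_q n)` and `∑_{m ≤ n} v_q m ≤ n`.)
-/

set_option linter.unusedSectionVars false

open Filter Topology
open scoped NNReal KaehlerDifferential

noncomputable section

namespace Pool.Agent.NG

variable {K : Type*} [NontriviallyNormedField K] [IsUltrametricDist K] [CompleteSpace K]
  [IsAlgClosed K] [CharZero K] {L : Type*} [Field L] [Algebra K L] {N : ℕ}

omit [CompleteSpace K] [IsAlgClosed K] [CharZero K] in
private lemma fact_coprime {q m : ℕ} (hq : ‖(q : K)‖ < 1) (h : Nat.Coprime q m) :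
    ‖(m : K)‖ = 1 := by
  refine le_antisymm (IsUltrametricDist.norm_natCast_le_one K m) ?_
  by_contra hlt
  rw [not_le] at hlt
  obtain ⟨u, v, huv⟩ : ∃ u v : ℤ, u * q + v * m = 1 := by
    have h1 := Nat.isCoprime_iff_coprime.2 h
    obtain ⟨u, v, huv⟩ := h1
    exact ⟨u, v, huv⟩
  have h2 : (u : K) * (q : K) + (v : K) * (m : K) = 1 := by exact_mod_cast congrArg (Int.cast : ℤ → K) huv
  have hu : ‖(u : K)‖ ≤ 1 := IsUltrametricDist.norm_intCast_le_one K u
  have hv : ‖(v : K)‖ ≤ 1 := IsUltrametricDist.norm_intCast_le_one K v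
  have h3 : ‖(u : K) * (q : K) + (v : K) * (m : K)‖ < 1 := by
    refine (IsUltrametricDist.norm_add_le_max _ _).trans_lt (max_lt ?_ ?_)
    · rw [norm_mul]
      calc ‖(u : K)‖ * ‖(q : K)‖ ≤ 1 * ‖(q : K)‖ := by gcongr
        _ < 1 := by rw [one_mul]; exact hq
    · rw [norm_mul]
      calc ‖(v : K)‖ * ‖(m : K)‖ ≤ 1 * ‖(m : K)‖ := by gcongr
        _ < 1 := by rw [one_mul]; exact hlt
  rw [h2, norm_one] at h3
  exact lt_irrefl _ h3

omit [CompleteSpace K] [IsAlgClosed K] in
theorem exists_fact : ∃ R : ℝ≥0, 1 ≤ R ∧ ∀ n : ℕ, (‖(n.factorial : K)‖₊)⁻¹ ≤ R ^ n := by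
  by_cases hp : ∀ q : ℕ, q.Prime → ‖(q : K)‖ = 1
  · have h1 : ∀ n : ℕ, n ≠ 0 → ‖(n : K)‖ = 1 := by
      intro n
      induction n using Nat.recOnMul with
      | zero => intro h; exact absurd rfl h
      | one => intro _; rw [Nat.cast_one, norm_one]
      | prime p hpp => intro _; exact hp p hpp
      | mul a b ha hb =>
        intro hab
        rw [Nat.cast_mul, norm_mul, ha (left_ne_zero_of_mul hab), hb (right_ne_zero_of_mul hab),
          one_mul]
    refine ⟨1, le_rfl, fun n => ?_⟩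
    have h2 : ‖(n.factorial : K)‖₊ = 1 := by
      apply NNReal.coe_injective
      rw [coe_nnnorm, NNReal.coe_one]
      exact h1 _ n.factorial_ne_zero
    rw [h2, inv_one, one_pow]
  · push Not at hp
    obtain ⟨q, hq, hq1⟩ := hp
    have hlt : ‖(q : K)‖ < 1 := lt_of_le_of_ne (IsUltrametricDist.norm_natCast_le_one K q) hq1
    have hq0 : (q : K) ≠ 0 := Nat.cast_ne_zero.2 hq.ne_zero
    have hr0 : 0 < ‖(q : K)‖₊ := by rw [nnnorm_pos]; exact hq0
    have hr1 : ‖(q : K)‖₊ ≤ 1 := by
      rw [← NNReal.coe_le_coe, coe_nnnorm, NNReal.coe_one]; exact hlt.le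
    have hR : 1 ≤ (‖(q : K)‖₊)⁻¹ := (one_le_inv₀ hr0).2 hr1
    refine ⟨(‖(q : K)‖₊)⁻¹, hR, fun n => ?_⟩
    have : Fact q.Prime := ⟨hq⟩
    obtain ⟨v, m, hm, he⟩ := Nat.exists_eq_pow_mul_and_not_dvd n.factorial_ne_zero q hq.ne_one
    have hv : v = padicValNat q n.factorial := by
      rw [he, padicValNat.mul (pow_ne_zero _ hq.ne_zero) (by rintro rfl; exact hm (dvd_zero q)),
        padicValNat.prime_pow, padicValNat.eq_zero_of_not_dvd hm, add_zero]
    have hvn : v ≤ n := by
      have h3 := sub_one_mul_padicValNat_factorial (p := q) n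
      rw [← hv] at h3
      have h4 : 1 ≤ q - 1 := by have := hq.two_le; omega
      calc v = 1 * v := (one_mul v).symm
        _ ≤ (q - 1) * v := Nat.mul_le_mul_right v h4
        _ = n - (q.digits n).sum := h3
        _ ≤ n := Nat.sub_le _ _
    have hm1 : ‖(m : K)‖₊ = 1 := by
      apply NNReal.coe_injective
      rw [coe_nnnorm, NNReal.coe_one]
      exact fact_coprime hlt ((Nat.Prime.coprime_iff_not_dvd hq).2 hm)
    rw [he, Nat.cast_mul, Nat.cast_pow, nnnorm_mul, nnnorm_pow, hm1, mul_one, ← inv_pow]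
    exact pow_le_pow_right₀ hR hvn

end Pool.Agent.NG
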