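import Pool.Agent.NG.Npl

/-!
# LOGD: the slope is bounded by the logarithmic derivative (module to prove)

`logd_generic`: let `F, G ≠ 0` in `An K` with `nplus t F = nminus t F = p`, `nplus t G = nminus t G = q`, and
`h = am F / am G`. Claim: `‖(p - q : K)‖ * mv t h ≤ mv t (der h)`.
Write `F = a z^p (1 + u)` with `a = coeff F p`, `u` in `An K` (`z` is invertible, `Zi`), `coeff u 0 = 0`,
`gn t u < 1` (all terms of `u` are `< 1`, and they tend to zero, so the supremum is attained).
Then `der F / F = p + der u / (1 + u)`. For `M : ℕ` let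
`S M = ∑_{k ≤ M} (-1)^k u^(k+1) / (k+1)` in `An K`; `der (S M) = (∑_{k ≤ M} (-u)^k) der u` and
`(1 + u) ∑_{k ≤ M} (-u)^k = 1 - (-u)^(M+1)`, so `der u / (1 + u) - der (S M) = (-u)^(M+1) der u / (1 + u)` has
`mv t ≤ (gn t u)^(M+1)` (note `gn t (1 + u) = 1`). Same for `G` with `v`, `S' M`. So
`der h / h = der F / F - der G / G = (p - q) + dA (S M - S' M) + E M` with `mv t (E M) → 0`. The
coefficient of index `0` of `(p - q) + dA (S M - S' M)` is `p - q` (`coeff_dA`: index `0` of a
derivative vanishes), so `‖p - q‖ ≤ gn t ((p - q) + dA (...)) ≤ max (mv t (der h / h)) (mv t (E M))`.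
Let `M → ∞`: `‖p - q‖ ≤ mv t (der h / h)` (if `‖p - q‖ = 0` trivial; otherwise choose `M` with
`mv t (E M) < ‖p - q‖`).

`slope_right`: `h = F / G`; by `gn_right` for `F` and `G` we have
`mv t' h = mv t h * ex ((nplus t F - nplus t G) (t' - t))` on `[t, t + δ]`. For `t'` slightly larger than `t` the
hypotheses of `logd_generic` hold at `t'` with `p = nplus t F`, `q = nplus t G`
(`nplus_eq_nminus_right`), so `‖p - q‖ * mv t' h ≤ mv t' (der h)`; let `t' → t` (`continuous_mv`).
`slope_left` is symmetric.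
-/

open Filter Topology
open scoped NNReal

noncomputable section

namespace Pool.Agent.NG

variable {K : Type*} [NontriviallyNormedField K] [IsUltrametricDist K] [CompleteSpace K]
  [IsAlgClosed K] [CharZero K]

private def lgMon (k : ℤ) : An K := ofCoeff (Pi.single k 1) (decay_single k 1)

private lemma lg_coeff_mon_mul (k : ℤ) (F : An K) (n : ℤ) :
    coeff (lgMon k * F) n = coeff F (n - k) := by
  rw [coeff_mul, lgMon, coeff_ofCoeff]
  unfold conv
  rw [tsum_eq_single k]
  · rw [Pi.single_eq_same, one_mul]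
  · intro m hm
    rw [Pi.single_eq_of_ne hm, zero_mul]

private lemma lg_dA_mon (k : ℤ) : dA (lgMon k : An K) = (k : K) • lgMon k := by
  apply coeff_injective
  funext n
  rw [coeff_dA, coeff_smul, lgMon, coeff_ofCoeff, Pi.smul_apply, smul_eq_mul]
  by_cases hn : n = k
  · rw [hn]
  · rw [Pi.single_eq_of_ne hn, mul_zero, mul_zero]

private lemma lg_unit {F : An K} (hF : F ≠ 0) (t : ℝ) (h1 : nplus t F = nminus t F) :
    ∃ (a : K) (u : An K), a ≠ 0 ∧ F = a • (lgMon (nplus t F) * (1 + u)) ∧ gn t u < 1 := by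
  set p := nplus t F with hp
  set a := coeff F p with ha
  have hterm : term t (coeff F) p = gn t F := term_nplus t hF
  have hg : 0 < gn t F := pos_iff_ne_zero.2 fun h0 => hF ((gn_eq_zero t F).1 h0)
  have ha0 : a ≠ 0 := by
    intro h0
    rw [← hterm] at hg
    unfold term at hg
    rw [← ha, h0] at hg
    simp at hg
  have ht : ∀ n : ℤ, term t (fun n => coeff F (n + p)) n = term t (coeff F) (n + p) * ex (-(p * t)) := by
    intro n
    unfold term
    rw [mul_assoc, ← ex_add]
    congr 2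
    push_cast
    ring
  have hd0 : Decay (fun n => coeff F (n + p)) := by
    intro s
    have h2 : Tendsto (fun n : ℤ => term s (coeff F) (n + p) * ex (-(p * s))) cofinite (𝓝 0) := by
      have h3 := ((coeff_decay F s).comp
        ((Equiv.addRight p).injective.tendsto_cofinite)).mul_const (ex (-(p * s)))
      rw [zero_mul] at h3
      exact h3
    refine h2.congr fun n => ?_
    unfold term
    rw [mul_assoc, ← ex_add]
    congr 2
    push_cast
    ring
  have hd : Decay (fun n => if n = 0 then 0 else a⁻¹ * coeff F (n + p)) := by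
    refine (hd0.smul a⁻¹).of_le fun n => ?_
    split_ifs
    · rw [norm_zero]; exact norm_nonneg _
    · exact le_rfl
  refine ⟨a, ofCoeff _ hd, ha0, ?_, ?_⟩
  · apply coeff_injective
    funext n
    rw [coeff_smul, Pi.smul_apply, smul_eq_mul, lg_coeff_mon_mul, coeff_add, coeff_one,
      coeff_ofCoeff, Pi.add_apply]
    by_cases hn : n = p
    · rw [if_pos (by omega), hn, sub_self, Pi.single_eq_same, add_zero, mul_one]
    · rw [if_neg (by omega), Pi.single_eq_of_ne (show n - p ≠ 0 by omega), zero_add,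
        mul_inv_cancel_left₀ ha0, sub_add_cancel]
  · have hlt : ∀ n : ℤ, term t (coeff (ofCoeff (fun n => if n = 0 then 0 else
        a⁻¹ * coeff F (n + p)) hd)) n < 1 := by
      intro n
      rw [coeff_ofCoeff]
      by_cases hn : n = 0
      · unfold term
        simp only [hn, if_true, nnnorm_zero, zero_mul]
        exact one_pos
      · have h2 : term t (coeff F) (n + p) < gn t F := by
          rcases lt_or_gt_of_ne hn with h3 | h3
          · refine lt_of_lt_nminus t hF ?_
            rw [← h1]; omega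
          · refine lt_of_nplus_lt t hF ?_
            omega
        unfold term
        simp only [hn, if_false]
        rw [nnnorm_mul, nnnorm_inv, mul_assoc, ← div_eq_inv_mul,
          div_lt_one (nnnorm_pos.2 ha0)]
        have h4 := ht n
        unfold term at h4
        rw [h4]
        rw [← hterm] at h2
        unfold term at h2
        have h5 : ‖a‖₊ = ‖coeff F p‖₊ * ex (p * t) * ex (-(p * t)) := by
          rw [mul_assoc, ← ex_add, add_neg_cancel, ex_zero, mul_one]
        rw [h5]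
        exact mul_lt_mul_of_pos_right h2 (ex_pos _)
    by_cases h0 : (ofCoeff (fun n => if n = 0 then 0 else a⁻¹ * coeff F (n + p)) hd : An K) = 0
    · rw [h0, (gn_eq_zero t 0).2 rfl]
      exact one_pos
    · rw [← term_nplus t h0]
      exact hlt _

private lemma lg_one_add {t : ℝ} {u : An K} (hu : gn t u < 1) : mv t (1 + am u) = 1 := by
  have h := mv_eq_of_sub_lt t (g := 1 + am u) (h := 1) (by
    rw [add_sub_cancel_left, mv_am, mv_one]; exact hu)
  rw [h, mv_one]

private lemma lg_dlog {F : An K} (hF : F ≠ 0) (t : ℝ) (h1 : nplus t F = nminus t F) :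
    ∃ u : An K, gn t u < 1 ∧
      der K (am F) / am F = ((nplus t F : ℤ) : Mer K) + der K (am u) / (1 + am u) := by
  obtain ⟨a, u, ha, e, hu⟩ := lg_unit hF t h1
  refine ⟨u, hu, ?_⟩
  set p := nplus t F with hp
  have hu0 : (1 + am u : Mer K) ≠ 0 := by
    intro h0
    have := lg_one_add hu
    rw [h0, mv_zero] at this
    exact zero_ne_one this
  have hF0 : am F ≠ 0 := fun h0 => hF (am_eq_zero.1 h0)
  have e1 : am F = algebraMap K (Mer K) a * (am (lgMon p) * (1 + am u)) := by
    conv_lhs => rw [e]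
    rw [Algebra.smul_def, am_mul, am_mul, am_add, am_one, am_algebraMap]
  have e2 : der K (am (lgMon p : An K)) = ((p : ℤ) : Mer K) * am (lgMon p) := by
    rw [der_am, lg_dA_mon, Algebra.smul_def, am_mul, am_algebraMap]
    rw [map_intCast]
  have e3 : der K (am F) = ((p : ℤ) : Mer K) * am F +
      algebraMap K (Mer K) a * am (lgMon p) * der K (am u) := by
    rw [e1, ← Algebra.smul_def, Derivation.map_smul, Derivation.leibniz, e2, map_add,
      Derivation.map_one_eq_zero, zero_add]
    simp only [smul_eq_mul, Algebra.smul_def]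
    ring
  have e4 : am F / (1 + am u) = algebraMap K (Mer K) a * am (lgMon p) := by
    rw [e1]
    field_simp
  rw [e3, ← e4]
  field_simp

private lemma lg_approx {t : ℝ} {u : An K} (hu : gn t u < 1) (M : ℕ) :
    ∃ s : An K, mv t (der K (am u) / (1 + am u) - am (dA s)) ≤ gn t u ^ M := by
  refine ⟨∑ k ∈ Finset.range M, ((-1) ^ k / ((k : K) + 1)) • u ^ (k + 1), ?_⟩
  have hu0 : (1 + am u : Mer K) ≠ 0 := by
    intro h0
    have := lg_one_add hu
    rw [h0, mv_zero] at this
    exact zero_ne_one this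
  have e1 : am (dA (∑ k ∈ Finset.range M, ((-1) ^ k / ((k : K) + 1)) • u ^ (k + 1))) =
      (∑ k ∈ Finset.range M, (-am u) ^ k) * der K (am u) := by
    rw [← der_am]
    have e2 : am (∑ k ∈ Finset.range M, ((-1) ^ k / ((k : K) + 1)) • u ^ (k + 1)) =
        ∑ k ∈ Finset.range M, ((-1) ^ k / ((k : K) + 1)) • (am u) ^ (k + 1) := by
      unfold am
      rw [map_sum]
      refine Finset.sum_congr rfl fun k _ => ?_
      rw [Algebra.smul_def, map_mul, map_pow, ← IsScalarTower.algebraMap_apply,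
        ← Algebra.smul_def]
    rw [e2, map_sum, Finset.sum_mul]
    refine Finset.sum_congr rfl fun k _ => ?_
    rw [Derivation.map_smul, Derivation.leibniz_pow, add_tsub_cancel_right]
    have hk : ((k : K) + 1) ≠ 0 := by exact_mod_cast Nat.succ_ne_zero k
    rw [← Nat.cast_smul_eq_nsmul K, smul_smul, Nat.cast_succ, div_mul_cancel₀ _ hk,
      neg_pow (am u) k, Algebra.smul_def, smul_eq_mul, map_pow, map_neg, map_one, mul_assoc]
  rw [e1]
  have e3 : der K (am u) / (1 + am u) - (∑ k ∈ Finset.range M, (-am u) ^ k) * der K (am u) =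
      (-am u) ^ M * der K (am u) / (1 + am u) := by
    have h1 := geom_sum_mul (-am u) M
    field_simp
    linear_combination (der K (am u)) * h1
  rw [e3, mv_div, mv_mul, mv_pow, mv_neg, mv_am, lg_one_add hu, div_one]
  refine mul_le_of_le_one_right zero_le ?_
  refine (mv_der t _).trans ?_
  rw [mv_am]
  exact hu.le

theorem logd_generic {F G : An K} (hF : F ≠ 0) (hG : G ≠ 0) (t : ℝ)
    (h1 : nplus t F = nminus t F) (h2 : nplus t G = nminus t G) {h : Mer K}
    (e : h * am G = am F) :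
    ‖((nplus t F - nplus t G : ℤ) : K)‖₊ * mv t h ≤ mv t (der K h) := by
  obtain ⟨u, hu, eu⟩ := lg_dlog hF t h1
  obtain ⟨v, hv, ev⟩ := lg_dlog hG t h2
  have hF0 : am F ≠ 0 := fun h0 => hF (am_eq_zero.1 h0)
  have hG0 : am G ≠ 0 := fun h0 => hG (am_eq_zero.1 h0)
  have hh : h ≠ 0 := by
    rintro rfl
    rw [zero_mul] at e
    exact hF0 e.symm
  set c : ℤ := nplus t F - nplus t G with hc
  have ew : der K h / h = ((c : ℤ) : Mer K) +
      (der K (am u) / (1 + am u) - der K (am v) / (1 + am v)) := by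
    have e1 : der K h / h = der K (am F) / am F - der K (am G) / am G := by
      rw [← e, Derivation.leibniz, smul_eq_mul, smul_eq_mul]
      field_simp
      ring
    rw [e1, eu, ev, hc]
    push_cast
    ring
  set w := der K h / h with hw
  have hmain : ‖(c : K)‖₊ ≤ mv t w := by
    by_contra hcon
    rw [not_le] at hcon
    set r := max (gn t u) (gn t v) with hr
    have hr1 : r < 1 := max_lt hu hv
    have hM : ∀ M : ℕ, ‖(c : K)‖₊ ≤ r ^ M := by
      intro M
      obtain ⟨s, hs⟩ := lg_approx hu M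
      obtain ⟨s', hs'⟩ := lg_approx hv M
      have h3 : ‖(c : K)‖₊ ≤ gn t (algebraMap K (An K) (c : K) + dA (s - s')) := by
        refine le_trans (le_of_eq ?_) (term_le_gn t _ 0)
        unfold term
        rw [coeff_add, Pi.add_apply, coeff_algebraMap, coeff_dA]
        simp
      rw [← mv_am] at h3
      have h4 : am (algebraMap K (An K) (c : K) + dA (s - s')) = w -
          ((der K (am u) / (1 + am u) - am (dA s)) - (der K (am v) / (1 + am v) - am (dA s'))) := by
        have h5 : am (dA (s - s')) = am (dA s) - am (dA s') := by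
          rw [← der_am, am_sub, map_sub, der_am, der_am]
        rw [ew, am_add, h5, am_algebraMap, map_intCast]
        ring
      rw [h4] at h3
      rcases le_max_iff.1 (h3.trans (mv_sub t _ _)) with h6 | h6
      · exact absurd h6 (not_le.2 hcon)
      · refine h6.trans ((mv_sub t _ _).trans (max_le ?_ ?_))
        · exact hs.trans (pow_le_pow_left₀ zero_le (le_max_left _ _) M)
        · exact hs'.trans (pow_le_pow_left₀ zero_le (le_max_right _ _) M)
    have h7 : Tendsto (fun M : ℕ => r ^ M) atTop (𝓝 0) :=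
      NNReal.tendsto_pow_atTop_nhds_zero_of_lt_one hr1
    have h8 : ‖(c : K)‖₊ ≤ 0 := ge_of_tendsto' h7 hM
    exact absurd (lt_of_le_of_lt zero_le hcon) (not_lt.2 h8)
  have h9 : mv t (der K h) = mv t w * mv t h := by
    rw [hw, mv_div, div_mul_cancel₀ _ (mv_ne_zero t hh)]
  rw [h9]
  exact mul_le_mul' hmain le_rfl

theorem slope_right {h : Mer K} (hh : h ≠ 0) (t : ℝ) :
    ∃ n : ℤ, (∃ δ > 0, ∀ t' ∈ Set.Icc t (t + δ), mv t' h = mv t h * ex (n * (t' - t))) ∧
      ‖(n : K)‖₊ * mv t h ≤ mv t (der K h) := by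
  obtain ⟨F, G, hG, e⟩ := exists_frac h
  have hF : F ≠ 0 := by
    rintro rfl
    rw [am_zero, mul_eq_zero] at e
    rcases e with e | e
    · exact hh e
    · exact hG (am_eq_zero.1 e)
  refine ⟨nplus t F - nplus t G, ?_, ?_⟩
  · obtain ⟨δ₁, hδ₁, h1⟩ := gn_right hF t
    obtain ⟨δ₂, hδ₂, h2⟩ := gn_right hG t
    refine ⟨min δ₁ δ₂, lt_min hδ₁ hδ₂, fun t' ht' => ?_⟩
    rw [mv_eq_div t' hG e, mv_eq_div t hG e,
      h1 t' ⟨ht'.1, ht'.2.trans (by linarith [min_le_left δ₁ δ₂])⟩,
      h2 t' ⟨ht'.1, ht'.2.trans (by linarith [min_le_right δ₁ δ₂])⟩]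
    have h3 : ex (((nplus t F - nplus t G : ℤ) : ℝ) * (t' - t)) * ex (nplus t G * (t' - t)) =
        ex (nplus t F * (t' - t)) := by
      rw [← ex_add]; congr 1; push_cast; ring
    rw [← h3]
    have h4 := ex_ne_zero (nplus t G * (t' - t))
    have h5 : gn t G ≠ 0 := fun h0 => hG ((gn_eq_zero t G).1 h0)
    rw [div_mul_eq_mul_div, div_eq_div_iff (mul_ne_zero h5 h4) h5]
    ring
  · obtain ⟨δ₁, hδ₁, h1⟩ := nplus_eq_nminus_right hF t
    obtain ⟨δ₂, hδ₂, h2⟩ := nplus_eq_nminus_right hG t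
    have hev : ∀ᶠ t' in 𝓝[>] t, ‖((nplus t F - nplus t G : ℤ) : K)‖₊ * mv t' h ≤
        mv t' (der K h) := by
      filter_upwards [Ioo_mem_nhdsGT (show t < t + min δ₁ δ₂ by
        linarith [lt_min hδ₁ hδ₂])] with t' ht'
      obtain ⟨a1, a2⟩ := h1 t' ⟨ht'.1, ht'.2.trans_le (by linarith [min_le_left δ₁ δ₂])⟩
      obtain ⟨b1, b2⟩ := h2 t' ⟨ht'.1, ht'.2.trans_le (by linarith [min_le_right δ₁ δ₂])⟩
      have := logd_generic hF hG t' (a1.trans a2.symm) (b1.trans b2.symm) e
      rwa [a1, b1] at this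
    have c1 : Tendsto (fun t' => ‖((nplus t F - nplus t G : ℤ) : K)‖₊ * mv t' h) (𝓝[>] t)
        (𝓝 (‖((nplus t F - nplus t G : ℤ) : K)‖₊ * mv t h)) :=
      (((continuous_mv h).tendsto t).const_mul _).mono_left nhdsWithin_le_nhds
    have c2 : Tendsto (fun t' => mv t' (der K h)) (𝓝[>] t) (𝓝 (mv t (der K h))) :=
      ((continuous_mv (der K h)).tendsto t).mono_left nhdsWithin_le_nhds
    exact le_of_tendsto_of_tendsto c1 c2 hev

theorem slope_left {h : Mer K} (hh : h ≠ 0) (t : ℝ) :
    ∃ n : ℤ, (∃ δ > 0, ∀ t' ∈ Set.Icc (t - δ) t, mv t' h = mv t h * ex (n * (t' - t))) ∧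
      ‖(n : K)‖₊ * mv t h ≤ mv t (der K h) := by
  obtain ⟨F, G, hG, e⟩ := exists_frac h
  have hF : F ≠ 0 := by
    rintro rfl
    rw [am_zero, mul_eq_zero] at e
    rcases e with e | e
    · exact hh e
    · exact hG (am_eq_zero.1 e)
  refine ⟨nminus t F - nminus t G, ?_, ?_⟩
  · obtain ⟨δ₁, hδ₁, h1⟩ := gn_left hF t
    obtain ⟨δ₂, hδ₂, h2⟩ := gn_left hG t
    refine ⟨min δ₁ δ₂, lt_min hδ₁ hδ₂, fun t' ht' => ?_⟩
    rw [mv_eq_div t' hG e, mv_eq_div t hG e,
      h1 t' ⟨le_trans (by linarith [min_le_left δ₁ δ₂]) ht'.1, ht'.2⟩,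
      h2 t' ⟨le_trans (by linarith [min_le_right δ₁ δ₂]) ht'.1, ht'.2⟩]
    have h3 : ex (((nminus t F - nminus t G : ℤ) : ℝ) * (t' - t)) * ex (nminus t G * (t' - t)) =
        ex (nminus t F * (t' - t)) := by
      rw [← ex_add]; congr 1; push_cast; ring
    rw [← h3]
    have h4 := ex_ne_zero (nminus t G * (t' - t))
    have h5 : gn t G ≠ 0 := fun h0 => hG ((gn_eq_zero t G).1 h0)
    rw [div_mul_eq_mul_div, div_eq_div_iff (mul_ne_zero h5 h4) h5]
    ring
  · obtain ⟨δ₁, hδ₁, h1⟩ := nplus_eq_nminus_left hF t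
    obtain ⟨δ₂, hδ₂, h2⟩ := nplus_eq_nminus_left hG t
    have hev : ∀ᶠ t' in 𝓝[<] t, ‖((nminus t F - nminus t G : ℤ) : K)‖₊ * mv t' h ≤
        mv t' (der K h) := by
      filter_upwards [Ioo_mem_nhdsLT (show t - min δ₁ δ₂ < t by
        linarith [lt_min hδ₁ hδ₂])] with t' ht'
      obtain ⟨a1, a2⟩ := h1 t' ⟨lt_of_le_of_lt (by linarith [min_le_left δ₁ δ₂]) ht'.1, ht'.2⟩
      obtain ⟨b1, b2⟩ := h2 t' ⟨lt_of_le_of_lt (by linarith [min_le_right δ₁ δ₂]) ht'.1, ht'.2⟩
      have := logd_generic hF hG t' (a1.trans a2.symm) (b1.trans b2.symm) e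
      rwa [a1, b1] at this
    have c1 : Tendsto (fun t' => ‖((nminus t F - nminus t G : ℤ) : K)‖₊ * mv t' h) (𝓝[<] t)
        (𝓝 (‖((nminus t F - nminus t G : ℤ) : K)‖₊ * mv t h)) :=
      (((continuous_mv h).tendsto t).const_mul _).mono_left nhdsWithin_le_nhds
    have c2 : Tendsto (fun t' => mv t' (der K h)) (𝓝[<] t) (𝓝 (mv t (der K h))) :=
      ((continuous_mv (der K h)).tendsto t).mono_left nhdsWithin_le_nhds
    exact le_of_tendsto_of_tendsto c1 c2 hev

end Pool.Agent.NG
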