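import Pool.Agent.NG.H1

/-!
# NG CURVED: the data of a curve in the zero locus of a closed form (module to prove)

Let `F` be a frame at `p` (`exists_frame`), `s` the uniformizer of `exists_unif`, `F.d j s ∉ ML`, `t := F.t l` for the other
index `l ≠ j`. `O := OL K A p`, `M := ML K A p`. `F.d i` maps `O` to `O` (`F.pres`, quotient rule: `b` is a unit of `O`).
* `ds`, `dt` is a basis of `Ω[L⁄K]` (`ds = F.d 0 s • dt₀ + F.d 1 s • dt₁`, coefficient at `dt_j` nonzero); `exists_dual_d` gives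
  `δ₁`, `δ₂` with `δ₁ s = 1` etc., commuting. They preserve `O`: `δ₁ = (F.d j s)⁻¹ • F.d j`,
  `δ₂ = F.d l - (F.d l s / F.d j s) • F.d j` (by `F.expandD`/uniqueness: both sides agree on `s`, `t`).
* `θ ∈ regA` gives `pair θ δ ∈ O` for `δ` preserving `O`, and the hypothesis `hz` gives `pair θ δ ∈ M` for all such `δ`
  (`b • F.d i` preserves `A`, so `pair θ (b • F.d i) ∈ p`; `δ` is an `O`-combination of `F.d 0`, `F.d 1`).
* `θ ≠ 0`, so not both of `pair θ δ₁`, `pair θ δ₂` vanish (`expandω`-formula of `exists_dual_d`). Let `k` be the smaller of their orders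
  (`unif_val`): `pair θ δ₁ = s ^ k * γ`, `pair θ δ₂ = s ^ k * β`, `γ, β ∈ O`, not both in `M`; `k ≥ 1` since both values are in `M`.
  Closedness and commutation: `δ₁ (s ^ k β) = δ₂ (s ^ k γ)`, i.e. `k s ^ (k-1) β + s ^ k δ₁ β = s ^ k δ₂ γ`, so `k β = s (δ₂ γ - δ₁ β) ∈ M`:
  `β = s w` with `w ∈ O`, and `γ` is a unit of `O`. The same identity gives `closed`.
* Choose `b ∉ p` (product of denominators; `A` and `p` are finitely generated) such that in `B = A[1/b] = {g | ∃ n, b ^ n g ∈ A}`: `s, t, γ, γ⁻¹, w ∈ B`, `δ_i` of the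
  generators of `A` are in `B` (so `δ_i` preserves `B`), every generator of `p` is in `s B` (`exists_unif`), so `p ⊆ s B`.
  `s_sub`: if `h = s u`, `u ∈ B`, then `b ^ n h ∈ s A ⊆ p` (`s ∈ A`, `s ∈ p`), so `h ∈ p`.
  `B` is generated by `A` and `b⁻¹`, so it is finitely generated.
-/

open scoped KaehlerDifferential

noncomputable section

namespace Pool.Agent.NG

variable {K : Type*} [Field K] [CharZero K] [IsAlgClosed K] {L : Type*} [Field L] [Algebra K L]
  {A : Subalgebra K L}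

/-- regular forms have regular values -/
theorem pair_mem_of_regA {θ : Ω[L⁄K]} (hθ : θ ∈ regA K A) {B : Subalgebra K L} (hAB : A ≤ B)
    {δ : Derivation K L L} (hδ : ∀ a ∈ A, δ a ∈ B) : pair K θ δ ∈ B := by
  unfold regA at hθ
  induction hθ using Submodule.span_induction with
  | mem x hx =>
    obtain ⟨a, ha, rfl⟩ := hx
    rw [pair_d]
    exact hδ a ha
  | zero =>
    have : pair K (0 : Ω[L⁄K]) δ = 0 := map_zero _
    rw [this]
    exact B.zero_mem
  | add x y _ _ hx hy =>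
    rw [pair_add]
    exact B.add_mem hx hy
  | smul a x _ hx =>
    have h1 : pair K (a • x) δ = (a : L) * pair K x δ := pair_smul (a : L) x δ
    rw [h1]
    exact B.mul_mem (hAB a.2) hx

section aux

variable {p : Ideal A} [hp : p.IsPrime]

omit [CharZero K] [IsAlgClosed K]

private theorem cd_one : (1 : A) ∉ p :=
  fun h => hp.ne_top ((Ideal.eq_top_iff_one p).2 h)

private theorem cd_le (p : Ideal A) [p.IsPrime] : A ≤ OL K A p :=
  fun a ha => ⟨⟨a, ha⟩, 1, cd_one, by simp⟩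

omit hp in
private theorem cd_ne {c : A} (hc : c ∉ p) : (c : L) ≠ 0 := by
  intro h0
  apply hc
  have : c = 0 := Subtype.ext h0
  rw [this]
  exact p.zero_mem

private theorem cd_inv {c : A} (hc : c ∉ p) : (c : L)⁻¹ ∈ OL K A p :=
  ⟨1, c, hc, by rw [inv_mul_cancel₀ (cd_ne hc)]; simp⟩

private theorem cd_div {g : L} {a c : A} (hc : c ∉ p) (h : g * c = a) : g ∈ OL K A p :=
  ⟨a, c, hc, h⟩

private theorem cd_M_le {g : L} (hg : g ∈ ML K A p) : g ∈ OL K A p := by
  obtain ⟨a, c, _, hc, h⟩ := hg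
  exact ⟨a, c, hc, h⟩

private theorem cd_M_add {g h : L} (hg : g ∈ ML K A p) (hh : h ∈ ML K A p) :
    g + h ∈ ML K A p := by
  obtain ⟨a, c, ha, hc, e⟩ := hg
  obtain ⟨a', c', ha', hc', e'⟩ := hh
  refine ⟨a * c' + a' * c, c * c', p.add_mem (p.mul_mem_right _ ha) (p.mul_mem_right _ ha'),
    fun hm => ?_, ?_⟩
  · rcases hp.mem_or_mem hm with h1 | h1
    · exact hc h1
    · exact hc' h1
  · push_cast
    rw [← e, ← e']
    ring

private theorem cd_M_mul {g h : L} (hg : g ∈ OL K A p) (hh : h ∈ ML K A p) :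
    g * h ∈ ML K A p := by
  obtain ⟨a, c, hc, e⟩ := hg
  obtain ⟨a', c', ha', hc', e'⟩ := hh
  refine ⟨a * a', c * c', p.mul_mem_left _ ha', fun hm => ?_, ?_⟩
  · rcases hp.mem_or_mem hm with h1 | h1
    · exact hc h1
    · exact hc' h1
  · push_cast
    rw [← e, ← e']
    ring

private theorem cd_A_M {a : A} : (a : L) ∈ ML K A p ↔ a ∈ p := by
  constructor
  · rintro ⟨a', c, ha', hc, e⟩
    have h1 : a * c = a' := Subtype.ext e
    have h2 : a * c ∈ p := h1 ▸ ha'
    exact (hp.mem_or_mem h2).resolve_right hc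
  · intro ha
    exact ⟨a, 1, ha, cd_one, by simp⟩

private theorem cd_one_M : (1 : L) ∉ ML K A p := by
  intro h
  have h1 : ((1 : A) : L) ∈ ML K A p := by simpa using h
  exact cd_one (cd_A_M.1 h1)

private theorem cd_zero_M : (0 : L) ∈ ML K A p := by
  have h1 : ((0 : A) : L) ∈ ML K A p := cd_A_M.2 p.zero_mem
  simpa using h1

private theorem cd_unit {g : L} (hg : g ∈ OL K A p) (hg' : g ∉ ML K A p) :
    g⁻¹ ∈ OL K A p := by
  obtain ⟨a, c, hc, e⟩ := hg
  have ha : a ∉ p := fun ha => hg' ⟨a, c, ha, hc, e⟩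
  have hg0 : g ≠ 0 := fun h0 => hg' (h0 ▸ cd_zero_M)
  refine ⟨c, a, ha, ?_⟩
  rw [← e, ← mul_assoc, inv_mul_cancel₀ hg0, one_mul]

private theorem cd_not_M {g : L} (hg : g⁻¹ ∈ OL K A p) (h0 : g ≠ 0) : g ∉ ML K A p := by
  intro h
  apply cd_one_M (K := K) (A := A) (p := p)
  have := cd_M_mul hg h
  rwa [inv_mul_cancel₀ h0] at this

private theorem cd_der {δ : Derivation K L L} (hδ : ∀ a ∈ A, δ a ∈ OL K A p) {g : L}
    (hg : g ∈ OL K A p) : δ g ∈ OL K A p := by
  obtain ⟨a, c, hc, e⟩ := hg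
  have h1 : δ g = (δ a - g * δ c) * (c : L)⁻¹ := by
    rw [← e, Derivation.leibniz, smul_eq_mul, smul_eq_mul]
    field_simp [cd_ne hc]
    ring
  rw [h1]
  exact (OL K A p).mul_mem ((OL K A p).sub_mem (hδ a a.2)
    ((OL K A p).mul_mem ⟨a, c, hc, e⟩ (hδ c c.2))) (cd_inv hc)

private theorem cd_frame (F : Frame K A p) (j : Fin 2) {g : L} (hg : g ∈ OL K A p) :
    F.d j g ∈ OL K A p := by
  refine cd_der (fun a ha => ?_) hg
  obtain ⟨c, hc⟩ := F.pres j ⟨a, ha⟩
  exact ⟨c, F.b, F.hb, by rw [← hc]; ring⟩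

/-- common denominators -/
private theorem cd_denom (Z : Finset L) (hZ : ∀ z ∈ Z, z ∈ OL K A p) :
    ∃ b : A, b ∉ p ∧ ∀ z ∈ Z, (b : L) * z ∈ A := by
  classical
  induction Z using Finset.induction_on with
  | empty => exact ⟨1, cd_one, fun z hz => absurd hz (Finset.notMem_empty z)⟩
  | insert z Z _ ih =>
    obtain ⟨b, hb, h⟩ := ih fun z hz => hZ z (Finset.mem_insert_of_mem hz)
    obtain ⟨a, c, hc, e⟩ := hZ z (Finset.mem_insert_self z Z)
    refine ⟨b * c, fun hm => ?_, fun y hy => ?_⟩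
    · rcases hp.mem_or_mem hm with h1 | h1
      · exact hb h1
      · exact hc h1
    · rcases Finset.mem_insert.1 hy with rfl | hy
      · have h1 : ((b * c : A) : L) * y = (b * a : A) := by
          push_cast
          rw [← e]
          ring
        rw [h1]
        exact (b * a : A).2
      · have h1 : ((b * c : A) : L) * y = c * (b * y) := by
          push_cast
          ring
        rw [h1]
        exact A.mul_mem c.2 (h y hy)

/-- the localisation `A[1/b]` -/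
private def cdB (A : Subalgebra K L) (b : A) : Subalgebra K L where
  carrier := {g | ∃ n : ℕ, (b : L) ^ n * g ∈ A}
  mul_mem' := by
    rintro g h ⟨n, hn⟩ ⟨m, hm⟩
    refine ⟨n + m, ?_⟩
    have h1 : (b : L) ^ (n + m) * (g * h) = (b ^ n * g) * (b ^ m * h) := by
      rw [pow_add]
      ring
    rw [h1]
    exact A.mul_mem hn hm
  add_mem' := by
    rintro g h ⟨n, hn⟩ ⟨m, hm⟩
    refine ⟨n + m, ?_⟩
    have h1 : (b : L) ^ (n + m) * (g + h) = b ^ m * (b ^ n * g) + b ^ n * (b ^ m * h) := by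
      rw [pow_add]
      ring
    rw [h1]
    exact A.add_mem (A.mul_mem (A.pow_mem b.2 m) hn) (A.mul_mem (A.pow_mem b.2 n) hm)
  algebraMap_mem' := fun k => ⟨0, by
    rw [pow_zero, one_mul]
    exact A.algebraMap_mem k⟩

omit hp in
private theorem cdB_le (b : A) : A ≤ cdB A b := fun a ha => ⟨0, by rwa [pow_zero, one_mul]⟩

omit hp in
private theorem cdB_inv {b : A} (hb : (b : L) ≠ 0) : (b : L)⁻¹ ∈ cdB A b :=
  ⟨1, by rw [pow_one, mul_inv_cancel₀ hb]; exact A.one_mem⟩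

omit hp in
private theorem cdB_of {b : A} {g : L} (h : (b : L) * g ∈ A) : g ∈ cdB A b :=
  ⟨1, by rwa [pow_one]⟩

omit hp in
private theorem cdB_fg (hA : A.FG) {b : A} (hb : (b : L) ≠ 0) : (cdB A b).FG := by
  classical
  obtain ⟨s, hs⟩ := hA
  refine ⟨insert (b : L)⁻¹ s, le_antisymm ?_ ?_⟩
  · rw [Algebra.adjoin_le_iff]
    intro x hx
    rw [Finset.coe_insert] at hx
    rcases hx with rfl | hx
    · exact cdB_inv hb
    · exact cdB_le b (hs ▸ Algebra.subset_adjoin hx)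
  · rintro g ⟨n, hn⟩
    have h1 : g = ((b : L)⁻¹) ^ n * (b ^ n * g) := by
      rw [← mul_assoc, ← mul_pow, inv_mul_cancel₀ hb, one_pow, one_mul]
    rw [h1]
    refine Subalgebra.mul_mem _ (Subalgebra.pow_mem _ (Algebra.subset_adjoin ?_) _) ?_
    · simp
    · refine Algebra.adjoin_mono ?_ (hs.ge hn)
      rw [Finset.coe_insert]
      exact Set.subset_insert _ _

omit hp in
private theorem cdB_der {s : Finset L} (hs : Algebra.adjoin K (s : Set L) = A) {b : A}
    (hb : (b : L) ≠ 0) {δ : Derivation K L L} (hδ : ∀ a ∈ s, (b : L) * δ a ∈ A) {g : L}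
    (hg : g ∈ cdB A b) : δ g ∈ cdB A b := by
  have hA : ∀ x ∈ Algebra.adjoin K (s : Set L), x ∈ A ∧ δ x ∈ cdB A b := by
    intro x hx
    induction hx using Algebra.adjoin_induction with
    | mem x hx => exact ⟨hs ▸ Algebra.subset_adjoin hx, cdB_of (hδ x hx)⟩
    | algebraMap r =>
      refine ⟨A.algebraMap_mem r, ?_⟩
      rw [Derivation.map_algebraMap]
      exact Subalgebra.zero_mem _
    | add x y _ _ hx hy =>
      refine ⟨A.add_mem hx.1 hy.1, ?_⟩
      rw [map_add]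
      exact Subalgebra.add_mem _ hx.2 hy.2
    | mul x y _ _ hx hy =>
      refine ⟨A.mul_mem hx.1 hy.1, ?_⟩
      rw [Derivation.leibniz, smul_eq_mul, smul_eq_mul]
      exact Subalgebra.add_mem _ (Subalgebra.mul_mem _ (cdB_le b hx.1) hy.2)
        (Subalgebra.mul_mem _ (cdB_le b hy.1) hx.2)
  obtain ⟨n, hn⟩ := hg
  have hA' : ∀ x ∈ A, δ x ∈ cdB A b := fun x hx => (hA x (by rw [hs]; exact hx)).2
  have h1 : δ g = ((b : L)⁻¹) ^ n * (δ (b ^ n * g) - g * δ ((b : L) ^ n)) := by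
    rw [Derivation.leibniz, smul_eq_mul, smul_eq_mul, add_sub_cancel_right, ← mul_assoc,
      ← mul_pow, inv_mul_cancel₀ hb, one_pow, one_mul]
  rw [h1]
  exact Subalgebra.mul_mem _ (Subalgebra.pow_mem _ (cdB_inv hb) _)
    (Subalgebra.sub_mem _ (hA' _ hn) (Subalgebra.mul_mem _ ⟨n, hn⟩
      (hA' _ (A.pow_mem b.2 n))))

end aux

private theorem cd_val (hA : Surf K A) {p : Ideal A} [p.IsPrime] (hp : p ≠ ⊥) {s : A}
    (hs : s ∈ p) (h : ∀ h ∈ p, ∃ c u : A, c ∉ p ∧ c * h = s * u) {g : L} (hg : g ≠ 0)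
    (hgM : g ∈ ML K A p) :
    ∃ (n : ℕ) (ε : L), 1 ≤ n ∧ ε ∈ OL K A p ∧ ε ∉ ML K A p ∧ g = (s : L) ^ n * ε := by
  obtain ⟨n, a, c, ha, hc, e⟩ := unif_val hA hp hs h hg
  have hc0 := cd_ne hc
  have ha0 := cd_ne ha
  have hs0 : (s : L) ≠ 0 := by
    intro h0
    obtain ⟨x, hx, hx0⟩ := Submodule.exists_mem_ne_zero_of_ne_bot hp
    obtain ⟨c', u, hc', e'⟩ := h x hx
    have h1 : s = 0 := Subtype.ext h0
    rw [h1, zero_mul, mul_eq_zero] at e'
    rcases e' with e' | e'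
    · exact hc' (e' ▸ p.zero_mem)
    · exact hx0 e'
  have hε : (a : L) * (c : L)⁻¹ ∈ OL K A p := Subalgebra.mul_mem _ (cd_le p a.2) (cd_inv hc)
  have hε' : ((a : L) * (c : L)⁻¹)⁻¹ ∈ OL K A p := by
    rw [mul_inv, inv_inv]
    exact Subalgebra.mul_mem _ (cd_inv ha) (cd_le p c.2)
  have hge : g = (s : L) ^ n * (a * (c : L)⁻¹) := by
    rw [← mul_assoc, ← e]
    field_simp
  have hn : 1 ≤ n := by
    by_contra hn
    push Not at hn
    obtain ⟨m, hm⟩ := Int.eq_ofNat_of_zero_le (show 0 ≤ -n by omega)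
    refine cd_not_M (g := g) ?_ hg hgM
    have h1 : g⁻¹ = (s : L) ^ m * ((a : L) * (c : L)⁻¹)⁻¹ := by
      rw [hge, mul_inv, ← zpow_neg, hm, zpow_natCast]
    rw [h1]
    exact Subalgebra.mul_mem _ (Subalgebra.pow_mem _ (cd_le p s.2) _) hε'
  obtain ⟨m, rfl⟩ := Int.eq_ofNat_of_zero_le (show 0 ≤ n by omega)
  refine ⟨m, a * (c : L)⁻¹, by omega, hε, cd_not_M hε' (mul_ne_zero ha0 (inv_ne_zero hc0)), ?_⟩
  rw [hge, zpow_natCast]

private theorem cd_val2 (hA : Surf K A) {p : Ideal A} [p.IsPrime] (hp : p ≠ ⊥) {s : A}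
    (hs : s ∈ p) (h : ∀ h ∈ p, ∃ c u : A, c ∉ p ∧ c * h = s * u) {g₁ g₂ : L}
    (hg : g₁ ≠ 0 ∨ g₂ ≠ 0) (h₁ : g₁ ∈ ML K A p) (h₂ : g₂ ∈ ML K A p) :
    ∃ (k : ℕ) (γ β : L), 1 ≤ k ∧ γ ∈ OL K A p ∧ β ∈ OL K A p ∧ g₁ = (s : L) ^ k * γ ∧
      g₂ = (s : L) ^ k * β ∧ (γ ∉ ML K A p ∨ β ∉ ML K A p) := by
  have hsO : ∀ n, (s : L) ^ n ∈ OL K A p := fun n => Subalgebra.pow_mem _ (cd_le p s.2) _
  by_cases h10 : g₁ = 0
  · have h20 : g₂ ≠ 0 := hg.resolve_left (fun h => h h10)
    obtain ⟨n, ε, hn, hε, hε', e⟩ := cd_val hA hp hs h h20 h₂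
    exact ⟨n, 0, ε, hn, Subalgebra.zero_mem _, hε, by rw [h10, mul_zero], e, Or.inr hε'⟩
  by_cases h20 : g₂ = 0
  · obtain ⟨n, ε, hn, hε, hε', e⟩ := cd_val hA hp hs h h10 h₁
    exact ⟨n, ε, 0, hn, hε, Subalgebra.zero_mem _, e, by rw [h20, mul_zero], Or.inl hε'⟩
  obtain ⟨n, ε, hn, hε, hε', e⟩ := cd_val hA hp hs h h10 h₁
  obtain ⟨n', ε₂, hn', hε₂, hε₂', e₂⟩ := cd_val hA hp hs h h20 h₂
  rcases le_total n n' with hle | hle
  · obtain ⟨r, rfl⟩ := Nat.exists_eq_add_of_le hle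
    refine ⟨n, ε, (s : L) ^ r * ε₂, hn, hε, Subalgebra.mul_mem _ (hsO r) hε₂, e, ?_,
      Or.inl hε'⟩
    rw [e₂, pow_add, mul_assoc]
  · obtain ⟨r, rfl⟩ := Nat.exists_eq_add_of_le hle
    refine ⟨n', (s : L) ^ r * ε, ε₂, hn', Subalgebra.mul_mem _ (hsO r) hε, hε₂, ?_, e₂,
      Or.inr hε₂'⟩
    rw [e, pow_add, mul_assoc]

theorem exists_curve (hA : Surf K A) {p : Ideal A} [p.IsPrime] (hp : p ≠ ⊥)
    (hn : ¬ IsPoint K A p) {θ : Ω[L⁄K]} (hθ : θ ≠ 0) (hreg : θ ∈ regA K A)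
    (hcl : IsClosedForm K θ)
    (hz : ∀ δ : Derivation K L L, (∀ a ∈ A, δ a ∈ A) → ∀ c : A, (c : L) = pair K θ δ → c ∈ p) :
    Nonempty (Curve K A p θ) := by
  classical
  obtain ⟨F⟩ := exists_frame hA p
  obtain ⟨s, hs, hsp, j, hjO, hjM⟩ := exists_unif hA hp hn F
  obtain ⟨l, hl⟩ : ∃ l : Fin 2, l ≠ j := exists_ne j
  set t : A := F.t l with ht
  have hjj : F.d j (F.t l : L) = 0 := by rw [F.dual, if_neg (Ne.symm hl)]
  have hll : F.d l (F.t l : L) = 1 := by rw [F.dual, if_pos rfl]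
  have hj0 : F.d j (s : L) ≠ 0 := fun h0 => hjM (h0 ▸ cd_zero_M)
  have hfin : Module.finrank L (Ω[L⁄K]) = 2 :=
    finrank_kaehler 2 two_ne_zero (by rw [hA.dim]; rfl)
  have hli : LinearIndependent L ![KaehlerDifferential.D K L (s : L),
      KaehlerDifferential.D K L (t : L)] := by
    rw [LinearIndependent.pair_iff]
    intro α β h
    have h1 := congrArg (fun ω => pair K ω (F.d j)) h
    have h2 := congrArg (fun ω => pair K ω (F.d l)) h
    have h0 : ∀ δ : Derivation K L L, pair K (0 : Ω[L⁄K]) δ = 0 := fun δ => map_zero _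
    simp only [pair_add, pair_smul, pair_d, h0, ht, hjj, hll, mul_zero, add_zero, mul_one,
      mul_eq_zero, hj0, or_false] at h1 h2
    rw [h1, zero_mul, zero_add] at h2
    exact ⟨h1, h2⟩
  obtain ⟨δ₁, δ₂, h1s, h2s, h1t, h2t, hexp, hexpD, hexpω, hcomm⟩ := exists_dual_d hfin hli
  -- the derivations preserve the local ring
  have hδ₁ : ∀ g, δ₁ g = (F.d j (s : L))⁻¹ * F.d j g := by
    intro g
    have h1 := hexpD (F.d j) g
    rw [ht, hjj, zero_mul, add_zero] at h1
    rw [h1, ← mul_assoc, inv_mul_cancel₀ hj0, one_mul]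
  have hδ₂ : ∀ g, δ₂ g = F.d l g - F.d l (s : L) * δ₁ g := by
    intro g
    have h1 := hexpD (F.d l) g
    rw [ht, hll, one_mul] at h1
    rw [h1]
    ring
  have hjinv : (F.d j (s : L))⁻¹ ∈ OL K A p := cd_unit hjO hjM
  have hO₁ : ∀ g ∈ OL K A p, δ₁ g ∈ OL K A p := by
    intro g hg
    rw [hδ₁]
    exact Subalgebra.mul_mem _ hjinv (cd_frame F j hg)
  have hO₂ : ∀ g ∈ OL K A p, δ₂ g ∈ OL K A p := by
    intro g hg
    rw [hδ₂]
    exact Subalgebra.sub_mem _ (cd_frame F l hg)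
      (Subalgebra.mul_mem _ (cd_frame F l (cd_le p s.2)) (hO₁ g hg))
  -- the values of the form
  have hFM : ∀ i, pair K θ (F.d i) ∈ ML K A p := by
    intro i
    have h1 : ∀ a ∈ A, ((F.b : L) • F.d i) a ∈ A := by
      intro a ha
      obtain ⟨c, hc⟩ := F.pres i ⟨a, ha⟩
      have h2 : ((F.b : L) • F.d i) a = (F.b : L) * F.d i a := rfl
      rw [h2, hc]
      exact c.2
    have h2 : pair K θ ((F.b : L) • F.d i) ∈ A := pair_mem_of_regA hreg le_rfl h1
    have h3 := hz _ h1 ⟨_, h2⟩ rfl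
    refine ⟨⟨_, h2⟩, F.b, h3, F.hb, ?_⟩
    have h4 : pair K θ (F.d i) * (F.b : L) = pair K θ ((F.b : L) • F.d i) := by
      rw [pair_smul_right]
      ring
    exact h4
  have hG₁ : pair K θ δ₁ ∈ ML K A p := by
    have h1 := hexpω θ (F.d j)
    rw [ht, hjj, zero_mul, add_zero] at h1
    have h2 : pair K θ δ₁ = (F.d j (s : L))⁻¹ * pair K θ (F.d j) := by
      rw [h1, ← mul_assoc, inv_mul_cancel₀ hj0, one_mul]
    rw [h2]
    exact cd_M_mul hjinv (hFM j)
  have hG₂ : pair K θ δ₂ ∈ ML K A p := by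
    have h1 := hexpω θ (F.d l)
    rw [ht, hll, one_mul] at h1
    have h2 : pair K θ δ₂ = pair K θ (F.d l) + (-F.d l (s : L)) * pair K θ δ₁ := by
      rw [h1]
      ring
    rw [h2]
    exact cd_M_add (hFM l) (cd_M_mul (Subalgebra.neg_mem _ (cd_frame F l (cd_le p s.2))) hG₁)
  have hne : pair K θ δ₁ ≠ 0 ∨ pair K θ δ₂ ≠ 0 := by
    by_contra hc
    push Not at hc
    apply hθ
    rw [hexp θ, hc.1, hc.2, zero_smul, zero_smul, add_zero]
  obtain ⟨k, γ, β, hk, hγ, hβ, e₁, e₂, hor⟩ := cd_val2 hA hp hs hsp hne hG₁ hG₂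
  have hs0 : (s : L) ≠ 0 := by
    intro h0
    rw [h0, map_zero] at h1s
    exact zero_ne_one h1s
  have hsM : (s : L) ∈ ML K A p := cd_A_M.2 hs
  have hkL : (k : L) ≠ 0 := by
    have : CharZero L := charZero_of_injective_algebraMap (algebraMap K L).injective
    exact_mod_cast (by omega : k ≠ 0)
  have hclosed : δ₁ ((s : L) ^ k * β) = δ₂ ((s : L) ^ k * γ) := by
    have h1 := hcl δ₁ δ₂
    have h2 : ⁅δ₁, δ₂⁆ = 0 := by
      ext g
      rw [Derivation.commutator_apply, hcomm g, sub_self]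
      rfl
    have h3 : pair K θ (0 : Derivation K L L) = 0 := by
      have := pair_smul_right (K := K) (0 : L) θ 0
      rwa [zero_smul, zero_mul] at this
    rw [h2, h3, sub_eq_zero, e₁, e₂] at h1
    exact h1
  have hkβ : (k : L) * β + s * δ₁ β = s * δ₂ γ := by
    rw [Derivation.leibniz, Derivation.leibniz, Derivation.leibniz_pow, Derivation.leibniz_pow,
      h1s, h2s] at hclosed
    simp only [smul_eq_mul, nsmul_eq_mul, mul_one, mul_zero, add_zero, smul_zero] at hclosed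
    obtain ⟨m, rfl⟩ : ∃ m, k = m + 1 := ⟨k - 1, by omega⟩
    have hsm : (s : L) ^ m ≠ 0 := pow_ne_zero _ hs0
    rw [Nat.add_sub_cancel, pow_succ] at hclosed
    have : (s : L) ^ m * (((m + 1 : ℕ) : L) * β + s * δ₁ β) = (s : L) ^ m * (s * δ₂ γ) := by
      linear_combination hclosed
    exact mul_left_cancel₀ hsm this
  set w : L := (k : L)⁻¹ * (δ₂ γ - δ₁ β) with hw
  have hβw : β = s * w := by
    rw [hw]
    field_simp
    linear_combination hkβ
  have hkinv : (k : L)⁻¹ ∈ OL K A p := by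
    have h1 : (k : L)⁻¹ = algebraMap K L ((k : K)⁻¹) := by
      rw [map_inv₀, map_natCast]
    rw [h1]
    exact Subalgebra.algebraMap_mem _ _
  have hwO : w ∈ OL K A p := Subalgebra.mul_mem _ hkinv
    (Subalgebra.sub_mem _ (hO₂ _ hγ) (hO₁ _ hβ))
  have hβM : β ∈ ML K A p := by
    rw [hβw, mul_comm]
    exact cd_M_mul hwO hsM
  have hγM : γ ∉ ML K A p := hor.resolve_right fun h => h hβM
  have hγ0 : γ ≠ 0 := fun h0 => hγM (h0 ▸ cd_zero_M)
  have hγ' : γ⁻¹ ∈ OL K A p := cd_unit hγ hγM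
  have hcl2 : δ₂ γ = ((k : L) + 1) * w + s * δ₁ w := by
    have h1 : δ₁ β = w + s * δ₁ w := by
      rw [hβw, Derivation.leibniz, h1s, smul_eq_mul, smul_eq_mul]
      ring
    rw [h1] at hkβ
    have h2 : (s : L) * δ₂ γ = s * (((k : L) + 1) * w + s * δ₁ w) := by
      rw [← hkβ]
      nth_rewrite 1 [hβw]
      ring
    exact mul_left_cancel₀ hs0 h2
  -- the localisation
  obtain ⟨S, hS⟩ := hA.fg
  have hSA : ∀ a ∈ S, a ∈ A := fun a ha => hS ▸ Algebra.subset_adjoin ha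
  have hnoeth : IsNoetherianRing A := by
    have : Algebra.FiniteType K A := (Subalgebra.fg_iff_finiteType A).1 hA.fg
    exact Algebra.FiniteType.isNoetherianRing K A
  obtain ⟨T, hT⟩ := (isNoetherianRing_iff_ideal_fg A).1 hnoeth p
  have hTp : ∀ h ∈ T, h ∈ p := fun h hh => hT ▸ Ideal.subset_span hh
  obtain ⟨b, hb, hbZ⟩ := cd_denom (K := K) (p := p)
    ({γ, γ⁻¹, w} ∪ (S.image δ₁ ∪ S.image δ₂) ∪ T.image (fun h : A => (h : L) * (s : L)⁻¹)) (by
      intro z hz
      simp only [Finset.mem_union, Finset.mem_insert, Finset.mem_singleton, Finset.mem_image]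
        at hz
      rcases hz with (((rfl | rfl | rfl) | (⟨a, ha, rfl⟩ | ⟨a, ha, rfl⟩)) | ⟨h, hh, rfl⟩)
      · exact hγ
      · exact hγ'
      · exact hwO
      · exact hO₁ _ (cd_le p (hSA a ha))
      · exact hO₂ _ (cd_le p (hSA a ha))
      · obtain ⟨c, u, hc, e⟩ := hsp h (hTp h hh)
        refine ⟨u, c, hc, ?_⟩
        have e' : (c : L) * h = s * u := congrArg (fun z : A => (z : L)) e
        field_simp
        linear_combination e')
  have hb0 : (b : L) ≠ 0 := cd_ne hb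
  have hsub : ∀ h ∈ p, (h : L) * (s : L)⁻¹ ∈ cdB A b := by
    intro h hh
    rw [← hT] at hh
    induction hh using Submodule.span_induction with
    | mem x hx =>
      refine cdB_of (hbZ _ ?_)
      exact Finset.mem_union_right _ (Finset.mem_image_of_mem _ hx)
    | zero =>
      have : ((0 : A) : L) * (s : L)⁻¹ = 0 := by simp
      rw [this]
      exact Subalgebra.zero_mem _
    | add x y _ _ hx hy =>
      have : ((x + y : A) : L) * (s : L)⁻¹ = x * (s : L)⁻¹ + y * (s : L)⁻¹ := by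
        push_cast
        ring
      rw [this]
      exact Subalgebra.add_mem _ hx hy
    | smul a x _ hx =>
      have : ((a • x : A) : L) * (s : L)⁻¹ = a * (x * (s : L)⁻¹) := by
        rw [smul_eq_mul]
        push_cast
        ring
      rw [this]
      exact Subalgebra.mul_mem _ (cdB_le b a.2) hx
  refine ⟨{ b := b
            hb := hb
            B := cdB A b
            fg := cdB_fg hA.fg hb0
            memB := fun g => Iff.rfl
            s := s
            t := t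
            γ := γ
            γ' := γ⁻¹
            w := w
            s_mem := cdB_le b s.2
            t_mem := cdB_le b t.2
            γ_mem := cdB_of (hbZ _ (by simp))
            γ'_mem := cdB_of (hbZ _ (by simp))
            w_mem := cdB_of (hbZ _ (by simp))
            s_ne := hs0
            p_sub := fun h hh => ⟨_, hsub h hh, by field_simp⟩
            s_sub := ?_
            δ₁ := δ₁
            δ₂ := δ₂
            pres₁ := fun g hg => cdB_der hS hb0 (fun a ha => hbZ _ (by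
              simp only [Finset.mem_union, Finset.mem_image]
              exact Or.inl (Or.inr (Or.inl ⟨a, ha, rfl⟩)))) hg
            pres₂ := fun g hg => cdB_der hS hb0 (fun a ha => hbZ _ (by
              simp only [Finset.mem_union, Finset.mem_image]
              exact Or.inl (Or.inr (Or.inr ⟨a, ha, rfl⟩)))) hg
            δ₁s := h1s
            δ₂s := h2s
            δ₁t := h1t
            δ₂t := h2t
            comm := hcomm
            expand := hexpD
            expandω := hexpω θ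
            k := k
            hk := hk
            γγ' := mul_inv_cancel₀ hγ0
            θ₁ := e₁
            θ₂ := by rw [e₂, hβw, pow_succ]; ring
            closed := hcl2 }⟩
  rintro h ⟨u, ⟨n, hu⟩, e⟩
  have h1 : b ^ n * h = s * ⟨_, hu⟩ := by
    apply Subtype.ext
    push_cast
    rw [e]
    ring
  have h2 : b ^ n * h ∈ p := by
    rw [h1]
    exact p.mul_mem_right _ hs
  rcases Ideal.IsPrime.mem_or_mem ‹p.IsPrime› h2 with h3 | h3
  · exact absurd (Ideal.IsPrime.mem_of_pow_mem ‹p.IsPrime› n h3) hb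
  · exact h3

end Pool.Agent.NG
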