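import Pool.Agent.NG.Pb
import Pool.Agent.NG.CurveD

/-!
# NG ULTRA: valuations attached to ultrafilters of radii (module to prove)

Elementary properties of `Bd` and `Tz` along an ultrafilter `u`; `ι` is injective, so `mv t (ι g) ≠ 0` for `g ≠ 0`.
`no_point`: `θ = ∑ a_k d b_k` with `a_k, b_k ∈ A`, so `1 = pair θ D = ∑ a_k D b_k`; for every `k` there is `c ∈ K` with `b_k - c ∈ p`, so
`ι (D b_k) = der K (ι (b_k - c))` has norm `≤ mv t (ι (b_k - c)) → 0`, and the `a_k` are bounded: `Tz 1`, a contradiction. (Best by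
`Submodule.span_induction` over the predicate: for `ω ∈ regA K A`: `Tz ι u (pair ω D)`.)
`exists_chart`: the sets `Tmax f i` cover `ℝ`; finitely many, so one is in the ultrafilter (`Ultrafilter.finite_biUnion_mem_iff` or similar).
`exists_cen`: `p := {a : A | Tz ι u a}`, prime by `Tz.mul_or`.
`val_eq`: `A_p = OL K A p` is a valuation ring (`OL_or`): if `g` is bounded and not in `OL`, then `g⁻¹ ∈ ML`, so `g⁻¹` tends to zero and `g` is unbounded.
`bot`: if the centre is zero every element of `L` is bounded.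
-/

set_option linter.unusedSectionVars false

open Filter Topology
open scoped NNReal KaehlerDifferential

noncomputable section

namespace Pool.Agent.NG

variable {K : Type*} [NontriviallyNormedField K] [IsUltrametricDist K] [CompleteSpace K]
  [IsAlgClosed K] [CharZero K] {L : Type*} [Field L] [Algebra K L] {N : ℕ}

variable {ι : L →ₐ[K] Mer K} {u : Ultrafilter ℝ}

private lemma ul_ne {g : L} (hg : g ≠ 0) (t : ℝ) : mv t (ι g) ≠ 0 := by
  refine mv_ne_zero t fun h => hg ?_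
  exact (map_eq_zero ι).1 h

theorem Bd.add {g h : L} (hg : Bd ι u g) (hh : Bd ι u h) : Bd ι u (g + h) := by
  obtain ⟨C, hC⟩ := hg
  obtain ⟨D, hD⟩ := hh
  refine ⟨max C D, ?_⟩
  filter_upwards [hC, hD] with t h1 h2
  rw [map_add]
  exact (mv_add t _ _).trans (max_le_max h1 h2)

theorem Bd.mul {g h : L} (hg : Bd ι u g) (hh : Bd ι u h) : Bd ι u (g * h) := by
  obtain ⟨C, hC⟩ := hg
  obtain ⟨D, hD⟩ := hh
  refine ⟨C * D, ?_⟩
  filter_upwards [hC, hD] with t h1 h2
  rw [map_mul, mv_mul]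
  exact mul_le_mul' h1 h2

theorem Bd.const (c : K) : Bd ι u (algebraMap K L c) := by
  refine ⟨‖c‖₊, Eventually.of_forall fun t => ?_⟩
  rw [AlgHom.commutes, mv_const]

theorem Tz.bd {g : L} (hg : Tz ι u g) : Bd ι u g := by
  refine ⟨1, ?_⟩
  filter_upwards [hg 1 one_pos] with t h
  exact h.le

theorem Tz.add {g h : L} (hg : Tz ι u g) (hh : Tz ι u h) : Tz ι u (g + h) := by
  intro ε hε
  filter_upwards [hg ε hε, hh ε hε] with t h1 h2
  rw [map_add]
  exact (mv_add t _ _).trans_lt (max_lt h1 h2)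

theorem Tz.mul_bd {g h : L} (hg : Tz ι u g) (hh : Bd ι u h) : Tz ι u (g * h) := by
  obtain ⟨C, hC⟩ := hh
  intro ε hε
  have hC1 : 0 < C + 1 := lt_of_lt_of_le one_pos (le_add_of_nonneg_left zero_le)
  filter_upwards [hg (ε / (C + 1)) (div_pos hε hC1), hC] with t h1 h2
  rw [map_mul, mv_mul]
  calc mv t (ι g) * mv t (ι h) ≤ mv t (ι g) * (C + 1) :=
        mul_le_mul' le_rfl (h2.trans (le_add_of_nonneg_right zero_le))
    _ < ε / (C + 1) * (C + 1) := by
        exact mul_lt_mul_of_pos_right h1 hC1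
    _ = ε := div_mul_cancel₀ ε hC1.ne'

theorem not_tz_one : ¬ Tz ι u (1 : L) := by
  intro h
  obtain ⟨t, ht⟩ := (h 1 one_pos).exists
  rw [map_one, mv_one] at ht
  exact lt_irrefl _ ht

private lemma ul_tz_zero : Tz ι u (0 : L) := by
  intro ε hε
  refine Eventually.of_forall fun t => ?_
  rw [map_zero, mv_zero]
  exact hε

theorem tz_inv_of_not_bd {g : L} (hg : ¬ Bd ι u g) : Tz ι u g⁻¹ := by
  intro ε hε
  have h1 : ¬ ∀ᶠ t in (u : Filter ℝ), mv t (ι g) ≤ ε⁻¹ := fun h => hg ⟨ε⁻¹, h⟩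
  rw [← Ultrafilter.eventually_not] at h1
  filter_upwards [h1] with t h2
  rw [not_le] at h2
  rw [map_inv₀, mv_inv]
  exact inv_lt_of_inv_lt₀ hε h2

theorem not_bd_of_tz_inv {g : L} (hg0 : g ≠ 0) (hg : Tz ι u g⁻¹) : ¬ Bd ι u g := by
  rintro ⟨C, hC⟩
  have hC1 : 0 < C + 1 := lt_of_lt_of_le one_pos (le_add_of_nonneg_left zero_le)
  obtain ⟨t, h1, h2⟩ := ((hg (C + 1)⁻¹ (inv_pos.2 hC1)).and hC).exists
  rw [map_inv₀, mv_inv] at h1
  have h3 : C + 1 < mv t (ι g) := by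
    have hpos : 0 < mv t (ι g) := pos_iff_ne_zero.2 (ul_ne hg0 t)
    exact (inv_lt_inv₀ hpos hC1).1 h1
  exact absurd (h3.trans_le h2) (not_lt.2 (le_add_of_nonneg_right zero_le))

theorem bd_inv_of_not_tz {g : L} (hg : ¬ Tz ι u g) : Bd ι u g⁻¹ := by
  unfold Tz at hg
  push Not at hg
  obtain ⟨ε, hε, h1⟩ := hg
  refine ⟨ε⁻¹, ?_⟩
  filter_upwards [h1] with t h3
  rw [map_inv₀, mv_inv]
  exact inv_anti₀ hε h3

theorem Tz.mul_or {g h : L} (hg : Bd ι u g) (hh : Bd ι u h) (h0 : Tz ι u (g * h)) :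
    Tz ι u g ∨ Tz ι u h := by
  by_cases h1 : Tz ι u g
  · exact Or.inl h1
  · right
    have hg0 : g ≠ 0 := by
      rintro rfl
      exact h1 ul_tz_zero
    have h2 := h0.mul_bd (bd_inv_of_not_tz h1)
    rwa [mul_comm g h, mul_assoc, mul_inv_cancel₀ hg0, mul_one] at h2

theorem bd_of_bdOn {A : Subalgebra K L} {T : Set ℝ} (hA : BdOn ι T A) (hT : T ∈ u) :
    ∀ g ∈ A, Bd ι u g := by
  intro g hg
  obtain ⟨C, hC⟩ := hA g hg
  exact ⟨C, Filter.mem_of_superset hT hC⟩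

/-- an ultrafilter is not centred at a point -/
theorem no_point {A : Subalgebra K L} {p : Ideal A} (hc : Cen ι u A p) {D : Derivation K L L}
    (hD : ∀ a, ι (D a) = der K (ι a)) {θ : Ω[L⁄K]} (hθ : θ ∈ regA K A) (h1 : pair K θ D = 1) :
    ¬ IsPoint K A p := by
  intro hp
  have key : ∀ ω ∈ regA K A, Tz ι u (pair K ω D) := by
    intro ω hω
    induction hω using Submodule.span_induction with
    | mem ω hω =>
      obtain ⟨a, ha, rfl⟩ := hω
      rw [pair_d]
      obtain ⟨c, hc'⟩ := hp ⟨a, ha⟩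
      have h2 := (hc.2 _).2 hc'
      have h3 : D a = D (((⟨a, ha⟩ : A) - algebraMap K A c : A) : L) := by
        have h4 : (((⟨a, ha⟩ : A) - algebraMap K A c : A) : L) = a - algebraMap K L c := rfl
        rw [h4, map_sub, Derivation.map_algebraMap, sub_zero]
      rw [h3]
      intro ε hε
      filter_upwards [h2 ε hε] with t ht
      rw [hD]
      exact (mv_der t _).trans_lt ht
    | zero =>
      have h2 : pair K (0 : Ω[L⁄K]) D = 0 := map_zero _
      rw [h2]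
      exact ul_tz_zero
    | add x y _ _ hx hy =>
      rw [pair_add]
      exact hx.add hy
    | smul a x _ hx =>
      have h2 : pair K (a • x) D = (a : L) * pair K x D := pair_smul (a : L) x D
      rw [h2, mul_comm]
      exact hx.mul_bd (hc.1 a a.2)
  have h2 := key θ hθ
  rw [h1] at h2
  exact not_tz_one h2

theorem exists_chart {x : Fin (N + 1) → L} {f : Fin (N + 1) → An K} (E : Emb x f)
    (u : Ultrafilter ℝ) : ∃ i, x i ≠ 0 ∧ Tmax f i ∈ u := by
  have h1 : (⋃ i ∈ (Set.univ : Set (Fin (N + 1))), Tmax f i) ∈ u := by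
    have h2 : (⋃ i ∈ (Set.univ : Set (Fin (N + 1))), Tmax f i) = Set.univ := by
      refine Set.eq_univ_of_forall fun t => ?_
      obtain ⟨i, hi⟩ := exists_mem_Tmax f t
      exact Set.mem_iUnion₂.2 ⟨i, Set.mem_univ i, hi⟩
    rw [h2]
    exact Filter.univ_mem
  obtain ⟨i, -, hi⟩ := (Ultrafilter.finite_biUnion_mem_iff Set.finite_univ).1 h1
  obtain ⟨t, ht⟩ := Ultrafilter.nonempty_of_mem hi
  exact ⟨i, E.ne_zero_of_mem ht, hi⟩

theorem exists_cen {A : Subalgebra K L} (hA : ∀ g ∈ A, Bd ι u g) :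
    ∃ p : Ideal A, p.IsPrime ∧ Cen ι u A p := by
  let p : Ideal A :=
    { carrier := {a : A | Tz ι u (a : L)}
      add_mem' := fun {a b} ha hb => Tz.add ha hb
      zero_mem' := ul_tz_zero
      smul_mem' := fun c a ha => by
        change Tz ι u ((c : L) * (a : L))
        rw [mul_comm]
        exact Tz.mul_bd ha (hA c c.2) }
  have hp : ∀ a : A, a ∈ p ↔ Tz ι u (a : L) := fun a => Iff.rfl
  refine ⟨p, ⟨?_, ?_⟩, hA, fun a => (hp a).symm⟩
  · rw [Ideal.ne_top_iff_one, hp]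
    exact not_tz_one
  · intro a b hab
    rw [hp] at hab ⊢
    rw [hp]
    exact Tz.mul_or (hA a a.2) (hA b b.2) hab

theorem bd_of_cen_bot {A : Subalgebra K L} (hA : Surf K A) (hc : Cen ι u A ⊥) (g : L) :
    Bd ι u g := by
  obtain ⟨a, b, hb, e⟩ := hA.frac g
  have h1 : ¬ Tz ι u (b : L) := by
    rw [hc.2, Ideal.mem_bot]
    exact hb
  have hb0 : (b : L) ≠ 0 := fun h => hb (Subtype.ext h)
  have h2 : g = a * (b : L)⁻¹ := by rw [← e, mul_assoc, mul_inv_cancel₀ hb0, mul_one]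
  rw [h2]
  exact (hc.1 a a.2).mul (bd_inv_of_not_tz h1)

private lemma ul_den {A : Subalgebra K L} {p : Ideal A} (hc : Cen ι u A p) {g : L} {a c : A}
    (hcp : c ∉ p) (e : g * c = a) : g = a * (c : L)⁻¹ ∧ Bd ι u (c : L)⁻¹ := by
  have hc0 : (c : L) ≠ 0 := by
    intro h
    apply hcp
    have h1 : c = 0 := Subtype.ext h
    rw [h1]
    exact zero_mem p
  refine ⟨by rw [← e, mul_assoc, mul_inv_cancel₀ hc0, mul_one], bd_inv_of_not_tz ?_⟩
  rw [hc.2]
  exact hcp

theorem bd_iff {A : Subalgebra K L} (hA : Surf K A) {p : Ideal A} [p.IsPrime] (hp : p ≠ ⊥)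
    (hn : ¬ IsPoint K A p) (hc : Cen ι u A p) (g : L) : Bd ι u g ↔ g ∈ OL K A p := by
  constructor
  · intro hg
    by_contra hgO
    have hg0 : g ≠ 0 := by
      rintro rfl
      exact hgO (zero_mem _)
    obtain ⟨a, c, ha, hcp, e⟩ := (OL_or hA hp hn g).resolve_left hgO
    obtain ⟨h1, h2⟩ := ul_den hc hcp e
    have h3 : Tz ι u g⁻¹ := by
      rw [h1]
      exact Tz.mul_bd ((hc.2 a).2 ha) h2
    exact not_bd_of_tz_inv hg0 h3 hg
  · rintro ⟨a, c, hcp, e⟩
    obtain ⟨h1, h2⟩ := ul_den hc hcp e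
    rw [h1]
    exact (hc.1 a a.2).mul h2

theorem tz_iff {A : Subalgebra K L} (hA : Surf K A) {p : Ideal A} [p.IsPrime] (hp : p ≠ ⊥)
    (hn : ¬ IsPoint K A p) (hc : Cen ι u A p) (g : L) : Tz ι u g ↔ g ∈ ML K A p := by
  constructor
  · intro hg
    obtain ⟨a, c, hcp, e⟩ := (bd_iff hA hp hn hc g).1 hg.bd
    refine ⟨a, c, (hc.2 a).1 ?_, hcp, e⟩
    rw [← e]
    exact hg.mul_bd (hc.1 c c.2)
  · rintro ⟨a, c, ha, hcp, e⟩
    obtain ⟨h1, h2⟩ := ul_den hc hcp e
    rw [h1]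
    exact Tz.mul_bd ((hc.2 a).2 ha) h2

end Pool.Agent.NG
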