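import Pool.Agent.NG.Grow
import Pool.Agent.NG.Fact
import Pool.Agent.NG.Logd
import Pool.Agent.NG.Ultra

/-!
# NG LOCC: the local equation of a curve in the zero locus has locally constant norm

`g := s ^ (k+1) γ`, `D := S.D`, `c_n := (-1) ^ n k! / (k+1+n)!`, `V_N := ∑_{n ≤ N} c_n s ^ (k+1+n) δ₁^[n] γ`.
(a) Identities: `δ₁ V_N = s ^ k γ + (-1) ^ N k!/(k+1+N)! s ^ (k+1+N) δ₁^[N+1] γ` (telescoping), and, using
    `δ₁^[n] (δ₂ γ) = (k+1+n) δ₁^[n] w + s δ₁^[n+1] w` (induction from `c.closed`, `δ₁ s = 1`) and `comm`,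
    `δ₂ V_N = s ^ (k+1) w + (-1) ^ N k!/(k+1+N)! s ^ (k+2+N) δ₁^[N+1] w`. Since
    `0 = pair θ₂ D = D s * s ^ k γ + D t * s ^ (k+1) w` (`expandω`, `S.h21`), `c.expand` gives
    `D V_N = (-1) ^ N k!/(k+1+N)! s ^ (k+1+N) (D s * δ₁^[N+1] γ + s * D t * δ₁^[N+1] w)`.
(b) `grow` for `γ`, `w`, `δ₁` and `BdOn` give constants `C ≥ 1, M ≥ 1`: on `T`: `mv t (ι (δ₁^[n] γ)), mv t (ι (δ₁^[n] w)) ≤ C M ^ n`,
    `mv t (ι γ') ≤ C`, so `mv t (ι γ) ≥ 1/C`, `mv t (ι t) ≤ C`; `exists_fact`: `‖c_n‖ ≤ R ^ (k+1+n)`, `‖c_0‖ = ‖1/(k+1)‖ ≥ 1`.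
    If `C ^ 2 R ^ (k+1) (R M ε) ≤ 1` and `R M ε ≤ 1`, then for `t ∈ T`, `mv t (ι s) < ε`, the term `n = 0` of `V_N` dominates strictly:
    `mv t (ι V_N) = ‖c_0‖ mv t (ι g)` (`mv_eq_of_sub_lt`).
(c) For such a `t`: `mv t (ι (D s)) = mv t (der K (ι s)) ≤ mv t (ι s)`, `mv t (ι (D t)) ≤ mv t (ι t) ≤ C`, so
    `mv t (der K (ι V_N)) ≤ C' (R M mv t (ι s)) ^ N * mv t (ι V_N)` with `C'` independent of `N`, and `R M mv t (ι s) < 1`.
(d) By continuity (`continuous_mv`, `T` open) (b) holds for all `t'` near `t`. `slope_right` for `ι V_N` and for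
    `ι g` at `t`: both slopes agree, `= n`, so `‖(n : K)‖ ≤ C' (R M mv t (ι s)) ^ N` for all `N`, hence `n = 0`: `mv t' (ι g) = mv t (ι g)` for `t' ≥ t` near `t`;
    in the same way on the left.
-/

set_option linter.unusedSectionVars false

open Filter Topology
open scoped NNReal KaehlerDifferential

noncomputable section

namespace Pool.Agent.NG

/-! ### Algebra -/

section Alg

variable {K : Type*} [Field K] [CharZero K] {L : Type*} [Field L] [Algebra K L]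

/-- the coefficients `(-1)^n k! / (k+1+n)!` -/
private def lcC (K : Type*) [Field K] (k n : ℕ) : K := (-1) ^ n * (k.factorial : K) / ((k + 1 + n).factorial : K)

private lemma lcC_zero (k : ℕ) : lcC K k 0 * ((k : K) + 1) = 1 := by
  unfold lcC
  have h1 : ((k + 1).factorial : K) = ((k : K) + 1) * (k.factorial : K) := by
    rw [Nat.factorial_succ]; push_cast; ring
  have h2 : ((k.factorial : ℕ) : K) ≠ 0 := by exact_mod_cast k.factorial_ne_zero
  have h3 : ((k : K) + 1) ≠ 0 := by exact_mod_cast Nat.succ_ne_zero k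
  rw [add_zero, h1, pow_zero]
  field_simp

private lemma lcC_succ (k n : ℕ) : lcC K k (n + 1) * ((k : K) + 1 + n + 1) = - lcC K k n := by
  unfold lcC
  have h1 : ((k + 1 + (n + 1)).factorial : K) = ((k : K) + 1 + n + 1) * ((k + 1 + n).factorial : K) := by
    rw [← add_assoc, Nat.factorial_succ]; push_cast; ring
  have h2 : (((k + 1 + n).factorial : ℕ) : K) ≠ 0 := by exact_mod_cast (k + 1 + n).factorial_ne_zero
  have h3 : ((k : K) + 1 + n + 1) ≠ 0 := by exact_mod_cast Nat.succ_ne_zero (k + 1 + n)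
  rw [h1, pow_succ]
  field_simp

variable {δ₁ δ₂ : Derivation K L L} {s γ w : L} {k : ℕ}

private lemma lc_dpow (δ : Derivation K L L) (hs : δ s = 1) (m : ℕ) (h : L) :
    δ (s ^ (m + 1) * h) = ((m : L) + 1) * s ^ m * h + s ^ (m + 1) * δ h := by
  rw [Derivation.leibniz, Derivation.leibniz_pow, hs, add_tsub_cancel_right]
  simp only [smul_eq_mul, nsmul_eq_mul, mul_one, Nat.cast_add, Nat.cast_one]
  ring

private lemma lc_dpow0 (δ : Derivation K L L) (hs : δ s = 0) (m : ℕ) (h : L) :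
    δ (s ^ m * h) = s ^ m * δ h := by
  rw [Derivation.leibniz, Derivation.leibniz_pow, hs]
  simp only [smul_eq_mul, smul_zero, mul_zero, add_zero]

private lemma lc_closed (hs1 : δ₁ s = 1) (hcl : δ₂ γ = ((k : L) + 1) * w + s * δ₁ w) (n : ℕ) :
    δ₁^[n] (δ₂ γ) = ((k : L) + 1 + n) * δ₁^[n] w + s * δ₁^[n + 1] w := by
  induction n with
  | zero => simpa using hcl
  | succ n ih =>
    rw [Function.iterate_succ_apply', ih, map_add, Derivation.leibniz, Derivation.leibniz, hs1]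
    have h1 : δ₁ ((k : L) + 1 + n) = 0 := by
      have : ((k : L) + 1 + n) = ((k + 1 + n : ℕ) : L) := by push_cast; ring
      rw [this, Derivation.map_natCast]
    rw [h1]
    simp only [smul_eq_mul, Function.iterate_succ_apply' (⇑δ₁)]
    push_cast
    ring

private lemma lc_comm (hc : ∀ g, δ₁ (δ₂ g) = δ₂ (δ₁ g)) (g : L) (n : ℕ) :
    δ₂ (δ₁^[n] g) = δ₁^[n] (δ₂ g) := by
  induction n with
  | zero => rfl
  | succ n ih => rw [Function.iterate_succ_apply', ← hc, ih, ← Function.iterate_succ_apply' (⇑δ₁)]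

/-- the partial sums -/
private def lcV (δ₁ : Derivation K L L) (s γ : L) (k N : ℕ) : L :=
  ∑ n ∈ Finset.range (N + 1), lcC K k n • (s ^ (k + 1 + n) * δ₁^[n] γ)

private lemma lc_d1 (hs1 : δ₁ s = 1) (N : ℕ) : δ₁ (lcV δ₁ s γ k N) =
    s ^ k * γ + lcC K k N • (s ^ (k + 1 + N) * δ₁^[N + 1] γ) := by
  unfold lcV
  induction N with
  | zero =>
    rw [zero_add, Finset.sum_range_one, Derivation.map_smul, add_zero,
      lc_dpow δ₁ hs1]
    have h1 := congrArg (algebraMap K L) (lcC_zero (K := K) k)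
    rw [map_mul, map_one, map_add, map_one, map_natCast] at h1
    simp only [Algebra.smul_def, Function.iterate_zero, id, Function.iterate_one]
    linear_combination (s ^ k * γ) * h1
  | succ N ih =>
    rw [Finset.sum_range_succ, map_add, ih, Derivation.map_smul]
    have e : k + 1 + (N + 1) = (k + 1 + N) + 1 := by ring
    rw [e, lc_dpow δ₁ hs1]
    have h1 := congrArg (algebraMap K L) (lcC_succ (K := K) k N)
    rw [map_mul, map_neg] at h1
    simp only [map_add, map_one, map_natCast] at h1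
    simp only [Algebra.smul_def, Function.iterate_succ_apply' (⇑δ₁)]
    push_cast
    linear_combination (s ^ (k + 1 + N) * δ₁ (δ₁^[N] γ)) * h1

private lemma lc_d2 (hs1 : δ₁ s = 1) (hs2 : δ₂ s = 0) (hc : ∀ g, δ₁ (δ₂ g) = δ₂ (δ₁ g))
    (hcl : δ₂ γ = ((k : L) + 1) * w + s * δ₁ w) (N : ℕ) : δ₂ (lcV δ₁ s γ k N) =
    s ^ (k + 1) * w + lcC K k N • (s ^ (k + 2 + N) * δ₁^[N + 1] w) := by
  unfold lcV
  induction N with
  | zero =>
    rw [zero_add, Finset.sum_range_one, Derivation.map_smul, lc_dpow0 δ₂ hs2, lc_comm hc,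
      lc_closed hs1 hcl]
    have h1 := congrArg (algebraMap K L) (lcC_zero (K := K) k)
    rw [map_mul, map_one, map_add, map_one, map_natCast] at h1
    simp only [Algebra.smul_def, Function.iterate_zero, id, zero_add, Function.iterate_one,
      Nat.cast_zero, add_zero]
    linear_combination (s ^ (k + 1) * w) * h1
  | succ N ih =>
    rw [Finset.sum_range_succ, map_add, ih, Derivation.map_smul, lc_dpow0 δ₂ hs2, lc_comm hc,
      lc_closed hs1 hcl]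
    have h1 := congrArg (algebraMap K L) (lcC_succ (K := K) k N)
    rw [map_mul, map_neg] at h1
    simp only [map_add, map_one, map_natCast] at h1
    simp only [Algebra.smul_def, Function.iterate_succ_apply' (⇑δ₁)]
    push_cast
    linear_combination (s ^ (k + 2 + N) * δ₁ (δ₁^[N] w)) * h1

end Alg

/-! ### Slopes -/

variable {K : Type*} [NontriviallyNormedField K] [IsUltrametricDist K] [CompleteSpace K]
  [IsAlgClosed K] [CharZero K] {L : Type*} [Field L] [Algebra K L] {N : ℕ}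

private lemma lc_norm_zero {n : ℤ} {C ρ : ℝ≥0} (hρ : ρ < 1) (h : ∀ N : ℕ, ‖(n : K)‖₊ ≤ C * ρ ^ N) :
    n = 0 := by
  have h1 : Tendsto (fun N : ℕ => C * ρ ^ N) atTop (𝓝 (C * 0)) :=
    (NNReal.tendsto_pow_atTop_nhds_zero_of_lt_one hρ).const_mul C
  rw [mul_zero] at h1
  have h2 : ‖(n : K)‖₊ ≤ 0 := ge_of_tendsto' h1 h
  have h3 : (n : K) = 0 := nnnorm_eq_zero.1 (le_antisymm h2 zero_le)
  exact_mod_cast h3

private lemma lc_ex_inj {a b : ℝ} (h : ex a = ex b) : a = b :=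
  le_antisymm (ex_le_ex.1 h.le) (ex_le_ex.1 h.ge)

private lemma lc_slope {g : Mer K} (hg : g ≠ 0) (V : ℕ → Mer K) {κ C ρ : ℝ≥0}
    (hκ : κ ≠ 0) (hρ : ρ < 1) (t : ℝ) (h1 : ∀ N, ∀ᶠ t' in 𝓝 t, mv t' (V N) = κ * mv t' g)
    (h2 : ∀ N, mv t (der K (V N)) ≤ C * ρ ^ N * mv t (V N)) :
    ∃ δ > 0, ∀ t' ∈ Set.Ioo (t - δ) (t + δ), mv t' g = mv t g := by
  have hg0 := mv_ne_zero t hg
  have hV : ∀ N, V N ≠ 0 := by
    intro N h0
    have h3 := (h1 N).self_of_nhds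
    rw [h0, mv_zero] at h3
    exact mul_ne_zero hκ hg0 h3.symm
  have right : ∃ δ > 0, ∀ t' ∈ Set.Icc t (t + δ), mv t' g = mv t g := by
    obtain ⟨n, ⟨δ, hδ, hn⟩, -⟩ := slope_right hg t
    have hn0 : n = 0 := by
      refine lc_norm_zero (K := K) hρ (C := C) fun N => ?_
      obtain ⟨m, ⟨δ', hδ', hm⟩, hm2⟩ := slope_right (hV N) t
      have h3 : ∀ᶠ t' in 𝓝[>] t, mv t' (V N) = κ * mv t' g := (h1 N).filter_mono nhdsWithin_le_nhds
      obtain ⟨t', h4, h5, h6⟩ := (h3.and ((Ioo_mem_nhdsGT (show t < t + min δ δ' by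
        linarith [lt_min hδ hδ'])))).exists
      have a1 := hn t' ⟨h5.le, by linarith [min_le_left δ δ']⟩
      have a2 := hm t' ⟨h5.le, by linarith [min_le_right δ δ']⟩
      rw [h4, a1, (h1 N).self_of_nhds] at a2
      have a3 : ex (n * (t' - t)) = ex (m * (t' - t)) := by
        have a4 : κ * mv t g ≠ 0 := mul_ne_zero hκ hg0
        rw [← mul_assoc] at a2
        exact mul_left_cancel₀ a4 a2
      have a5 := lc_ex_inj a3
      have a6 : (n : ℝ) = m := mul_right_cancel₀ (sub_pos.2 h5).ne' a5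
      have a7 : n = m := by exact_mod_cast a6
      rw [a7]
      have a8 := hm2.trans (h2 N)
      exact le_of_mul_le_mul_right a8 (mv_pos t (hV N))
    refine ⟨δ, hδ, fun t' ht' => ?_⟩
    rw [hn t' ht', hn0]
    simp
  have left : ∃ δ > 0, ∀ t' ∈ Set.Icc (t - δ) t, mv t' g = mv t g := by
    obtain ⟨n, ⟨δ, hδ, hn⟩, -⟩ := slope_left hg t
    have hn0 : n = 0 := by
      refine lc_norm_zero (K := K) hρ (C := C) fun N => ?_
      obtain ⟨m, ⟨δ', hδ', hm⟩, hm2⟩ := slope_left (hV N) t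
      have h3 : ∀ᶠ t' in 𝓝[<] t, mv t' (V N) = κ * mv t' g := (h1 N).filter_mono nhdsWithin_le_nhds
      obtain ⟨t', h4, h5, h6⟩ := (h3.and ((Ioo_mem_nhdsLT (show t - min δ δ' < t by
        linarith [lt_min hδ hδ'])))).exists
      have a1 := hn t' ⟨by linarith [min_le_left δ δ'], h6.le⟩
      have a2 := hm t' ⟨by linarith [min_le_right δ δ'], h6.le⟩
      rw [h4, a1, (h1 N).self_of_nhds] at a2
      have a3 : ex (n * (t' - t)) = ex (m * (t' - t)) := by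
        have a4 : κ * mv t g ≠ 0 := mul_ne_zero hκ hg0
        rw [← mul_assoc] at a2
        exact mul_left_cancel₀ a4 a2
      have a5 := lc_ex_inj a3
      have a6 : (n : ℝ) = m := mul_right_cancel₀ (sub_neg.2 h6).ne a5
      have a7 : n = m := by exact_mod_cast a6
      rw [a7]
      have a8 := hm2.trans (h2 N)
      exact le_of_mul_le_mul_right a8 (mv_pos t (hV N))
    refine ⟨δ, hδ, fun t' ht' => ?_⟩
    rw [hn t' ht', hn0]
    simp
  obtain ⟨d1, hd1, r⟩ := right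
  obtain ⟨d2, hd2, l⟩ := left
  refine ⟨min d1 d2, lt_min hd1 hd2, fun t' ht' => ?_⟩
  rcases le_total t t' with h3 | h3
  · exact r t' ⟨h3, by linarith [ht'.2, min_le_left d1 d2]⟩
  · exact l t' ⟨by linarith [ht'.1, min_le_right d1 d2], h3⟩

variable {x : Fin (N + 1) → L} {f : Fin (N + 1) → An K}

theorem locc (S : Flow x f) {A : Subalgebra K L} {p : Ideal A} (c : Curve K A p S.θ₂)
    {T : Set ℝ} (hT : IsOpen T) (hB : BdOn S.ι T c.B) :
    ∃ ε : ℝ≥0, 0 < ε ∧ ∀ t ∈ T, mv t (S.ι c.s) < ε → ∃ δ > 0,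
      ∀ t' ∈ Set.Ioo (t - δ) (t + δ), mv t' (S.ι (c.s ^ (c.k + 1) * c.γ)) =
        mv t (S.ι (c.s ^ (c.k + 1) * c.γ)) := by
  -- constants
  obtain ⟨C1, M1, hγ⟩ := grow S.ι c.fg hB c.pres₁ c.γ_mem
  obtain ⟨C2, M2, hw⟩ := grow S.ι c.fg hB c.pres₁ c.w_mem
  obtain ⟨C3, hγ'⟩ := hB c.γ' c.γ'_mem
  obtain ⟨C4, ht⟩ := hB c.t c.t_mem
  obtain ⟨R, hR, hfact⟩ := exists_fact (K := K)
  obtain ⟨C, hC1, c1, c2, c3, c4⟩ : ∃ C : ℝ≥0, 1 ≤ C ∧ C1 ≤ C ∧ C2 ≤ C ∧ C3 ≤ C ∧ C4 ≤ C := by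
    refine ⟨max 1 (max (max C1 C2) (max C3 C4)), ?_, ?_, ?_, ?_, ?_⟩ <;> simp
  obtain ⟨M, hM1, m1, m2⟩ : ∃ M : ℝ≥0, 1 ≤ M ∧ M1 ≤ M ∧ M2 ≤ M := by
    refine ⟨max 1 (max M1 M2), ?_, ?_, ?_⟩ <;> simp
  have hγ1 : ∀ n : ℕ, ∀ t ∈ T, mv t (S.ι (c.δ₁^[n] c.γ)) ≤ C * M ^ n := fun n t ht =>
    (hγ n t ht).trans (mul_le_mul' c1 (pow_le_pow_left₀ zero_le m1 n))
  have hw1 : ∀ n : ℕ, ∀ t ∈ T, mv t (S.ι (c.δ₁^[n] c.w)) ≤ C * M ^ n := fun n t ht =>
    (hw n t ht).trans (mul_le_mul' c2 (pow_le_pow_left₀ zero_le m2 n))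
  have hCpos : 0 < C := one_pos.trans_le hC1
  have hMpos : 0 < M := one_pos.trans_le hM1
  have hRpos : 0 < R := one_pos.trans_le hR
  -- the coefficients
  have hcn : ∀ n, ‖lcC K c.k n‖₊ ≤ R ^ (c.k + 1 + n) := by
    intro n
    unfold lcC
    rw [nnnorm_div, nnnorm_mul, nnnorm_pow, nnnorm_neg, nnnorm_one, one_pow, one_mul,
      div_eq_mul_inv]
    have h1 : ‖(c.k.factorial : K)‖₊ ≤ 1 := IsUltrametricDist.nnnorm_natCast_le_one K _
    calc ‖(c.k.factorial : K)‖₊ * ‖((c.k + 1 + n).factorial : K)‖₊⁻¹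
        ≤ 1 * R ^ (c.k + 1 + n) := mul_le_mul' h1 (hfact _)
      _ = _ := one_mul _
  have hc0 : 1 ≤ ‖lcC K c.k 0‖₊ := by
    have h1 := congrArg nnnorm (lcC_zero (K := K) c.k)
    rw [nnnorm_mul, nnnorm_one] at h1
    have h2 : ‖((c.k : K) + 1)‖₊ ≤ 1 := by
      have := IsUltrametricDist.nnnorm_natCast_le_one K (c.k + 1)
      push_cast at this
      exact this
    calc (1 : ℝ≥0) = ‖lcC K c.k 0‖₊ * ‖((c.k : K) + 1)‖₊ := h1.symm
      _ ≤ ‖lcC K c.k 0‖₊ * 1 := mul_le_mul' le_rfl h2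
      _ = _ := mul_one _
  have hc00 : ‖lcC K c.k 0‖₊ ≠ 0 := (one_pos.trans_le hc0).ne'
  set Q : ℝ≥0 := C ^ 2 * R ^ (c.k + 1) * (R * M) with hQ
  have hQpos : 0 < Q := by positivity
  have hιs : S.ι c.s ≠ 0 := fun h0 => c.s_ne ((map_eq_zero S.ι).1 h0)
  -- the lower bound of gamma
  have hγlow : ∀ t ∈ T, 1 ≤ C * mv t (S.ι c.γ) := by
    intro t ht
    have h1 := congrArg (mv t) (congrArg S.ι c.γγ')
    rw [map_mul, map_one, mv_mul, mv_one] at h1
    rw [← h1, mul_comm]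
    exact mul_le_mul' ((hγ' t ht).trans c3) le_rfl
  have hγ0 : c.γ ≠ 0 := left_ne_zero_of_mul (c.γγ'.symm ▸ one_ne_zero)
  -- domination
  have dom : ∀ t ∈ T, mv t (S.ι c.s) < Q⁻¹ → ∀ n : ℕ,
      mv t (S.ι (lcV c.δ₁ c.s c.γ c.k n)) =
        ‖lcC K c.k 0‖₊ * mv t (S.ι (c.s ^ (c.k + 1) * c.γ)) := by
    intro t ht hσ n
    set σ := mv t (S.ι c.s) with hσdef
    have hσpos : 0 < σ := mv_pos t hιs
    have hQσ : Q * σ < 1 := by
      have h1 := mul_lt_mul_of_pos_left hσ hQpos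
      rwa [mul_inv_cancel₀ hQpos.ne'] at h1
    have hRM : R * M * σ ≤ 1 := by
      refine le_trans ?_ hQσ.le
      rw [hQ]
      refine mul_le_mul' ?_ le_rfl
      refine le_mul_of_one_le_left zero_le ?_
      exact one_le_mul_of_one_le_of_one_le (one_le_pow₀ hC1) (one_le_pow₀ hR)
    have h0 : mv t (S.ι (lcC K c.k 0 • (c.s ^ (c.k + 1) * c.γ))) =
        ‖lcC K c.k 0‖₊ * mv t (S.ι (c.s ^ (c.k + 1) * c.γ)) := by
      rw [map_smul, Algebra.smul_def, mv_mul, mv_const]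
    rw [← h0]
    refine mv_eq_of_sub_lt t ?_
    rw [← map_sub]
    unfold lcV
    rw [Finset.sum_range_succ', add_zero, Function.iterate_zero, id, add_sub_cancel_right,
      map_sum]
    have hlow : σ ^ (c.k + 1) ≤ C * mv t (S.ι (lcC K c.k 0 • (c.s ^ (c.k + 1) * c.γ))) := by
      rw [h0, map_mul, map_pow, mv_mul, mv_pow]
      calc σ ^ (c.k + 1) = 1 * (σ ^ (c.k + 1)) * 1 := by ring
        _ ≤ ‖lcC K c.k 0‖₊ * σ ^ (c.k + 1) * (C * mv t (S.ι c.γ)) :=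
          mul_le_mul' (mul_le_mul' hc0 le_rfl) (hγlow t ht)
        _ = _ := by ring
    refine lt_of_le_of_lt (mv_sum_le t _ _ (R ^ (c.k + 1) * σ ^ (c.k + 1) * C * (R * M * σ)) ?_) ?_
    · intro i _
      rw [map_smul, Algebra.smul_def, mv_mul, mv_const, map_mul, map_pow, mv_mul, mv_pow]
      calc ‖lcC K c.k (i + 1)‖₊ * (σ ^ (c.k + 1 + (i + 1)) * mv t (S.ι (c.δ₁^[i + 1] c.γ)))
          ≤ R ^ (c.k + 1 + (i + 1)) * (σ ^ (c.k + 1 + (i + 1)) * (C * M ^ (i + 1))) :=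
            mul_le_mul' (hcn _) (mul_le_mul' le_rfl (hγ1 _ t ht))
        _ = R ^ (c.k + 1) * σ ^ (c.k + 1) * C * ((R * M * σ) * (R * M * σ) ^ i) := by
            rw [pow_add R, pow_add σ, pow_succ' R, pow_succ' σ, pow_succ' M]
            rw [mul_pow, mul_pow]
            ring
        _ ≤ R ^ (c.k + 1) * σ ^ (c.k + 1) * C * ((R * M * σ) * 1) :=
            mul_le_mul' le_rfl (mul_le_mul' le_rfl (pow_le_one₀ zero_le hRM))
        _ = _ := by rw [mul_one]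
    · have h5 : C * (R ^ (c.k + 1) * σ ^ (c.k + 1) * C * (R * M * σ)) < σ ^ (c.k + 1) := by
        calc C * (R ^ (c.k + 1) * σ ^ (c.k + 1) * C * (R * M * σ))
            = (Q * σ) * σ ^ (c.k + 1) := by rw [hQ]; ring
          _ < 1 * σ ^ (c.k + 1) := mul_lt_mul_of_pos_right hQσ (pow_pos hσpos _)
          _ = _ := one_mul _
      exact lt_of_mul_lt_mul_left (h5.trans_le hlow) zero_le
  -- derivative
  have hD0 : S.D c.s * (c.s ^ c.k * c.γ) + S.D c.t * (c.s ^ (c.k + 1) * c.w) = 0 := by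
    have h1 := c.expandω S.D
    rw [S.h21, c.θ₁, c.θ₂] at h1
    exact h1.symm
  have hDV : ∀ n : ℕ, S.D (lcV c.δ₁ c.s c.γ c.k n) = lcC K c.k n • (c.s ^ (c.k + 1 + n) *
      (S.D c.s * c.δ₁^[n + 1] c.γ + c.s * S.D c.t * c.δ₁^[n + 1] c.w)) := by
    intro n
    rw [c.expand, lc_d1 c.δ₁s, lc_d2 c.δ₁s c.δ₂s c.comm c.closed]
    simp only [Algebra.smul_def]
    have e : c.k + 2 + n = (c.k + 1 + n) + 1 := by ring
    rw [e, pow_succ]
    linear_combination hD0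
  have der_bd : ∀ t ∈ T, mv t (S.ι c.s) < Q⁻¹ → ∀ n : ℕ,
      mv t (der K (S.ι (lcV c.δ₁ c.s c.γ c.k n))) ≤
        (C ^ 3 * R ^ (c.k + 1) * M * mv t (S.ι c.s)) * (R * M * mv t (S.ι c.s)) ^ n *
          mv t (S.ι (lcV c.δ₁ c.s c.γ c.k n)) := by
    intro t ht' hσ n
    rw [dom t ht' hσ n, ← S.flow, hDV, map_smul, Algebra.smul_def, mv_mul, mv_const, map_mul,
      map_pow, mv_mul, mv_pow]
    set σ := mv t (S.ι c.s) with hσdef
    have b1 : mv t (S.ι (S.D c.s)) ≤ σ := by rw [S.flow]; exact mv_der t _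
    have b2 : mv t (S.ι (S.D c.t)) ≤ C := by
      rw [S.flow]; exact (mv_der t _).trans ((ht t ht').trans c4)
    have b3 : mv t (S.ι (S.D c.s * c.δ₁^[n + 1] c.γ + c.s * S.D c.t * c.δ₁^[n + 1] c.w)) ≤
        σ * C ^ 2 * M ^ (n + 1) := by
      rw [map_add]
      refine (mv_add t _ _).trans (max_le ?_ ?_)
      · rw [map_mul, mv_mul]
        calc mv t (S.ι (S.D c.s)) * mv t (S.ι (c.δ₁^[n + 1] c.γ)) ≤ σ * (C * M ^ (n + 1)) :=
              mul_le_mul' b1 (hγ1 _ t ht')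
          _ = σ * (C * 1) * M ^ (n + 1) := by ring
          _ ≤ σ * (C * C) * M ^ (n + 1) :=
              mul_le_mul' (mul_le_mul' le_rfl (mul_le_mul' le_rfl hC1)) le_rfl
          _ = _ := by ring
      · rw [map_mul, map_mul, mv_mul, mv_mul]
        calc mv t (S.ι c.s) * mv t (S.ι (S.D c.t)) * mv t (S.ι (c.δ₁^[n + 1] c.w))
            ≤ σ * C * (C * M ^ (n + 1)) := mul_le_mul' (mul_le_mul' le_rfl b2) (hw1 _ t ht')
          _ = _ := by ring
    have b4 : σ ^ (c.k + 1) ≤ C * (‖lcC K c.k 0‖₊ * mv t (S.ι (c.s ^ (c.k + 1) * c.γ))) := by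
      rw [map_mul, map_pow, mv_mul, mv_pow]
      calc σ ^ (c.k + 1) = 1 * (σ ^ (c.k + 1)) * 1 := by ring
        _ ≤ ‖lcC K c.k 0‖₊ * σ ^ (c.k + 1) * (C * mv t (S.ι c.γ)) :=
          mul_le_mul' (mul_le_mul' hc0 le_rfl) (hγlow t ht')
        _ = _ := by ring
    calc ‖lcC K c.k n‖₊ * (σ ^ (c.k + 1 + n) *
          mv t (S.ι (S.D c.s * c.δ₁^[n + 1] c.γ + c.s * S.D c.t * c.δ₁^[n + 1] c.w)))
        ≤ R ^ (c.k + 1 + n) * (σ ^ (c.k + 1 + n) * (σ * C ^ 2 * M ^ (n + 1))) :=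
          mul_le_mul' (hcn n) (mul_le_mul' le_rfl b3)
      _ = (C ^ 2 * R ^ (c.k + 1) * M * σ * (R * M * σ) ^ n) * σ ^ (c.k + 1) := by
          rw [pow_add R, pow_add σ, pow_succ M, mul_pow, mul_pow]
          ring
      _ ≤ (C ^ 2 * R ^ (c.k + 1) * M * σ * (R * M * σ) ^ n) *
          (C * (‖lcC K c.k 0‖₊ * mv t (S.ι (c.s ^ (c.k + 1) * c.γ)))) :=
          mul_le_mul' le_rfl b4
      _ = _ := by ring
  refine ⟨Q⁻¹, inv_pos.2 hQpos, fun t ht' hσ => ?_⟩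
  have hg0 : S.ι (c.s ^ (c.k + 1) * c.γ) ≠ 0 := fun h0 =>
    mul_ne_zero (pow_ne_zero _ c.s_ne) hγ0 ((map_eq_zero S.ι).1 h0)
  have hev : ∀ᶠ t' in 𝓝 t, t' ∈ T ∧ mv t' (S.ι c.s) < Q⁻¹ :=
    (hT.eventually_mem ht').and ((continuous_mv (S.ι c.s)).continuousAt.eventually_lt
      continuousAt_const hσ)
  have hρ : R * M * mv t (S.ι c.s) < 1 := by
    have h1 : Q * mv t (S.ι c.s) < 1 := by
      have h1 := mul_lt_mul_of_pos_left hσ hQpos
      rwa [mul_inv_cancel₀ hQpos.ne'] at h1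
    refine lt_of_le_of_lt ?_ h1
    rw [hQ]
    refine mul_le_mul' ?_ le_rfl
    refine le_mul_of_one_le_left zero_le ?_
    exact one_le_mul_of_one_le_of_one_le (one_le_pow₀ hC1) (one_le_pow₀ hR)
  exact lc_slope hg0 (fun n => S.ι (lcV c.δ₁ c.s c.γ c.k n)) hc00 hρ t
    (fun n => hev.mono fun t' h => dom t' h.1 h.2 n) (fun n => der_bd t ht' hσ n)

end Pool.Agent.NG
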