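import Pool.Agent.NG.Regions
import Pool.Agent.NG.Locc

/-!
# NG CLOP: no ultrafilter is centred at a curve in the zero locus (module to prove)

`T₀`, `T₁`, `ε₁` from `exists_regions`, `ε₂` from `locc` for `T = T₀` (`BdOn` on `T₀ ⊆ T₁`); `ε := min ε₁ ε₂ / 2`, so: for `t ∈ T₁` with `mv t (ι s) ≤ ε` we have `t ∈ T₀` and `g := s ^ (k+1) γ`
has constant norm near `t`. `C` a bound of `ι γ'` on `T₁`, so `mv t (ι s) ^ (k+1) = mv t (ι g) mv t (ι γ') ≤ C mv t (ι g)` for `t ∈ T₁`.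
Claim: if `t₀ ∈ T₁`, `mv t₀ (ι s) < ε` and `C mv t₀ (ι g) < ε ^ (k+1)`, then `mv t (ι g) = mv t₀ (ι g)` for ALL `t : ℝ`.
  The set `Y := {t | t ∈ T₁ ∧ mv t (ι s) ≤ ε ∧ mv t (ι g) = mv t₀ (ι g)}` is closed (`continuous_mv`) and contains `t₀`. It is open: let `t ∈ Y`; then `t ∈ T₀`, `mv t (ι s) ^ (k+1) ≤ C mv t₀ (ι g) < ε ^ (k+1)`, so
  `mv t (ι s) < ε`; near `t`: in `T₀ ⊆ T₁`, `mv (ι s) < ε`, `mv (ι g)` constant. So `Y = ℝ` (`IsClopen.eq_univ`).
Suppose `Cen u A p`. `s` tends to zero along `u` (`s ∈ ML`: `p ≠ ⊥`, `c.p_sub`, and the elements of `B` are bounded: `T₁ ∈ u`; `s ^ ...`: some power product: take `h ∈ p` nonzero? simpler: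
`b ^ n s ∈ A` for some `n` and `b ^ n s ∈ p` by `c.s_sub`, so `b ^ n s` tends to zero and `b` is bounded below on `T₁`, or `b ∉ p`), hence `g` tends to zero. Choose `t₀ ∈ T₀` with the properties of the claim, then `t₁` with the same properties and `mv t₁ (ι g) < mv t₀ (ι g)`
(`mv t₀ (ι g) > 0`): contradiction to the claim.
-/

set_option linter.unusedSectionVars false

open Filter Topology
open scoped NNReal KaehlerDifferential

noncomputable section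

namespace Pool.Agent.NG

variable {K : Type*} [NontriviallyNormedField K] [IsUltrametricDist K] [CompleteSpace K]
  [IsAlgClosed K] [CharZero K] {L : Type*} [Field L] [Algebra K L] {N : ℕ}

variable {x : Fin (N + 1) → L} {f : Fin (N + 1) → An K}

theorem clop_bd_pow {ι : L →ₐ[K] Mer K} {u : Ultrafilter ℝ} {g : L} (hg : Bd ι u g) (n : ℕ) :
    Bd ι u (g ^ n) := by
  induction n with
  | zero =>
    rw [pow_zero, ← map_one (algebraMap K L)]
    exact Bd.const 1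
  | succ n ih =>
    rw [pow_succ]
    exact ih.mul hg

theorem not_cen (S : Flow x f) {i : Fin (N + 1)} (hi : x i ≠ 0) {p : Ideal (chart K x i)}
    [p.IsPrime] (hp : p ≠ ⊥) (hn : ¬ IsPoint K (chart K x i) p)
    (c : Curve K (chart K x i) p S.θ₂) (u : Ultrafilter ℝ) : ¬ Cen S.ι u (chart K x i) p := by
  intro hc
  obtain ⟨T₀, T₁, ε₁, hT₀, hT₁, hT01, hB, hcen, hε₁, hreg⟩ := exists_regions S hi hp hn c
  obtain ⟨ε₂, hε₂, hloc⟩ := locc S c hT₀ (fun g hg => by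
    obtain ⟨C, hC⟩ := hB g hg
    exact ⟨C, fun t ht => hC t (hT01 ht)⟩)
  set g : L := c.s ^ (c.k + 1) * c.γ with hgdef
  -- the number `ε`
  obtain ⟨ε, hε, hεε₁, hεε₂⟩ : ∃ ε : ℝ≥0, 0 < ε ∧ ε ≤ ε₁ ∧ ε < ε₂ := by
    refine ⟨min ε₁ ε₂ / 2, half_pos (lt_min hε₁ hε₂), ?_, ?_⟩
    · exact (half_le_self (zero_le)).trans (min_le_left _ _)
    · exact lt_of_lt_of_le (half_lt_self (lt_min hε₁ hε₂)) (min_le_right _ _)
  obtain ⟨C, hC⟩ := hB c.γ' c.γ'_mem
  have hsg : ∀ t ∈ T₁, mv t (S.ι c.s) ^ (c.k + 1) ≤ C * mv t (S.ι g) := by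
    intro t ht
    have h1 : c.s ^ (c.k + 1) = g * c.γ' := by
      rw [hgdef, mul_assoc, c.γγ', mul_one]
    rw [← mv_pow, ← map_pow, h1, map_mul, mv_mul, mul_comm]
    exact mul_le_mul_left (hC t ht) _
  -- the claim
  have claim : ∀ t₀ ∈ T₁, mv t₀ (S.ι c.s) < ε → C * mv t₀ (S.ι g) < ε ^ (c.k + 1) →
      ∀ t, mv t (S.ι g) = mv t₀ (S.ι g) := by
    intro t₀ ht₀ h1 h2
    set Y : Set ℝ := {t | t ∈ T₁ ∧ mv t (S.ι c.s) ≤ ε ∧ mv t (S.ι g) = mv t₀ (S.ι g)} with hY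
    have hYc : IsClosed Y := by
      have k1 : IsClosed {t : ℝ | mv t (S.ι c.s) ≤ ε} :=
        isClosed_le (continuous_mv _) continuous_const
      have k2 : IsClosed {t : ℝ | mv t (S.ι g) = mv t₀ (S.ι g)} :=
        isClosed_eq (continuous_mv _) continuous_const
      exact hT₁.inter (k1.inter k2)
    have hYo : IsOpen Y := by
      rw [isOpen_iff_mem_nhds]
      rintro t ⟨ht1, ht2, ht3⟩
      have hs : mv t (S.ι c.s) < ε := by
        have h3 : mv t (S.ι c.s) ^ (c.k + 1) < ε ^ (c.k + 1) := by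
          refine lt_of_le_of_lt (hsg t ht1) ?_
          rw [ht3]
          exact h2
        exact lt_of_pow_lt_pow_left₀ _ (zero_le) h3
      have ht0 : t ∈ T₀ := hreg t ht1 (ht2.trans hεε₁)
      obtain ⟨δ, hδ, hconst⟩ := hloc t ht0 (hs.trans hεε₂)
      have e1 : ∀ᶠ t' in 𝓝 t, t' ∈ T₀ := hT₀.mem_nhds ht0
      have e2 : ∀ᶠ t' in 𝓝 t, mv t' (S.ι c.s) < ε :=
        (continuous_mv (S.ι c.s)).continuousAt.eventually_lt_const hs
      have e3 : ∀ᶠ t' in 𝓝 t, t' ∈ Set.Ioo (t - δ) (t + δ) :=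
        Ioo_mem_nhds (by linarith) (by linarith)
      filter_upwards [e1, e2, e3] with t' h4 h5 h6
      exact ⟨hT01 h4, h5.le, (hconst t' h6).trans ht3⟩
    have hYu : Y = Set.univ := IsClopen.eq_univ ⟨hYc, hYo⟩ ⟨t₀, ht₀, h1.le, rfl⟩
    intro t
    have : t ∈ Y := by
      rw [hYu]
      exact Set.mem_univ t
    exact this.2.2
  -- `s` and `g` tend to zero
  have hT₁u : T₁ ∈ u := Filter.mem_of_superset (mem_cenF.1 hcen u hc) hT01
  have hBd := bd_of_bdOn hB hT₁u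
  have hs0 : Tz S.ι u c.s := by
    obtain ⟨n, hn'⟩ := (c.memB c.s).1 c.s_mem
    have hbB : (c.b : L) ^ n ∈ c.B := by
      refine c.B.pow_mem ?_ n
      refine (c.memB _).2 ⟨0, ?_⟩
      rw [pow_zero, one_mul]
      exact c.b.2
    have h1 : (⟨(c.b : L) ^ n * c.s, hn'⟩ : chart K x i) ∈ p := by
      refine c.s_sub _ ⟨(c.b : L) ^ n, hbB, ?_⟩
      change (c.b : L) ^ n * c.s = _
      rw [mul_comm]
    have h2 : Tz S.ι u ((c.b : L) ^ n * c.s) := (hc.2 ⟨(c.b : L) ^ n * c.s, hn'⟩).2 h1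
    have h3 : ¬ Tz S.ι u (c.b : L) := fun h => c.hb ((hc.2 c.b).1 h)
    have hb0 : (c.b : L) ≠ 0 := by
      intro h0
      apply h3
      rw [h0]
      intro ε' hε'
      refine Filter.Eventually.of_forall fun t => ?_
      rw [map_zero, mv_zero]
      exact hε'
    have h4 : Bd S.ι u ((c.b : L)⁻¹ ^ n) := clop_bd_pow (bd_inv_of_not_tz h3) n
    have h5 := h2.mul_bd h4
    have h6 : (c.b : L) ^ n * c.s * (c.b : L)⁻¹ ^ n = c.s := by
      rw [inv_pow]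
      field_simp
    rwa [h6] at h5
  have hg0 : Tz S.ι u g := by
    have h1 : g = c.s * (c.s ^ c.k * c.γ) := by
      rw [hgdef]
      ring
    rw [h1]
    exact hs0.mul_bd ((clop_bd_pow hs0.bd _).mul (hBd _ c.γ_mem))
  have hgne : g ≠ 0 := by
    rw [hgdef]
    refine mul_ne_zero (pow_ne_zero _ c.s_ne) fun h0 => ?_
    have := c.γγ'
    rw [h0, zero_mul] at this
    exact zero_ne_one this
  have hιg : S.ι g ≠ 0 := (map_ne_zero S.ι).2 hgne
  -- points of the ultrafilter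
  have key : ∀ η : ℝ≥0, 0 < η → ∃ t ∈ T₁, mv t (S.ι c.s) < ε ∧
      C * mv t (S.ι g) < ε ^ (c.k + 1) ∧ mv t (S.ι g) < η := by
    intro η hη
    have hp1 : 0 < ε ^ (c.k + 1) / (C + 1) := by positivity
    have e1 : ∀ᶠ t in (u : Filter ℝ), t ∈ T₁ := hT₁u
    have e2 := hs0 ε hε
    have e3 := hg0 _ hp1
    have e4 := hg0 η hη
    obtain ⟨t, h1, h2, h3, h4⟩ := (e1.and (e2.and (e3.and e4))).exists
    refine ⟨t, h1, h2, ?_, h4⟩
    rw [lt_div_iff₀ (by positivity)] at h3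
    refine lt_of_le_of_lt ?_ h3
    rw [mul_comm]
    exact mul_le_mul_right (le_add_of_nonneg_right zero_le_one) _
  obtain ⟨t₀, a1, a2, a3, -⟩ := key 1 one_pos
  obtain ⟨t₁, -, -, -, b4⟩ := key (mv t₀ (S.ι g)) (mv_pos t₀ hιg)
  rw [claim t₀ a1 a2 a3 t₁] at b4
  exact lt_irrefl _ b4

end Pool.Agent.NG
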