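import Mathlib

/-!
# Definitions for the statement (project NG, MP_973f8c_ag)

`K` is an algebraically closed complete non-archimedean field of characteristic zero, `L` a field
extension of `K` (the function field of a projective variety `X`), and `x_0, ..., x_N` in `L` are
homogeneous coordinates of the generic point of `X`.
-/

open scoped KaehlerDifferential

namespace Pool.Agent.NG

/-! ### Laurent series converging on `K^*` -/

/-- `F` is given by a Laurent series which converges at every point of `K^*`. -/
def IsAn {K : Type*} [NontriviallyNormedField K] (F : Kˣ → K) : Prop :=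
  ∃ a : ℤ → K, ∀ z : Kˣ, HasSum (fun n : ℤ => a n * ((z ^ n : Kˣ) : K)) (F z)

section Surface

variable (K : Type*) [Field K] {L : Type*} [Field L] [Algebra K L] {N : ℕ}

/-- The coordinate ring `K[x_0/x_i, ..., x_N/x_i]` of the `i`-th standard chart. -/
def chart (x : Fin (N + 1) → L) (i : Fin (N + 1)) : Subalgebra K L :=
  Algebra.adjoin K (Set.range fun j => x j / x i)

/-- `x` is the generic point of a smooth projective surface in `P^N` with function field `L`. -/
structure IsSmoothSurface (x : Fin (N + 1) → L) : Prop where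
  /-- the ratios of the homogeneous coordinates generate `L` -/
  gen : IntermediateField.adjoin K (Set.range fun p : Fin (N + 1) × Fin (N + 1) => x p.1 / x p.2) = ⊤
  /-- the dimension is two -/
  dim : Algebra.trdeg K L = 2
  /-- all standard charts are smooth over `K` -/
  smooth : ∀ i, x i ≠ 0 → Algebra.Smooth K (chart K x i)

/-- The differentials of the functions on the `i`-th chart span the module of regular one-forms. -/
noncomputable def regOne (x : Fin (N + 1) → L) (i : Fin (N + 1)) : Submodule (chart K x i) (Ω[L⁄K]) :=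
  Submodule.span (chart K x i) {ω | ∃ a ∈ chart K x i, ω = KaehlerDifferential.D K L a}

/-- Regular one-forms on `X`: regular on every chart. -/
def IsRegularForm (x : Fin (N + 1) → L) (ω : Ω[L⁄K]) : Prop :=
  ∀ i, x i ≠ 0 → ω ∈ regOne K x i

/-- The value of a one-form on a derivation. -/
noncomputable def pair (ω : Ω[L⁄K]) (δ : Derivation K L L) : L :=
  δ.liftKaehlerDifferential ω

/-- A one-form is closed (Cartan's formula for the exterior derivative). -/
def IsClosedForm (ω : Ω[L⁄K]) : Prop :=
  ∀ δ₁ δ₂ : Derivation K L L, δ₁ (pair K ω δ₂) - δ₂ (pair K ω δ₁) = pair K ω ⁅δ₁, δ₂⁆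

/-- `X` carries two linearly independent closed regular one-forms. -/
def HasTwoForms (x : Fin (N + 1) → L) : Prop :=
  ∃ ω : Fin 2 → Ω[L⁄K], (∀ j, IsRegularForm K x (ω j) ∧ IsClosedForm K (ω j)) ∧
    LinearIndependent K ω

/-- The value of the two-form `da ∧ db` on a pair of derivations. -/
def jac (a b : L) (δ₁ δ₂ : Derivation K L L) : L := δ₁ a * δ₂ b - δ₂ a * δ₁ b

/-- The functions `c` such that `c da₀ ∧ db₀` is a regular two-form on the `i`-th chart: the
fractional ideal of the canonical sheaf with respect to the rational two-form `da₀ ∧ db₀`. It is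
spanned by the quotients `(da ∧ db) / (da₀ ∧ db₀)`, for `a`, `b` in the coordinate ring. -/
def canIdeal (x : Fin (N + 1) → L) (i : Fin (N + 1)) (a₀ b₀ : L) : Submodule (chart K x i) L :=
  Submodule.span (chart K x i) {c | ∃ a ∈ chart K x i, ∃ b ∈ chart K x i,
    ∀ δ₁ δ₂ : Derivation K L L, jac K a b δ₁ δ₂ = c * jac K a₀ b₀ δ₁ δ₂}

/-- The canonical divisor of `X` is big: for some `m ≥ 1` the sheaf `ω_X^m (-1)` has a nonzero
global section `g (da₀ ∧ db₀)^m`. -/
def CanonicalBig (x : Fin (N + 1) → L) : Prop :=
  ∃ a₀ b₀ : L, (∃ δ₁ δ₂ : Derivation K L L, jac K a₀ b₀ δ₁ δ₂ ≠ 0) ∧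
    ∃ m : ℕ, 1 ≤ m ∧ ∃ g : L, g ≠ 0 ∧ ∀ i, x i ≠ 0 → g * x i ∈ canIdeal K x i a₀ b₀ ^ m

/-- A homogeneous polynomial relation is satisfied by the vector `y` of elements of a
`K`-algebra. -/
def Rel {R : Type*} [CommRing R] [Algebra K R] (y : Fin (N + 1) → R)
    (G : MvPolynomial (Fin (N + 1)) K) : Prop :=
  (∃ d, G.IsHomogeneous d) ∧ MvPolynomial.aeval y G = 0

/-- A differential of a function field `F` of one variable which is regular at all places. -/
def IsRegularEverywhere {F : Type*} [Field F] [Algebra K F] (ω : Ω[F⁄K]) : Prop :=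
  ∀ V : ValuationSubring F, (∀ c : K, algebraMap K F c ∈ V) →
    ω ∈ Submodule.span V {θ : Ω[F⁄K] | ∃ a ∈ V, θ = KaehlerDifferential.D K F a}

/-- `y` is the generic point of a projective curve in `P^N` with function field `F`, whose
geometric genus is at most one. -/
structure IsCurveOfGenusLEOne {F : Type*} [Field F] [Algebra K F] (y : Fin (N + 1) → F) : Prop where
  /-- the ratios of the homogeneous coordinates generate `F` -/
  gen : IntermediateField.adjoin K (Set.range fun p : Fin (N + 1) × Fin (N + 1) => y p.1 / y p.2) = ⊤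
  /-- the dimension is one -/
  dim : Algebra.trdeg K F = 1
  /-- any two everywhere regular differentials are linearly dependent over `K` -/
  genus : ∀ ω₁ ω₂ : Ω[F⁄K], IsRegularEverywhere K ω₁ → IsRegularEverywhere K ω₂ →
    ¬ LinearIndependent K ![ω₁, ω₂]

end Surface

/-- `f` is an analytic map from `G_m` to the projective variety `X` with generic point `x`: the
`f_i` are Laurent series converging on `K^*`, without common zeros, and they satisfy all
homogeneous relations of `X`. -/
structure IsAnalyticMap (K : Type*) [NontriviallyNormedField K] {L : Type*} [Field L] [Algebra K L]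
    {N : ℕ} (x : Fin (N + 1) → L) (f : Fin (N + 1) → Kˣ → K) : Prop where
  an : ∀ i, IsAn (f i)
  ne : ∀ z, ∃ i, f i z ≠ 0
  rel : ∀ G, Rel K x G → ∀ z, MvPolynomial.eval (fun i => f i z) G = 0

end Pool.Agent.NG
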