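import Pool.Agent.NG.Leib

/-!
# The derivation `z d/dz` on meromorphic functions (proved by helper31)
-/

open Filter Topology
open scoped NNReal nonZeroDivisors

set_option linter.unusedSectionVars false

noncomputable section

namespace Pool.Agent.NG

variable {K : Type*} [NontriviallyNormedField K] [IsUltrametricDist K] [CompleteSpace K]
  [IsAlgClosed K] [CharZero K]

/-- `F ↦ F + ε z F'`. -/
def dualHom (K : Type*) [NontriviallyNormedField K] [IsUltrametricDist K] [CompleteSpace K]
    [IsAlgClosed K] [CharZero K] : An K →+* TrivSqZeroExt (Mer K) (Mer K) where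
  toFun F := (am F, am (dA F))
  map_one' := by
    have h : dA (1 : An K) = 0 := by
      have h1 := dA_mul (1 : An K) 1
      rw [one_mul, one_mul] at h1
      have h2 : dA (1 : An K) + dA 1 = dA 1 + 0 := by rw [add_zero]; exact h1.symm
      exact add_left_cancel h2
    rw [h]
    simp
    rfl
  map_mul' F G := by
    refine TrivSqZeroExt.ext ?_ ?_
    · exact am_mul F G
    · change am (dA (F * G)) = am F • am (dA G) + MulOpposite.op (am G) • am (dA F)
      rw [dA_mul, am_add, am_mul, am_mul]
      simp [mul_comm]
  map_zero' := by
    have h : dA (0 : An K) = 0 := by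
      have h1 := dA_add (0 : An K) 0
      rw [add_zero] at h1
      have h2 : dA (0 : An K) + dA 0 = dA 0 + 0 := by rw [add_zero]; exact h1.symm
      exact add_left_cancel h2
    rw [h]
    simp
    rfl
  map_add' F G := by
    refine TrivSqZeroExt.ext ?_ ?_
    · exact am_add F G
    · change am (dA (F + G)) = am (dA F) + am (dA G)
      rw [dA_add, am_add]

/-- The extension of `dualHom` to meromorphic functions. -/
def dualLift (K : Type*) [NontriviallyNormedField K] [IsUltrametricDist K] [CompleteSpace K]
    [IsAlgClosed K] [CharZero K] : Mer K →+* TrivSqZeroExt (Mer K) (Mer K) :=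
  IsLocalization.lift (M := (An K)⁰) (g := dualHom K) (by
    intro F
    rw [TrivSqZeroExt.isUnit_iff_isUnit_fst]
    change IsUnit (am (F : An K))
    exact isUnit_iff_ne_zero.2 fun h => nonZeroDivisors.ne_zero F.2 (am_eq_zero.1 h))

theorem dualLift_am (F : An K) : dualLift K (am F) = (am F, am (dA F)) :=
  IsLocalization.lift_eq _ F

theorem dualLift_fst (h : Mer K) : (dualLift K h).fst = h := by
  have : (TrivSqZeroExt.fstHom (Mer K) (Mer K) (Mer K)).toRingHom.comp (dualLift K) =
      RingHom.id (Mer K) := by
    apply IsLocalization.ringHom_ext (An K)⁰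
    ext F
    change (dualLift K (am F)).fst = am F
    rw [dualLift_am]
    rfl
  exact congrArg (fun φ : Mer K →+* Mer K => φ h) this

/-- The derivation `z d/dz` on meromorphic functions. -/
def der (K : Type*) [NontriviallyNormedField K] [IsUltrametricDist K] [CompleteSpace K]
    [IsAlgClosed K] [CharZero K] : Derivation K (Mer K) (Mer K) :=
  Derivation.mk'
    { toFun := fun h => (dualLift K h).snd
      map_add' := fun g h => by rw [map_add]; rfl
      map_smul' := fun c h => by
        rw [Algebra.smul_def, map_mul, ← am_algebraMap, dualLift_am]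
        have h1 : dA (algebraMap K (An K) c) = 0 := by
          apply coeff_injective
          funext n
          rw [coeff_dA, coeff_algebraMap, coeff_zero]
          by_cases hn : n = 0
          · simp [hn]
          · simp [hn]
        rw [h1, am_zero]
        change am (algebraMap K (An K) c) • (dualLift K h).snd +
          MulOpposite.op (dualLift K h).fst • (0 : Mer K) = _
        rw [smul_zero, add_zero, am_algebraMap]
        exact algebraMap_smul (Mer K) c _ }
    (fun g h => by
      change (dualLift K (g * h)).snd = g • (dualLift K h).snd + h • (dualLift K g).snd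
      rw [map_mul]
      change (dualLift K g).fst • (dualLift K h).snd +
        MulOpposite.op (dualLift K h).fst • (dualLift K g).snd = _
      rw [dualLift_fst, dualLift_fst]
      simp [mul_comm])

@[simp] theorem der_am (F : An K) : der K (am F) = am (dA F) := by
  change (dualLift K (am F)).snd = am (dA F)
  rw [dualLift_am]
  rfl

theorem mv_der (t : ℝ) (h : Mer K) : mv t (der K h) ≤ mv t h := by
  obtain ⟨F, G, hG, e⟩ := exists_frac h
  have hG' : am G ≠ 0 := fun h0 => hG (am_eq_zero.1 h0)
  have e1 := congrArg (der K) e
  rw [Derivation.leibniz, der_am, der_am, smul_eq_mul, smul_eq_mul] at e1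
  have e2 : der K h * am G = am (dA F) - h * am (dA G) := by
    rw [← e1]; ring
  have e3 := congrArg (mv t) e2
  rw [mv_mul, mv_am] at e3
  have hpos : 0 < gn t G := pos_iff_ne_zero.2 fun h0 => hG ((gn_eq_zero t G).1 h0)
  have hF : gn t F = mv t h * gn t G := by
    have := congrArg (mv t) e
    rw [mv_mul, mv_am, mv_am] at this
    exact this.symm
  have e4 : mv t (der K h) * gn t G ≤ mv t h * gn t G := by
    rw [e3]
    refine (mv_sub t _ _).trans (max_le ?_ ?_)
    · rw [mv_am, ← hF]
      exact gn_dA t F
    · rw [mv_mul, mv_am]
      exact mul_le_mul_right (gn_dA t G) _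
  exact le_of_mul_le_mul_right e4 hpos

end Pool.Agent.NG
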