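import Pool.Agent.NG.Surf

/-!
# NG DUAL: dual bases of derivations

`Ω[L⁄K]` has dimension two and `θ₁`, `θ₂` are linearly independent, hence a basis; the two coordinate
functions are linear maps `Ω[L⁄K] → L`, i.e. derivations (`Derivation.liftKaehlerDifferentialEquiv`/
`LinearMap.compDer`, `Derivation.liftKaehlerDifferential_unique`).
`expandD`: apply `pair` to the expansion of `d g`: `pair (d g) D = D g`.
`closed_d`: `δ₁ (δ₂ g) - δ₂ (δ₁ g) = ⁅δ₁, δ₂⁆ g` (`Derivation.commutator_apply`).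
`comm`: if `θ₁`, `θ₂` are closed then `pair θ_i ⁅δ₁, δ₂⁆ = δ₁ (pair θ_i δ₂) - δ₂ (pair θ_i δ₁) = 0`
(derivations of constants), so `⁅δ₁, δ₂⁆ = 0` by `expandD` for `D = ⁅δ₁, δ₂⁆`.
-/

open scoped KaehlerDifferential

noncomputable section

namespace Pool.Agent.NG

variable {K : Type*} [Field K] {L : Type*} [Field L] [Algebra K L]

theorem pair_d (a : L) (δ : Derivation K L L) : pair K (KaehlerDifferential.D K L a) δ = δ a :=
  Derivation.liftKaehlerDifferential_comp_D δ a

theorem pair_add (ω ω' : Ω[L⁄K]) (δ : Derivation K L L) :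
    pair K (ω + ω') δ = pair K ω δ + pair K ω' δ :=
  map_add _ _ _

theorem pair_smul (a : L) (ω : Ω[L⁄K]) (δ : Derivation K L L) :
    pair K (a • ω) δ = a * pair K ω δ := by
  unfold pair
  rw [map_smul, smul_eq_mul]

theorem pair_add_right (ω : Ω[L⁄K]) (δ δ' : Derivation K L L) :
    pair K ω (δ + δ') = pair K ω δ + pair K ω δ' := by
  have h : (δ + δ').liftKaehlerDifferential =
      δ.liftKaehlerDifferential + δ'.liftKaehlerDifferential := by
    apply Derivation.liftKaehlerDifferential_unique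
    ext a
    simp
  unfold pair
  rw [h, LinearMap.add_apply]

theorem pair_smul_right (a : L) (ω : Ω[L⁄K]) (δ : Derivation K L L) :
    pair K ω (a • δ) = a * pair K ω δ := by
  have h : (a • δ).liftKaehlerDifferential = a • δ.liftKaehlerDifferential := by
    apply Derivation.liftKaehlerDifferential_unique
    ext a
    simp
  unfold pair
  rw [h, LinearMap.smul_apply, smul_eq_mul]

theorem closed_d (a : L) : IsClosedForm K (KaehlerDifferential.D K L a) := by
  intro δ₁ δ₂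
  rw [pair_d, pair_d, pair_d, Derivation.commutator_apply]

theorem IsClosedForm.add {ω ω' : Ω[L⁄K]} (h : IsClosedForm K ω) (h' : IsClosedForm K ω') :
    IsClosedForm K (ω + ω') := by
  intro δ₁ δ₂
  rw [pair_add, pair_add, pair_add, map_add, map_add, ← h δ₁ δ₂, ← h' δ₁ δ₂]
  ring

/-- constants times closed forms are closed -/
theorem IsClosedForm.smul {ω : Ω[L⁄K]} (h : IsClosedForm K ω) (c : K) :
    IsClosedForm K (c • ω) := by
  have key : ∀ δ : Derivation K L L, pair K (c • ω) δ = c • pair K ω δ := by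
    intro δ
    rw [← algebraMap_smul L c ω, pair_smul, Algebra.smul_def]
  intro δ₁ δ₂
  rw [key, key, key, Derivation.map_smul, Derivation.map_smul, ← h δ₁ δ₂, smul_sub]

/-- The dual basis of a basis of the one-forms. -/
theorem exists_dual (hfin : Module.finrank L (Ω[L⁄K]) = 2) {θ₁ θ₂ : Ω[L⁄K]}
    (hθ : LinearIndependent L ![θ₁, θ₂]) :
    ∃ δ₁ δ₂ : Derivation K L L, pair K θ₁ δ₁ = 1 ∧ pair K θ₁ δ₂ = 0 ∧ pair K θ₂ δ₁ = 0 ∧
      pair K θ₂ δ₂ = 1 ∧ (∀ ω, ω = pair K ω δ₁ • θ₁ + pair K ω δ₂ • θ₂) ∧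
      (∀ (D : Derivation K L L) (g : L), D g = pair K θ₁ D * δ₁ g + pair K θ₂ D * δ₂ g) ∧
      ∀ (ω : Ω[L⁄K]) (D : Derivation K L L),
        pair K ω D = pair K θ₁ D * pair K ω δ₁ + pair K θ₂ D * pair K ω δ₂ := by
  have hc : Fintype.card (Fin 2) = Module.finrank L (Ω[L⁄K]) := by
    rw [hfin, Fintype.card_fin]
  let b := basisOfLinearIndependentOfCardEqFinrank hθ hc
  have hb : ∀ i, b i = ![θ₁, θ₂] i := fun i => by
    show basisOfLinearIndependentOfCardEqFinrank hθ hc i = _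
    rw [coe_basisOfLinearIndependentOfCardEqFinrank]
  have hb0 : b 0 = θ₁ := hb 0
  have hb1 : b 1 = θ₂ := hb 1
  let δ₁ : Derivation K L L := (b.coord 0).compDer (KaehlerDifferential.D K L)
  let δ₂ : Derivation K L L := (b.coord 1).compDer (KaehlerDifferential.D K L)
  have h1 : ∀ ω, pair K ω δ₁ = b.coord 0 ω := by
    intro ω
    have : δ₁.liftKaehlerDifferential = b.coord 0 := by
      apply Derivation.liftKaehlerDifferential_unique
      ext a
      exact Derivation.liftKaehlerDifferential_comp_D δ₁ a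
    unfold pair
    rw [this]
  have h2 : ∀ ω, pair K ω δ₂ = b.coord 1 ω := by
    intro ω
    have : δ₂.liftKaehlerDifferential = b.coord 1 := by
      apply Derivation.liftKaehlerDifferential_unique
      ext a
      exact Derivation.liftKaehlerDifferential_comp_D δ₂ a
    unfold pair
    rw [this]
  have hexp : ∀ ω, ω = pair K ω δ₁ • θ₁ + pair K ω δ₂ • θ₂ := by
    intro ω
    rw [h1, h2, ← hb0, ← hb1]
    have := b.sum_repr ω
    rw [Fin.sum_univ_two] at this
    exact this.symm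
  have hexp2 : ∀ (ω : Ω[L⁄K]) (D : Derivation K L L),
      pair K ω D = pair K θ₁ D * pair K ω δ₁ + pair K θ₂ D * pair K ω δ₂ := by
    intro ω D
    conv_lhs => rw [hexp ω]
    rw [pair_add, pair_smul, pair_smul]
    ring
  refine ⟨δ₁, δ₂, ?_, ?_, ?_, ?_, hexp, ?_, hexp2⟩
  · rw [h1, ← hb0, Module.Basis.coord_apply, Module.Basis.repr_self, Finsupp.single_eq_same]
  · rw [h2, ← hb0, Module.Basis.coord_apply, Module.Basis.repr_self]
    simp
  · rw [h1, ← hb1, Module.Basis.coord_apply, Module.Basis.repr_self]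
    simp
  · rw [h2, ← hb1, Module.Basis.coord_apply, Module.Basis.repr_self, Finsupp.single_eq_same]
  · intro D g
    have := hexp2 (KaehlerDifferential.D K L g) D
    rwa [pair_d, pair_d, pair_d] at this

theorem comm_of_closed {θ₁ θ₂ : Ω[L⁄K]} {δ₁ δ₂ : Derivation K L L} (h₁ : IsClosedForm K θ₁)
    (h₂ : IsClosedForm K θ₂) (h11 : pair K θ₁ δ₁ = 1) (h12 : pair K θ₁ δ₂ = 0)
    (h21 : pair K θ₂ δ₁ = 0) (h22 : pair K θ₂ δ₂ = 1)
    (hexp : ∀ (D : Derivation K L L) (g : L), D g = pair K θ₁ D * δ₁ g + pair K θ₂ D * δ₂ g)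
    (g : L) : δ₁ (δ₂ g) = δ₂ (δ₁ g) := by
  have e1 := h₁ δ₁ δ₂
  have e2 := h₂ δ₁ δ₂
  rw [h11, h12, map_zero, Derivation.map_one_eq_zero, sub_zero] at e1
  rw [h21, h22, map_zero, Derivation.map_one_eq_zero, sub_zero] at e2
  have e3 := hexp ⁅δ₁, δ₂⁆ g
  rw [← e1, ← e2, Derivation.commutator_apply, zero_mul, zero_mul, add_zero] at e3
  exact sub_eq_zero.1 e3

/-- two exact forms -/
theorem exists_dual_d (hfin : Module.finrank L (Ω[L⁄K]) = 2) {u v : L}
    (h : LinearIndependent L ![KaehlerDifferential.D K L u, KaehlerDifferential.D K L v]) :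
    ∃ δ₁ δ₂ : Derivation K L L, δ₁ u = 1 ∧ δ₂ u = 0 ∧ δ₁ v = 0 ∧ δ₂ v = 1 ∧
      (∀ ω : Ω[L⁄K], ω = pair K ω δ₁ • KaehlerDifferential.D K L u +
        pair K ω δ₂ • KaehlerDifferential.D K L v) ∧
      (∀ (D : Derivation K L L) (g : L), D g = D u * δ₁ g + D v * δ₂ g) ∧
      (∀ (ω : Ω[L⁄K]) (D : Derivation K L L), pair K ω D = D u * pair K ω δ₁ + D v * pair K ω δ₂) ∧
      ∀ g, δ₁ (δ₂ g) = δ₂ (δ₁ g) := by
  obtain ⟨δ₁, δ₂, h11, h12, h21, h22, hω, hD, hP⟩ := exists_dual hfin h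
  have hc := comm_of_closed (closed_d u) (closed_d v) h11 h12 h21 h22 hD
  refine ⟨δ₁, δ₂, ?_, ?_, ?_, ?_, hω, ?_, ?_, hc⟩
  · rw [← pair_d (K := K), h11]
  · rw [← pair_d (K := K), h12]
  · rw [← pair_d (K := K), h21]
  · rw [← pair_d (K := K), h22]
  · intro D g
    have := hD D g
    rwa [pair_d, pair_d] at this
  · intro ω D
    have := hP ω D
    rwa [pair_d, pair_d] at this

end Pool.Agent.NG
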