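import Pool.Agent.NG.Loc

/-!
# TAYLOR: Taylor expansion in `u = log z - log z₀` (module to prove)

`tay z₀ h` is the power series with coefficients `ev z₀ (der^n h) / n!`.

`tay_mul`: Leibniz rule `der^n (g h) = ∑ choose (n, k) der^k g der^(n-k) h` (`Derivation.iterate`-type
lemma or induction; alternatively prove by induction on `n` that the coefficients of `tay (g h)` and
`tay g * tay h` agree, using `tay_der`: both sides satisfy `d/dX (tay g * tay h) =
tay (der g) * tay h + tay g * tay (der h)` and have the same constant coefficient).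
`tay_der`: `d/dX` of `∑ c_n X^n / n!` is `∑ c_(n+1) X^n / n!` (`PowerSeries.derivative`).
`tay_Zs`: constant coefficient `0`, and the coefficient of `X` is `z₀ ≠ 0` since
`der (Zs z₀) = Zc`.
`tay_injective`: if `h ≠ 0` is regular write `h = Zs ^ n u` with `n ≥ 0` (`exists_order`; `n ≥ 0` because `h` is
regular, otherwise `1 = Zs ^ (-n) ... ` evaluates to `0`), `u(z₀) ≠ 0`; then
`tay h = tay (Zs) ^ n * tay u` is not zero because `K⟦X⟧` is a domain.
`factor_of_coeff_zero`: if the first `m` coefficients of `tay h` vanish then `h = Zs ^ m h'` with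
`h'` regular: induction with `exists_factor_reg` (the value of `h` is zero, `h = Zs h'`,
`tay h = tay Zs * tay h'` and `tay Zs` has order one).
-/

open Filter Topology
open scoped NNReal

noncomputable section

namespace Pool.Agent.NG

variable {K : Type*} [NontriviallyNormedField K] [IsUltrametricDist K] [CompleteSpace K]
  [IsAlgClosed K] [CharZero K]

/-- The Taylor series of `h` at `z₀` in the variable `log (z / z₀)`. -/
def tay (z₀ : Kˣ) (h : Mer K) : PowerSeries K :=
  PowerSeries.mk fun n => ev z₀ ((der K)^[n] h) / (n.factorial : K)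

private lemma tay_coeff (z₀ : Kˣ) (h : Mer K) (n : ℕ) :
    PowerSeries.coeff n (tay z₀ h) = ev z₀ ((der K)^[n] h) / (n.factorial : K) :=
  PowerSeries.coeff_mk _ _

theorem constantCoeff_tay (z₀ : Kˣ) (h : Mer K) :
    PowerSeries.constantCoeff (tay z₀ h) = ev z₀ h := by
  rw [← PowerSeries.coeff_zero_eq_constantCoeff_apply, tay_coeff]
  simp

theorem regAt_iterate {z₀ : Kˣ} {h : Mer K} (hh : RegAt z₀ h) (n : ℕ) :
    RegAt z₀ ((der K)^[n] h) := by
  induction n with
  | zero => exact hh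
  | succ n ih =>
    rw [Function.iterate_succ_apply']
    exact ih.der

theorem tay_der (z₀ : Kˣ) (h : Mer K) :
    tay z₀ (der K h) = PowerSeries.derivative K (tay z₀ h) := by
  ext n
  have h1 : ((n : K) + 1) ≠ 0 := Nat.cast_add_one_ne_zero n
  have h2 : ((n.factorial : ℕ) : K) ≠ 0 := Nat.cast_ne_zero.2 n.factorial_ne_zero
  rw [PowerSeries.coeff_derivative, tay_coeff, tay_coeff, Function.iterate_succ_apply,
    Nat.factorial_succ]
  push_cast
  field_simp

theorem tay_add {z₀ : Kˣ} {g h : Mer K} (hg : RegAt z₀ g) (hh : RegAt z₀ h) :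
    tay z₀ (g + h) = tay z₀ g + tay z₀ h := by
  ext n
  rw [map_add, tay_coeff, tay_coeff, tay_coeff, iterate_map_add,
    ev_add (regAt_iterate hg n) (regAt_iterate hh n), add_div]

theorem tay_sub {z₀ : Kˣ} {g h : Mer K} (hg : RegAt z₀ g) (hh : RegAt z₀ h) :
    tay z₀ (g - h) = tay z₀ g - tay z₀ h := by
  ext n
  rw [map_sub, tay_coeff, tay_coeff, tay_coeff, iterate_map_sub,
    ev_sub (regAt_iterate hg n) (regAt_iterate hh n), sub_div]

private lemma tay_mul_coeff (z₀ : Kˣ) (n : ℕ) : ∀ g h : Mer K, RegAt z₀ g → RegAt z₀ h →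
    PowerSeries.coeff n (tay z₀ (g * h)) = PowerSeries.coeff n (tay z₀ g * tay z₀ h) := by
  induction n with
  | zero =>
    intro g h hg hh
    rw [PowerSeries.coeff_zero_eq_constantCoeff_apply,
      PowerSeries.coeff_zero_eq_constantCoeff_apply, map_mul, constantCoeff_tay,
      constantCoeff_tay, constantCoeff_tay, ev_mul hg hh]
  | succ n ih =>
    intro g h hg hh
    have h1 : ((n : K) + 1) ≠ 0 := Nat.cast_add_one_ne_zero n
    apply mul_right_cancel₀ h1
    rw [← PowerSeries.coeff_derivative, ← PowerSeries.coeff_derivative, ← tay_der,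
      Derivation.leibniz, Derivation.leibniz, smul_eq_mul, smul_eq_mul, smul_eq_mul, smul_eq_mul,
      tay_add (hg.mul hh.der) (hh.mul hg.der), map_add, map_add, ih g _ hg hh.der,
      ih h _ hh hg.der, tay_der, tay_der]

theorem tay_mul {z₀ : Kˣ} {g h : Mer K} (hg : RegAt z₀ g) (hh : RegAt z₀ h) :
    tay z₀ (g * h) = tay z₀ g * tay z₀ h := by
  ext n
  exact tay_mul_coeff z₀ n g h hg hh

theorem tay_const (z₀ : Kˣ) (c : K) :
    tay z₀ (algebraMap K (Mer K) c) = PowerSeries.C c := by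
  ext n
  rw [tay_coeff, PowerSeries.coeff_C]
  rcases n with _ | n
  · rw [if_pos rfl, Function.iterate_zero_apply, ev_const, Nat.factorial_zero, Nat.cast_one,
      div_one]
  · have h1 : ev z₀ (0 : Mer K) = 0 := by
      have h2 := ev_const z₀ (0 : K)
      rwa [map_zero] at h2
    rw [if_neg (Nat.succ_ne_zero n), Function.iterate_succ_apply, Derivation.map_algebraMap,
      iterate_map_zero, h1, zero_div]

private lemma tay_Zs_zero (z₀ : Kˣ) : PowerSeries.constantCoeff (tay z₀ (am (Zs z₀))) = 0 := by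
  rw [constantCoeff_tay, ev_am, Zs_apply, sub_self]

private lemma tay_der_Zs (z₀ : Kˣ) : der K (am (Zs z₀)) = am (Zc : An K) := by
  unfold Zs
  rw [am_sub, am_algebraMap, map_sub, Derivation.map_algebraMap, sub_zero, der_am, dA_Zc]

private lemma tay_Zs_one (z₀ : Kˣ) : PowerSeries.coeff 1 (tay z₀ (am (Zs z₀))) = z₀ := by
  rw [tay_coeff, Function.iterate_one, tay_der_Zs, ev_am, Zc_apply, Nat.factorial_one,
    Nat.cast_one, div_one]

private lemma tay_Zs (z₀ : Kˣ) : ∃ v : PowerSeries K, IsUnit v ∧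
    tay z₀ (am (Zs z₀)) = PowerSeries.X * v := by
  obtain ⟨v, hv⟩ := PowerSeries.X_dvd_iff.2 (tay_Zs_zero z₀)
  refine ⟨v, ?_, hv⟩
  rw [PowerSeries.isUnit_iff_constantCoeff]
  have h1 := tay_Zs_one z₀
  rw [hv, PowerSeries.coeff_succ_X_mul 0, PowerSeries.coeff_zero_eq_constantCoeff_apply] at h1
  rw [h1]
  exact z₀.isUnit

private lemma tay_Zs_ne (z₀ : Kˣ) : am (Zs z₀) ≠ 0 := fun h => Zs_ne_zero z₀ (am_eq_zero.1 h)

private lemma tay_zpow_nonneg {z₀ : Kˣ} {h u : Mer K} {n : ℤ} (hh : RegAt z₀ h)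
    (hu0 : ev z₀ u ≠ 0) (e : h = am (Zs z₀) ^ n * u) : 0 ≤ n := by
  by_contra hn
  have hZ := tay_Zs_ne (K := K) z₀
  obtain ⟨m, hm⟩ : ∃ m : ℕ, -n = (m : ℤ) + 1 := ⟨(-n - 1).toNat, by omega⟩
  have h1 : u = am (Zs z₀) * (am (Zs z₀ ^ m) * h) := by
    rw [e, ← mul_assoc, ← mul_assoc, am_pow, ← pow_succ', ← zpow_natCast, ← zpow_add₀ hZ]
    rw [show ((m + 1 : ℕ) : ℤ) + n = 0 by push_cast; omega, zpow_zero, one_mul]
  apply hu0
  rw [h1, ev_mul (regAt_am z₀ _) ((regAt_am z₀ _).mul hh), ev_am, Zs_apply, sub_self, zero_mul]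

private lemma tay_Zs_pow (z₀ : Kˣ) (m : ℕ) :
    tay z₀ (am (Zs z₀) ^ m) = tay z₀ (am (Zs z₀)) ^ m := by
  induction m with
  | zero =>
    rw [pow_zero, pow_zero, ← map_one (algebraMap K (Mer K)), tay_const, map_one]
  | succ m ih =>
    have h1 : RegAt z₀ (am (Zs z₀) ^ m) := by
      rw [← am_pow]
      exact regAt_am z₀ _
    rw [pow_succ, pow_succ, tay_mul h1 (regAt_am z₀ _), ih]

theorem tay_eq_zero {z₀ : Kˣ} {h : Mer K} (hh : RegAt z₀ h) (h0 : tay z₀ h = 0) : h = 0 := by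
  by_contra hne
  obtain ⟨n, u, hu, hu0, e⟩ := exists_order hne z₀
  have hn := tay_zpow_nonneg hh hu0 e
  obtain ⟨m, hm⟩ : ∃ m : ℕ, n = (m : ℤ) := Int.eq_ofNat_of_zero_le hn
  obtain ⟨v, hv, hZv⟩ := tay_Zs (K := K) z₀
  have h1 : RegAt z₀ (am (Zs z₀) ^ m) := by
    rw [← am_pow]
    exact regAt_am z₀ _
  rw [hm, zpow_natCast] at e
  rw [e, tay_mul h1 hu, tay_Zs_pow, hZv] at h0
  rcases mul_eq_zero.1 h0 with h2 | h2
  · have h3 := eq_zero_of_pow_eq_zero h2
    rcases mul_eq_zero.1 h3 with h4 | h4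
    · exact PowerSeries.X_ne_zero h4
    · exact hv.ne_zero h4
  · apply hu0
    rw [← constantCoeff_tay, h2, map_zero]

theorem factor_of_coeff_zero {z₀ : Kˣ} {h : Mer K} (hh : RegAt z₀ h) (m : ℕ)
    (h0 : ∀ n < m, PowerSeries.coeff n (tay z₀ h) = 0) :
    ∃ h' : Mer K, RegAt z₀ h' ∧ h = am (Zs z₀) ^ m * h' := by
  induction m generalizing h with
  | zero => exact ⟨h, hh, by rw [pow_zero, one_mul]⟩
  | succ m ih =>
    have h1 : ev z₀ h = 0 := by
      have h2 := h0 0 (Nat.succ_pos m)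
      rwa [PowerSeries.coeff_zero_eq_constantCoeff_apply, constantCoeff_tay] at h2
    obtain ⟨h₁, hh₁, e₁⟩ := exists_factor_reg hh h1
    obtain ⟨v, hv, hZv⟩ := tay_Zs (K := K) z₀
    have h3 : (PowerSeries.X : PowerSeries K) ^ (m + 1) ∣ tay z₀ h := PowerSeries.X_pow_dvd_iff.2 h0
    rw [e₁, tay_mul (regAt_am z₀ _) hh₁, hZv, pow_succ', mul_assoc,
      mul_dvd_mul_iff_left PowerSeries.X_ne_zero, hv.dvd_mul_left, PowerSeries.X_pow_dvd_iff] at h3
    obtain ⟨h', hh', e'⟩ := ih hh₁ h3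
    exact ⟨h', hh', by rw [e₁, e', pow_succ', mul_assoc]⟩

end Pool.Agent.NG
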