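import Pool.Agent.NG.SurfCh
import Pool.Agent.NG.Dual
import Pool.Agent.NG.Taylor

/-!
# NG: embeddings of function fields into meromorphic functions, flows (definitions)
-/

set_option linter.unusedSectionVars false

open Filter Topology
open scoped NNReal KaehlerDifferential

noncomputable section

namespace Pool.Agent.NG

variable {K : Type*} [NontriviallyNormedField K] [IsUltrametricDist K] [CompleteSpace K]
  [IsAlgClosed K] [CharZero K] {L : Type*} [Field L] [Algebra K L] {N : ℕ}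

/-- The radii at which the `i`-th coordinate dominates. -/
def Tmax (f : Fin (N + 1) → An K) (i : Fin (N + 1)) : Set ℝ := {t | ∀ j, gn t (f j) ≤ gn t (f i)}

theorem exists_mem_Tmax (f : Fin (N + 1) → An K) (t : ℝ) : ∃ i, t ∈ Tmax f i := by
  obtain ⟨i, -, hi⟩ := Finset.exists_max_image Finset.univ (fun i => gn t (f i))
    ⟨0, Finset.mem_univ _⟩
  exact ⟨i, fun j => hi j (Finset.mem_univ j)⟩

/-- An embedding of the function field of `X` into the field of meromorphic functions which is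
attached to the analytic map `f`. -/
structure Emb (x : Fin (N + 1) → L) (f : Fin (N + 1) → An K) where
  ι : L →ₐ[K] Mer K
  zero_iff : ∀ i, x i = 0 ↔ f i = 0
  prop : ∀ i j, ι (x i) * am (f j) = ι (x j) * am (f i)
  nz : ∀ z, ∃ i, (f i).1 z ≠ 0

/-- The situation of the main argument: `θ₁`, `θ₂` are closed regular one-forms, a basis, with dual
basis `D`, `D'`, and `D` is the derivation which corresponds to `z d/dz` on meromorphic
functions. -/
structure Flow (x : Fin (N + 1) → L) (f : Fin (N + 1) → An K) extends Emb x f where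
  surf : IsSmoothSurface K x
  θ₁ : Ω[L⁄K]
  θ₂ : Ω[L⁄K]
  reg₁ : IsRegularForm K x θ₁
  reg₂ : IsRegularForm K x θ₂
  cl₁ : IsClosedForm K θ₁
  cl₂ : IsClosedForm K θ₂
  D : Derivation K L L
  D' : Derivation K L L
  h11 : pair K θ₁ D = 1
  h12 : pair K θ₁ D' = 0
  h21 : pair K θ₂ D = 0
  h22 : pair K θ₂ D' = 1
  flow : ∀ a, ι (D a) = der K (ι a)
  expand : ∀ ω, ω = pair K ω D • θ₁ + pair K ω D' • θ₂
  expandD : ∀ (δ : Derivation K L L) (g : L), δ g = pair K θ₁ δ * D g + pair K θ₂ δ * D' g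

/-- The Jacobian of two functions with respect to the frame `D`, `D'`. -/
def Flow.J {x : Fin (N + 1) → L} {f : Fin (N + 1) → An K} (S : Flow x f) (a b : L) : L :=
  S.D a * S.D' b - S.D b * S.D' a

theorem Flow.J_mul {x : Fin (N + 1) → L} {f : Fin (N + 1) → An K} (S : Flow x f)
    (δ : Derivation K L L) (a b : L) :
    S.J a b * pair K S.θ₂ δ = S.D a * δ b - S.D b * δ a := by
  rw [S.expandD δ b, S.expandD δ a]
  unfold Flow.J
  ring

/-- The point `f(z)` lies in the zero locus of `θ₂`. -/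
def Flow.Hit {x : Fin (N + 1) → L} {f : Fin (N + 1) → An K} (S : Flow x f) (z : Kˣ) : Prop :=
  ∀ i, (f i).1 z ≠ 0 → ∀ δ : Derivation K L L, (∀ a ∈ chart K x i, δ a ∈ chart K x i) →
    ev z (S.ι (pair K S.θ₂ δ)) = 0

/-! ### Bounded and small functions along a filter of radii -/

/-- `g` is bounded along the filter `u`. -/
def Bd (ι : L →ₐ[K] Mer K) (u : Filter ℝ) (g : L) : Prop :=
  ∃ C : ℝ≥0, ∀ᶠ t in u, mv t (ι g) ≤ C

/-- `g` tends to zero along the filter `u`. -/
def Tz (ι : L →ₐ[K] Mer K) (u : Filter ℝ) (g : L) : Prop :=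
  ∀ ε : ℝ≥0, 0 < ε → ∀ᶠ t in u, mv t (ι g) < ε

/-- The filter `u` is centred at the prime `p` of `A`. -/
def Cen (ι : L →ₐ[K] Mer K) (u : Filter ℝ) (A : Subalgebra K L) (p : Ideal A) : Prop :=
  (∀ g ∈ A, Bd ι u g) ∧ ∀ a : A, Tz ι u (a : L) ↔ a ∈ p

/-- Elements of a subalgebra are bounded on a set of radii. -/
def BdOn (ι : L →ₐ[K] Mer K) (T : Set ℝ) (A : Subalgebra K L) : Prop :=
  ∀ g ∈ A, ∃ C : ℝ≥0, ∀ t ∈ T, mv t (ι g) ≤ C

/-- `z` maps to the point `q` of the affine surface `A`. -/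
def At (ι : L →ₐ[K] Mer K) (z : Kˣ) (A : Subalgebra K L) (q : Ideal A) : Prop :=
  (∀ a ∈ A, RegAt z (ι a)) ∧ ∀ a : A, a ∈ q ↔ ev z (ι (a : L)) = 0

/-- The power series of a function along the flow of a derivation. -/
def ser1 (ι : L →ₐ[K] Mer K) (z : Kˣ) (δ : Derivation K L L) (g : L) : PowerSeries K :=
  PowerSeries.mk fun n => ev z (ι (δ^[n] g)) / (n.factorial : K)

/-- The Taylor series of `t - t(z)`. -/
def ups (ι : L →ₐ[K] Mer K) (z : Kˣ) (t : L) : PowerSeries K :=
  tay z (ι t) - PowerSeries.C (ev z (ι t))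

end Pool.Agent.NG
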