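import Pool.Agent.NG.Surf

/-!
# NG TRD: primes of a surface (module to prove)

`alg_mod`: `p ≠ ⊥` in the domain `A` of transcendence degree two, so any two elements of `A / p` are
algebraically dependent over `K` (if `a`, `c` were independent modulo `p`, then with `h ∈ p`, `h ≠ 0` the three elements `a, c, h`
are algebraically dependent in `A`: a relation `∑ h^i P_i(a, c) = 0` with, after division by a power of `h`, `P_0 ≠ 0`, gives
`P_0(a, c) ∈ p`). So there is `P ≠ 0` in two variables with `P(a, c) ∈ p`; dividing by a power of the second variable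
(`c ∉ p`, `p` prime) we may assume that `P(X, 0) ≠ 0`; this is the polynomial, and `P(a, c) = P(a, 0) + c * (...)`.
`isPoint_of_lt`: take `c ∈ q`, `c ∉ p`. By `alg_mod` every `a ∈ A` satisfies `P(a) ∈ q` with `P ≠ 0`; `K` is
algebraically closed, so `P` is a product of linear factors (and a constant), one of them is in `q`.
`finite_points`: a prime `q ≥ p` containing `c ∉ p` is a point by `isPoint_of_lt`, hence maximal; so it is a minimal prime
over `p ⊔ span {c}` (a prime `q'` with `p ⊔ span {c} ≤ q' ≤ q` is maximal too); `A` is noetherian (finitely generated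
algebra), so there are finitely many (`Ideal.finite_minimalPrimes_of_isNoetherianRing`).
-/

noncomputable section

namespace Pool.Agent.NG

/-- lowest coefficient of a relation -/
private theorem trd_low {R A : Type*} [CommRing R] [CommRing A] (φ : R →+* A) (x : A) (I : Ideal A)
    (hI : ∀ y, x * y ∈ I → y ∈ I) : ∀ (n : ℕ) (f : Polynomial R), f.natDegree ≤ n → f ≠ 0 →
      Polynomial.eval₂ φ x f ∈ I → ∃ (r : R) (g : A), r ≠ 0 ∧ φ r + x * g ∈ I := by
  intro n
  induction n with
  | zero =>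
    intro f hf hf0 he
    have h1 : f = Polynomial.C (f.coeff 0) := Polynomial.eq_C_of_natDegree_le_zero hf
    refine ⟨f.coeff 0, 0, fun h => hf0 (by rw [h1, h, Polynomial.C_0]), ?_⟩
    rw [h1, Polynomial.eval₂_C] at he
    simpa using he
  | succ n ih =>
    intro f hf hf0 he
    have h1 := Polynomial.divX_mul_X_add f
    have h2 : Polynomial.eval₂ φ x f =
        Polynomial.eval₂ φ x f.divX * x + φ (f.coeff 0) := by
      conv_lhs => rw [← h1]
      rw [Polynomial.eval₂_add, Polynomial.eval₂_mul_X, Polynomial.eval₂_C]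
    by_cases h0 : f.coeff 0 = 0
    · have hdeg : f.divX.natDegree ≤ n := by
        rw [Polynomial.natDegree_divX_eq_natDegree_tsub_one]
        omega
      have hne : f.divX ≠ 0 := by
        intro h
        apply hf0
        rw [← h1, h, h0]
        simp
      refine ih f.divX hdeg hne (hI _ ?_)
      rw [h2, h0, map_zero, add_zero, mul_comm] at he
      exact he
    · refine ⟨f.coeff 0, Polynomial.eval₂ φ x f.divX, h0, ?_⟩
      rw [h2] at he
      rwa [add_comm, mul_comm]

/-- the same for polynomials in several variables -/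
private theorem trd_step {K A : Type*} [Field K] [CommRing A] [Algebra K A] (n : ℕ) (x0 : A)
    (x : Fin n → A) (I : Ideal A) (hI : ∀ y, x0 * y ∈ I → y ∈ I)
    (F : MvPolynomial (Fin (n + 1)) K) (hF : F ≠ 0)
    (hx : MvPolynomial.aeval (Fin.cons x0 x : Fin (n + 1) → A) F ∈ I) :
    ∃ (G : MvPolynomial (Fin n) K) (g : A), G ≠ 0 ∧ MvPolynomial.aeval x G + x0 * g ∈ I := by
  have key : MvPolynomial.aeval (Fin.cons x0 x : Fin (n + 1) → A) F =
      Polynomial.eval₂ (MvPolynomial.aeval x : MvPolynomial (Fin n) K →ₐ[K] A).toRingHom x0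
        (MvPolynomial.finSuccEquiv K n F) := by
    let Φ : MvPolynomial (Fin (n + 1)) K →ₐ[K] A :=
      (Polynomial.eval₂AlgHom (MvPolynomial.aeval x : MvPolynomial (Fin n) K →ₐ[K] A) x0
        (fun _ => Commute.all _ _)).comp (MvPolynomial.finSuccEquiv K n : _ →ₐ[K] _)
    have h1 : (MvPolynomial.aeval (Fin.cons x0 x : Fin (n + 1) → A)) = Φ := by
      apply MvPolynomial.algHom_ext
      intro i
      refine Fin.cases ?_ (fun j => ?_) i
      · simp [Φ, MvPolynomial.finSuccEquiv_X_zero]
      · simp [Φ, MvPolynomial.finSuccEquiv_X_succ]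
    rw [h1]
    rfl
  rw [key] at hx
  obtain ⟨r, g, hr, h⟩ := trd_low _ x0 I hI _ _ le_rfl (by
    intro h
    apply hF
    exact (map_eq_zero_iff _ (MvPolynomial.finSuccEquiv K n).injective).1 h) hx
  exact ⟨r, g, hr, h⟩

variable {K : Type*} [Field K] [IsAlgClosed K] {L : Type*} [Field L] [Algebra K L]
  {A : Subalgebra K L}

theorem Surf.isNoetherianRing (hA : Surf K A) : IsNoetherianRing A := by
  have h : Algebra.FiniteType K A := (Subalgebra.fg_iff_finiteType A).1 hA.fg
  exact Algebra.FiniteType.isNoetherianRing K A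

theorem isMaximal_of_isPoint {p : Ideal A} [hp : p.IsPrime] (h : IsPoint K A p) :
    p.IsMaximal := by
  rw [Ideal.isMaximal_iff]
  refine ⟨fun h1 => hp.ne_top ((Ideal.eq_top_iff_one p).2 h1), ?_⟩
  intro J x hpJ hx hxJ
  obtain ⟨c, hc⟩ := h x
  have hc0 : c ≠ 0 := by
    rintro rfl
    apply hx
    simpa using hc
  have h2 : algebraMap K A c ∈ J := by
    have := J.sub_mem hxJ (hpJ hc)
    rwa [sub_sub_cancel] at this
  have h3 := J.mul_mem_left (algebraMap K A c⁻¹) h2
  rwa [← map_mul, inv_mul_cancel₀ hc0, map_one] at h3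

omit [IsAlgClosed K] in
theorem alg_mod (hA : Surf K A) {p : Ideal A} [p.IsPrime] (hp : p ≠ ⊥) (a : A) {c : A}
    (hc : c ∉ p) :
    ∃ (P : Polynomial K) (g : A), P ≠ 0 ∧ Polynomial.aeval a P - c * g ∈ p := by
  obtain ⟨h, hhp, hh0⟩ := Submodule.exists_mem_ne_zero_of_ne_bot hp
  -- the three elements are dependent
  let y : Fin 3 → A := Fin.cons h (Fin.cons c (fun _ : Fin 1 => a))
  have hdep : ¬ AlgebraicIndependent K (fun i => (y i : L)) := by
    intro hi
    have h1 := hi.lift_cardinalMk_le_trdeg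
    rw [hA.dim] at h1
    simp only [Cardinal.mk_fintype, Fintype.card_fin, Cardinal.lift_natCast,
      Cardinal.lift_ofNat] at h1
    exact absurd h1 (by norm_num)
  have hdepA : ¬ AlgebraicIndependent K y := by
    intro hi
    exact hdep (hi.map' (f := A.val) Subtype.val_injective)
  rw [algebraicIndependent_iff] at hdepA
  push Not at hdepA
  obtain ⟨F, hF, hF0⟩ := hdepA
  -- remove `h`
  obtain ⟨G1, g1, hG1, e1⟩ := trd_step 2 h (Fin.cons c (fun _ : Fin 1 => a)) (⊥ : Ideal A)
    (fun z hz => by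
      rw [Ideal.mem_bot] at hz ⊢
      exact (mul_eq_zero.1 hz).resolve_left hh0) F hF0 (by
      rw [Ideal.mem_bot]
      exact hF)
  have e1' : MvPolynomial.aeval (Fin.cons c (fun _ : Fin 1 => a) : Fin 2 → A) G1 ∈ p := by
    rw [Ideal.mem_bot, add_eq_zero_iff_eq_neg] at e1
    rw [e1]
    exact p.neg_mem (p.mul_mem_right _ hhp)
  -- remove `c`
  obtain ⟨G2, g2, hG2, e2⟩ := trd_step 1 c (fun _ : Fin 1 => a) p
    (fun z hz => (Ideal.IsPrime.mem_or_mem ‹_› hz).resolve_left hc) G1 hG1 e1'
  -- one variable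
  refine ⟨MvPolynomial.uniqueAlgEquiv K (Fin 1) G2, -g2, ?_, ?_⟩
  · intro h
    apply hG2
    exact (map_eq_zero_iff _ (MvPolynomial.uniqueAlgEquiv K (Fin 1)).injective).1 h
  · have e3 : Polynomial.aeval a (MvPolynomial.uniqueAlgEquiv K (Fin 1) G2) =
        MvPolynomial.aeval (fun _ : Fin 1 => a) G2 := by
      have h1 : ((Polynomial.aeval a).comp
          (MvPolynomial.uniqueAlgEquiv K (Fin 1) : MvPolynomial (Fin 1) K →ₐ[K] Polynomial K)) =
          MvPolynomial.aeval (fun _ : Fin 1 => a) := by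
        apply MvPolynomial.algHom_ext
        intro i
        simp
      exact congrArg (fun f => f G2) h1
    rw [e3, mul_neg, sub_neg_eq_add]
    exact e2

theorem isPoint_of_lt (hA : Surf K A) {p q : Ideal A} [p.IsPrime] [q.IsPrime] (hp : p ≠ ⊥)
    (h : p < q) : IsPoint K A q := by
  obtain ⟨c, hcq, hcp⟩ := Set.exists_of_ssubset h
  intro a
  obtain ⟨P, g, hP, hPg⟩ := alg_mod hA hp a hcp
  have h1 : Polynomial.aeval a P ∈ q := by
    have := q.add_mem (h.le hPg) (q.mul_mem_right g hcq)
    rwa [sub_add_cancel] at this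
  have hs := (IsAlgClosed.splits P).eq_prod_roots
  rw [hs, map_mul, Polynomial.aeval_C, map_multiset_prod, Multiset.map_map] at h1
  rcases Ideal.IsPrime.mem_or_mem ‹q.IsPrime› h1 with h2 | h2
  · exfalso
    have h3 : P.leadingCoeff ≠ 0 := Polynomial.leadingCoeff_ne_zero.2 hP
    have h4 := q.mul_mem_left (algebraMap K A P.leadingCoeff⁻¹) h2
    rw [← map_mul, inv_mul_cancel₀ h3, map_one] at h4
    exact Ideal.IsPrime.ne_top ‹q.IsPrime› ((Ideal.eq_top_iff_one q).2 h4)
  · obtain ⟨b, hb, hb2⟩ := (Ideal.IsPrime.multiset_prod_mem_iff_exists_mem ‹q.IsPrime› _).1 h2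
    obtain ⟨r, -, rfl⟩ := Multiset.mem_map.1 hb
    refine ⟨r, ?_⟩
    simpa using hb2

theorem finite_points (hA : Surf K A) {p : Ideal A} [p.IsPrime] (hp : p ≠ ⊥) {c : A}
    (hc : c ∉ p) : {q : Ideal A | q.IsPrime ∧ p ≤ q ∧ c ∈ q}.Finite := by
  have hN := hA.isNoetherianRing
  refine (Ideal.finite_minimalPrimes_of_isNoetherianRing A (p ⊔ Ideal.span {c})).subset ?_
  rintro q ⟨hq, hpq, hcq⟩
  refine ⟨⟨hq, sup_le hpq ((Ideal.span_singleton_le_iff_mem q).2 hcq)⟩, ?_⟩
  rintro q' ⟨hq', hle'⟩ hqq'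
  have hcq' : c ∈ q' := hle' (Ideal.mem_sup_right (Ideal.mem_span_singleton_self c))
  have hpq' : p ≤ q' := le_sup_left.trans hle'
  have hlt : p < q' := lt_of_le_of_ne hpq' (by
    rintro rfl
    exact hc hcq')
  have hmax : q'.IsMaximal := isMaximal_of_isPoint (isPoint_of_lt hA hp hlt)
  exact (hmax.eq_of_le hq.ne_top hqq').ge

end Pool.Agent.NG
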