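import Pool.Agent.NG.EmbDefs
import Pool.Agent.NG.Trd

/-!
# NG EMBEX: the embedding of the function field (module to prove)

Choose `i` with `f i ≠ 0` (`hnz 1`). `x i ≠ 0`, otherwise `X_i` is a homogeneous relation and `f i = 0`. Define `φ : chart K x i →ₐ[K] Mer K` with `x j / x i ↦ am (f j) / am (f i)`: let `e : MvPolynomial (Fin (N+1)) K →ₐ[K] L`, `X j ↦ x j / x i`, with range
`chart K x i`; if `e P = 0` then `G := ∑ monomials of P times X_i ^ (d - degree)` (homogenisation in degree `d = totalDegree P`) is homogeneous with `aeval x G = (x i) ^ d * e P = 0`, so `aeval f G = 0`, and `0 = aeval f G = f_i ^ d * P(f_j / f_i)` in `Mer K`. So the map factors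
(`Ideal.Quotient.liftₐ` / `AlgHom.quotientKerEquivRange`).
Kernel `p` of `φ`: prime. If `p ≠ ⊥`: any two elements of `A / p` are algebraically dependent (see `alg_mod` in Trd.lean: for `a, c ∈ A` there is a nonzero `P` in two variables with `P(a, c) ∈ p`), so the fraction field of the image of `φ` has transcendence degree at most one; but
it is `ratF f` (generated by the `f_j / f_i`) and contains `u`, `v`: contradiction. So `φ` is injective and extends to `ι : L →ₐ[K] Mer K` (`Surf.frac`, `IsFractionRing.liftAlgHom` or `IsLocalization.lift`).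
`ι (x j / x i) = am (f j) / am (f i)` gives `prop` and `zero_iff`.
-/

set_option linter.unusedSectionVars false

open Filter Topology
open scoped NNReal KaehlerDifferential

noncomputable section

namespace Pool.Agent.NG



/-- homogenisation with respect to the variable `i` -/
private def ebHom {K : Type*} [Field K] {N : ℕ} (i : Fin (N + 1)) (P : MvPolynomial (Fin (N + 1)) K) :
    MvPolynomial (Fin (N + 1)) K :=
  ∑ m ∈ P.support, MvPolynomial.monomial (m + Finsupp.single i (P.totalDegree - m.degree))
    (P.coeff m)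

private lemma ebHom_homogeneous {K : Type*} [Field K] {N : ℕ} (i : Fin (N + 1))
    (P : MvPolynomial (Fin (N + 1)) K) : (ebHom i P).IsHomogeneous P.totalDegree := by
  unfold ebHom
  refine MvPolynomial.IsHomogeneous.sum _ _ _ fun m hm => ?_
  refine MvPolynomial.isHomogeneous_monomial _ ?_
  have h1 : m.degree ≤ P.totalDegree := by
    have := MvPolynomial.le_totalDegree hm
    simpa [Finsupp.degree, Finsupp.sum] using this
  rw [map_add, Finsupp.degree_single]
  omega

private lemma ebHom_aeval {K F : Type*} [Field K] [Field F] [Algebra K F] {N : ℕ} (i : Fin (N + 1))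
    (P : MvPolynomial (Fin (N + 1)) K) (y : Fin (N + 1) → F) (hy : y i ≠ 0) :
    MvPolynomial.aeval y (ebHom i P) =
      y i ^ P.totalDegree * MvPolynomial.aeval (fun j => y j / y i) P := by
  have h0 : MvPolynomial.aeval (fun j => y j / y i) P = ∑ m ∈ P.support,
      MvPolynomial.aeval (fun j => y j / y i) (MvPolynomial.monomial m (P.coeff m)) := by
    conv_lhs => rw [P.as_sum]
    rw [map_sum]
  unfold ebHom
  rw [h0, map_sum, Finset.mul_sum]
  refine Finset.sum_congr rfl fun m hm => ?_
  rw [MvPolynomial.aeval_monomial, MvPolynomial.aeval_monomial]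
  have h1 : m.degree ≤ P.totalDegree := by
    have := MvPolynomial.le_totalDegree hm
    simpa [Finsupp.degree, Finsupp.sum] using this
  have h2 : (m + Finsupp.single i (P.totalDegree - m.degree)).prod (fun j k => y j ^ k) =
      m.prod (fun j k => y j ^ k) * y i ^ (P.totalDegree - m.degree) := by
    have ha : (Finsupp.single i (P.totalDegree - m.degree)).prod (fun j k => y j ^ k) =
        y i ^ (P.totalDegree - m.degree) :=
      Finsupp.prod_single_index (h := fun j k => y j ^ k) (pow_zero _)
    rw [← ha]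
    exact Finsupp.prod_add_index' (fun _ => pow_zero _) (fun _ _ _ => pow_add _ _ _)
  have h3 : m.prod (fun j k => (y j / y i) ^ k) = m.prod (fun j k => y j ^ k) / y i ^ m.degree := by
    simp only [Finsupp.prod, div_pow, Finset.prod_div_distrib]
    congr 1
    rw [Finset.prod_pow_eq_pow_sum]
    rfl
  rw [h2, h3]
  have h4 : y i ^ P.totalDegree = y i ^ (P.totalDegree - m.degree) * y i ^ m.degree := by
    rw [← pow_add]; congr 1; omega
  rw [h4]
  have h5 : y i ^ m.degree ≠ 0 := pow_ne_zero _ hy
  field_simp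

open scoped IntermediateField.algebraAdjoinAdjoin in
private lemma ebPair {K M : Type*} [Field K] [Field M] [Algebra K M] (S : Set M) {u v : M}
    (hu : u ∈ IntermediateField.adjoin K S) (hv : v ∈ IntermediateField.adjoin K S)
    (huv : AlgebraicIndependent K ![u, v]) :
    ∃ b₁ ∈ S, ∃ b₂ ∈ S, AlgebraicIndependent K ![b₁, b₂] := by
  let s : Set (Algebra.adjoin K S) := ((↑) : Algebra.adjoin K S → M) ⁻¹' S
  have hs : Algebra.adjoin K s = ⊤ := Algebra.adjoin_adjoin_coe_preimage
  have hal : Algebra.IsAlgebraic (Algebra.adjoin K s) (Algebra.adjoin K S) := by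
    refine ⟨fun b => ?_⟩
    have hb : b ∈ Algebra.adjoin K s := by rw [hs]; exact Algebra.mem_top
    exact isAlgebraic_algebraMap (⟨b, hb⟩ : Algebra.adjoin K s)
  obtain ⟨U, hU, hUb⟩ := exists_isTranscendenceBasis_subset (R := K) s
  have h1 : Algebra.trdeg K (IntermediateField.adjoin K S) = Algebra.trdeg K (Algebra.adjoin K S) := by
    have h3 : Algebra.trdeg (Algebra.adjoin K S) (IntermediateField.adjoin K S) = 0 :=
      trdeg_eq_zero
    rw [← trdeg_add_eq K (Algebra.adjoin K S), h3, add_zero]
  have h2 : 2 ≤ Algebra.trdeg K (IntermediateField.adjoin K S) := by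
    let y : Fin 2 → IntermediateField.adjoin K S := ![⟨u, hu⟩, ⟨v, hv⟩]
    have hy : AlgebraicIndependent K y := by
      refine AlgebraicIndependent.of_comp
        (IntermediateField.val (IntermediateField.adjoin K S)) ?_
      convert huv using 1
      funext i
      fin_cases i <;> rfl
    have h1 := hy.lift_cardinalMk_le_trdeg
    simpa using h1
  have h3 : 2 ≤ Cardinal.mk U := by
    rw [hUb.cardinalMk_eq_trdeg, ← h1]
    exact h2
  obtain ⟨a, b, hab⟩ := Cardinal.two_le_iff.1 h3
  refine ⟨(a : Algebra.adjoin K S), hU a.2, (b : Algebra.adjoin K S), hU b.2, ?_⟩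
  have h4 : AlgebraicIndependent K (fun i : U => ((i : Algebra.adjoin K S) : M)) :=
    hUb.1.map' (f := (Algebra.adjoin K S).val) Subtype.val_injective
  have h5 := h4.comp ![a, b] (by
    intro i j hij
    fin_cases i <;> fin_cases j <;> simp_all)
  convert h5 using 1
  funext i
  fin_cases i <;> rfl


/-! Algebraic dependence (as in `Trd.lean`). -/

private theorem eb_low {R A : Type*} [CommRing R] [CommRing A] [IsDomain A] (φ : R →+* A) {x : A}
    (hx : x ≠ 0) : ∀ (n : ℕ) (f : Polynomial R), f.natDegree ≤ n → f ≠ 0 →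
      Polynomial.eval₂ φ x f = 0 → ∃ (r : R) (g : A), r ≠ 0 ∧ φ r + x * g = 0 := by
  intro n
  induction n with
  | zero =>
    intro f hf hf0 he
    have h1 : f = Polynomial.C (f.coeff 0) := Polynomial.eq_C_of_natDegree_le_zero hf
    refine ⟨f.coeff 0, 0, fun h => hf0 (by rw [h1, h, Polynomial.C_0]), ?_⟩
    rw [h1, Polynomial.eval₂_C] at he
    simpa using he
  | succ n ih =>
    intro f hf hf0 he
    have h1 := Polynomial.divX_mul_X_add f
    have h2 : Polynomial.eval₂ φ x f =
        Polynomial.eval₂ φ x f.divX * x + φ (f.coeff 0) := by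
      conv_lhs => rw [← h1]
      rw [Polynomial.eval₂_add, Polynomial.eval₂_mul_X, Polynomial.eval₂_C]
    by_cases h0 : f.coeff 0 = 0
    · have hdeg : f.divX.natDegree ≤ n := by
        rw [Polynomial.natDegree_divX_eq_natDegree_tsub_one]
        omega
      have hne : f.divX ≠ 0 := by
        intro h
        apply hf0
        rw [← h1, h, h0]
        simp
      refine ih f.divX hdeg hne ?_
      rw [h2, h0, map_zero, add_zero] at he
      exact (mul_eq_zero.1 he).resolve_right hx
    · refine ⟨f.coeff 0, Polynomial.eval₂ φ x f.divX, h0, ?_⟩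
      rw [h2] at he
      rwa [add_comm, mul_comm]

private theorem eb_step {K A : Type*} [Field K] [CommRing A] [IsDomain A] [Algebra K A] (n : ℕ)
    {x0 : A} (x : Fin n → A) (hx0 : x0 ≠ 0)
    (F : MvPolynomial (Fin (n + 1)) K) (hF : F ≠ 0)
    (hx : MvPolynomial.aeval (Fin.cons x0 x : Fin (n + 1) → A) F = 0) :
    ∃ (G : MvPolynomial (Fin n) K) (g : A), G ≠ 0 ∧ MvPolynomial.aeval x G + x0 * g = 0 := by
  have key : MvPolynomial.aeval (Fin.cons x0 x : Fin (n + 1) → A) F =
      Polynomial.eval₂ (MvPolynomial.aeval x : MvPolynomial (Fin n) K →ₐ[K] A).toRingHom x0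
        (MvPolynomial.finSuccEquiv K n F) := by
    let Φ : MvPolynomial (Fin (n + 1)) K →ₐ[K] A :=
      (Polynomial.eval₂AlgHom (MvPolynomial.aeval x : MvPolynomial (Fin n) K →ₐ[K] A) x0
        (fun _ => Commute.all _ _)).comp (MvPolynomial.finSuccEquiv K n : _ →ₐ[K] _)
    have h1 : (MvPolynomial.aeval (Fin.cons x0 x : Fin (n + 1) → A)) = Φ := by
      apply MvPolynomial.algHom_ext
      intro i
      refine Fin.cases ?_ (fun j => ?_) i
      · simp [Φ, MvPolynomial.finSuccEquiv_X_zero]
      · simp [Φ, MvPolynomial.finSuccEquiv_X_succ]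
    rw [h1]
    rfl
  rw [key] at hx
  obtain ⟨r, g, hr, h⟩ := eb_low _ hx0 _ _ le_rfl (by
    intro h
    apply hF
    exact (map_eq_zero_iff _ (MvPolynomial.finSuccEquiv K n).injective).1 h) hx
  exact ⟨r, g, hr, h⟩

/-- If the transcendence degree is two and `φ` is not injective, then two elements of the image
are dependent. -/
private theorem eb_dep {K A M : Type*} [Field K] [CommRing A] [IsDomain A] [Algebra K A] [Field M]
    [Algebra K M] (hdep : ∀ y : Fin 3 → A, ¬ AlgebraicIndependent K y) (φ : A →ₐ[K] M) {h : A}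
    (h0 : h ≠ 0) (hφ : φ h = 0) (a c : A) : ¬ AlgebraicIndependent K ![φ a, φ c] := by
  intro hac
  have h1 := hdep (Fin.cons h ![a, c])
  rw [algebraicIndependent_iff] at h1
  push Not at h1
  obtain ⟨F, hF, hF0⟩ := h1
  obtain ⟨G, g, hG, e⟩ := eb_step 2 ![a, c] h0 F hF0 hF
  have e2 : MvPolynomial.aeval (![φ a, φ c] : Fin 2 → M) G = 0 := by
    have e3 := congrArg φ e
    rw [map_add, map_mul, hφ, zero_mul, add_zero, map_zero, MvPolynomial.comp_aeval_apply]
      at e3
    rw [← e3]
    congr 1
    congr 1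
    funext i
    fin_cases i <;> rfl
  exact hG ((algebraicIndependent_iff.1 hac) G e2)

variable {K : Type*} [NontriviallyNormedField K] [IsUltrametricDist K] [CompleteSpace K]
  [IsAlgClosed K] [CharZero K] {L : Type*} [Field L] [Algebra K L] {N : ℕ}

/-- The field generated by the ratios of the coordinate functions. -/
def ratF (f : Fin (N + 1) → An K) : IntermediateField K (Mer K) :=
  IntermediateField.adjoin K (Set.range fun p : Fin (N + 1) × Fin (N + 1) =>
    am (f p.1) / am (f p.2))

private theorem eb_zero {x : Fin (N + 1) → L} {f : Fin (N + 1) → An K}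
    (hrel : ∀ G : MvPolynomial (Fin (N + 1)) K, Rel K x G → MvPolynomial.aeval f G = 0)
    {i : Fin (N + 1)} (h : x i = 0) : f i = 0 := by
  have h1 := hrel (MvPolynomial.X i) ⟨⟨1, MvPolynomial.isHomogeneous_X K i⟩, by
    rw [MvPolynomial.aeval_X, h]⟩
  rwa [MvPolynomial.aeval_X] at h1

private theorem eb_am_aeval (f : Fin (N + 1) → An K) (G : MvPolynomial (Fin (N + 1)) K) :
    MvPolynomial.aeval (fun j => am (f j)) G = am (MvPolynomial.aeval f G) := by
  exact (MvPolynomial.comp_aeval_apply f (IsScalarTower.toAlgHom K (An K) (Mer K)) G).symm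

private theorem eb_ker {x : Fin (N + 1) → L} {f : Fin (N + 1) → An K}
    (hrel : ∀ G : MvPolynomial (Fin (N + 1)) K, Rel K x G → MvPolynomial.aeval f G = 0)
    {i : Fin (N + 1)} (hf : f i ≠ 0) (P : MvPolynomial (Fin (N + 1)) K)
    (hP : MvPolynomial.aeval (fun j => x j / x i) P = 0) :
    MvPolynomial.aeval (fun j => am (f j) / am (f i)) P = 0 := by
  have hx : x i ≠ 0 := fun h => hf (eb_zero hrel h)
  have hfi : am (f i) ≠ 0 := fun h => hf (am_eq_zero.1 h)
  have h1 : Rel K x (ebHom i P) := by
    refine ⟨⟨_, ebHom_homogeneous i P⟩, ?_⟩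
    rw [ebHom_aeval i P x hx, hP, mul_zero]
  have h2 := ebHom_aeval i P (fun j => am (f j)) hfi
  rw [eb_am_aeval, hrel _ h1, am_zero] at h2
  exact (mul_eq_zero.1 h2.symm).resolve_left (pow_ne_zero _ hfi)

theorem exists_emb {x : Fin (N + 1) → L} (hx : IsSmoothSurface K x) {f : Fin (N + 1) → An K}
    (hnz : ∀ z, ∃ i, (f i).1 z ≠ 0)
    (hrel : ∀ G : MvPolynomial (Fin (N + 1)) K, Rel K x G → MvPolynomial.aeval f G = 0)
    {u v : Mer K} (hu : u ∈ ratF f) (hv : v ∈ ratF f)
    (huv : AlgebraicIndependent K ![u, v]) : Nonempty (Emb x f) := by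
  obtain ⟨i, hi⟩ := hnz 1
  have hfi : f i ≠ 0 := by
    rintro h
    rw [h] at hi
    exact hi rfl
  have hxi : x i ≠ 0 := fun h => hfi (eb_zero hrel h)
  have hami : am (f i) ≠ 0 := fun h => hfi (am_eq_zero.1 h)
  have hA := surf_chart hx hxi
  -- the map from polynomials onto the chart
  let r : Fin (N + 1) → chart K x i := fun j => ⟨x j / x i, Algebra.subset_adjoin ⟨j, rfl⟩⟩
  let π : MvPolynomial (Fin (N + 1)) K →ₐ[K] chart K x i := MvPolynomial.aeval r
  have hπval : ∀ P, ((π P : chart K x i) : L) = MvPolynomial.aeval (fun j => x j / x i) P := by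
    intro P
    exact MvPolynomial.comp_aeval_apply r (chart K x i).val P
  have hπ : Function.Surjective π := by
    rintro ⟨y, hy⟩
    have hy' : y ∈ (MvPolynomial.aeval (fun j => x j / x i) :
        MvPolynomial (Fin (N + 1)) K →ₐ[K] L).range := by
      rw [← Algebra.adjoin_range_eq_range_aeval]
      exact hy
    obtain ⟨p, hp⟩ := hy'
    exact ⟨p, Subtype.ext ((hπval p).trans hp)⟩
  let φ : chart K x i →ₐ[K] Mer K := AlgHom.liftOfSurjective π hπ
    (MvPolynomial.aeval (fun j => am (f j) / am (f i))) (by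
      intro P hP
      have hP' : π P = 0 := hP
      exact eb_ker hrel hfi P (by rw [← hπval, hP']; rfl))
  have hφ : ∀ j, φ (r j) = am (f j) / am (f i) := by
    intro j
    have h1 : r j = π (MvPolynomial.X j) := (MvPolynomial.aeval_X _ _).symm
    rw [h1]
    change AlgHom.liftOfSurjective π hπ _ _ (π (MvPolynomial.X j)) = _
    rw [AlgHom.liftOfSurjective_apply, MvPolynomial.aeval_X]
  -- injectivity
  have hinj : Function.Injective φ := by
    rw [injective_iff_map_eq_zero]
    intro h hh
    by_contra h0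
    have hsub : ratF f ≤ IntermediateField.adjoin K (Set.range φ) := by
      unfold ratF
      rw [IntermediateField.adjoin_le_iff]
      rintro _ ⟨p, rfl⟩
      have h2 : am (f p.1) / am (f p.2) = (am (f p.1) / am (f i)) / (am (f p.2) / am (f i)) := by
        rw [div_div_div_cancel_right₀ hami]
      change am (f p.1) / am (f p.2) ∈ _
      rw [h2, ← hφ, ← hφ]
      exact div_mem (IntermediateField.subset_adjoin K _ ⟨_, rfl⟩)
        (IntermediateField.subset_adjoin K _ ⟨_, rfl⟩)
    obtain ⟨_, ⟨a, rfl⟩, _, ⟨c, rfl⟩, hac⟩ := ebPair _ (hsub hu) (hsub hv) huv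
    refine eb_dep (fun y hy => ?_) φ h0 hh a c hac
    have h1 := (hy.map' (f := (chart K x i).val) Subtype.val_injective).lift_cardinalMk_le_trdeg
    rw [hx.dim] at h1
    simp only [Cardinal.mk_fintype, Fintype.card_fin, Cardinal.lift_natCast,
      Cardinal.lift_ofNat] at h1
    exact absurd h1 (by norm_num)
  -- the extension to the function field
  have hfrac : IsFractionRing (chart K x i) L := by
    refine ⟨?_, ?_, ?_⟩
    · rintro ⟨y, hy⟩
      have hy0 : y ≠ 0 := nonZeroDivisors.ne_zero hy
      exact isUnit_iff_ne_zero.2 fun h => hy0 (Subtype.ext h)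
    · intro g
      obtain ⟨a, b, hb, e⟩ := hA.frac g
      exact ⟨(a, ⟨b, mem_nonZeroDivisors_of_ne_zero hb⟩), e⟩
    · intro a b hab
      exact ⟨1, by rw [Subtype.ext (show (a : L) = b from hab)]⟩
  let ι : L →ₐ[K] Mer K := IsFractionRing.liftAlgHom (A := chart K x i) (K := L) hinj
  have hι : ∀ a : chart K x i, ι (a : L) = φ a := by
    intro a
    exact IsFractionRing.lift_algebraMap hinj a
  have hιx : ∀ j, ι (x j) = am (f j) * (ι (x i) / am (f i)) := by
    intro j
    have h1 : ι (x j / x i) = am (f j) / am (f i) := by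
      rw [← hφ j, ← hι]
    have h2 : ι (x i) ≠ 0 := fun h => hxi ((map_eq_zero ι).1 h)
    rw [map_div₀] at h1
    field_simp at h1 ⊢
    exact h1
  refine ⟨⟨ι, fun j => ⟨eb_zero hrel, fun h => ?_⟩, fun j k => ?_, hnz⟩⟩
  · have h1 := hιx j
    rw [h, am_zero, zero_mul] at h1
    exact (map_eq_zero ι).1 h1
  · rw [hιx j, hιx k]
    ring

end Pool.Agent.NG
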