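import Pool.Agent.NG.Npl

/-!
# FAC: zeros can be factored out; finitely many zeros on a closed annulus (module to prove)

`exists_factor`: let `F z₀ = 0`, `a = coeff F`. Define `g n = ∑_{m > n} a m * z₀ ^ (m - n - 1)` (sum over
`m : ℤ` with `n < m`). Since `∑ a m z₀ ^ m = 0`, also `g n = - ∑_{m ≤ n} a m * z₀ ^ (m - n - 1)`.
Decay: fix `t`; for `n → +∞` use the first formula: let `s ≥ max t (log ‖z₀‖)`, `s ≥ t`; the terms are
`‖a m‖ ‖z₀‖ ^ (m - n - 1)` with `m - n - 1 ≥ 0`, so at most `‖a m‖ exp (s (m - n - 1))`, and multiplied by `exp (n t)` this is at most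
`term s a m * exp (-s) * exp (n (t - s))`, with `t - s ≤ 0`, which tends to zero as `m > n → ∞`. For `n → -∞` use the
second formula in the same way with `s ≤ min t (log ‖z₀‖)`. Finally `g (n - 1) - z₀ g n = a n`, so
`(z - z₀) G = F` for `G = ofCoeff g`; check this pointwise or on coefficients (`coeff_mul`, `conv` with
the finitely supported coefficients of `Zc - z₀`), or by `HasSum` manipulations for each `z`.

`nplus_Zc_sub`, `nminus_Zc_sub`, `gn_Zc_sub`: the coefficients are `-z₀` at `0` and `1` at `1`.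

`zero_iff`: if `F z₀ = 0`, `F ≠ 0`, then `F = (Zc - z₀) G` and `nplus t F = nplus t G + 1`,
`nminus t F = nminus t G` for `t = log ‖z₀‖`, so `nminus t F < nplus t F`.

`finite_zeros`: by strong induction on `nplus t₂ F - nminus t₁ F ≥ 0` (`nplus_le_nminus`,
`nminus_le_nplus`): if `z₀` is a zero with `t₁ ≤ log ‖z₀‖ ≤ t₂` then `F = (Zc - z₀) G`,
`nplus t₂ (Zc - z₀) = 1` and `nminus t₁ (Zc - z₀) = 0`, so the number drops by one, and the zeros of
`F` are `z₀` and the zeros of `G`.

`exists_ord`: every `F ≠ 0` is `(Zc - z₀) ^ n * G` with `G z₀ ≠ 0`: same induction (take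
`t₁ = t₂ = log ‖z₀‖`).
-/

open Filter Topology
open scoped NNReal

set_option linter.unusedSectionVars false

noncomputable section

namespace Pool.Agent.NG

variable {K : Type*} [NontriviallyNormedField K] [IsUltrametricDist K] [CompleteSpace K]
  [IsAlgClosed K] [CharZero K]

/-- The function `z - z₀`. -/
def Zs (z₀ : Kˣ) : An K := Zc - algebraMap K (An K) (z₀ : K)

theorem Zs_apply (z₀ z : Kˣ) : (Zs z₀).1 z = z - z₀ := by
  change (Zc : An K).1 z - (z₀ : K) = z - z₀
  rw [Zc_apply]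

private theorem fac_coeff (z₀ : Kˣ) :
    coeff (Zs z₀) = Pi.single 1 1 - Pi.single 0 (z₀ : K) := by
  rw [Zs, coeff_sub, coeff_Zc, coeff_algebraMap]

private theorem fac_coeff_one (z₀ : Kˣ) : coeff (Zs z₀) 1 = 1 := by
  rw [fac_coeff]
  simp

private theorem fac_coeff_zero (z₀ : Kˣ) : coeff (Zs z₀) 0 = -(z₀ : K) := by
  rw [fac_coeff]
  simp

private theorem fac_coeff_ne (z₀ : Kˣ) {n : ℤ} (h0 : n ≠ 0) (h1 : n ≠ 1) :
    coeff (Zs z₀) n = 0 := by
  rw [fac_coeff, Pi.sub_apply, Pi.single_eq_of_ne h1, Pi.single_eq_of_ne h0, sub_zero]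

theorem Zs_ne_zero (z₀ : Kˣ) : Zs z₀ ≠ 0 := by
  intro h
  have h1 := fac_coeff_one z₀
  rw [h, coeff_zero] at h1
  exact zero_ne_one h1

private theorem fac_term_one (z₀ : Kˣ) (t : ℝ) : term t (coeff (Zs z₀)) 1 = ex t := by
  unfold term
  rw [fac_coeff_one, nnnorm_one, one_mul, Int.cast_one, one_mul]

private theorem fac_term_zero (z₀ : Kˣ) (t : ℝ) :
    term t (coeff (Zs z₀)) 0 = ‖(z₀ : K)‖₊ := by
  unfold term
  rw [fac_coeff_zero, nnnorm_neg, Int.cast_zero, zero_mul, ex_zero, mul_one]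

private theorem fac_term_ne (z₀ : Kˣ) (t : ℝ) {n : ℤ} (h0 : n ≠ 0) (h1 : n ≠ 1) :
    term t (coeff (Zs z₀)) n = 0 := by
  unfold term
  rw [fac_coeff_ne z₀ h0 h1, nnnorm_zero, zero_mul]

theorem gn_Zs (z₀ : Kˣ) (t : ℝ) : gn t (Zs z₀) = max (ex t) ‖(z₀ : K)‖₊ := by
  refine le_antisymm (gn_le _ _ _ fun n => ?_) (max_le ?_ ?_)
  · by_cases h1 : n = 1
    · rw [h1, fac_term_one]
      exact le_max_left _ _
    · by_cases h0 : n = 0
      · rw [h0, fac_term_zero]
        exact le_max_right _ _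
      · rw [fac_term_ne z₀ t h0 h1]
        exact zero_le
  · rw [← fac_term_one z₀ t]
    exact term_le_gn _ _ _
  · rw [← fac_term_zero z₀ t]
    exact term_le_gn _ _ _

theorem nplus_Zs (z₀ : Kˣ) {t : ℝ} (h : Real.log ‖(z₀ : K)‖ ≤ t) : nplus t (Zs z₀) = 1 := by
  have h1 : ‖(z₀ : K)‖₊ ≤ ex t := by
    rw [← NNReal.coe_le_coe, coe_nnnorm, coe_ex]
    exact (Real.log_le_iff_le_exp (norm_pos_iff.2 z₀.ne_zero)).1 h
  refine nplus_eq t (Zs_ne_zero z₀) 1 ?_ fun m hm => ?_
  · rw [fac_term_one, gn_Zs, max_eq_left h1]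
  · rw [fac_term_ne z₀ t (by omega) (by omega), gn_Zs]
    exact lt_of_lt_of_le (ex_pos t) (le_max_left _ _)

theorem nminus_Zs (z₀ : Kˣ) {t : ℝ} (h : t ≤ Real.log ‖(z₀ : K)‖) : nminus t (Zs z₀) = 0 := by
  have h1 : ex t ≤ ‖(z₀ : K)‖₊ := by
    rw [← NNReal.coe_le_coe, coe_nnnorm, coe_ex]
    exact (Real.le_log_iff_exp_le (norm_pos_iff.2 z₀.ne_zero)).1 h
  refine nminus_eq t (Zs_ne_zero z₀) 0 ?_ fun m hm => ?_
  · rw [fac_term_zero, gn_Zs, max_eq_right h1]
  · rw [fac_term_ne z₀ t (by omega) (by omega), gn_Zs]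
    exact lt_of_lt_of_le (ex_pos t) (le_max_left _ _)

/-- the terms of the quotient -/
private def facf (a : ℤ → K) (z₀ : Kˣ) (n m : ℤ) : K := a m * ((z₀ ^ (m - n - 1) : Kˣ) : K)

private theorem facf_eq (a : ℤ → K) (z₀ : Kˣ) (n m : ℤ) :
    facf a z₀ n m = ((z₀ ^ (-n - 1) : Kˣ) : K) * (a m * ((z₀ ^ m : Kˣ) : K)) := by
  unfold facf
  have h : m - n - 1 = (-n - 1) + m := by ring
  rw [h, zpow_add, Units.val_mul]
  ring

private theorem facf_summable {a : ℤ → K} (ha : Decay a) (z₀ : Kˣ) (n : ℤ) :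
    Summable (facf a z₀ n) := by
  have h := (summable_ser ha z₀).mul_left ((z₀ ^ (-n - 1) : Kˣ) : K)
  exact h.congr fun m => (facf_eq a z₀ n m).symm

private theorem facf_tsum {a : ℤ → K} (z₀ : Kˣ) (n : ℤ) :
    ∑' m, facf a z₀ n m = ((z₀ ^ (-n - 1) : Kˣ) : K) * ser a z₀ := by
  unfold ser
  rw [← tsum_mul_left]
  exact tsum_congr fun m => facf_eq a z₀ n m

/-- the coefficients of the quotient -/
private def facg (a : ℤ → K) (z₀ : Kˣ) (n : ℤ) : K :=
  ∑' m, Set.indicator {m | n < m} (facf a z₀ n) m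

private theorem facg_eq {a : ℤ → K} (ha : Decay a) {z₀ : Kˣ} (h0 : ser a z₀ = 0) (n : ℤ) :
    facg a z₀ n = -∑' m, Set.indicator {m | m ≤ n} (facf a z₀ n) m := by
  have h1 := (facf_summable ha z₀ n).indicator {m | n < m}
  have h2 := (facf_summable ha z₀ n).indicator {m | m ≤ n}
  have h3 := h1.tsum_add h2
  have h4 : (fun m => Set.indicator {m | n < m} (facf a z₀ n) m +
      Set.indicator {m | m ≤ n} (facf a z₀ n) m) = facf a z₀ n := by
    funext m
    have h5 : {m : ℤ | m ≤ n} = {m | n < m}ᶜ := by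
      ext m
      simp
    rw [h5]
    exact congrFun (Set.indicator_self_add_compl _ _) m
  rw [h4, facf_tsum, h0, mul_zero] at h3
  exact eq_neg_of_add_eq_zero_left h3.symm

private theorem facg_rec {a : ℤ → K} (ha : Decay a) (z₀ : Kˣ) (n : ℤ) :
    facg a z₀ (n - 1) - z₀ * facg a z₀ n = a n := by
  have h1 := ((facf_summable ha z₀ n).indicator {m | n < m}).mul_left (z₀ : K)
  have h2 : Summable (fun m => if m = n then a n else (0 : K)) :=
    (hasSum_ite_eq n (a n)).summable
  have h3 := h2.tsum_add h1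
  rw [tsum_ite_eq, tsum_mul_left] at h3
  have h4 : ∀ m, Set.indicator {m | n - 1 < m} (facf a z₀ (n - 1)) m =
      (if m = n then a n else (0 : K)) + z₀ * Set.indicator {m | n < m} (facf a z₀ n) m := by
    intro m
    rcases lt_trichotomy m n with hm | hm | hm
    · rw [Set.indicator_of_notMem (by simp; omega), Set.indicator_of_notMem (by simp; omega),
        if_neg (by omega), mul_zero, add_zero]
    · subst hm
      rw [Set.indicator_of_mem (by simp), Set.indicator_of_notMem (by simp),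
        if_pos rfl, mul_zero, add_zero]
      unfold facf
      simp
    · rw [Set.indicator_of_mem (by simp; omega), Set.indicator_of_mem (by simpa using hm),
        if_neg (by omega), zero_add]
      unfold facf
      have h5 : m - (n - 1) - 1 = 1 + (m - n - 1) := by ring
      rw [h5, zpow_add, Units.val_mul, zpow_one]
      ring
  have h6 : facg a z₀ (n - 1) = a n + z₀ * facg a z₀ n := by
    unfold facg
    rw [← h3]
    exact tsum_congr h4
  rw [h6, add_sub_cancel_right]

private theorem fac_norm_zpow (z₀ : Kˣ) (k : ℤ) :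
    ‖((z₀ ^ k : Kˣ) : K)‖₊ = ex (k * Real.log ‖(z₀ : K)‖) := by
  have h := nnnorm_mul_zpow (fun _ => (1 : K)) z₀ k
  unfold term at h
  rwa [nnnorm_one, one_mul, one_mul] at h

private theorem facf_le {a : ℤ → K} {z₀ : Kˣ} {t s : ℝ} {n m : ℤ}
    (h1 : ((m - n - 1 : ℤ) : ℝ) * Real.log ‖(z₀ : K)‖ ≤ ((m - n - 1 : ℤ) : ℝ) * s)
    (h2 : (n : ℝ) * t ≤ n * s) :
    ‖facf a z₀ n m‖₊ * ex (n * t) ≤ term s a m * ex (-s) := by
  unfold facf term
  rw [nnnorm_mul, fac_norm_zpow, mul_assoc, mul_assoc, ← ex_add, ← ex_add]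
  refine mul_le_mul_right ?_ _
  rw [ex_le_ex]
  push_cast at h1 ⊢
  nlinarith

private theorem fac_sum_le {f : ℤ → K} {e C : ℝ≥0} (he : 0 < e)
    (h : ∀ m, ‖f m‖₊ * e ≤ C) : ‖∑' m, f m‖₊ * e ≤ C := by
  have h1 : ‖∑' m, f m‖₊ ≤ C / e := by
    apply IsUltrametricDist.nnnorm_tsum_le_of_forall_le
    intro m
    rw [le_div_iff₀ he]
    exact h m
  rwa [le_div_iff₀ he] at h1

private theorem facg_decay {a : ℤ → K} (ha : Decay a) {z₀ : Kˣ} (h0 : ser a z₀ = 0) :
    Decay (facg a z₀) := by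
  intro t
  have fin : ∀ ε : ℝ≥0, 0 < ε → {n | ε ≤ term t (facg a z₀) n}.Finite := by
    intro ε hε
    have hε2 : 0 < ε / 2 := half_pos hε
    have hε3 : ε / 2 < ε := half_lt_self hε
    set s := max t (Real.log ‖(z₀ : K)‖) with hs
    set r := min t (Real.log ‖(z₀ : K)‖) with hr
    have fin1 := finite_ge ha s (ε := ε / 2 / ex (-s)) (div_pos hε2 (ex_pos _))
    have fin2 := finite_ge ha r (ε := ε / 2 / ex (-r)) (div_pos hε2 (ex_pos _))
    obtain ⟨M, hM⟩ := fin1.bddAbove
    obtain ⟨M', hM'⟩ := fin2.bddBelow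
    refine (Set.finite_Icc (min M' 0) (max M 0)).subset fun n hn => ?_
    rcases le_or_gt 0 n with hn0 | hn0
    · refine ⟨(min_le_right _ _).trans hn0, ?_⟩
      by_contra hcon
      have hnM : M < n := lt_of_le_of_lt (le_max_left _ _) (not_le.1 hcon)
      have h1 : term t (facg a z₀) n ≤ ε / 2 := by
        unfold term facg
        refine fac_sum_le (ex_pos _) fun m => ?_
        by_cases hm : n < m
        · rw [Set.indicator_of_mem (by simpa using hm)]
          have h2 : ((m - n - 1 : ℤ) : ℝ) * Real.log ‖(z₀ : K)‖ ≤ ((m - n - 1 : ℤ) : ℝ) * s := by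
            refine mul_le_mul_of_nonneg_left (le_max_right _ _) ?_
            have : 0 ≤ m - n - 1 := by omega
            exact_mod_cast this
          have h3 : (n : ℝ) * t ≤ n * s := by
            refine mul_le_mul_of_nonneg_left (le_max_left _ _) ?_
            exact_mod_cast hn0
          refine (facf_le h2 h3).trans ?_
          by_contra hcon2
          have h4 : ε / 2 / ex (-s) ≤ term s a m := by
            rw [div_le_iff₀ (ex_pos _)]
            exact (not_le.1 hcon2).le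
          have h5 : m ≤ M := hM h4
          omega
        · rw [Set.indicator_of_notMem (by simpa using hm), nnnorm_zero, zero_mul]
          exact zero_le
      exact absurd (hn.trans h1) (not_le.2 hε3)
    · refine ⟨?_, hn0.le.trans (le_max_right _ _)⟩
      by_contra hcon
      have hnM : n < M' := lt_of_lt_of_le (not_le.1 hcon) (min_le_left _ _)
      have h1 : term t (facg a z₀) n ≤ ε / 2 := by
        unfold term
        rw [facg_eq ha h0, nnnorm_neg]
        refine fac_sum_le (ex_pos _) fun m => ?_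
        by_cases hm : m ≤ n
        · rw [Set.indicator_of_mem (by simpa using hm)]
          have h2 : ((m - n - 1 : ℤ) : ℝ) * Real.log ‖(z₀ : K)‖ ≤ ((m - n - 1 : ℤ) : ℝ) * r := by
            refine mul_le_mul_of_nonpos_left (min_le_right _ _) ?_
            have : m - n - 1 ≤ 0 := by omega
            exact_mod_cast this
          have h3 : (n : ℝ) * t ≤ n * r := by
            refine mul_le_mul_of_nonpos_left (min_le_left _ _) ?_
            exact_mod_cast hn0.le
          refine (facf_le h2 h3).trans ?_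
          by_contra hcon2
          have h4 : ε / 2 / ex (-r) ≤ term r a m := by
            rw [div_le_iff₀ (ex_pos _)]
            exact (not_le.1 hcon2).le
          have h5 : M' ≤ m := hM' h4
          omega
        · rw [Set.indicator_of_notMem (by simpa using hm), nnnorm_zero, zero_mul]
          exact zero_le
      exact absurd (hn.trans h1) (not_le.2 hε3)
  rw [tendsto_order]
  refine ⟨fun b hb => absurd hb not_lt_zero, fun ε hε => ?_⟩
  rw [eventually_cofinite]
  refine (fin ε hε).subset fun n hn => ?_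
  exact not_lt.1 hn

theorem exists_factor (F : An K) (z₀ : Kˣ) (h : F.1 z₀ = 0) : ∃ G : An K, F = Zs z₀ * G := by
  have h0 : ser (coeff F) z₀ = 0 := by rw [ser_coeff, h]
  refine ⟨ofCoeff (facg (coeff F) z₀) (facg_decay (coeff_decay F) h0), ?_⟩
  apply coeff_injective
  rw [coeff_mul, coeff_ofCoeff]
  funext n
  unfold conv
  rw [tsum_eq_sum (s := {0, 1})]
  · rw [Finset.sum_pair (by norm_num), fac_coeff_zero, fac_coeff_one,
      ← facg_rec (coeff_decay F) z₀ n, sub_zero]
    ring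
  · intro m hm
    rw [Finset.mem_insert, Finset.mem_singleton, not_or] at hm
    rw [fac_coeff_ne z₀ hm.1 hm.2, zero_mul]

private theorem fac_zero_of {F G : An K} {z₀ : Kˣ} (h : F = Zs z₀ * G) (z : Kˣ) :
    F.1 z = ((z : K) - z₀) * G.1 z := by
  rw [h, ← Zs_apply]
  rfl

private theorem fac_ne {F G : An K} {z₀ : Kˣ} (hF : F ≠ 0) (h : F = Zs z₀ * G) : G ≠ 0 := by
  rintro rfl
  exact hF (h.trans (mul_zero _))

theorem nminus_lt_nplus_of_zero {F : An K} (hF : F ≠ 0) {z₀ : Kˣ} (h : F.1 z₀ = 0) :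
    nminus (Real.log ‖(z₀ : K)‖) F < nplus (Real.log ‖(z₀ : K)‖) F := by
  obtain ⟨G, hG⟩ := exists_factor F z₀ h
  have hG0 := fac_ne hF hG
  rw [hG, nminus_mul _ (Zs_ne_zero z₀) hG0, nplus_mul _ (Zs_ne_zero z₀) hG0,
    nplus_Zs z₀ le_rfl, nminus_Zs z₀ le_rfl]
  have := nminus_le_nplus (Real.log ‖(z₀ : K)‖) hG0
  omega

theorem finite_zeros {F : An K} (hF : F ≠ 0) (t₁ t₂ : ℝ) :
    {z : Kˣ | t₁ ≤ Real.log ‖(z : K)‖ ∧ Real.log ‖(z : K)‖ ≤ t₂ ∧ F.1 z = 0}.Finite := by
  rcases lt_or_ge t₂ t₁ with ht | ht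
  · refine (Set.finite_empty).subset fun z hz => ?_
    exact absurd (hz.1.trans hz.2.1) (not_le.2 ht)
  · have hle : ∀ G : An K, G ≠ 0 → nminus t₁ G ≤ nplus t₂ G := by
      intro G hG
      rcases eq_or_lt_of_le ht with h1 | h1
      · rw [← h1]
        exact nminus_le_nplus t₁ hG
      · exact (nminus_le_nplus t₁ hG).trans ((nplus_le_nminus hG h1).trans
          (nminus_le_nplus t₂ hG))
    have key : ∀ N : ℕ, ∀ F : An K, F ≠ 0 → nplus t₂ F - nminus t₁ F ≤ N →
        {z : Kˣ | t₁ ≤ Real.log ‖(z : K)‖ ∧ Real.log ‖(z : K)‖ ≤ t₂ ∧ F.1 z = 0}.Finite := by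
      intro N
      induction N with
      | zero =>
        intro F hF hN
        refine (Set.finite_empty).subset fun z hz => ?_
        obtain ⟨h1, h2, h3⟩ := hz
        obtain ⟨G, hG⟩ := exists_factor F z h3
        have hG0 := fac_ne hF hG
        rw [hG, nplus_mul _ (Zs_ne_zero z) hG0, nminus_mul _ (Zs_ne_zero z) hG0, nplus_Zs z h2,
          nminus_Zs z h1] at hN
        have := hle G hG0
        push_cast at hN
        omega
      | succ N ih =>
        intro F hF hN
        by_cases hz : ∃ z : Kˣ, t₁ ≤ Real.log ‖(z : K)‖ ∧ Real.log ‖(z : K)‖ ≤ t₂ ∧ F.1 z = 0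
        · obtain ⟨z, h1, h2, h3⟩ := hz
          obtain ⟨G, hG⟩ := exists_factor F z h3
          have hG0 := fac_ne hF hG
          have hN' : nplus t₂ G - nminus t₁ G ≤ N := by
            rw [hG, nplus_mul _ (Zs_ne_zero z) hG0, nminus_mul _ (Zs_ne_zero z) hG0,
              nplus_Zs z h2, nminus_Zs z h1] at hN
            push_cast at hN
            omega
          refine ((ih G hG0 hN').insert z).subset fun w hw => ?_
          obtain ⟨w1, w2, w3⟩ := hw
          rw [fac_zero_of hG, mul_eq_zero] at w3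
          rcases w3 with w3 | w3
          · left
            exact Units.ext (sub_eq_zero.1 w3)
          · right
            exact ⟨w1, w2, w3⟩
        · refine (Set.finite_empty).subset fun z hz2 => ?_
          exact absurd ⟨z, hz2⟩ hz
    exact key (nplus t₂ F - nminus t₁ F).toNat F hF (Int.self_le_toNat _)

theorem exists_ord {F : An K} (hF : F ≠ 0) (z₀ : Kˣ) :
    ∃ (n : ℕ) (G : An K), G.1 z₀ ≠ 0 ∧ F = Zs z₀ ^ n * G := by
  have key : ∀ N : ℕ, ∀ F : An K, F ≠ 0 →
      nplus (Real.log ‖(z₀ : K)‖) F - nminus (Real.log ‖(z₀ : K)‖) F ≤ N →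
      ∃ (n : ℕ) (G : An K), G.1 z₀ ≠ 0 ∧ F = Zs z₀ ^ n * G := by
    intro N
    induction N with
    | zero =>
      intro F hF hN
      refine ⟨0, F, fun h => ?_, by rw [pow_zero, one_mul]⟩
      have := nminus_lt_nplus_of_zero hF h
      push_cast at hN
      omega
    | succ N ih =>
      intro F hF hN
      by_cases h3 : F.1 z₀ = 0
      · obtain ⟨G, hG⟩ := exists_factor F z₀ h3
        have hG0 := fac_ne hF hG
        have hN' : nplus (Real.log ‖(z₀ : K)‖) G - nminus (Real.log ‖(z₀ : K)‖) G ≤ N := by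
          rw [hG, nplus_mul _ (Zs_ne_zero z₀) hG0, nminus_mul _ (Zs_ne_zero z₀) hG0,
            nplus_Zs z₀ le_rfl, nminus_Zs z₀ le_rfl] at hN
          push_cast at hN
          omega
        obtain ⟨n, G', hG', e⟩ := ih G hG0 hN'
        refine ⟨n + 1, G', hG', ?_⟩
        rw [hG, e, pow_succ]
        ring
      · exact ⟨0, F, h3, by rw [pow_zero, one_mul]⟩
  exact key _ F hF (Int.self_le_toNat _)

end Pool.Agent.NG
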