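import Pool.Agent.NG.Pb

/-!
# NG FLOWEX: the flow on the function field (module to prove)

`ω₁`, `ω₂` regular, closed, linearly independent over `K`; `pb ω_i = c_i ∈ K` (`pb_const`). `ι` is injective and `der K (ι a) = 0` implies that
`ι a` is constant (`der_eq_zero`, from `dA_eq_zero` or from `tay`), so `a ∈ K`.
(1) They are linearly independent over `L`: suppose `ω₂ = h ω₁` (`ω₁ ≠ 0`). If `c₁ ≠ 0` then `ι h = c₂ / c₁`, `h ∈ K`: contradiction. If `c₁ = 0`:
    closedness of both forms gives `δ₁ h * ω₁(δ₂) = δ₂ h * ω₁(δ₁)` for all derivations; there is `δ₁` with `ω₁(δ₁) = 1` (dual space of the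
    finite dimensional `Ω[L⁄K]`), so `dh = δ₁(h) ω₁` (a form is determined by its values on derivations), and
    `der K (ι h) = pb (dh) = ι(δ₁ h) c₁ = 0`, so `h ∈ K`: contradiction.
(2) `(c₁, c₂) ≠ 0`: otherwise `pb = 0` on a basis, so `der ∘ ι = 0`, `ι L ⊆ K`, contradicting `trdeg = 2`.
    Say `c₁ ≠ 0` (otherwise exchange): `θ₁ := c₁⁻¹ ω₁`, `θ₂ := ω₂ - (c₂/c₁) ω₁`; both regular and closed, `pb θ₁ = 1`, `pb θ₂ = 0`, a basis over `L`.
(3) `exists_dual` gives `D`, `D'`. `da = D a • θ₁ + D' a • θ₂`, apply `pb`: `der K (ι a) = ι (D a)`.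
-/

set_option linter.unusedSectionVars false

open Filter Topology
open scoped NNReal KaehlerDifferential

noncomputable section

namespace Pool.Agent.NG

variable {K : Type*} [NontriviallyNormedField K] [IsUltrametricDist K] [CompleteSpace K]
  [IsAlgClosed K] [CharZero K] {L : Type*} [Field L] [Algebra K L] {N : ℕ}

theorem der_eq_zero {h : Mer K} (h0 : der K h = 0) : ∃ c : K, h = algebraMap K (Mer K) c := by
  obtain ⟨F, G, hG, e⟩ := exists_frac h
  obtain ⟨z, hz⟩ : ∃ z, G.1 z ≠ 0 := by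
    by_contra hcon
    push Not at hcon
    exact hG (An.ext' fun z => hcon z)
  have hreg : RegAt z h := ⟨F, G, hz, e⟩
  refine ⟨ev z h, ?_⟩
  have h1 : tay z (h - algebraMap K (Mer K) (ev z h)) = 0 := by
    rw [tay_sub hreg (regAt_const z _), tay_const]
    ext n
    rw [map_sub, map_zero, sub_eq_zero]
    have h2 : PowerSeries.coeff n (tay z h) = ev z ((der K)^[n] h) / (n.factorial : K) :=
      PowerSeries.coeff_mk _ _
    rw [h2, PowerSeries.coeff_C]
    rcases n with _ | n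
    · rw [if_pos rfl, Function.iterate_zero_apply, Nat.factorial_zero, Nat.cast_one, div_one]
    · have h3 : ev z (0 : Mer K) = 0 := by
        have h4 := ev_const z (0 : K)
        rwa [map_zero] at h4
      rw [if_neg (Nat.succ_ne_zero n), Function.iterate_succ_apply, h0, iterate_map_zero, h3,
        zero_div]
  exact sub_eq_zero.1 (tay_eq_zero (hreg.sub (regAt_const z _)) h1)

private lemma fx_der (φ : Ω[L⁄K] →ₗ[L] L) (ω : Ω[L⁄K]) :
    pair K ω (φ.compDer (KaehlerDifferential.D K L)) = φ ω := by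
  have h1 : (φ.compDer (KaehlerDifferential.D K L)).liftKaehlerDifferential = φ :=
    Derivation.liftKaehlerDifferential_unique _ _ (Derivation.liftKaehlerDifferential_comp _)
  unfold pair
  rw [h1]

private lemma fx_ext {ω ω' : Ω[L⁄K]} (h : ∀ δ, pair K ω δ = pair K ω' δ) : ω = ω' := by
  rw [← sub_eq_zero, ← Module.forall_dual_apply_eq_zero_iff L]
  intro φ
  have h1 := h (φ.compDer (KaehlerDifferential.D K L))
  rw [fx_der, fx_der] at h1
  rw [map_sub, h1, sub_self]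

private lemma fx_exists {ω : Ω[L⁄K]} (h : ω ≠ 0) : ∃ δ, pair K ω δ = 1 := by
  by_contra hcon
  push Not at hcon
  apply h
  refine fx_ext fun δ => ?_
  have h2 : pair K (0 : Ω[L⁄K]) δ = 0 := map_zero _
  rw [h2]
  by_contra hne
  apply hcon ((pair K ω δ)⁻¹ • δ)
  rw [pair_smul_right, inv_mul_cancel₀ hne]

private lemma fx_const_inj (ι : L →ₐ[K] Mer K) {a : L} {c : K}
    (h : ι a = algebraMap K (Mer K) c) : a = algebraMap K L c := by
  apply ι.toRingHom.injective
  change ι a = ι (algebraMap K L c)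
  rw [h, AlgHom.commutes]

/-- proportional closed forms are proportional over the constants -/
private lemma fx_prop (ι : L →ₐ[K] Mer K) {ω : Ω[L⁄K]} (hω : ω ≠ 0) {g : L}
    (hc : IsClosedForm K ω) (hc' : IsClosedForm K (g • ω)) {c c' : K}
    (e : pb ι ω = algebraMap K (Mer K) c) (e' : pb ι (g • ω) = algebraMap K (Mer K) c') :
    ∃ k : K, g = algebraMap K L k := by
  rw [pb_smul, e] at e'
  by_cases hc0 : c = 0
  · obtain ⟨δ, hδ⟩ := fx_exists hω
    have h1 : KaehlerDifferential.D K L g = (δ g) • ω := by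
      refine fx_ext fun δ' => ?_
      rw [pair_d, pair_smul]
      have h2 := hc' δ' δ
      have h3 := hc δ' δ
      rw [pair_smul, pair_smul, pair_smul, Derivation.leibniz, Derivation.leibniz, smul_eq_mul,
        smul_eq_mul, smul_eq_mul, smul_eq_mul, ← h3, hδ] at h2
      linear_combination h2
    have h2 := pb_d ι g
    rw [h1, pb_smul, e, hc0, map_zero, mul_zero] at h2
    obtain ⟨k, hk⟩ := der_eq_zero h2.symm
    exact ⟨k, fx_const_inj ι hk⟩
  · refine ⟨c' / c, fx_const_inj ι ?_⟩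
    have h1 : algebraMap K (Mer K) c ≠ 0 := by
      rw [Ne, map_eq_zero]
      exact hc0
    rw [map_div₀, ← e', mul_div_cancel_right₀ _ h1]

private lemma fx_indep (ι : L →ₐ[K] Mer K) {ω₁ ω₂ : Ω[L⁄K]} (hc₁ : IsClosedForm K ω₁)
    (hc₂ : IsClosedForm K ω₂) (hli : LinearIndependent K ![ω₁, ω₂]) {c₁ c₂ : K}
    (e₁ : pb ι ω₁ = algebraMap K (Mer K) c₁) (e₂ : pb ι ω₂ = algebraMap K (Mer K) c₂) :
    LinearIndependent L ![ω₁, ω₂] := by
  have hω₁ : ω₁ ≠ 0 := by
    intro h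
    have h1 := (LinearIndependent.pair_iff.1 hli) 1 0 (by rw [h]; simp)
    exact one_ne_zero h1.1
  rw [LinearIndependent.pair_iff] at hli ⊢
  intro s t hst
  by_cases ht : t = 0
  · rw [ht, zero_smul, add_zero] at hst
    exact ⟨(smul_eq_zero.1 hst).resolve_right hω₁, ht⟩
  · exfalso
    have h1 : ω₂ = (-(t⁻¹ * s)) • ω₁ := by
      have h2 : t⁻¹ • (s • ω₁ + t • ω₂) = 0 := by rw [hst, smul_zero]
      rw [smul_add, smul_smul, smul_smul, inv_mul_cancel₀ ht, one_smul] at h2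
      rw [neg_smul]
      exact (neg_eq_of_add_eq_zero_right h2).symm
    rw [h1] at hc₂ e₂
    obtain ⟨k, hk⟩ := fx_prop ι hω₁ hc₁ hc₂ e₁ e₂
    rw [hk, algebraMap_smul] at h1
    have h2 := hli k (-1) (by rw [h1]; simp)
    exact one_ne_zero (neg_eq_zero.1 h2.2)

private lemma fx_reg_smul {x : Fin (N + 1) → L} {ω : Ω[L⁄K]} (h : IsRegularForm K x ω) (c : K) :
    IsRegularForm K x (c • ω) := by
  intro i hi
  have h1 : c • ω = (algebraMap K (chart K x i) c) • ω := (algebraMap_smul (chart K x i) c ω).symm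
  rw [h1]
  exact Submodule.smul_mem _ _ (h i hi)

private lemma fx_reg_add {x : Fin (N + 1) → L} {ω ω' : Ω[L⁄K]} (h : IsRegularForm K x ω)
    (h' : IsRegularForm K x ω') : IsRegularForm K x (ω + ω') :=
  fun i hi => Submodule.add_mem _ (h i hi) (h' i hi)

private lemma fx_main {x : Fin (N + 1) → L} {f : Fin (N + 1) → An K} (E : Emb x f)
    (hx : IsSmoothSurface K x) {ω₁ ω₂ : Ω[L⁄K]} (h₁ : IsRegularForm K x ω₁)
    (h₂ : IsRegularForm K x ω₂) (hc₁ : IsClosedForm K ω₁) (hc₂ : IsClosedForm K ω₂)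
    (hli : LinearIndependent L ![ω₁, ω₂]) {c₁ c₂ : K} (hc : c₁ ≠ 0)
    (e₁ : pb E.ι ω₁ = algebraMap K (Mer K) c₁) (e₂ : pb E.ι ω₂ = algebraMap K (Mer K) c₂) :
    Nonempty (Flow x f) := by
  have hfin : Module.finrank L (Ω[L⁄K]) = 2 :=
    finrank_kaehler 2 (by norm_num) (by rw [hx.dim]; norm_num)
  have hli2 : LinearIndependent L ![c₁⁻¹ • ω₁, ω₂ + (-(c₂ * c₁⁻¹)) • ω₁] := by
    rw [LinearIndependent.pair_iff] at hli ⊢
    intro s t hst
    have h3 : (s * algebraMap K L c₁⁻¹ - t * algebraMap K L (c₂ * c₁⁻¹)) • ω₁ + t • ω₂ = 0 := by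
      rw [← hst, smul_add, ← algebraMap_smul L c₁⁻¹ ω₁, ← algebraMap_smul L (-(c₂ * c₁⁻¹)) ω₁,
        smul_smul, smul_smul, map_neg, mul_neg, neg_smul, sub_smul]
      abel
    obtain ⟨h4, h5⟩ := hli _ _ h3
    rw [h5, zero_mul, sub_zero] at h4
    refine ⟨(mul_eq_zero.1 h4).resolve_right ?_, h5⟩
    rw [map_eq_zero]
    exact inv_ne_zero hc
  obtain ⟨D, D', h11, h12, h21, h22, hexp, hexpD, -⟩ := exists_dual hfin hli2
  have p1 : pb E.ι (c₁⁻¹ • ω₁) = 1 := by
    rw [map_smul, e₁, Algebra.smul_def, ← map_mul, inv_mul_cancel₀ hc, map_one]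
  have p2 : pb E.ι (ω₂ + (-(c₂ * c₁⁻¹)) • ω₁) = 0 := by
    have h3 : algebraMap K (Mer K) c₂ + algebraMap K (Mer K) (-(c₂ * c₁⁻¹) * c₁) =
        algebraMap K (Mer K) (c₂ + -(c₂ * c₁⁻¹) * c₁) :=
      (RingHom.map_add (algebraMap K (Mer K)) _ _).symm
    rw [map_add, map_smul, e₁, e₂, Algebra.smul_def, ← map_mul, h3,
      show c₂ + -(c₂ * c₁⁻¹) * c₁ = 0 by field_simp; ring, map_zero]
  exact ⟨{ E with
    surf := hx
    θ₁ := c₁⁻¹ • ω₁
    θ₂ := ω₂ + (-(c₂ * c₁⁻¹)) • ω₁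
    reg₁ := fx_reg_smul h₁ _
    reg₂ := fx_reg_add h₂ (fx_reg_smul h₁ _)
    cl₁ := hc₁.smul _
    cl₂ := hc₂.add (hc₁.smul _)
    D := D
    D' := D'
    h11 := h11
    h12 := h12
    h21 := h21
    h22 := h22
    flow := fun a => by
      rw [← pb_d, hexp (KaehlerDifferential.D K L a), map_add, pb_smul, pb_smul, p1, p2, mul_one,
        mul_zero, add_zero, pair_d]
    expand := hexp
    expandD := hexpD }⟩

theorem exists_flow {x : Fin (N + 1) → L} {f : Fin (N + 1) → An K} (E : Emb x f)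
    (hx : IsSmoothSurface K x) {ω₁ ω₂ : Ω[L⁄K]} (h₁ : IsRegularForm K x ω₁)
    (h₂ : IsRegularForm K x ω₂) (hc₁ : IsClosedForm K ω₁) (hc₂ : IsClosedForm K ω₂)
    (hli : LinearIndependent K ![ω₁, ω₂]) : Nonempty (Flow x f) := by
  have hfin : Module.finrank L (Ω[L⁄K]) = 2 :=
    finrank_kaehler 2 (by norm_num) (by rw [hx.dim]; norm_num)
  obtain ⟨c₁, e₁⟩ := pb_const E h₁
  obtain ⟨c₂, e₂⟩ := pb_const E h₂
  have hliL := fx_indep E.ι hc₁ hc₂ hli e₁ e₂
  by_cases hc : c₁ = 0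
  · by_cases hc' : c₂ = 0
    · exfalso
      obtain ⟨D, D', h11, -, -, -, hexp, -, -⟩ := exists_dual hfin hliL
      have hD : ∀ a : L, D a = 0 := by
        intro a
        have h3 : der K (E.ι a) = 0 := by
          rw [← pb_d, hexp (KaehlerDifferential.D K L a), map_add, pb_smul, pb_smul, e₁, e₂, hc,
            hc', map_zero, mul_zero, mul_zero, add_zero]
        obtain ⟨k, hk⟩ := der_eq_zero h3
        rw [fx_const_inj E.ι hk, Derivation.map_algebraMap]
      have hD0 : D = (0 : L) • D := by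
        ext a
        rw [Derivation.smul_apply, zero_smul, hD]
      rw [hD0, pair_smul_right, zero_mul] at h11
      exact zero_ne_one h11
    · refine fx_main E hx h₂ h₁ hc₂ hc₁ ?_ hc' e₂ e₁
      rw [LinearIndependent.pair_iff] at hliL ⊢
      intro s t hst
      obtain ⟨h3, h4⟩ := hliL t s (by rw [← hst]; abel)
      exact ⟨h4, h3⟩
  · exact fx_main E hx h₁ h₂ hc₁ hc₂ hliL hc e₁ e₂

end Pool.Agent.NG
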