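import Pool.Agent.NG.Locf

/-!
# NG POINTD: coordinates at a point where a closed form does not vanish (module to prove)

`F` a frame at `p`, `O := OL K A p`, `M := ML K A p`; `F.d i` preserves `O`. `θ = a₀ dt₀ + a₁ dt₁` with `a_i = pair θ (F.d i) ∈ O` and
`a_j ∉ M` for some `j`. Let `t := F.t l`, `l ≠ j`. Then `θ`, `dt` is a basis (`dt_j = a_j⁻¹ (θ - a_l dt_l)`), both forms are closed
(`closed_d`), `exists_dual` and `comm_of_closed` give `δ₁`, `δ₂`; they preserve `O`: `δ₁ = a_j⁻¹ • F.d j`,
`δ₂ = F.d l - (a_l / a_j) • F.d j` (both sides agree: check with `F.expandD`, values at `t_0`, `t_1`).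
-/

set_option linter.unusedSectionVars false

open scoped KaehlerDifferential

noncomputable section

namespace Pool.Agent.NG

variable {K : Type*} [Field K] [CharZero K] {L : Type*} [Field L] [Algebra K L]
  {A : Subalgebra K L}

private theorem POINTD_one (p : Ideal A) [hp : p.IsPrime] : (1 : A) ∉ p :=
  fun h => hp.ne_top ((Ideal.eq_top_iff_one p).2 h)

private theorem POINTD_le (p : Ideal A) [p.IsPrime] {a : L} (ha : a ∈ A) : a ∈ OL K A p :=
  ⟨⟨a, ha⟩, 1, POINTD_one p, by simp⟩

/-- elements of `A` outside `p` are invertible in the local ring -/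
private theorem POINTD_inv (p : Ideal A) [p.IsPrime] {c : A} (hc : c ∉ p) :
    (c : L) ≠ 0 ∧ (c : L)⁻¹ ∈ OL K A p := by
  have h0 : (c : L) ≠ 0 := by
    intro h0
    apply hc
    have : c = 0 := Subtype.ext h0
    rw [this]
    exact p.zero_mem
  refine ⟨h0, 1, c, hc, ?_⟩
  rw [inv_mul_cancel₀ h0]
  simp

/-- elements of the local ring outside the maximal ideal are invertible -/
private theorem POINTD_inv' (p : Ideal A) [p.IsPrime] {g : L} (hg : g ∈ OL K A p)
    (hgM : g ∉ ML K A p) : g ≠ 0 ∧ g⁻¹ ∈ OL K A p := by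
  obtain ⟨a, c, hc, h⟩ := hg
  have hg0 : g ≠ 0 := by
    rintro rfl
    exact hgM ⟨0, 1, p.zero_mem, POINTD_one p, by simp⟩
  have ha : a ∉ p := fun ha => hgM ⟨a, c, ha, hc, h⟩
  refine ⟨hg0, c, a, ha, ?_⟩
  rw [← h, inv_mul_cancel_left₀ hg0]

/-- the derivations of a frame preserve the local ring -/
private theorem POINTD_pres (p : Ideal A) [p.IsPrime] (F : Frame K A p) (j : Fin 2) {g : L}
    (hg : g ∈ OL K A p) : F.d j g ∈ OL K A p := by
  have hA : ∀ a : A, F.d j (a : L) ∈ OL K A p := by
    intro a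
    obtain ⟨c, hc⟩ := F.pres j a
    obtain ⟨hb0, hb⟩ := POINTD_inv (K := K) p F.hb
    have h1 : F.d j (a : L) = (F.b : L)⁻¹ * c := by
      rw [← hc, inv_mul_cancel_left₀ hb0]
    rw [h1]
    exact (OL K A p).mul_mem hb (POINTD_le p c.2)
  obtain ⟨a, c, hc, h⟩ := hg
  have hg : g ∈ OL K A p := ⟨a, c, hc, h⟩
  obtain ⟨hc0, hci⟩ := POINTD_inv (K := K) p hc
  have h1 : F.d j (g * c) = F.d j (a : L) := by rw [h]
  rw [Derivation.leibniz, smul_eq_mul, smul_eq_mul] at h1
  have h2 : F.d j g = (c : L)⁻¹ * (F.d j (a : L) - g * F.d j (c : L)) := by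
    rw [← h1, add_sub_cancel_left, inv_mul_cancel_left₀ hc0]
  rw [h2]
  exact (OL K A p).mul_mem hci ((OL K A p).sub_mem (hA a) ((OL K A p).mul_mem hg (hA c)))

private theorem POINTD_coef (p : Ideal A) [p.IsPrime] (F : Frame K A p) (j : Fin 2) {θ : Ω[L⁄K]}
    (hreg : θ ∈ regA K A) : pair K θ (F.d j) ∈ OL K A p := by
  unfold regA at hreg
  induction hreg using Submodule.span_induction with
  | mem x hx =>
    obtain ⟨a, ha, rfl⟩ := hx
    rw [pair_d]
    exact POINTD_pres p F j (POINTD_le p ha)
  | zero =>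
    unfold pair
    rw [map_zero]
    exact (OL K A p).zero_mem
  | add x y _ _ hx hy =>
    rw [pair_add]
    exact (OL K A p).add_mem hx hy
  | smul a x _ hx =>
    have h1 : a • x = (a : L) • x := rfl
    rw [h1, pair_smul]
    exact (OL K A p).mul_mem (POINTD_le p a.2) hx

theorem exists_pt (hA : Surf K A) (p : Ideal A) [p.IsPrime] (F : Frame K A p) {θ : Ω[L⁄K]}
    (hreg : θ ∈ regA K A) (hcl : IsClosedForm K θ) (hz : ∃ j, pair K θ (F.d j) ∉ ML K A p) :
    Nonempty (Pt K A p θ) := by
  obtain ⟨j, hj⟩ := hz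
  obtain ⟨l, hlj⟩ : ∃ l : Fin 2, l ≠ j := ⟨j + 1, by fin_cases j <;> decide⟩
  have hexp : ∀ ω : Ω[L⁄K], ω = pair K ω (F.d j) • KaehlerDifferential.D K L (F.t j : L) +
      pair K ω (F.d l) • KaehlerDifferential.D K L (F.t l : L) := by
    intro ω
    have h := F.expand ω
    fin_cases j <;> fin_cases l
    · exact absurd rfl hlj
    · exact h
    · rw [add_comm] at h
      exact h
    · exact absurd rfl hlj
  have hexpD : ∀ (δ : Derivation K L L) (g : L),
      δ g = δ (F.t j) * F.d j g + δ (F.t l) * F.d l g := by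
    intro δ g
    have h := F.expandD δ g
    fin_cases j <;> fin_cases l
    · exact absurd rfl hlj
    · exact h
    · rw [add_comm] at h
      exact h
    · exact absurd rfl hlj
  have hjl : F.d j (F.t l : L) = 0 := by rw [F.dual, if_neg hlj.symm]
  have hll : F.d l (F.t l : L) = 1 := by rw [F.dual, if_pos rfl]
  have ha : ∀ i, pair K θ (F.d i) ∈ OL K A p := fun i => POINTD_coef p F i hreg
  obtain ⟨ha0, hai⟩ := POINTD_inv' p (ha j) hj
  have hfin : Module.finrank L (Ω[L⁄K]) = 2 :=
    finrank_kaehler 2 two_ne_zero (by rw [hA.dim]; rfl)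
  have hli : LinearIndependent L ![θ, KaehlerDifferential.D K L (F.t l : L)] := by
    rw [LinearIndependent.pair_iff]
    intro s t hst
    have h1 : pair K (s • θ + t • KaehlerDifferential.D K L (F.t l : L)) (F.d j) = 0 := by
      rw [hst]
      unfold pair
      rw [map_zero]
    have h2 : pair K (s • θ + t • KaehlerDifferential.D K L (F.t l : L)) (F.d l) = 0 := by
      rw [hst]
      unfold pair
      rw [map_zero]
    rw [pair_add, pair_smul, pair_smul, pair_d, hjl, mul_zero, add_zero] at h1
    rw [pair_add, pair_smul, pair_smul, pair_d, hll, mul_one] at h2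
    have hs : s = 0 := by
      rcases mul_eq_zero.1 h1 with h | h
      · exact h
      · exact absurd h ha0
    rw [hs, zero_mul, zero_add] at h2
    exact ⟨hs, h2⟩
  obtain ⟨δ₁, δ₂, h11, h12, h21, h22, -, hD, hω⟩ := exists_dual hfin hli
  rw [pair_d] at h21 h22
  have hθ : ∀ δ : Derivation K L L, pair K θ δ =
      pair K θ (F.d j) * δ (F.t j) + pair K θ (F.d l) * δ (F.t l) := by
    intro δ
    conv_lhs => rw [hexp θ]
    rw [pair_add, pair_smul, pair_smul, pair_d, pair_d]
  have h1j : δ₁ (F.t j) = (pair K θ (F.d j))⁻¹ := by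
    have h := hθ δ₁
    rw [h11, h21, mul_zero, add_zero] at h
    exact eq_inv_of_mul_eq_one_right h.symm
  have h2j : δ₂ (F.t j) = (pair K θ (F.d j))⁻¹ * (- pair K θ (F.d l)) := by
    have h := hθ δ₂
    rw [h12, h22, mul_one] at h
    have h' : pair K θ (F.d j) * δ₂ (F.t j) = - pair K θ (F.d l) := by
      exact eq_neg_of_add_eq_zero_left h.symm
    rw [← h', inv_mul_cancel_left₀ ha0]
  exact ⟨{ t := F.t l
           t_mem := (F.t l).2
           δ₁ := δ₁
           δ₂ := δ₂
           pres₁ := fun g hg => by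
            rw [hexpD δ₁ g, h21, zero_mul, add_zero, h1j]
            exact (OL K A p).mul_mem hai (POINTD_pres p F j hg)
           pres₂ := fun g hg => by
            rw [hexpD δ₂ g, h22, one_mul, h2j]
            exact (OL K A p).add_mem ((OL K A p).mul_mem ((OL K A p).mul_mem hai
              ((OL K A p).neg_mem (ha l))) (POINTD_pres p F j hg)) (POINTD_pres p F l hg)
           δ₁t := h21
           δ₂t := h22
           θ₁ := h11
           θ₂ := h12
           comm := fun g => comm_of_closed hcl (closed_d (K := K) (F.t l : L)) h11 h12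
            (by rw [pair_d]; exact h21) (by rw [pair_d]; exact h22) hD g
           expand := fun D g => by
            have h := hD D g
            rw [pair_d] at h
            exact h
           expandω := fun ω D => by
            have h := hω ω D
            rw [pair_d] at h
            exact h }⟩

end Pool.Agent.NG
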