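import Pool.Agent.NG.Fac

/-!
# ZER: a tie of dominating terms produces a zero on the circle (module to prove)

`exists_zero`: let `F ≠ 0`, `p = nplus t F`, `q = nminus t F`, `q < p`, `g = gn t F`, `w = p - q`.
Scale: it is enough to work on the circle `‖z‖ = exp t`; note that `exp t` is a value:
`‖a p‖ exp (p t) = ‖a q‖ exp (q t)`, so `exp t ^ (p - q) = ‖a q / a p‖` and `K` is algebraically closed, so there
is `z` with `z ^ (p - q) = a q / a p`, `‖z‖ = exp t`.

For large `k` let `P k` be the polynomial `∑_{|n| ≤ k} a n X ^ (n + k)` and `L k (z) = z ^ (-k) P k (z)` the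
truncated Laurent polynomial. With `ε k = sup_{|n| > k} term t a n → 0` we have
`‖F z - L k z‖ ≤ ε k` for `‖z‖ = exp t`, and for `ε k < g` also `|L k - L k'| ≤ ε k` for `k' ≥ k`.

Factor `P k = c ∏ (X - ζ j)` (`IsAlgClosed`). For `‖z‖ = exp t` :
`‖z - ζ j‖ = max (exp t) ‖ζ j‖` if `‖ζ j‖ ≠ exp t`. Let `w k` be the number of roots (with multiplicity) of
norm `exp t`. Then `w k = w`: apply `nplus_mul`, `nminus_mul` to the factorisation in `An K` (the function
`z - ζ` has `nplus - nminus` equal to `1` if `‖ζ‖ = exp t` and `0` otherwise, also for `ζ = 0`), and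
`nplus t (L k) = p`, `nminus t (L k) = q`. And `gn_mul` gives for `‖z‖ = exp t`
`‖L k z‖ = g ∏_{j : ‖ζ j‖ = exp t} ‖z - ζ j‖ exp (-t)`.

Choose roots inductively: `z_0` a root of `P k₀` of norm `exp t`. Given a root `z_i` of `P k_i` of norm
`exp t` and `k_{i+1} > k_i`: `‖L k_{i+1} (z_i)‖ ≤ ε k_i`, so one of the `w` factors is small: there is a
root `z_{i+1}` of `P k_{i+1}` of norm `exp t` with `(‖z_i - z_{i+1}‖ exp (-t)) ^ w ≤ ε k_i / g`. Hence
`z_i` is a Cauchy sequence (ultrametric: consecutive differences tend to zero,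
`IsUltrametricDist.cauchySeq_of_tendsto_dist_succ_zero` or similar); let `z` be its limit, `‖z‖ = exp t`. Then
`‖F z_i‖ ≤ ε k_i → 0` and `F` is continuous at `z` on the circle (uniform limit of the continuous
functions `L k`), so `F z = 0`.
-/

open Filter Topology
open scoped NNReal Polynomial
open Polynomial (C X aeval)

set_option linter.unusedSectionVars false

noncomputable section

namespace Pool.Agent.NG

variable {K : Type*} [NontriviallyNormedField K] [IsUltrametricDist K] [CompleteSpace K]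
  [IsAlgClosed K] [CharZero K]

private theorem zer_nn_eq {x : Kˣ} {t : ℝ} (h : Real.log ‖(x : K)‖ = t) : ‖(x : K)‖₊ = ex t := by
  apply NNReal.eq
  rw [coe_nnnorm, coe_ex, ← h, Real.exp_log (norm_pos_iff.2 x.ne_zero)]

private theorem zer_log_eq {x : Kˣ} {t : ℝ} (h : ‖(x : K)‖₊ = ex t) : Real.log ‖(x : K)‖ = t := by
  have h1 : ‖(x : K)‖ = Real.exp t := by
    rw [← coe_ex, ← h, coe_nnnorm]
  rw [h1, Real.log_exp]

/-- the norm of `H` on the circle is a product over the zeros on the circle -/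
private def Zgood (t : ℝ) (H : An K) : Prop :=
  ∃ s : Multiset Kˣ, (∀ ζ ∈ s, Real.log ‖(ζ : K)‖ = t ∧ H.1 ζ = 0) ∧
    (s.card : ℤ) = nplus t H - nminus t H ∧
    ∀ x : Kˣ, Real.log ‖(x : K)‖ = t →
      ‖H.1 x‖₊ = gn t H * (s.map fun ζ : Kˣ => ‖(x : K) - (ζ : K)‖₊ / ex t).prod

private theorem Zgood.mul {t : ℝ} {H G : An K} (hH : H ≠ 0) (hG : G ≠ 0) (h : Zgood t H)
    (h' : Zgood t G) : Zgood t (H * G) := by
  obtain ⟨s, s1, s2, s3⟩ := h
  obtain ⟨r, r1, r2, r3⟩ := h'
  refine ⟨s + r, fun ζ hζ => ?_, ?_, fun x hx => ?_⟩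
  · rcases Multiset.mem_add.1 hζ with h1 | h1
    · refine ⟨(s1 ζ h1).1, ?_⟩
      change H.1 ζ * G.1 ζ = 0
      rw [(s1 ζ h1).2, zero_mul]
    · refine ⟨(r1 ζ h1).1, ?_⟩
      change H.1 ζ * G.1 ζ = 0
      rw [(r1 ζ h1).2, mul_zero]
  · rw [Multiset.card_add, Nat.cast_add, s2, r2, nplus_mul _ hH hG, nminus_mul _ hH hG]
    ring
  · change ‖H.1 x * G.1 x‖₊ = _
    rw [nnnorm_mul, s3 x hx, r3 x hx, gn_mul, Multiset.map_add, Multiset.prod_add]
    ring

/-- one dominating term: the norm is constant on the circle -/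
private theorem zgood_of_eq {t : ℝ} {H : An K} (hH : H ≠ 0) (h : nplus t H = nminus t H) :
    Zgood t H := by
  refine ⟨0, fun ζ hζ => absurd hζ (Multiset.notMem_zero ζ), by simp [h], fun x hx => ?_⟩
  rw [Multiset.map_zero, Multiset.prod_zero, mul_one]
  set m := nplus t H with hm
  set E : An K := ofCoeff (Pi.single m (coeff H m)) (decay_single _ _) with hE
  have e1 : ‖E.1 x‖₊ = gn t H := by
    rw [hE, ofCoeff_apply, ser_single, nnnorm_mul_zpow (coeff H) x m, hx]
    exact term_nplus t hH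
  have e2 : gn t (H - E) < gn t H := by
    by_cases h0 : H - E = 0
    · rw [(gn_eq_zero t _).2 h0]
      exact pos_iff_ne_zero.2 fun h => hH ((gn_eq_zero t H).1 h)
    · rw [← term_nplus t h0]
      set n := nplus t (H - E) with hn
      rw [coeff_sub, hE, coeff_ofCoeff]
      by_cases hnm : n = m
      · unfold term
        rw [hnm, Pi.sub_apply, Pi.single_eq_same, sub_self, nnnorm_zero, zero_mul]
        exact pos_iff_ne_zero.2 fun h => hH ((gn_eq_zero t H).1 h)
      · have e3 : term t (coeff H - Pi.single m (coeff H m)) n = term t (coeff H) n := by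
          unfold term
          rw [Pi.sub_apply, Pi.single_eq_of_ne hnm, sub_zero]
        rw [e3]
        rcases lt_or_gt_of_ne hnm with h1 | h1
        · refine lt_of_lt_nminus t hH ?_
          rw [← h]
          exact h1
        · exact lt_of_nplus_lt t hH h1
  have e4 : ‖H.1 x - E.1 x‖₊ < ‖E.1 x‖₊ := by
    rw [e1]
    have e5 := nnnorm_apply_le (H - E) x
    rw [hx] at e5
    exact lt_of_le_of_lt e5 e2
  have e6 : H.1 x = (H.1 x - E.1 x) + E.1 x := by ring
  rw [← e1, e6, IsUltrametricDist.nnnorm_add_eq_max_of_nnnorm_ne_nnnorm e4.ne,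
    max_eq_right e4.le]

private theorem zer_term (ζ : Kˣ) (t : ℝ) (n : ℤ) : term t (coeff (Zs ζ)) n =
    if n = 1 then ex t else if n = 0 then ‖(ζ : K)‖₊ else 0 := by
  unfold term
  rw [Zs, coeff_sub, coeff_Zc, coeff_algebraMap, Pi.sub_apply]
  by_cases h1 : n = 1
  · rw [h1]
    simp
  · by_cases h0 : n = 0
    · rw [h0]
      simp
    · rw [Pi.single_eq_of_ne h1, Pi.single_eq_of_ne h0, if_neg h1, if_neg h0]
      simp

private theorem zgood_Zs (t : ℝ) (ζ : Kˣ) : Zgood t (Zs ζ) := by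
  rcases lt_trichotomy (Real.log ‖(ζ : K)‖) t with h | h | h
  · have h1 : ‖(ζ : K)‖₊ < ex t := by
      rw [← NNReal.coe_lt_coe, coe_nnnorm, coe_ex]
      exact (Real.log_lt_iff_lt_exp (norm_pos_iff.2 ζ.ne_zero)).1 h
    refine zgood_of_eq (Zs_ne_zero ζ) ?_
    rw [nplus_Zs ζ h.le]
    symm
    refine nminus_eq t (Zs_ne_zero ζ) 1 ?_ fun m hm => ?_
    · rw [zer_term, if_pos rfl, gn_Zs, max_eq_left h1.le]
    · rw [zer_term, if_neg (by omega), gn_Zs, max_eq_left h1.le]
      by_cases h0 : m = 0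
      · rw [if_pos h0]
        exact h1
      · rw [if_neg h0]
        exact ex_pos t
  · refine ⟨{ζ}, fun ξ hξ => ?_, ?_, fun x hx => ?_⟩
    · rw [Multiset.mem_singleton.1 hξ]
      exact ⟨h, by rw [Zs_apply, sub_self]⟩
    · rw [nplus_Zs ζ h.le, nminus_Zs ζ h.ge]
      simp
    · rw [Zs_apply, gn_Zs, Multiset.map_singleton, Multiset.prod_singleton, zer_nn_eq h, max_self,
        mul_div_cancel₀ _ (ex_ne_zero t)]
  · have h1 : ex t < ‖(ζ : K)‖₊ := by
      rw [← NNReal.coe_lt_coe, coe_nnnorm, coe_ex]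
      exact (Real.lt_log_iff_exp_lt (norm_pos_iff.2 ζ.ne_zero)).1 h
    refine zgood_of_eq (Zs_ne_zero ζ) ?_
    rw [nminus_Zs ζ h.le]
    refine nplus_eq t (Zs_ne_zero ζ) 0 ?_ fun m hm => ?_
    · rw [zer_term, if_neg (by norm_num), if_pos rfl, gn_Zs, max_eq_right h1.le]
    · rw [zer_term, gn_Zs, max_eq_right h1.le]
      by_cases h0 : m = 1
      · rw [if_pos h0]
        exact h1
      · rw [if_neg h0, if_neg (by omega)]
        exact lt_of_le_of_lt zero_le h1

private theorem zgood_mono (t : ℝ) (m : ℤ) {c : K} (hc : c ≠ 0) :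
    Zgood t (ofCoeff (Pi.single m c) (decay_single m c)) ∧
      ofCoeff (Pi.single m c) (decay_single m c) ≠ 0 := by
  have h0 : (ofCoeff (Pi.single m c) (decay_single m c) : An K) ≠ 0 := by
    intro h
    have h1 := congrArg (fun F : An K => coeff F m) h
    simp only [coeff_ofCoeff, coeff_zero, Pi.single_eq_same, Pi.zero_apply] at h1
    exact hc h1
  have h1 : ∀ n, n ≠ m →
      term t (coeff (ofCoeff (Pi.single m c) (decay_single m c))) n = 0 := by
    intro n hn
    unfold term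
    rw [coeff_ofCoeff, Pi.single_eq_of_ne hn, nnnorm_zero, zero_mul]
  have h2 : gn t (ofCoeff (Pi.single m c) (decay_single m c)) ≠ 0 :=
    fun h => h0 ((gn_eq_zero t _).1 h)
  refine ⟨zgood_of_eq h0 ?_, h0⟩
  have h3 : nplus t (ofCoeff (Pi.single m c) (decay_single m c)) = m := by
    by_contra hcon
    have h4 := h1 _ hcon
    rw [term_nplus t h0] at h4
    exact h2 h4
  have h4 : nminus t (ofCoeff (Pi.single m c) (decay_single m c)) = m := by
    by_contra hcon
    have h4 := h1 _ hcon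
    rw [term_nminus t h0] at h4
    exact h2 h4
  rw [h3, h4]

open Polynomial in
private theorem zgood_poly (t : ℝ) : ∀ (N : ℕ) (P : K[X]), P ≠ 0 → P.natDegree = N →
    Zgood t (aeval (Zc : An K) P) ∧ aeval (Zc : An K) P ≠ 0 := by
  intro N
  induction N with
  | zero =>
    intro P hP hN
    rw [eq_C_of_natDegree_eq_zero hN] at hP ⊢
    have hc : P.coeff 0 ≠ 0 := fun h => hP (by rw [h, C_0])
    rw [aeval_C]
    have h1 : (algebraMap K (An K) (P.coeff 0)) =
        ofCoeff (Pi.single 0 (P.coeff 0)) (decay_single 0 (P.coeff 0)) := by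
      apply coeff_injective
      rw [coeff_algebraMap, coeff_ofCoeff]
    rw [h1]
    exact zgood_mono t 0 hc
  | succ N ih =>
    intro P hP hN
    obtain ⟨ζ, hζ⟩ := IsAlgClosed.exists_root P (by
      rw [degree_eq_natDegree hP, hN]
      exact_mod_cast Nat.succ_ne_zero N)
    obtain ⟨Q, hQ⟩ := dvd_iff_isRoot.2 hζ
    have hQ0 : Q ≠ 0 := by
      rintro rfl
      exact hP (hQ.trans (mul_zero _))
    have hQN : Q.natDegree = N := by
      have h1 := natDegree_mul (X_sub_C_ne_zero ζ) hQ0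
      rw [← hQ, natDegree_X_sub_C, hN] at h1
      omega
    obtain ⟨g1, g2⟩ := ih Q hQ0 hQN
    have h3 : Zgood t ((Zc : An K) - algebraMap K (An K) ζ) ∧
        (Zc : An K) - algebraMap K (An K) ζ ≠ 0 := by
      by_cases h0 : ζ = 0
      · rw [h0, map_zero, sub_zero]
        exact zgood_mono t 1 one_ne_zero
      · exact ⟨zgood_Zs t (Units.mk0 ζ h0), Zs_ne_zero (Units.mk0 ζ h0)⟩
    rw [hQ, map_mul, map_sub, aeval_X, aeval_C]
    exact ⟨h3.1.mul h3.2 g2 g1, mul_ne_zero h3.2 g2⟩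

/-- truncation -/
private def ztr (F : An K) (k : ℕ) : An K :=
  ofCoeff (fun n => if |n| ≤ k then coeff F n else 0) ((coeff_decay F).of_le fun n => by
    split_ifs
    · exact le_rfl
    · rw [norm_zero]
      exact norm_nonneg _)

private theorem coeff_ztr (F : An K) (k : ℕ) (n : ℤ) :
    coeff (ztr F k) n = if |n| ≤ k then coeff F n else 0 := by
  rw [ztr, coeff_ofCoeff]

/-- evaluation at a point -/
private def zev (x : Kˣ) : An K →ₐ[K] K := (Pi.evalAlgHom K (fun _ : Kˣ => K) x).comp (An K).val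

private theorem zev_apply (x : Kˣ) (H : An K) : zev x H = H.1 x := rfl

open Polynomial in
private theorem ztr_poly (F : An K) (k : ℕ) :
    ztr F k = ofCoeff (Pi.single (-k : ℤ) 1) (decay_single _ _) *
      aeval (Zc : An K) (∑ i ∈ Finset.range (2 * k + 1), C (coeff F ((i : ℤ) - k)) * X ^ i) := by
  refine An.ext' fun x => ?_
  rw [← zev_apply x, ← zev_apply x, map_mul, ← aeval_algHom_apply, zev_apply, zev_apply, zev_apply,
    Zc_apply, ofCoeff_apply, ser_single, one_mul, ztr, ofCoeff_apply]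
  have h1 : aeval (x : K) (∑ i ∈ Finset.range (2 * k + 1), C (coeff F ((i : ℤ) - k)) * X ^ i) =
      ∑ i ∈ Finset.range (2 * k + 1), coeff F ((i : ℤ) - k) * (x : K) ^ i := by
    rw [map_sum]
    refine Finset.sum_congr rfl fun i _ => ?_
    rw [map_mul, map_pow, aeval_C, aeval_X]
    rfl
  rw [h1]
  unfold ser
  rw [tsum_eq_sum (s := (Finset.range (2 * k + 1)).map
    ⟨fun i : ℕ => (i : ℤ) - k, fun i j h => by simpa using h⟩), Finset.sum_map, Finset.mul_sum]
  · refine Finset.sum_congr rfl fun i hi => ?_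
    rw [Finset.mem_range] at hi
    have h2 : |(i : ℤ) - k| ≤ k := by
      rw [abs_le]
      omega
    simp only [Function.Embedding.coeFn_mk]
    rw [if_pos h2, sub_eq_add_neg, zpow_add, Units.val_mul, zpow_natCast, Units.val_pow_eq_pow_val]
    ring
  · intro n hn
    have h2 : ¬ |n| ≤ k := by
      intro h3
      rw [abs_le] at h3
      apply hn
      rw [Finset.mem_map]
      refine ⟨(n + k).toNat, ?_, ?_⟩
      · rw [Finset.mem_range]
        omega
      · simp only [Function.Embedding.coeFn_mk]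
        omega
    simp only [if_neg h2, zero_mul]

private theorem ztr_gn_le (F : An K) (k : ℕ) (t : ℝ) (n : ℤ) :
    term t (coeff (ztr F k)) n ≤ term t (coeff F) n := by
  unfold term
  rw [coeff_ztr]
  split_ifs
  · exact le_rfl
  · rw [nnnorm_zero, zero_mul]
    exact zero_le

private theorem ztr_term (F : An K) (k : ℕ) (t : ℝ) {n : ℤ} (h : |n| ≤ k) :
    term t (coeff (ztr F k)) n = term t (coeff F) n := by
  unfold term
  rw [coeff_ztr, if_pos h]

private theorem ztr_spec {F : An K} (hF : F ≠ 0) (t : ℝ) {k : ℕ} (h1 : |nplus t F| ≤ k)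
    (h2 : |nminus t F| ≤ k) : ztr F k ≠ 0 ∧ gn t (ztr F k) = gn t F ∧
      nplus t (ztr F k) = nplus t F ∧ nminus t (ztr F k) = nminus t F := by
  have hg : gn t (ztr F k) = gn t F := by
    refine le_antisymm (gn_le _ _ _ fun n => (ztr_gn_le F k t n).trans (term_le_gn _ _ _)) ?_
    rw [← term_nplus t hF, ← ztr_term F k t h1]
    exact term_le_gn _ _ _
  have h0 : ztr F k ≠ 0 := by
    intro h
    rw [h, (gn_eq_zero t (0 : An K)).2 rfl] at hg
    exact hF ((gn_eq_zero t F).1 hg.symm)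
  refine ⟨h0, hg, nplus_eq t h0 _ ?_ fun m hm => ?_, nminus_eq t h0 _ ?_ fun m hm => ?_⟩
  · rw [ztr_term F k t h1, hg]
    exact term_nplus t hF
  · rw [hg]
    exact lt_of_le_of_lt (ztr_gn_le F k t m) (lt_of_nplus_lt t hF hm)
  · rw [ztr_term F k t h2, hg]
    exact term_nminus t hF
  · rw [hg]
    exact lt_of_le_of_lt (ztr_gn_le F k t m) (lt_of_lt_nminus t hF hm)

private theorem ztr_zgood {F : An K} (t : ℝ) {k : ℕ} (h0 : ztr F k ≠ 0) : Zgood t (ztr F k) := by
  have e := ztr_poly F k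
  obtain ⟨g1, g2⟩ := zgood_mono t (-k : ℤ) (one_ne_zero (α := K))
  rw [e] at h0 ⊢
  have hP : aeval (Zc : An K) (∑ i ∈ Finset.range (2 * k + 1),
      C (coeff F ((i : ℤ) - k)) * X ^ i) ≠ 0 := right_ne_zero_of_mul h0
  have hP' : (∑ i ∈ Finset.range (2 * k + 1), C (coeff F ((i : ℤ) - k)) * X ^ i : K[X]) ≠ 0 := by
    intro h
    rw [h, map_zero] at hP
    exact hP rfl
  exact g1.mul g2 hP (zgood_poly t _ _ hP' rfl).1

private theorem ztr_err {F : An K} (t : ℝ) :
    Tendsto (fun k : ℕ => gn t (F - ztr F k)) atTop (𝓝 0) := by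
  rw [tendsto_order]
  refine ⟨fun b hb => absurd hb not_lt_zero, fun ε hε => ?_⟩
  have hε2 : 0 < ε / 2 := half_pos hε
  have fin := finite_ge (coeff_decay F) t hε2
  obtain ⟨M, hM⟩ := fin.bddAbove
  obtain ⟨M', hM'⟩ := fin.bddBelow
  filter_upwards [eventually_ge_atTop (M.toNat + (-M').toNat)] with k hk
  refine lt_of_le_of_lt (gn_le _ _ (ε / 2) fun n => ?_) (half_lt_self hε)
  unfold term
  rw [coeff_sub, Pi.sub_apply, coeff_ztr]
  by_cases hn : |n| ≤ k
  · rw [if_pos hn, sub_self, nnnorm_zero, zero_mul]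
    exact zero_le
  · rw [if_neg hn, sub_zero]
    by_contra hcon
    have h1 : ε / 2 ≤ term t (coeff F) n := (not_le.1 hcon).le
    have h2 : n ≤ M := hM h1
    have h3 : M' ≤ n := hM' h1
    apply hn
    rw [abs_le]
    omega

private theorem zer_sub_le (x y : K) : ‖x - y‖₊ ≤ max ‖x‖₊ ‖y‖₊ := by
  have h := IsUltrametricDist.nnnorm_add_le_max x (-y)
  rwa [nnnorm_neg, ← sub_eq_add_neg] at h

private theorem zer_seq {α : Type*} (P : ℕ → α → Prop) (Q : ℕ → α → α → Prop) (h0 : ∃ a, P 0 a)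
    (hs : ∀ k a, P k a → ∃ b, P (k + 1) b ∧ Q k a b) :
    ∃ z : ℕ → α, ∀ k, P k (z k) ∧ Q k (z k) (z (k + 1)) := by
  obtain ⟨a0, ha0⟩ := h0
  choose f hf using hs
  let z : ∀ k : ℕ, {a : α // P k a} := fun k =>
    Nat.rec ⟨a0, ha0⟩ (fun k x => ⟨f k x.1 x.2, (hf k x.1 x.2).1⟩) k
  exact ⟨fun k => (z k).1, fun k => ⟨(z k).2, (hf k (z k).1 (z k).2).2⟩⟩

theorem exists_zero {F : An K} (hF : F ≠ 0) (t : ℝ) (h : nminus t F < nplus t F) :
    ∃ z : Kˣ, Real.log ‖(z : K)‖ = t ∧ F.1 z = 0 := by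
  classical
  obtain ⟨w, hw⟩ : ∃ w : ℕ, (w : ℤ) = nplus t F - nminus t F :=
    ⟨(nplus t F - nminus t F).toNat, Int.toNat_of_nonneg (by omega)⟩
  have hw0 : w ≠ 0 := by
    rintro rfl
    push_cast at hw
    omega
  have hg : 0 < gn t F := pos_iff_ne_zero.2 fun h => hF ((gn_eq_zero t F).1 h)
  set K₀ : ℕ := (nplus t F).natAbs + (nminus t F).natAbs with hK₀
  have hspec : ∀ k : ℕ, ztr F (K₀ + k) ≠ 0 ∧ gn t (ztr F (K₀ + k)) = gn t F ∧
      nplus t (ztr F (K₀ + k)) = nplus t F ∧ nminus t (ztr F (K₀ + k)) = nminus t F := by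
    intro k
    refine ztr_spec hF t ?_ ?_
    · rw [Int.abs_eq_natAbs]
      exact_mod_cast (by omega : (nplus t F).natAbs ≤ K₀ + k)
    · rw [Int.abs_eq_natAbs]
      exact_mod_cast (by omega : (nminus t F).natAbs ≤ K₀ + k)
  have hgood : ∀ k : ℕ, ∃ s : Multiset Kˣ,
      (∀ ζ ∈ s, Real.log ‖(ζ : K)‖ = t ∧ (ztr F (K₀ + k)).1 ζ = 0) ∧ s.card = w ∧
      ∀ x : Kˣ, Real.log ‖(x : K)‖ = t → ‖(ztr F (K₀ + k)).1 x‖₊ =
        gn t F * (s.map fun ζ : Kˣ => ‖(x : K) - (ζ : K)‖₊ / ex t).prod := by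
    intro k
    obtain ⟨h0, h1, h2, h3⟩ := hspec k
    obtain ⟨s, s1, s2, s3⟩ := ztr_zgood t h0
    refine ⟨s, s1, ?_, ?_⟩
    · rw [h2, h3, ← hw] at s2
      exact_mod_cast s2
    · rw [h1] at s3
      exact s3
  choose s s1 s2 s3 using hgood
  set e : ℕ → ℝ≥0 := fun k => max (gn t (F - ztr F (K₀ + k))) (gn t (F - ztr F (K₀ + (k + 1))))
    with he
  have hE : Tendsto (fun k : ℕ => gn t (F - ztr F (K₀ + k))) atTop (𝓝 0) := by
    have h1 := (ztr_err (F := F) t).comp (tendsto_add_atTop_nat K₀)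
    refine h1.congr fun k => ?_
    simp [add_comm]
  have he0 : Tendsto e atTop (𝓝 0) := by
    have h1 := hE.max (hE.comp (tendsto_add_atTop_nat 1))
    rw [max_self] at h1
    exact h1
  have hfac : ∀ (x ζ : Kˣ), Real.log ‖(x : K)‖ = t → Real.log ‖(ζ : K)‖ = t →
      ‖(x : K) - (ζ : K)‖₊ / ex t ≤ 1 := by
    intro x ζ hx hζ
    rw [div_le_one₀ (ex_pos t)]
    refine (zer_sub_le _ _).trans ?_
    rw [zer_nn_eq hx, zer_nn_eq hζ, max_self]
  obtain ⟨z, hz⟩ := zer_seq (fun k x => x ∈ s k)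
    (fun k x y => (‖(x : K) - (y : K)‖₊ / ex t) ^ w ≤ e k / gn t F)
    (by
      have h1 : (s 0).card ≠ 0 := by
        rw [s2 0]
        exact hw0
      exact Multiset.exists_mem_of_ne_zero fun h2 => h1 (by rw [h2, Multiset.card_zero]))
    (by
      intro k x hx
      obtain ⟨hx1, hx2⟩ := s1 k x hx
      have h1 : ‖(ztr F (K₀ + (k + 1))).1 x‖₊ ≤ e k := by
        have h2 : (ztr F (K₀ + (k + 1))).1 x =
            (F - ztr F (K₀ + k)).1 x - (F - ztr F (K₀ + (k + 1))).1 x := by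
          change _ = (F.1 x - (ztr F (K₀ + k)).1 x) - (F.1 x - (ztr F (K₀ + (k + 1))).1 x)
          rw [hx2]
          ring
        rw [h2]
        refine (zer_sub_le _ _).trans (max_le_max ?_ ?_)
        · have := nnnorm_apply_le (F - ztr F (K₀ + k)) x
          rwa [hx1] at this
        · have := nnnorm_apply_le (F - ztr F (K₀ + (k + 1))) x
          rwa [hx1] at this
      rw [s3 (k + 1) x hx1] at h1
      have h3 : (s (k + 1)).toFinset.Nonempty := by
        rw [Multiset.toFinset_nonempty]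
        intro h4
        apply hw0
        rw [← s2 (k + 1), h4, Multiset.card_zero]
      obtain ⟨y, hy, hmin⟩ := Finset.exists_min_image (s (k + 1)).toFinset
        (fun y : Kˣ => ‖(x : K) - (y : K)‖₊ / ex t) h3
      refine ⟨y, Multiset.mem_toFinset.1 hy, ?_⟩
      rw [le_div_iff₀ hg, mul_comm]
      refine le_trans (mul_le_mul_right ?_ _) h1
      have h5 := Multiset.pow_card_le_prod
        (s := (s (k + 1)).map fun ζ : Kˣ => ‖(x : K) - (ζ : K)‖₊ / ex t)
        (a := ‖(x : K) - (y : K)‖₊ / ex t) (by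
          intro r hr
          obtain ⟨ζ, hζ, rfl⟩ := Multiset.mem_map.1 hr
          exact hmin ζ (Multiset.mem_toFinset.2 hζ))
      rwa [Multiset.card_map, s2 (k + 1)] at h5)
  have hd : Tendsto (fun k => ‖(z k : K) - (z (k + 1) : K)‖₊ / ex t) atTop (𝓝 0) := by
    rw [tendsto_order]
    refine ⟨fun b hb => absurd hb not_lt_zero, fun ε hε => ?_⟩
    have h1 : Tendsto (fun k => e k / gn t F) atTop (𝓝 0) := by
      have := he0.div_const (gn t F)
      rwa [zero_div] at this
    filter_upwards [h1.eventually (gt_mem_nhds (pow_pos hε w))] with k hk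
    exact lt_of_pow_lt_pow_left₀ w zero_le (lt_of_le_of_lt (hz k).2 hk)
  have hcau : CauchySeq (fun k => (z k : K)) := by
    apply NonarchimedeanAddGroup.cauchySeq_of_tendsto_sub_nhds_zero
    rw [tendsto_zero_iff_norm_tendsto_zero]
    have h1 := hd.mul_const (ex t)
    rw [zero_mul] at h1
    have h2 := (NNReal.continuous_coe.tendsto 0).comp h1
    rw [NNReal.coe_zero] at h2
    refine h2.congr fun k => ?_
    rw [Function.comp_apply, div_mul_cancel₀ _ (ex_ne_zero t), coe_nnnorm, norm_sub_rev]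
  obtain ⟨y, hy⟩ := cauchySeq_tendsto_of_complete hcau
  have hyn : ‖y‖ = Real.exp t := by
    have h1 := hy.norm
    have h2 : (fun k => ‖(z k : K)‖) = fun _ => Real.exp t := by
      funext k
      have := zer_nn_eq (s1 k (z k) (hz k).1).1
      rw [← coe_nnnorm, this, coe_ex]
    rw [h2] at h1
    exact tendsto_nhds_unique h1 tendsto_const_nhds |>.symm ▸ rfl
  have hy0 : y ≠ 0 := by
    rintro rfl
    rw [norm_zero] at hyn
    exact absurd hyn (Real.exp_pos t).ne
  have hyt : Real.log ‖((Units.mk0 y hy0 : Kˣ) : K)‖ = t := by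
    rw [Units.val_mk0, hyn, Real.log_exp]
  refine ⟨Units.mk0 y hy0, hyt, ?_⟩
  have hle : ∀ k, ‖F.1 (Units.mk0 y hy0)‖₊ ≤
      max (gn t (F - ztr F (K₀ + k))) (gn t F * (‖y - (z k : K)‖₊ / ex t)) := by
    intro k
    have h1 : F.1 (Units.mk0 y hy0) = (F - ztr F (K₀ + k)).1 (Units.mk0 y hy0) +
        (ztr F (K₀ + k)).1 (Units.mk0 y hy0) := by
      change _ = (F.1 (Units.mk0 y hy0) - (ztr F (K₀ + k)).1 (Units.mk0 y hy0)) + _
      ring
    rw [h1]
    refine (IsUltrametricDist.nnnorm_add_le_max _ _).trans (max_le_max ?_ ?_)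
    · have := nnnorm_apply_le (F - ztr F (K₀ + k)) (Units.mk0 y hy0)
      rwa [hyt] at this
    · rw [s3 k _ hyt]
      refine mul_le_mul_right ?_ _
      obtain ⟨s', hs'⟩ := Multiset.exists_cons_of_mem (hz k).1
      rw [hs', Multiset.map_cons, Multiset.prod_cons]
      refine mul_le_of_le_one_right zero_le ?_
      have h5 := Multiset.prod_le_pow_card
        (s'.map fun ζ : Kˣ => ‖((Units.mk0 y hy0 : Kˣ) : K) - (ζ : K)‖₊ / ex t) 1 (by
          intro r hr
          obtain ⟨ζ, hζ, rfl⟩ := Multiset.mem_map.1 hr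
          exact hfac _ _ hyt (s1 k ζ (by rw [hs']; exact Multiset.mem_cons_of_mem hζ)).1)
      rwa [one_pow] at h5
  have hlim : Tendsto (fun k => max (gn t (F - ztr F (K₀ + k)))
      (gn t F * (‖y - (z k : K)‖₊ / ex t))) atTop (𝓝 0) := by
    have h1 : Tendsto (fun k => ‖y - (z k : K)‖₊) atTop (𝓝 0) := by
      have h2 := (tendsto_const_nhds (x := y)).sub hy
      rw [sub_self] at h2
      have h3 := h2.nnnorm
      rwa [nnnorm_zero] at h3
    have h2 := (h1.div_const (ex t)).const_mul (gn t F)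
    rw [zero_div, mul_zero] at h2
    have h3 := hE.max h2
    rwa [max_self] at h3
  have h6 : ‖F.1 (Units.mk0 y hy0)‖₊ ≤ 0 := ge_of_tendsto' hlim hle
  exact nnnorm_eq_zero.1 (le_antisymm h6 zero_le)

end Pool.Agent.NG
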