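import Pool.Agent.NG.Loc
import Pool.Agent.NG.Zer

/-!
# SUPP: everywhere regular meromorphic functions, Liouville (module to prove)

`exists_good_frac`: let `h` be regular at all points and `t₁ ≤ t₂`. Then `h * am G = am F` with
`G ≠ 0` and `nplus t₂ G = nminus t₁ G`. Proof: take any `F`, `G` (`exists_frac`) and argue by strong
induction on `nplus t₂ G - nminus t₁ G ≥ 0`. If it is positive then either `nminus t G < nplus t G` for some `t` in
`[t₁, t₂]` (for `t = t₁` or `t₂`, or in between: if no tie occurred anywhere on the interval then `nplus t G = nminus t G`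
is locally constant by `nplus_eq_nminus_right/left`, hence constant), so `exists_zero` gives a zero
`z₀` of `G` with `log ‖z₀‖ = t`. `h` is regular at `z₀`: `h * am G' = am F'` with `G' z₀ ≠ 0`, so `F G' = F' G` and
`F z₀ = 0`. Factor `F = Zs F₁`, `G = Zs G₁` (`exists_factor`), cancel, and the number drops by one
(`nplus_mul`, `nminus_mul`, `nplus_Zs`, `nminus_Zs`).

`support`: let `h ≠ 0` be everywhere regular and `t₀ : ℝ`. For `m : ℕ` take `F`, `G` for the interval
`[t₀ - m, t₀ + m]`; on it `gn t G = gn t₀ G * ex (nminus t₀ G (t - t₀))` (`gn_of_nplus_eq`; all indices agree), and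
`gn t F ≥ gn t₀ F * ex (nplus t₀ F (t - t₀))`, so `mv t h ≥ mv t₀ h * ex (n (t - t₀))` with
`n = nplus t₀ F - nplus t₀ G`. This integer does not depend on `m`: it is the right slope of `h` at
`t₀` (`gn_right`; two fractions representing `h` satisfy `F G' = F' G`, use `nplus_mul`).

`liouville`: `mv t h ≤ C` for all `t`. If `h ≠ 0`, the integer of `support` is zero (otherwise
`mv t h` would be unbounded), so `mv t₀ h ≤ mv t h` for all `t₀`, `t`: `mv t h` is constant. Let
`c = ev 1 h` and `h₁ = h - c`: it is everywhere regular and bounded, with `ev 1 h₁ = 0`. Suppose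
`h₁ ≠ 0`. Then `mv t h₁ = C₁` is constant, `h₁ = am (Zs 1) * h₂` (`exists_factor_reg`) where `h₂` is regular at
`1` and at the other points too (`am (Zs 1)` is invertible there), and
`mv t h₂ = C₁ / max (ex t) 1`. By `support` at `t₀ = 0` there is `n` with
`C₁ * ex (n t) ≤ C₁ / max (ex t) 1` for all `t`: `t > 0` gives `n ≤ -1`, `t < 0` gives `n ≥ 0`, contradiction.
-/

open Filter Topology
open scoped NNReal

noncomputable section

namespace Pool.Agent.NG

variable {K : Type*} [NontriviallyNormedField K] [IsUltrametricDist K] [CompleteSpace K]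
  [IsAlgClosed K] [CharZero K]

private lemma sp_mono {G : An K} (hG : G ≠ 0) {t t' : ℝ} (h : t ≤ t') :
    nplus t G ≤ nplus t' G := by
  rcases h.lt_or_eq with h | h
  · exact (nplus_le_nminus hG h).trans (nminus_le_nplus t' hG)
  · rw [h]

private lemma sp_mono' {G : An K} (hG : G ≠ 0) {t t' : ℝ} (h : t ≤ t') :
    nminus t G ≤ nplus t' G := (nminus_le_nplus t hG).trans (sp_mono hG h)

private lemma sp_tie {G : An K} (hG : G ≠ 0) {t₁ t₂ : ℝ} (ht : t₁ ≤ t₂)
    (h : nminus t₁ G < nplus t₂ G) : ∃ t ∈ Set.Icc t₁ t₂, nminus t G < nplus t G := by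
  by_contra hcon
  push Not at hcon
  have h0 : ∀ t ∈ Set.Icc t₁ t₂, nplus t G = nminus t G := fun t ht =>
    le_antisymm (hcon t ht) (nminus_le_nplus t hG)
  have hc : ContinuousOn (fun t => nplus t G) (Set.Icc t₁ t₂) := by
    intro t ht'
    refine ContinuousAt.continuousWithinAt ?_
    have h1 : ∀ᶠ t' in 𝓝 t, nplus t' G = nplus t G := by
      obtain ⟨δ₁, hδ₁, h1⟩ := nplus_eq_nminus_right hG t
      obtain ⟨δ₂, hδ₂, h2⟩ := nplus_eq_nminus_left hG t
      filter_upwards [Ioo_mem_nhds (show t - δ₂ < t by linarith) (show t < t + δ₁ by linarith)]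
        with t' hmem
      rcases lt_trichotomy t' t with h3 | h3 | h3
      · rw [(h2 t' ⟨hmem.1, h3⟩).1, h0 t ht']
      · rw [h3]
      · exact (h1 t' ⟨h3, hmem.2⟩).1
    exact tendsto_const_nhds.congr' (h1.mono fun _ e => e.symm)
  have h1 := isPreconnected_Icc.constant hc (Set.right_mem_Icc.2 ht) (Set.left_mem_Icc.2 ht)
  rw [h1, h0 t₁ (Set.left_mem_Icc.2 ht)] at h
  exact lt_irrefl _ h

private lemma sp_cross {h : Mer K} {F G F' G' : An K} (e : h * am G = am F)
    (e' : h * am G' = am F') : F * G' = F' * G := by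
  apply am_injective
  rw [am_mul, am_mul, ← e, ← e']
  ring

theorem exists_good_frac {h : Mer K} (hreg : ∀ z, RegAt z h) {t₁ t₂ : ℝ} (ht : t₁ ≤ t₂) :
    ∃ F G : An K, G ≠ 0 ∧ h * am G = am F ∧ nplus t₂ G = nminus t₁ G := by
  have key : ∀ N : ℕ, ∀ F G : An K, G ≠ 0 → h * am G = am F →
      nplus t₂ G - nminus t₁ G = N →
      ∃ F G : An K, G ≠ 0 ∧ h * am G = am F ∧ nplus t₂ G = nminus t₁ G := by
    intro N
    induction N with
    | zero =>
      intro F G hG e hN
      exact ⟨F, G, hG, e, by rw [Nat.cast_zero] at hN; omega⟩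
    | succ N ih =>
      intro F G hG e hN
      obtain ⟨t, htm, hlt⟩ := sp_tie hG ht (by rw [Nat.cast_succ] at hN; omega)
      obtain ⟨z₀, hz, hz0⟩ := exists_zero hG t hlt
      obtain ⟨F', G', hG', e'⟩ := hreg z₀
      have h1 := congrArg (fun H : An K => H.1 z₀) (sp_cross e e')
      have h2 : F.1 z₀ * G'.1 z₀ = F'.1 z₀ * G.1 z₀ := h1
      rw [hz0, mul_zero] at h2
      have h3 : F.1 z₀ = 0 := (mul_eq_zero.1 h2).resolve_right hG'
      obtain ⟨F₁, hF₁⟩ := exists_factor F z₀ h3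
      obtain ⟨G₁, hG₁⟩ := exists_factor G z₀ hz0
      have hG₁0 : G₁ ≠ 0 := by
        rintro rfl
        exact hG (by rw [hG₁, mul_zero])
      have hZ := Zs_ne_zero z₀
      refine ih F₁ G₁ hG₁0 ?_ ?_
      · rw [hF₁, hG₁, am_mul, am_mul, ← mul_assoc, mul_comm h, mul_assoc] at e
        exact mul_left_cancel₀ (fun h0 => hZ (am_eq_zero.1 h0)) e
      · rw [hG₁, nplus_mul t₂ hZ hG₁0, nminus_mul t₁ hZ hG₁0,
          nplus_Zs z₀ (by rw [hz]; exact htm.2), nminus_Zs z₀ (by rw [hz]; exact htm.1)] at hN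
        rw [Nat.cast_succ] at hN
        omega
  obtain ⟨F, G, hG, e⟩ := exists_frac h
  have h0 := sp_mono' hG ht
  exact key (nplus t₂ G - nminus t₁ G).toNat F G hG e (by rw [Int.toNat_of_nonneg]; omega)

theorem support {h : Mer K} (hh : h ≠ 0) (hreg : ∀ z, RegAt z h) (t₀ : ℝ) :
    ∃ n : ℤ, ∀ t, mv t₀ h * ex (n * (t - t₀)) ≤ mv t h := by
  obtain ⟨F₀, G₀, hG₀, e₀⟩ := exists_frac h
  have hne : ∀ {F G : An K}, G ≠ 0 → h * am G = am F → F ≠ 0 := by
    intro F G hG e
    rintro rfl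
    rw [am_zero, mul_eq_zero] at e
    rcases e with e | e
    · exact hh e
    · exact hG (am_eq_zero.1 e)
  refine ⟨nplus t₀ F₀ - nplus t₀ G₀, fun t => ?_⟩
  obtain ⟨F, G, hG, e, hn⟩ := exists_good_frac hreg
    (show t₀ - |t - t₀| ≤ t₀ + |t - t₀| by linarith [abs_nonneg (t - t₀)])
  have hF := hne hG e
  have hF₀ := hne hG₀ e₀
  have h1 := sp_cross e₀ e
  have h2 : nplus t₀ F₀ + nplus t₀ G = nplus t₀ F + nplus t₀ G₀ := by
    rw [← nplus_mul t₀ hF₀ hG, h1, nplus_mul t₀ hF hG₀]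
  have h3 : nplus t₀ F₀ - nplus t₀ G₀ = nplus t₀ F - nplus t₀ G := by omega
  rw [h3]
  have ha := abs_nonneg (t - t₀)
  have h4 : nplus t₀ G = nminus (t₀ - |t - t₀|) G := by
    apply le_antisymm
    · rw [← hn]
      exact sp_mono hG (by linarith)
    · exact sp_mono' hG (by linarith)
  have h5 := gn_of_nplus_eq hG hn (t := t₀) (t' := t)
    ⟨by linarith, by linarith⟩ ⟨by linarith [neg_abs_le (t - t₀)], by linarith [le_abs_self (t - t₀)]⟩
  rw [← h4] at h5
  have h6 := gn_support_plus hF t₀ t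
  have hg0 : gn t₀ G ≠ 0 := fun h0 => hG ((gn_eq_zero t₀ G).1 h0)
  have hg : 0 < gn t G := pos_iff_ne_zero.2 fun h0 => hG ((gn_eq_zero t G).1 h0)
  rw [mv_eq_div t hG e, mv_eq_div t₀ hG e, le_div_iff₀ hg, h5]
  refine le_trans (le_of_eq ?_) h6
  have h7 : ex (nplus t₀ F * (t - t₀)) =
      ex (((nplus t₀ F - nplus t₀ G : ℤ) : ℝ) * (t - t₀)) * ex (nplus t₀ G * (t - t₀)) := by
    rw [← ex_add]; congr 1; push_cast; ring
  rw [h7]
  field_simp

private lemma sp_pos {a C : ℝ≥0} (ha : 0 < a) {r : ℝ} (hr : 0 < r)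
    (h : ∀ s : ℝ, a * ex (r * s) ≤ C) : False := by
  have h1 : Tendsto (fun s : ℝ => (a : ℝ) * Real.exp (r * s)) atTop atTop :=
    Tendsto.const_mul_atTop (show (0 : ℝ) < a from ha)
      (Real.tendsto_exp_atTop.comp (tendsto_id.const_mul_atTop hr))
  obtain ⟨s, hs⟩ := (h1.eventually (eventually_gt_atTop (C : ℝ))).exists
  have h2 := h s
  rw [← NNReal.coe_le_coe, NNReal.coe_mul, coe_ex] at h2
  linarith

private lemma sp_const {h : Mer K} (hh : h ≠ 0) (hreg : ∀ z, RegAt z h) (C : ℝ≥0)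
    (hC : ∀ t, mv t h ≤ C) (s t : ℝ) : mv s h = mv t h := by
  have key : ∀ t₀ t : ℝ, mv t₀ h ≤ mv t h := by
    intro t₀ t
    obtain ⟨n, hn⟩ := support hh hreg t₀
    have hn0 : n = 0 := by
      rcases lt_trichotomy n 0 with h1 | h1 | h1
      · exfalso
        refine sp_pos (mv_pos t₀ hh) (r := -(n : ℝ)) ?_ (C := C) fun s => ?_
        · have : (n : ℝ) < 0 := by exact_mod_cast h1
          linarith
        · have := (hn (t₀ - s)).trans (hC _)
          rw [show (n : ℝ) * (t₀ - s - t₀) = -(n : ℝ) * s by ring] at this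
          exact this
      · exact h1
      · exfalso
        refine sp_pos (mv_pos t₀ hh) (r := (n : ℝ)) ?_ (C := C) fun s => ?_
        · exact_mod_cast h1
        · have := (hn (t₀ + s)).trans (hC _)
          rw [show (n : ℝ) * (t₀ + s - t₀) = (n : ℝ) * s by ring] at this
          exact this
    have := hn t
    rw [hn0, Int.cast_zero, zero_mul, ex_zero, mul_one] at this
    exact this
  exact le_antisymm (key s t) (key t s)

theorem liouville {h : Mer K} (hreg : ∀ z, RegAt z h) (C : ℝ≥0) (hC : ∀ t, mv t h ≤ C) :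
    ∃ c : K, h = algebraMap K (Mer K) c := by
  refine ⟨ev 1 h, ?_⟩
  set c := ev 1 h with hc
  set h₁ : Mer K := h - algebraMap K (Mer K) c with hh₁
  have hreg₁ : ∀ z, RegAt z h₁ := fun z => (hreg z).sub (regAt_const z c)
  have hev : ev 1 h₁ = 0 := by
    rw [hh₁, ev_sub (hreg 1) (regAt_const 1 c), ev_const, ← hc, sub_self]
  have hb : ∀ t, mv t h₁ ≤ max C ‖c‖₊ := by
    intro t
    refine (mv_sub t _ _).trans (max_le_max (hC t) ?_)
    rw [mv_const]
  by_contra hne
  have h10 : h₁ ≠ 0 := fun h0 => hne (sub_eq_zero.1 h0)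
  obtain ⟨h₂, hreg2, e⟩ := exists_factor_reg (hreg₁ 1) hev
  have h20 : h₂ ≠ 0 := by
    rintro rfl
    exact h10 (by rw [e, mul_zero])
  have hZ : am (Zs (1 : Kˣ)) ≠ 0 := fun h0 => Zs_ne_zero (1 : Kˣ) (am_eq_zero.1 h0)
  have e2 : h₂ = h₁ * (am (Zs (1 : Kˣ)))⁻¹ := by
    rw [e]; field_simp
  have hreg₂ : ∀ z, RegAt z h₂ := by
    intro z
    by_cases hz : z = 1
    · rw [hz]; exact hreg2
    · rw [e2]
      refine (hreg₁ z).mul ((regAt_am z _).inv ?_)
      rw [ev_am, Zs_apply]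
      intro h0
      apply hz
      apply Units.ext
      exact sub_eq_zero.1 h0
  obtain ⟨n, hn⟩ := support h20 hreg₂ 0
  have hmv : ∀ t, mv t h₂ * max (ex t) 1 = mv 0 h₁ := by
    intro t
    rw [sp_const h10 hreg₁ _ hb 0 t, e, mv_mul, mv_am, gn_Zs]
    simp [mul_comm]
  have hm0 : mv 0 h₂ = mv 0 h₁ := by
    have := hmv 0
    rwa [ex_zero, max_self, mul_one] at this
  have hpos : 0 < mv 0 h₁ := mv_pos 0 h10
  have hfin : ∀ t, ex (n * t) * max (ex t) 1 ≤ 1 := by
    intro t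
    have h3 := hn t
    rw [sub_zero, hm0] at h3
    have h4 : mv 0 h₁ * (ex (n * t) * max (ex t) 1) ≤ mv 0 h₁ * 1 := by
      rw [mul_one, ← mul_assoc]
      conv_rhs => rw [← hmv t]
      exact mul_le_mul' h3 le_rfl
    exact le_of_mul_le_mul_left h4 hpos
  have h5 : n + 1 ≤ 0 := by
    have h6 := hfin 1
    have h7 : ex (n * 1) * ex 1 ≤ 1 := (mul_le_mul' le_rfl (le_max_left _ _)).trans h6
    rw [← ex_add, ← ex_zero, ex_le_ex] at h7
    have : ((n + 1 : ℤ) : ℝ) ≤ 0 := by push_cast; linarith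
    exact_mod_cast this
  have h8 : 0 ≤ n := by
    have h6 := hfin (-1)
    have h7 : ex (n * (-1)) * 1 ≤ 1 := (mul_le_mul' le_rfl (le_max_right _ _)).trans h6
    rw [mul_one, ← ex_zero, ex_le_ex] at h7
    have : (0 : ℝ) ≤ n := by linarith
    exact_mod_cast this
  omega

end Pool.Agent.NG
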