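import Pool.Agent.NG.Shift
import Pool.Agent.NG.Supp

/-!
# TATE: two `q`-periodic meromorphic functions are algebraically dependent (module to prove)

Let `‖q‖ ≠ 1`; replacing `q` by `q⁻¹` (`sh q⁻¹` is the inverse of `sh q`) assume `‖q‖ > 1`,
`λ = log ‖q‖ > 0`. Let `Z` be the finite set of the points `z` with `0 ≤ log ‖z‖ ≤ λ` where `h₁` or `h₂` is
not regular (`finite_bad`). By `exists_pow_reg` there is `e` such that `Zs(z)^e h₁`, `Zs(z)^e h₂` are regular
at `z` for all `z ∈ Z`. For `n : ℕ` consider the `(n + 1) ^ 2` monomials `h₁^a h₂^b`, `a, b ≤ n`; `Zs(z)^(2 e n)`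
times a monomial is regular at `z ∈ Z`. The linear map sending `P = (P_ab)` in
`Fin (n+1) × Fin (n+1) → K` to the first `2 e n` Taylor coefficients at all points `z ∈ Z` of
`Zs(z)^(2 e n) ∑ P_ab h₁^a h₂^b` has a target of dimension `2 e n |Z|`; choose `n` with
`(n + 1)^2 > 2 e n |Z| + 1`. On the kernel `W` (dimension `≥ 2`) the function
`P(h₁, h₂) = ∑ P_ab h₁^a h₂^b` is regular at all points of the closed annulus (`factor_of_coeff_zero`),
hence everywhere: it is invariant under `sh q`, and every `z` is `q^k z'` with `z'` in the closed annulus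
(`regAt_sh` iterated). Its norm `mv t` is continuous (`continuous_mv`) and periodic of period `λ` (`mv_sh`), so
bounded. By `liouville` it is a constant `c(P)`. The map `W → K`, `P ↦ c(P)` is linear, its kernel is
nonzero: there is `P ≠ 0` with `P(h₁, h₂) = 0`. Hence `h₁`, `h₂` are algebraically dependent.
-/

open Filter Topology
open scoped NNReal

noncomputable section

namespace Pool.Agent.NG

variable {K : Type*} [NontriviallyNormedField K] [IsUltrametricDist K] [CompleteSpace K]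
  [IsAlgClosed K] [CharZero K]

/-- exponents of a monomial in two variables -/
private def ttMon (x : ℕ × ℕ) : Fin 2 →₀ ℕ := Finsupp.single 0 x.1 + Finsupp.single 1 x.2

private lemma ttMon_inj {x y : ℕ × ℕ} (h : ttMon x = ttMon y) : x = y := by
  have h0 := congrArg (fun f : Fin 2 →₀ ℕ => f 0) h
  have h1 := congrArg (fun f : Fin 2 →₀ ℕ => f 1) h
  simp [ttMon] at h0 h1
  exact Prod.ext h0 h1

omit [IsUltrametricDist K] [CompleteSpace K] [IsAlgClosed K] [CharZero K] in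
private lemma tt_indep {L : Type*} [Field L] [Algebra K L] {h₁ h₂ : L}
    (h : AlgebraicIndependent K ![h₁, h₂]) (s : Finset (ℕ × ℕ)) (P : ℕ × ℕ → K)
    (h0 : ∑ x ∈ s, P x • (h₁ ^ x.1 * h₂ ^ x.2) = 0) : ∀ x ∈ s, P x = 0 := by
  classical
  set p : MvPolynomial (Fin 2) K := ∑ x ∈ s, MvPolynomial.monomial (ttMon x) (P x) with hp
  have h1 : MvPolynomial.aeval ![h₁, h₂] p = 0 := by
    rw [hp, map_sum, ← h0]
    refine Finset.sum_congr rfl fun x _ => ?_
    have h2 : MvPolynomial.monomial (ttMon x) (P x) =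
        MvPolynomial.C (P x) * (MvPolynomial.X 0 ^ x.1 * MvPolynomial.X 1 ^ x.2) := by
      rw [MvPolynomial.X_pow_eq_monomial, MvPolynomial.X_pow_eq_monomial,
        MvPolynomial.monomial_mul, MvPolynomial.C_mul_monomial, one_mul, mul_one]
      rfl
    rw [h2, map_mul, map_mul, map_pow, map_pow, MvPolynomial.aeval_C, MvPolynomial.aeval_X,
      MvPolynomial.aeval_X, Algebra.smul_def]
    simp
  have h3 : p = 0 := by
    have := (algebraicIndependent_iff.1 h) p h1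
    exact this
  intro x hx
  have h4 : MvPolynomial.coeff (ttMon x) p = P x := by
    rw [hp, MvPolynomial.coeff_sum, Finset.sum_eq_single x]
    · rw [MvPolynomial.coeff_monomial, if_pos rfl]
    · intro y _ hy
      rw [MvPolynomial.coeff_monomial, if_neg fun e => hy (ttMon_inj e)]
    · intro hx'
      exact absurd hx hx'
  rw [← h4, h3, MvPolynomial.coeff_zero]

/-- the Taylor series as a linear map -/
private def ttTay (z : Kˣ) : locR (K := K) z →ₗ[K] PowerSeries K where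
  toFun h := tay z h.1
  map_add' g h := tay_add g.2 h.2
  map_smul' c h := by
    change tay z (c • h.1) = c • tay z h.1
    rw [Algebra.smul_def, tay_mul (regAt_const z c) h.2, tay_const, PowerSeries.smul_eq_C_mul]

private lemma tt_pow {z : Kˣ} {e m : ℕ} (he : e ≤ m) {h : Mer K}
    (hh : RegAt z (am (Zs z) ^ e * h)) : RegAt z (am (Zs z) ^ m * h) := by
  obtain ⟨r, rfl⟩ := Nat.exists_eq_add_of_le he
  rw [add_comm, pow_add, mul_assoc]
  exact (locR z).mul_mem ((locR z).pow_mem (regAt_am z _) r) hh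

private lemma tt_mono {z : Kˣ} {e N : ℕ} {h₁ h₂ : Mer K} (hh₁ : RegAt z (am (Zs z) ^ e * h₁))
    (hh₂ : RegAt z (am (Zs z) ^ e * h₂)) {a b : ℕ} (ha : a ≤ N) (hb : b ≤ N) :
    RegAt z (am (Zs z) ^ (2 * e * N) * (h₁ ^ a * h₂ ^ b)) := by
  have h1 : e * a + e * b ≤ 2 * e * N := by nlinarith [Nat.mul_le_mul_left e ha, Nat.mul_le_mul_left e hb]
  refine tt_pow h1 ?_
  have h2 : am (Zs z) ^ (e * a + e * b) * (h₁ ^ a * h₂ ^ b) =
      (am (Zs z) ^ e * h₁) ^ a * (am (Zs z) ^ e * h₂) ^ b := by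
    rw [mul_pow, mul_pow, ← pow_mul, ← pow_mul, pow_add]
    ring
  rw [h2]
  exact (locR z).mul_mem ((locR z).pow_mem hh₁ a) ((locR z).pow_mem hh₂ b)

/-- The vectors all of whose combinations are regular in the annulus. -/
private lemma tt_space (h₁ h₂ : Mer K) (t₁ t₂ : ℝ) : ∃ (N : ℕ) (W : Submodule K
    (Fin (N + 1) × Fin (N + 1) → K)), 2 ≤ Module.finrank K W ∧
    ∀ P ∈ W, ∀ z : Kˣ, t₁ ≤ Real.log ‖(z : K)‖ → Real.log ‖(z : K)‖ ≤ t₂ →
      RegAt z (∑ x, P x • (h₁ ^ (x.1 : ℕ) * h₂ ^ (x.2 : ℕ))) := by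
  classical
  have hfin := (finite_bad h₁ t₁ t₂).union (finite_bad h₂ t₁ t₂)
  set Z : Finset Kˣ := hfin.toFinset with hZ
  choose f1 hf1 using fun z : Kˣ => exists_pow_reg z h₁
  choose f2 hf2 using fun z : Kˣ => exists_pow_reg z h₂
  set e : ℕ := ∑ z ∈ Z, (f1 z + f2 z) with he
  have he1 : ∀ z ∈ Z, RegAt z (am (Zs z) ^ e * h₁) ∧ RegAt z (am (Zs z) ^ e * h₂) := by
    intro z hz
    have h1 : f1 z + f2 z ≤ e := Finset.single_le_sum (f := fun z => f1 z + f2 z)
      (fun _ _ => Nat.zero_le _) hz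
    exact ⟨tt_pow (by omega) (hf1 z), tt_pow (by omega) (hf2 z)⟩
  set N : ℕ := 2 * e * Z.card + 1 with hN
  set m : ℕ := 2 * e * N with hm
  set ΦL : (Fin (N + 1) × Fin (N + 1) → K) →ₗ[K] Mer K :=
    Fintype.linearCombination K (fun x : Fin (N + 1) × Fin (N + 1) =>
      h₁ ^ (x.1 : ℕ) * h₂ ^ (x.2 : ℕ)) with hΦ
  have hΦa : ∀ P, ΦL P = ∑ x, P x • (h₁ ^ (x.1 : ℕ) * h₂ ^ (x.2 : ℕ)) := fun P =>
    Fintype.linearCombination_apply K _ P
  have hreg : ∀ z : Z, ∀ P, LinearMap.mulLeft K (am (Zs (z : Kˣ)) ^ m) (ΦL P) ∈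
      Subalgebra.toSubmodule (locR (K := K) (z : Kˣ)) := by
    intro z P
    rw [LinearMap.mulLeft_apply, hΦa, Finset.mul_sum]
    refine Submodule.sum_mem _ fun x _ => ?_
    rw [mul_smul_comm]
    refine Submodule.smul_mem _ _ ?_
    have h1 := he1 z z.2
    exact tt_mono h1.1 h1.2 (Nat.lt_succ_iff.1 x.1.2) (Nat.lt_succ_iff.1 x.2.2)
  set Ψ : (Fin (N + 1) × Fin (N + 1) → K) →ₗ[K] (Z → Fin m → K) :=
    LinearMap.pi fun z => LinearMap.pi fun i =>
      (PowerSeries.coeff (R := K) (i : ℕ)) ∘ₗ (ttTay (K := K) (z : Kˣ)) ∘ₗ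
        (LinearMap.codRestrict (Subalgebra.toSubmodule (locR (K := K) (z : Kˣ)))
          (LinearMap.mulLeft K (am (Zs (z : Kˣ)) ^ m) ∘ₗ ΦL) (hreg z)) with hΨ
  refine ⟨N, LinearMap.ker Ψ, ?_, ?_⟩
  · have h1 := LinearMap.finrank_range_add_finrank_ker Ψ
    have h2 : Module.finrank K (LinearMap.range Ψ) ≤ Z.card * m := by
      refine (Submodule.finrank_le _).trans (le_of_eq ?_)
      rw [Module.finrank_pi_fintype]
      simp
    have h3 : Module.finrank K (Fin (N + 1) × Fin (N + 1) → K) = (N + 1) * (N + 1) := by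
      simp
    rw [h3] at h1
    have h4 : Z.card * m + 2 ≤ (N + 1) * (N + 1) := by
      rw [hm]
      have : (N + 1) * (N + 1) = Z.card * (2 * e * N) + (2 * e * Z.card + 2 * N + 2) := by
        rw [hN]; ring
      omega
    omega
  · intro P hP z hz1 hz2
    rw [← hΦa]
    by_cases hz : z ∈ Z
    · have h1 : ∀ i < m, PowerSeries.coeff i (tay z (am (Zs z) ^ m * ΦL P)) = 0 := by
        intro i hi
        have := congrFun (congrFun (LinearMap.mem_ker.1 hP) ⟨z, hz⟩) ⟨i, hi⟩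
        exact this
      obtain ⟨h', hr, e'⟩ := factor_of_coeff_zero (hreg ⟨z, hz⟩ P) m h1
      have h2 : am (Zs z) ^ m ≠ 0 := pow_ne_zero _ fun h0 => Zs_ne_zero z (am_eq_zero.1 h0)
      have h3 : ΦL P = h' := mul_left_cancel₀ h2 e'
      rw [h3]
      exact hr
    · rw [hZ, Set.Finite.mem_toFinset, Set.mem_union, Set.mem_ofPred_eq, Set.mem_ofPred_eq] at hz
      push Not at hz
      have r1 := hz.1 hz1 hz2
      have r2 := hz.2 hz1 hz2
      rw [hΦa]
      refine (Subalgebra.toSubmodule (locR (K := K) z)).sum_mem fun x _ => ?_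
      refine Submodule.smul_mem _ _ ?_
      exact (locR z).mul_mem ((locR z).pow_mem r1 _) ((locR z).pow_mem r2 _)

private lemma tt_const {q : Kˣ} (hq : 1 < ‖(q : K)‖) {h : Mer K} (e : sh q h = h)
    (hreg : ∀ z : Kˣ, 0 ≤ Real.log ‖(z : K)‖ → Real.log ‖(z : K)‖ ≤ Real.log ‖(q : K)‖ →
      RegAt z h) : ∃ c : K, h = algebraMap K (Mer K) c := by
  set l := Real.log ‖(q : K)‖ with hl
  have hl0 : 0 < l := Real.log_pos hq
  have h1 : ∀ (k : ℤ) (z : Kˣ), RegAt (q ^ k * z) h ↔ RegAt z h := by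
    have h0 : ∀ z : Kˣ, RegAt (q * z) h ↔ RegAt z h := by
      intro z
      rw [← regAt_sh, e]
    intro k
    induction k with
    | zero => intro z; rw [zpow_zero, one_mul]
    | succ k ih => intro z; rw [zpow_add, zpow_one, mul_assoc, ih, h0]
    | pred k ih =>
      intro z
      rw [zpow_sub, zpow_one, mul_assoc, ih, ← h0, mul_inv_cancel_left]
  have hall : ∀ z, RegAt z h := by
    intro z
    set k : ℤ := -⌊Real.log ‖(z : K)‖ / l⌋ with hk
    rw [← h1 k z]
    have h2 : Real.log ‖((q ^ k * z : Kˣ) : K)‖ = k * l + Real.log ‖(z : K)‖ := by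
      rw [Units.val_mul, norm_mul, Units.val_zpow_eq_zpow_val, norm_zpow, Real.log_mul
        (zpow_ne_zero _ (norm_ne_zero_iff.2 q.ne_zero)) (norm_ne_zero_iff.2 z.ne_zero),
        Real.log_zpow]
    have h3 := Int.floor_le (Real.log ‖(z : K)‖ / l)
    have h4 := (Int.lt_floor_add_one (Real.log ‖(z : K)‖ / l)).le
    rw [le_div_iff₀ hl0] at h3
    rw [div_le_iff₀ hl0] at h4
    apply hreg
    · rw [h2, hk]; push_cast; linarith
    · rw [h2, hk]; push_cast; linarith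
  have hper : Function.Periodic (fun t => mv t h) l := by
    intro t
    change mv (t + l) h = mv t h
    rw [← mv_sh, e]
  obtain ⟨C, hC⟩ := (isCompact_Icc (a := (0 : ℝ)) (b := l)).bddAbove_image
    (continuous_mv h).continuousOn
  refine liouville hall C fun t => ?_
  obtain ⟨s, hs, hst⟩ := hper.exists_mem_Ico₀ hl0 t
  have h5 : mv t h = mv s h := hst
  rw [h5]
  exact hC ⟨s, ⟨hs.1, hs.2.le⟩, rfl⟩

private lemma tt_aux (q : Kˣ) (hq : 1 < ‖(q : K)‖) (h₁ h₂ : Mer K) (e₁ : sh q h₁ = h₁)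
    (e₂ : sh q h₂ = h₂) : ¬ AlgebraicIndependent K ![h₁, h₂] := by
  classical
  intro hind
  obtain ⟨N, W, hW, hreg⟩ := tt_space h₁ h₂ 0 (Real.log ‖(q : K)‖)
  set ΦL : (Fin (N + 1) × Fin (N + 1) → K) →ₗ[K] Mer K :=
    Fintype.linearCombination K (fun x : Fin (N + 1) × Fin (N + 1) =>
      h₁ ^ (x.1 : ℕ) * h₂ ^ (x.2 : ℕ)) with hΦ
  have hΦa : ∀ P, ΦL P = ∑ x, P x • (h₁ ^ (x.1 : ℕ) * h₂ ^ (x.2 : ℕ)) := fun P =>
    Fintype.linearCombination_apply K _ P
  have hmem : ∀ P : W, (ΦL ∘ₗ W.subtype) P ∈ Submodule.span K {(1 : Mer K)} := by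
    intro P
    have h1 : sh q (ΦL P) = ΦL P := by
      rw [hΦa, map_sum]
      refine Finset.sum_congr rfl fun x _ => ?_
      rw [map_smul, map_mul, map_pow, map_pow, e₁, e₂]
    obtain ⟨c, hc⟩ := tt_const hq h1 fun z hz1 hz2 => by
      rw [hΦa]; exact hreg P P.2 z hz1 hz2
    rw [Submodule.mem_span_singleton]
    refine ⟨c, ?_⟩
    rw [← Algebra.algebraMap_eq_smul_one]
    exact hc.symm
  set f : W →ₗ[K] Submodule.span K {(1 : Mer K)} := LinearMap.codRestrict _ (ΦL ∘ₗ W.subtype) hmem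
    with hf
  have hker : LinearMap.ker f ≠ ⊥ := by
    apply LinearMap.ker_ne_bot_of_finrank_lt
    rw [finrank_span_singleton (one_ne_zero)]
    omega
  obtain ⟨P, hP, hP0⟩ := Submodule.exists_mem_ne_zero_of_ne_bot hker
  have hPf : ΦL P = 0 := by
    have := congrArg Subtype.val (LinearMap.mem_ker.1 hP)
    exact this
  apply hP0
  apply Subtype.ext
  funext x
  set s : Finset (ℕ × ℕ) := (Finset.range (N + 1)) ×ˢ (Finset.range (N + 1)) with hs
  set P' : ℕ × ℕ → K := fun y => if h : y.1 < N + 1 ∧ y.2 < N + 1 then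
    (P : Fin (N + 1) × Fin (N + 1) → K) (⟨y.1, h.1⟩, ⟨y.2, h.2⟩) else 0 with hP'
  have h2 : ∑ y ∈ s, P' y • (h₁ ^ y.1 * h₂ ^ y.2) = 0 := by
    rw [← hPf, hΦa, hs, Finset.sum_product, Finset.sum_range]
    rw [Fintype.sum_prod_type]
    refine Finset.sum_congr rfl fun i _ => ?_
    rw [Finset.sum_range]
    refine Finset.sum_congr rfl fun j _ => ?_
    simp only [hP']
    rw [dif_pos ⟨i.2, j.2⟩]
  have h3 := tt_indep hind s P' h2 ((x.1 : ℕ), (x.2 : ℕ)) (by
    rw [hs, Finset.mem_product, Finset.mem_range, Finset.mem_range]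
    exact ⟨x.1.2, x.2.2⟩)
  simp only [hP'] at h3
  rw [dif_pos ⟨x.1.2, x.2.2⟩] at h3
  exact h3

theorem tate (q : Kˣ) (hq : ‖(q : K)‖ ≠ 1) (h₁ h₂ : Mer K) (e₁ : sh q h₁ = h₁)
    (e₂ : sh q h₂ = h₂) : ¬ AlgebraicIndependent K ![h₁, h₂] := by
  rcases lt_or_gt_of_ne hq with h | h
  · refine tt_aux q⁻¹ ?_ h₁ h₂ ?_ ?_
    · rw [Units.val_inv_eq_inv_val, norm_inv]
      exact (one_lt_inv₀ (norm_pos_iff.2 q.ne_zero)).2 h
    · have := sh_inv q h₁
      rwa [e₁] at this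
    · have := sh_inv q h₂
      rwa [e₂] at this
  · exact tt_aux q h h₁ h₂ e₁ e₂

end Pool.Agent.NG
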