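import Pool.Agent.NG.Root
import Pool.Agent.NG.FlowEx
import Pool.Agent.NG.Tate
import Pool.Agent.NG.PointD

/-!
# NG FIBRE: every point has finitely many preimages (module to prove)

`A := chart K x i`; we may assume that some `z₀` is in the set; then `q` is a prime and a point (`At.isPrime`, `At.isPoint`; `x i ≠ 0` since `f i ≠ 0`); `Surf K A` by `surf_chart`, frame `F` by `exists_frame`.
There is `j` with `pair θ₁ (F.d j) ∉ ML`: otherwise `1 = pair θ₁ D = D t₀ * pair θ₁ (F.d 0) + D t₁ * pair θ₁ (F.d 1)` (`F.expand`) would vanish at `z₀` after applying `ι` (`ι (D t_j) = der (ι t_j)` is regular at `z₀`, elements of `ML` have value zero). `exists_pt` gives `P`.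
`hit_root` for `ω = θ₂` (values in `O` by `pair_mem_of_regA` with `B = OL K A q`) and `finite_roots`: `z ↦ ups ι z P.t` has finite image on the set. It remains: for fixed `υ` the set `Z` of all `z` in the set with `ups ι z P.t = υ` is finite.
For `z, z' ∈ Z`: `tay z (ι g) = tay z' (ι g)` for all `g ∈ OL` (`hitpt`, `At.ser1_eq`). With `c := z' / z`: `sh c (ι g) = ι g` for all `g ∈ A` (`germ`), hence for all `g ∈ L` (fractions, `hA.frac`). If `‖c‖ ≠ 1` then `tate` says that no two elements of `L` are algebraically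
independent (`ι` injective), contradicting `trdeg = 2`. So all `z ∈ Z` have the same norm. Take `a ∈ A` not constant (`dim`, `A ≠ ⊥`); `h := ι a - ev z₀ (ι a)` is not zero and vanishes at all points of `Z`, which lie on one circle: `finite_ev_zero`.
-/

set_option linter.unusedSectionVars false

open Filter Topology
open scoped NNReal KaehlerDifferential

noncomputable section

namespace Pool.Agent.NG

variable {K : Type*} [NontriviallyNormedField K] [IsUltrametricDist K] [CompleteSpace K]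
  [IsAlgClosed K] [CharZero K] {L : Type*} [Field L] [Algebra K L] {N : ℕ}

variable {x : Fin (N + 1) → L} {f : Fin (N + 1) → An K}

theorem exists_algInd (h : Algebra.trdeg K L = 2) : ∃ u v : L, AlgebraicIndependent K ![u, v] := by
  obtain ⟨ι, w, hw⟩ := exists_isTranscendenceBasis' K L
  have h1 := hw.cardinalMk_eq_trdeg
  rw [h, Cardinal.mk_eq_two_iff] at h1
  obtain ⟨a, b, hab, -⟩ := h1
  refine ⟨w a, w b, ?_⟩
  have hinj : Function.Injective ![a, b] := by
    intro i j hij
    fin_cases i <;> fin_cases j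
    · rfl
    · exact absurd hij hab
    · exact absurd hij.symm hab
    · rfl
  have h2 := hw.1.comp ![a, b] hinj
  have h3 : w ∘ ![a, b] = ![w a, w b] := by
    funext i
    fin_cases i <;> rfl
  rwa [h3] at h2

/-- elements of the maximal ideal have value zero -/
private theorem fib_ML {ι : L →ₐ[K] Mer K} {z : Kˣ} {A : Subalgebra K L} {q : Ideal A}
    [q.IsPrime] (h : At ι z A q) {g : L} (hg : g ∈ ML K A q) :
    RegAt z (ι g) ∧ ev z (ι g) = 0 := by
  obtain ⟨a, c, ha, hc, e⟩ := hg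
  have h1 : RegAt z (ι g) := h.reg_OL ⟨a, c, hc, e⟩
  refine ⟨h1, ?_⟩
  have h2 : RegAt z (ι (c : L)) := h.1 _ c.2
  have h3 : ev z (ι (c : L)) ≠ 0 := fun h0 => hc ((h.2 c).2 h0)
  have h4 := ev_mul h1 h2
  rw [← map_mul, e, (h.2 a).1 ha] at h4
  exact (mul_eq_zero.1 h4.symm).resolve_right h3

private theorem fib_le_OL {A : Subalgebra K L} {q : Ideal A} [q.IsPrime] : A ≤ OL K A q := by
  intro a ha
  exact ⟨⟨a, ha⟩, 1, fun h => Ideal.IsPrime.ne_top ‹_› ((Ideal.eq_top_iff_one q).2 h), by simp⟩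

private theorem fib_iter {A : Subalgebra K L} {q : Ideal A} [q.IsPrime] {δ : Derivation K L L}
    (hδ : ∀ g ∈ OL K A q, δ g ∈ OL K A q) {g : L} (hg : g ∈ OL K A q) (n : ℕ) :
    δ^[n] g ∈ OL K A q := by
  induction n with
  | zero => exact hg
  | succ n ih =>
    rw [Function.iterate_succ_apply']
    exact hδ _ ih

/-- two points with the same Taylor series of the coordinate -/
private theorem fib_sh {ι : L →ₐ[K] Mer K} {A : Subalgebra K L} (hA : Surf K A) {q : Ideal A}
    [q.IsPrime] {D : Derivation K L L} (hD : ∀ a, ι (D a) = der K (ι a)) {θ : Ω[L⁄K]}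
    (P : Pt K A q θ) (h1 : pair K θ D = 1) {z c : Kˣ} (hz : At ι z A q)
    (hcz : At ι (c * z) A q) (hu : ups ι (c * z) P.t = ups ι z P.t) (g : L) :
    sh c (ι g) = ι g := by
  have hAg : ∀ g ∈ A, sh c (ι g) = ι g := by
    intro g hg
    have hgO : g ∈ OL K A q := fib_le_OL hg
    refine germ c z (hz.1 g hg) (hcz.1 g hg) ?_
    ext m
    rw [hitpt hD P h1 hcz hgO m, hitpt hD P h1 hz hgO m]
    refine Finset.sum_congr rfl fun n _ => ?_
    rw [hu, At.ser1_eq hcz hz P.pres₁ (fib_iter P.pres₂ hgO n)]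
  obtain ⟨a, b, hb, e⟩ := hA.frac g
  have hb0 : ι (b : L) ≠ 0 := by
    intro h0
    apply hb
    have := ι.injective (h0.trans (map_zero ι).symm)
    exact Subtype.ext this
  apply mul_right_cancel₀ hb0
  calc sh c (ι g) * ι (b : L) = sh c (ι g) * sh c (ι (b : L)) := by rw [hAg _ b.2]
    _ = sh c (ι (g * b)) := by rw [← map_mul, ← map_mul]
    _ = sh c (ι (a : L)) := by rw [e]
    _ = ι (a : L) := hAg _ a.2
    _ = ι g * ι (b : L) := by rw [← map_mul, e]

/-- points with the same image and the same Taylor series of the coordinate -/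
private theorem fib_same {ι : L →ₐ[K] Mer K} {A : Subalgebra K L} (hA : Surf K A) {q : Ideal A}
    [q.IsPrime] {D : Derivation K L L} (hD : ∀ a, ι (D a) = der K (ι a)) {θ : Ω[L⁄K]}
    (P : Pt K A q θ) (h1 : pair K θ D = 1) (υ : PowerSeries K) :
    {z : Kˣ | At ι z A q ∧ ups ι z P.t = υ}.Finite := by
  rcases Set.eq_empty_or_nonempty {z : Kˣ | At ι z A q ∧ ups ι z P.t = υ} with he | ⟨z₁, hz₁, hu₁⟩
  · rw [he]
    exact Set.finite_empty
  obtain ⟨u, v, huv⟩ := exists_algInd hA.dim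
  have hι : Function.Injective ι := ι.injective
  -- all norms are equal
  have hnorm : ∀ z : Kˣ, At ι z A q → ups ι z P.t = υ → ‖(z : K)‖ = ‖(z₁ : K)‖ := by
    intro z hz hu
    by_contra hne
    have hc : ‖((z * z₁⁻¹ : Kˣ) : K)‖ ≠ 1 := by
      rw [Units.val_mul, norm_mul, Units.val_inv_eq_inv_val, norm_inv]
      intro h2
      apply hne
      have hpos : ‖(z₁ : K)‖ ≠ 0 := norm_ne_zero_iff.2 z₁.ne_zero
      field_simp at h2
      exact h2
    have hcz : z * z₁⁻¹ * z₁ = z := inv_mul_cancel_right z z₁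
    have hsh : ∀ g, sh (z * z₁⁻¹) (ι g) = ι g := fun g =>
      fib_sh hA hD P h1 hz₁ (by rw [hcz]; exact hz) (by rw [hcz, hu, hu₁]) g
    refine tate (z * z₁⁻¹) hc (ι u) (ι v) (hsh u) (hsh v) ?_
    have h3 := huv.map' hι
    have h4 : (ι ∘ ![u, v]) = ![ι u, ι v] := by
      funext i
      fin_cases i <;> rfl
    rwa [h4] at h3
  -- a function which is not constant
  obtain ⟨a, ha⟩ : ∃ a : A, ι (a : L) - algebraMap K (Mer K) (ev z₁ (ι (a : L))) ≠ 0 := by
    by_contra hcon
    push Not at hcon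
    obtain ⟨a, b, hb, e⟩ := hA.frac u
    have ea : ι (a : L) = algebraMap K (Mer K) (ev z₁ (ι (a : L))) := sub_eq_zero.1 (hcon a)
    have eb : ι (b : L) = algebraMap K (Mer K) (ev z₁ (ι (b : L))) := sub_eq_zero.1 (hcon b)
    have hb0 : ι (b : L) ≠ 0 := by
      intro h0
      apply hb
      exact Subtype.ext (hι (h0.trans (map_zero ι).symm))
    have hu2 : ι u = algebraMap K (Mer K) (ev z₁ (ι (a : L)) / ev z₁ (ι (b : L))) := by
      rw [map_div₀, ← ea, ← eb, eq_div_iff hb0, ← map_mul, e]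
    have hu3 : u = algebraMap K L (ev z₁ (ι (a : L)) / ev z₁ (ι (b : L))) := by
      apply hι
      rw [hu2]
      exact (ι.commutes _).symm
    have h5 : Transcendental K u := huv.transcendental 0
    apply h5
    rw [hu3]
    exact isAlgebraic_algebraMap _
  refine (finite_ev_zero ha (Real.log ‖(z₁ : K)‖) (Real.log ‖(z₁ : K)‖)).subset ?_
  rintro z ⟨hz, hu⟩
  have hn := hnorm z hz hu
  have hreg : RegAt z (ι (a : L)) := hz.1 _ a.2
  refine ⟨by rw [hn], by rw [hn], hreg.sub (regAt_const z _), ?_⟩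
  rw [ev_sub hreg (regAt_const z _), ev_const, At.ev_eq hz hz₁ (fib_le_OL a.2), sub_self]

theorem fibre_finite (S : Flow x f) (i : Fin (N + 1)) (q : Ideal (chart K x i)) :
    {z : Kˣ | (f i).1 z ≠ 0 ∧ At S.ι z (chart K x i) q}.Finite := by
  rcases Set.eq_empty_or_nonempty {z : Kˣ | (f i).1 z ≠ 0 ∧ At S.ι z (chart K x i) q} with
    he | ⟨z₀, hfz, hz₀⟩
  · rw [he]
    exact Set.finite_empty
  have hprime : q.IsPrime := hz₀.isPrime
  have hxi : x i ≠ 0 := by
    intro h0
    apply hfz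
    rw [(S.zero_iff i).1 h0]
    rfl
  have hA : Surf K (chart K x i) := surf_chart S.surf hxi
  have hreg1 : S.θ₁ ∈ regA K (chart K x i) := S.reg₁ i hxi
  have hreg2 : S.θ₂ ∈ regA K (chart K x i) := S.reg₂ i hxi
  obtain ⟨F⟩ := exists_frame hA q
  have hz : ∃ j, pair K S.θ₁ (F.d j) ∉ ML K (chart K x i) q := by
    by_contra hcon
    push Not at hcon
    have e1 : pair K S.θ₁ S.D = pair K S.θ₁ (F.d 0) * S.D (F.t 0 : L) +
        pair K S.θ₁ (F.d 1) * S.D (F.t 1 : L) := by
      conv_lhs => rw [F.expand S.θ₁]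
      rw [pair_add, pair_smul, pair_smul, pair_d, pair_d]
    rw [S.h11] at e1
    have e2 := congrArg S.ι e1
    rw [map_one, map_add, map_mul, map_mul, S.flow, S.flow] at e2
    have r0 : RegAt z₀ (der K (S.ι (F.t 0 : L))) := (hz₀.1 _ (F.t 0).2).der
    have r1 : RegAt z₀ (der K (S.ι (F.t 1 : L))) := (hz₀.1 _ (F.t 1).2).der
    obtain ⟨m0, v0⟩ := fib_ML hz₀ (hcon 0)
    obtain ⟨m1, v1⟩ := fib_ML hz₀ (hcon 1)
    have e3 := congrArg (ev z₀) e2
    rw [ev_add (m0.mul r0) (m1.mul r1), ev_mul m0 r0, ev_mul m1 r1, v0, v1, zero_mul, zero_mul,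
      add_zero, ← map_one (algebraMap K (Mer K)), ev_const] at e3
    exact one_ne_zero e3
  obtain ⟨P⟩ := exists_pt hA q F hreg1 S.cl₁ hz
  obtain ⟨Φ, hΦ, hroot⟩ := hit_root (ι := S.ι) S.flow P S.h11 S.cl₂ S.h21
    ⟨S.D', by rw [S.h22]; exact one_ne_zero⟩
    (pair_mem_of_regA hreg2 fib_le_OL fun a ha => P.pres₁ a (fib_le_OL ha))
    (pair_mem_of_regA hreg2 fib_le_OL fun a ha => P.pres₂ a (fib_le_OL ha))
  refine ((finite_roots Φ hΦ).biUnion fun υ _ => fib_same hA S.flow P S.h11 υ).subset ?_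
  rintro z ⟨-, hzA⟩
  simp only [Set.mem_iUnion]
  exact ⟨ups S.ι z P.t, ⟨constantCoeff_ups _ _ _, hroot z hzA⟩, hzA, rfl⟩

end Pool.Agent.NG
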