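import Pool.Agent.NG.Npl

/-!
# POLG: polynomial growth (module to prove)

`polynomial_growth`: `‖a k‖ exp (k t) ≤ gn t F ≤ C exp (- n t) max 1 (exp (d t))` for all real `t`. If
`k > d - n` let `t → +∞`: `‖a k‖ ≤ C exp ((d - n - k) t) → 0`; if `k < - n` let `t → -∞`. So only the
finitely many coefficients with `- n ≤ k ≤ d - n` are nonzero and `am F` is a `K`-linear combination
of integral powers of `am Zc`.

`fin_trdeg`: two elements of the field `K(Zc)` are algebraically dependent: it has transcendence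
degree at most one over `K` (`IntermediateField.adjoin` of one element; e.g.
`IsTranscendenceBasis` of a single transcendental element, or: both are algebraic over `K(h₁)` if
`h₁` is transcendental, because `Zc` is algebraic over `K(h₁)`).
-/

open Filter Topology
open scoped NNReal

noncomputable section

namespace Pool.Agent.NG

variable {K : Type*} [NontriviallyNormedField K] [IsUltrametricDist K] [CompleteSpace K]
  [IsAlgClosed K] [CharZero K]

private def pgMon (k : ℤ) : An K := ofCoeff (Pi.single k 1) (decay_single k 1)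

private lemma pgMon_apply (k : ℤ) (z : Kˣ) : (pgMon k : An K).1 z = ((z ^ k : Kˣ) : K) := by
  rw [pgMon, ofCoeff_apply, ser_single, one_mul]

private lemma pgMon_add (k l : ℤ) : (pgMon k : An K) * pgMon l = pgMon (k + l) := by
  refine An.ext' fun z => ?_
  change (pgMon k : An K).1 z * (pgMon l : An K).1 z = _
  rw [pgMon_apply, pgMon_apply, pgMon_apply, zpow_add, Units.val_mul]

private lemma pgMon_one : (pgMon 1 : An K) = Zc := by
  refine An.ext' fun z => ?_
  rw [pgMon_apply, Zc_apply, zpow_one]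

private lemma pgMon_zero : (pgMon 0 : An K) = 1 := by
  refine An.ext' fun z => ?_
  rw [pgMon_apply, zpow_zero]
  rfl

private lemma pgMon_nat (k : ℕ) :
    am (pgMon (k : ℤ) : An K) ∈ IntermediateField.adjoin K {(am Zc : Mer K)} := by
  induction k with
  | zero =>
    rw [Nat.cast_zero, pgMon_zero, am_one]
    exact one_mem _
  | succ k ih =>
    rw [Nat.cast_succ, ← pgMon_add, am_mul, pgMon_one]
    exact mul_mem ih (IntermediateField.mem_adjoin_simple_self K _)

private lemma pgMon_mem (k : ℤ) :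
    am (pgMon k : An K) ∈ IntermediateField.adjoin K {(am Zc : Mer K)} := by
  rcases le_total 0 k with h | h
  · obtain ⟨n, rfl⟩ := Int.eq_ofNat_of_zero_le h
    exact pgMon_nat n
  · obtain ⟨n, hn⟩ := Int.eq_ofNat_of_zero_le (a := -k) (by omega)
    have h1 : am (pgMon k : An K) = (am (pgMon (n : ℤ) : An K))⁻¹ := by
      refine eq_inv_of_mul_eq_one_left ?_
      have hn' : -k = (n : ℤ) := hn
      rw [← am_mul, pgMon_add, ← hn', add_neg_cancel, pgMon_zero, am_one]
    rw [h1]
    exact inv_mem (pgMon_nat n)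

private lemma pg_small {c C : ℝ≥0} (h : ∀ s : ℝ, 0 ≤ s → c ≤ C * ex (-s)) : c = 0 := by
  by_contra hc
  have hc0 : 0 < c := pos_iff_ne_zero.2 hc
  have h1 : Tendsto (fun s : ℝ => (C : ℝ) * Real.exp (-s)) atTop (𝓝 0) := by
    have := Real.tendsto_exp_neg_atTop_nhds_zero.const_mul (C : ℝ)
    rwa [mul_zero] at this
  have h2 := h1.eventually (gt_mem_nhds (show (0 : ℝ) < c from hc0))
  obtain ⟨s, hs1, hs2⟩ := (h2.and (eventually_ge_atTop 0)).exists
  have h3 := h s hs2
  rw [← NNReal.coe_le_coe, NNReal.coe_mul, coe_ex] at h3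
  linarith

theorem polynomial_growth (F : An K) (C : ℝ≥0) (n : ℤ) (d : ℕ)
    (h : ∀ t : ℝ, gn t F ≤ C * ex (-(n * t)) * max 1 (ex (d * t))) :
    am F ∈ IntermediateField.adjoin K {(am Zc : Mer K)} := by
  have hk : ∀ (k : ℤ) (t : ℝ), ‖coeff F k‖₊ ≤ C * ex (-((n + k) * t)) * max 1 (ex (d * t)) := by
    intro k t
    have h1 := (term_le_gn t F k).trans (h t)
    unfold term at h1
    have h2 : ex (-(n * t)) = ex (-((n + k) * t)) * ex (k * t) := by
      rw [← ex_add]; congr 1; ring
    rw [h2] at h1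
    refine le_of_mul_le_mul_right ?_ (ex_pos (k * t))
    calc _ ≤ _ := h1
      _ = _ := by ring
  have hup : ∀ k : ℤ, (d : ℤ) - n < k → coeff F k = 0 := by
    intro k hk'
    rw [← nnnorm_eq_zero]
    refine pg_small (C := C) fun s hs => ?_
    refine (hk k s).trans ?_
    have hd : (1 : ℝ≥0) ≤ ex (d * s) := by
      rw [← ex_zero, ex_le_ex]; positivity
    rw [max_eq_right hd, mul_assoc, ← ex_add]
    refine mul_le_mul' le_rfl ?_
    rw [ex_le_ex]
    have h3 : (d : ℝ) - n + 1 ≤ k := by exact_mod_cast hk'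
    nlinarith
  have hlo : ∀ k : ℤ, k < -n → coeff F k = 0 := by
    intro k hk'
    rw [← nnnorm_eq_zero]
    refine pg_small (C := C) fun s hs => ?_
    refine (hk k (-s)).trans ?_
    have hd : ex (d * (-s)) ≤ (1 : ℝ≥0) := by
      rw [← ex_zero, ex_le_ex]
      have : (0 : ℝ) ≤ d * s := by positivity
      linarith
    rw [max_eq_left hd, mul_one]
    refine mul_le_mul' le_rfl ?_
    rw [ex_le_ex]
    have h3 : (k : ℝ) + 1 ≤ -n := by exact_mod_cast hk'
    nlinarith
  have hsum : F = ∑ k ∈ Finset.Icc (-n) (d - n), coeff F k • (pgMon k : An K) := by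
    refine An.ext' fun z => ?_
    have h1 : (∑ k ∈ Finset.Icc (-n) (d - n), coeff F k • (pgMon k : An K)).1 =
        ∑ k ∈ Finset.Icc (-n) (d - n), (coeff F k • (pgMon k : An K)).1 :=
      map_sum (An K).val _ _
    rw [h1, Finset.sum_apply, ← ser_coeff]
    unfold ser
    rw [tsum_eq_sum (s := Finset.Icc (-n) (d - n))]
    · refine Finset.sum_congr rfl fun k _ => ?_
      change coeff F k * ((z ^ k : Kˣ) : K) = coeff F k * (pgMon k : An K).1 z
      rw [pgMon_apply]
    · intro k hk'
      rw [Finset.mem_Icc, not_and_or, not_le, not_le] at hk'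
      rcases hk' with h2 | h2
      · rw [hlo k h2, zero_mul]
      · rw [hup k h2, zero_mul]
  have h2 : am F = ∑ k ∈ Finset.Icc (-n) (d - n),
      algebraMap K (Mer K) (coeff F k) * am (pgMon k : An K) := by
    conv_lhs => rw [hsum]
    unfold am
    rw [map_sum]
    refine Finset.sum_congr rfl fun k _ => ?_
    rw [Algebra.smul_def, map_mul, ← IsScalarTower.algebraMap_apply]
  rw [h2]
  exact sum_mem fun k _ => mul_mem (IntermediateField.algebraMap_mem _ _) (pgMon_mem k)

open scoped IntermediateField.algebraAdjoinAdjoin in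
private lemma pg_trdeg {k L : Type*} [Field k] [Field L] [Algebra k L] (x : L) :
    Algebra.trdeg k (IntermediateField.adjoin k {x}) ≤ 1 := by
  have h2 : Algebra.trdeg k (Algebra.adjoin k {x}) ≤ 1 := by
    rw [← Cardinal.lift_le, Cardinal.lift_one]
    refine (lift_trdeg_le_of_surjective
      ((Polynomial.aeval (⟨x, Algebra.self_mem_adjoin_singleton k _⟩ :
        Algebra.adjoin k {x}))) ?_).trans ?_
    · rintro ⟨y, hy⟩
      obtain ⟨p, hp⟩ := Algebra.adjoin_singleton_eq_range_aeval k x ▸ hy
      refine ⟨p, Subtype.ext ?_⟩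
      refine Eq.trans ?_ hp
      exact (Polynomial.aeval_algHom_apply (Algebra.adjoin k {x}).val _ p).symm
    · rw [Polynomial.trdeg_of_isDomain, Cardinal.lift_one]
  have h3 : Algebra.trdeg (Algebra.adjoin k {x}) (IntermediateField.adjoin k {x}) = 0 :=
    trdeg_eq_zero
  rw [← trdeg_add_eq k (Algebra.adjoin k {x}), h3, add_zero]
  exact h2

theorem fin_trdeg (h₁ h₂ : Mer K) (e₁ : h₁ ∈ IntermediateField.adjoin K {(am Zc : Mer K)})
    (e₂ : h₂ ∈ IntermediateField.adjoin K {(am Zc : Mer K)}) :
    ¬ AlgebraicIndependent K ![h₁, h₂] := by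
  intro h
  let y : Fin 2 → IntermediateField.adjoin K {(am Zc : Mer K)} := ![⟨h₁, e₁⟩, ⟨h₂, e₂⟩]
  have hy : AlgebraicIndependent K y := by
    refine AlgebraicIndependent.of_comp
      (IntermediateField.val (IntermediateField.adjoin K {(am Zc : Mer K)})) ?_
    convert h using 1
    funext i
    fin_cases i <;> rfl
  have h1 := hy.lift_cardinalMk_le_trdeg
  have h4 := h1.trans (Cardinal.lift_le.2 (pg_trdeg (am Zc : Mer K)))
  simp at h4

end Pool.Agent.NG
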