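import Pool.Agent.NG.Supp
import Pool.Agent.NG.Polg
import Pool.Agent.NG.EmbDefs

/-!
# NG POLB: polynomial growth of the coordinate functions

For every `z ∈ H` choose `n_z` with `Zs z ^ n_z * e` regular at `z` (`exists_pow_reg`); `Q := ∏_{z ∈ H} Zs z ^ n_z` (a product over `hH.toFinset`). `e * am Q` is regular everywhere and nonzero, so by `support` at `t₀ = 0` there are `c > 0` and `n : ℤ` with `mv t (e * am Q) ≥ c * ex (n * t)` for all `t`. `gn t (Zs z) = max (ex t) ‖z‖ ≤ C_z * max 1 (ex t)`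
(`gn_Zs`), so `gn t Q ≤ C * max 1 (ex (d * t))` with `d = ∑ n_z`. Let `t : ℝ`, `i` with `t ∈ Tmax f i`; for every `j`: `gn t (f j) ≤ gn t (f i) ≤ C_i / mv t e = C_i * gn t Q / mv t (e * am Q) ≤ C' * ex (-(n * t)) * max 1 (ex (d * t))`. Conclude by `polynomial_growth`.
-/

set_option linter.unusedSectionVars false

open Filter Topology
open scoped NNReal KaehlerDifferential

noncomputable section

namespace Pool.Agent.NG

variable {K : Type*} [NontriviallyNormedField K] [IsUltrametricDist K] [CompleteSpace K]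
  [IsAlgClosed K] [CharZero K] {L : Type*} [Field L] [Algebra K L] {N : ℕ}

private lemma pb_max_mul (d n : ℕ) (t : ℝ) :
    max 1 (ex (d * t)) * max 1 (ex (n * t)) ≤ max 1 (ex (((d + n : ℕ) : ℝ) * t)) := by
  rcases le_total 0 t with ht | ht
  · have h1 : (1 : ℝ≥0) ≤ ex (d * t) := by rw [← ex_zero, ex_le_ex]; positivity
    have h2 : (1 : ℝ≥0) ≤ ex (n * t) := by rw [← ex_zero, ex_le_ex]; positivity
    rw [max_eq_right h1, max_eq_right h2, ← ex_add]
    refine le_trans (le_of_eq ?_) (le_max_right _ _)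
    congr 1
    push_cast
    ring
  · have h1 : ex (d * t) ≤ (1 : ℝ≥0) := by
      rw [← ex_zero, ex_le_ex]; exact mul_nonpos_of_nonneg_of_nonpos (by positivity) ht
    have h2 : ex (n * t) ≤ (1 : ℝ≥0) := by
      rw [← ex_zero, ex_le_ex]; exact mul_nonpos_of_nonneg_of_nonpos (by positivity) ht
    rw [max_eq_left h1, max_eq_left h2, one_mul]
    exact le_max_left _ _

private lemma pb_max_pow (n : ℕ) (t : ℝ) (A : ℝ≥0) :
    max (ex t) A ^ n ≤ max 1 A ^ n * max 1 (ex (n * t)) := by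
  induction n with
  | zero => simp
  | succ n ih =>
    have h1 : max (ex t) A ≤ max 1 A * max 1 (ex (((1 : ℕ) : ℝ) * t)) := by
      rw [Nat.cast_one, one_mul]
      refine max_le ?_ ?_
      · calc ex t = 1 * ex t := (one_mul _).symm
          _ ≤ _ := mul_le_mul' (le_max_left _ _) (le_max_right _ _)
      · calc A = A * 1 := (mul_one _).symm
          _ ≤ _ := mul_le_mul' (le_max_right _ _) (le_max_left _ _)
    calc max (ex t) A ^ (n + 1) = max (ex t) A ^ n * max (ex t) A := pow_succ _ _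
      _ ≤ (max 1 A ^ n * max 1 (ex (n * t))) * (max 1 A * max 1 (ex (((1 : ℕ) : ℝ) * t))) :=
        mul_le_mul' ih h1
      _ = max 1 A ^ (n + 1) * (max 1 (ex (n * t)) * max 1 (ex (((1 : ℕ) : ℝ) * t))) := by ring
      _ ≤ _ := mul_le_mul' le_rfl (pb_max_mul n 1 t)

private lemma pb_clear (e : Mer K) (S : Finset Kˣ) :
    ∃ (Q : An K) (C : ℝ≥0) (d : ℕ), Q ≠ 0 ∧ (∀ t : ℝ, gn t Q ≤ C * max 1 (ex (d * t))) ∧
      ∀ z, (z ∈ S ∨ RegAt z e) → RegAt z (e * am Q) := by
  classical
  induction S using Finset.induction_on with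
  | empty =>
    refine ⟨1, 1, 0, one_ne_zero, fun t => ?_, fun z hz => ?_⟩
    · rw [← mv_am, am_one, mv_one, one_mul]
      exact le_max_left _ _
    · rw [am_one, mul_one]
      rcases hz with hz | hz
      · simp at hz
      · exact hz
  | insert a S ha ih =>
    obtain ⟨Q, C, d, hQ, hC, hreg⟩ := ih
    obtain ⟨n, hn⟩ := exists_pow_reg a e
    refine ⟨Q * Zs a ^ n, C * max 1 ‖(a : K)‖₊ ^ n, d + n,
      mul_ne_zero hQ (pow_ne_zero _ (Zs_ne_zero a)), fun t => ?_, fun z hz => ?_⟩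
    · have h1 : gn t (Q * Zs a ^ n) = gn t Q * gn t (Zs a) ^ n := by
        rw [← mv_am, am_mul, mv_mul, am_pow, mv_pow, mv_am, mv_am]
      rw [h1, gn_Zs]
      calc _ ≤ (C * max 1 (ex (d * t))) * (max 1 ‖(a : K)‖₊ ^ n * max 1 (ex (n * t))) :=
            mul_le_mul' (hC t) (pb_max_pow n t _)
        _ = C * max 1 ‖(a : K)‖₊ ^ n * (max 1 (ex (d * t)) * max 1 (ex (n * t))) := by ring
        _ ≤ _ := mul_le_mul' le_rfl (pb_max_mul d n t)
    · have h0 : e * am (Q * Zs a ^ n) = (e * am Q) * am (Zs a ^ n) := by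
        rw [am_mul, mul_assoc]
      by_cases hza : z = a
      · subst hza
        have h1 : e * am (Q * Zs z ^ n) = (am (Zs z) ^ n * e) * am Q := by
          rw [am_mul, am_pow]; ring
        rw [h1]
        exact hn.mul (regAt_am z _)
      · rw [h0]
        refine (hreg z ?_).mul (regAt_am z _)
        rcases hz with hz | hz
        · exact Or.inl ((Finset.mem_insert.1 hz).resolve_left hza)
        · exact Or.inr hz

theorem polynomial_of_bound (f : Fin (N + 1) → An K) (e : Mer K) (he : e ≠ 0) (H : Set Kˣ)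
    (hH : H.Finite) (hreg : ∀ z, z ∉ H → RegAt z e)
    (hb : ∀ i, ∃ C : ℝ≥0, ∀ t ∈ Tmax f i, mv t (e * am (f i)) ≤ C) (i : Fin (N + 1)) :
    am (f i) ∈ IntermediateField.adjoin K {(am Zc : Mer K)} := by
  classical
  obtain ⟨Q, C, d, hQ, hC, hregQ⟩ := pb_clear e hH.toFinset
  have hreg' : ∀ z, RegAt z (e * am Q) := by
    intro z
    apply hregQ
    by_cases hz : z ∈ H
    · exact Or.inl (hH.mem_toFinset.2 hz)
    · exact Or.inr (hreg z hz)
  have hne : e * am Q ≠ 0 := mul_ne_zero he fun h => hQ (am_eq_zero.1 h)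
  obtain ⟨n, hn⟩ := support hne hreg' 0
  choose B hB using hb
  set c : ℝ≥0 := mv 0 (e * am Q) with hc
  have hcpos : 0 < c := mv_pos 0 hne
  refine polynomial_growth (f i) (Finset.univ.sup B * C / c) n d fun t => ?_
  obtain ⟨j, hj⟩ := exists_mem_Tmax f t
  have h1 : gn t (f i) ≤ gn t (f j) := hj i
  have h2 : mv t e * gn t (f j) ≤ Finset.univ.sup B := by
    rw [← mv_am, ← mv_mul]
    exact (hB j t hj).trans (Finset.le_sup (Finset.mem_univ j))
  have h3 : c * ex (n * t) ≤ mv t e * gn t Q := by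
    have := hn t
    rw [sub_zero, mv_mul t, mv_am] at this
    exact this
  have h4 : gn t (f j) * (c * ex (n * t)) ≤ Finset.univ.sup B * (C * max 1 (ex (d * t))) := by
    calc gn t (f j) * (c * ex (n * t)) ≤ gn t (f j) * (mv t e * gn t Q) := mul_le_mul' le_rfl h3
      _ = (mv t e * gn t (f j)) * gn t Q := by ring
      _ ≤ _ := mul_le_mul' h2 (hC t)
  have h5 : ex (n * t) * ex (-(n * t)) = 1 := by
    rw [← ex_add, add_neg_cancel, ex_zero]
  refine h1.trans ?_
  have h6 : gn t (f j) * c ≤ Finset.univ.sup B * C * ex (-(n * t)) * max 1 (ex (d * t)) := by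
    calc gn t (f j) * c = gn t (f j) * (c * ex (n * t)) * ex (-(n * t)) := by
          rw [mul_assoc, mul_assoc c, h5, mul_one]
      _ ≤ Finset.univ.sup B * (C * max 1 (ex (d * t))) * ex (-(n * t)) := mul_le_mul' h4 le_rfl
      _ = _ := by ring
  calc gn t (f j) ≤ (Finset.univ.sup B * C * ex (-(n * t)) * max 1 (ex (d * t))) / c :=
        (le_div_iff₀ hcpos).2 h6
    _ = _ := by ring

end Pool.Agent.NG
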