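import Pool.Agent.NG.Hitfin
import Pool.Agent.NG.Canon
import Pool.Agent.NG.Polb
import Pool.Agent.NG.FlowEx

/-!
# NG FIN: the main contradiction (module to prove)

`exists_big` gives `m`, `h`; `exists_factor_E` gives `e ≠ 0` with `ι (h * x i) = e * am (f i)`. `H := {z | S.Hit z}` is finite (`hits_finite`). If `z ∉ H`: there are `i` with `f_i(z) ≠ 0` and `δ` preserving `chart K x i` with `ev z (ι (pair θ₂ δ)) ≠ 0`; `x i ≠ 0` (`zero_iff`), so `e * am (f i) = ι (h x_i)` is regular at `z`
(`reg_prod`) and `e` too (`RegAt.inv`, `ev_am`). `mv t (e * am (f i))` is bounded on `Tmax f i` (`bd_prod` if `x i ≠ 0`; if `x i = 0` then `f i = 0`). `polynomial_of_bound`: all `am (f i)` are in `K(z)`. `L` is generated by the ratios (`S.surf.gen`), so `ι L ⊆ K(z)`; two algebraically independent elements of `L`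
(`exists_algInd`, `S.surf.dim`) have algebraically independent images (`ι` injective): contradiction to `fin_trdeg`.
-/

set_option linter.unusedSectionVars false

open Filter Topology
open scoped NNReal KaehlerDifferential

noncomputable section

namespace Pool.Agent.NG

variable {K : Type*} [NontriviallyNormedField K] [IsUltrametricDist K] [CompleteSpace K]
  [IsAlgClosed K] [CharZero K] {L : Type*} [Field L] [Algebra K L] {N : ℕ}

theorem no_flow {x : Fin (N + 1) → L} {f : Fin (N + 1) → An K} (S : Flow x f)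
    (hb : CanonicalBig K x) : False := by
  obtain ⟨m, h, hh, hm⟩ := exists_big S hb
  obtain ⟨e, he, hE⟩ := exists_factor_E S hh
  have hreg : ∀ z, z ∉ {z : Kˣ | S.Hit z} → RegAt z e := by
    intro z hz
    have h1 : ¬ ∀ i, (f i).1 z ≠ 0 → ∀ δ : Derivation K L L,
      (∀ a ∈ chart K x i, δ a ∈ chart K x i) → ev z (S.ι (pair K S.θ₂ δ)) = 0 := hz
    push Not at h1
    obtain ⟨i, hi, δ, hδ, hne⟩ := h1
    have hxi : x i ≠ 0 := fun h0 => hi (by rw [(S.zero_iff i).1 h0]; rfl)
    have h2 := reg_prod S hi hδ hne (hm i hxi)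
    rw [hE i] at h2
    have h3 : RegAt z (am (f i))⁻¹ := (regAt_am z (f i)).inv (by rw [ev_am]; exact hi)
    have h4 := h2.mul h3
    have h5 : e * am (f i) * (am (f i))⁻¹ = e :=
      mul_inv_cancel_right₀ (S.toEmb.am_ne hxi) e
    rwa [h5] at h4
  have hbd : ∀ i, ∃ C : ℝ≥0, ∀ t ∈ Tmax f i, mv t (e * am (f i)) ≤ C := by
    intro i
    by_cases hxi : x i = 0
    · exact ⟨0, fun t ht => absurd hxi (S.toEmb.ne_zero_of_mem ht)⟩
    · obtain ⟨C, hC⟩ := bd_prod S hxi (hm i hxi)
      exact ⟨C, fun t ht => by rw [← hE i]; exact hC t ht⟩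
  have hpol := polynomial_of_bound f e he _ (hits_finite S) hreg hbd
  have hL : ∀ g : L, S.ι g ∈ IntermediateField.adjoin K {(am Zc : Mer K)} := by
    have h1 : (⊤ : IntermediateField K L) ≤
        (IntermediateField.adjoin K {(am Zc : Mer K)}).comap S.ι := by
      rw [← S.surf.gen, IntermediateField.adjoin_le_iff]
      rintro _ ⟨p, rfl⟩
      change S.ι (x p.1 / x p.2) ∈ IntermediateField.adjoin K {(am Zc : Mer K)}
      by_cases h0 : x p.2 = 0
      · rw [h0, div_zero, map_zero]
        exact zero_mem _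
      · have h2 := S.toEmb.ratio p.1 p.2 h0
        have h3 : S.ι (x p.1 / x p.2) = am (f p.1) / am (f p.2) :=
          (eq_div_iff (S.toEmb.am_ne h0)).2 h2
        rw [h3]
        exact div_mem (hpol p.1) (hpol p.2)
    exact fun g => h1 IntermediateField.mem_top
  obtain ⟨u, v, huv⟩ := exists_algInd S.surf.dim
  refine fin_trdeg (S.ι u) (S.ι v) (hL u) (hL v) ?_
  have h1 := huv.map' (f := S.ι) S.ι.toRingHom.injective
  have h2 : (S.ι ∘ ![u, v]) = ![S.ι u, S.ι v] := by
    funext i
    fin_cases i <;> rfl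
  rwa [h2] at h1

end Pool.Agent.NG
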