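import Pool.Agent.NG.Ultra

/-!
# NG FIP: the filter of a curve (module to prove)

`mem_cenF`: `Filter.mem_iSup`.
`cen_of_le` (closedness of the set of ultrafilters centred at `p`): `A := chart K x i`, `O := OL K A p`. Let `j` with `x j ≠ 0` and
`Tmax f j ∈ u` (`exists_chart`). There is an ultrafilter `u'` with `Cen u' A p` and `Tmax f j ∈ u'`: otherwise the complement of
`Tmax f j` is in `cenF`, hence in `u`. Let `A' := chart K x j` (bounded along `u'` and along `u` by `Emb.bdOn_chart`), `p'` the centre of `u'` on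
`A'` (`exists_cen`): not a point (`no_point` with `S.θ₁`, `S.D`; `reg₁`), not `⊥` (otherwise everything is bounded along `u'`, `bd_of_cen_bot`, but the inverse of a nonzero element of
`p` is not). `bd_iff` for both charts: `OL K A' p' = O` and (`tz_iff`) `ML K A' p' = ML K A p`. Let `p''` be the centre of `u` on `A'`. For `a ∈ p'`:
`a ∈ ML K A p`, so for every `u''` centred at `p` on `A` `a` tends to zero along `u''`, i.e. `{t | mv t (ι a) < ε} ∈ cenF`, so it is in `u`: `a ∈ p''`. So `p' ≤ p''`, and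
`p' = p''` since otherwise `p''` is a point (`isPoint_of_lt`), contradicting `no_point`. So `bd_iff`, `tz_iff` for `u`, `A'`, `p'` give: boundedness along `u` is
membership in `O`, smallness is membership in `ML K A p`; hence `Cen u A p` (`A ≤ OL`; `a ∈ ML K A p ↔ a ∈ p` for `a ∈ A`).
`eventually_le`: otherwise for every `n : ℕ` the set `{t | n < mv t (ι g)}` meets every set of `cenF` (its complement is not in the filter), so there is an ultrafilter
`u ≤ cenF` containing all these sets (`Ultrafilter.of` of the infimum with the filter generated; or `Filter.NeBot` of `cenF ⊓ comap/atTop`: `cenF ⊓ Filter.comap (fun t => mv t (ι g)) atTop ≠ ⊥`).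
By `cen_of_le` and `bd_iff` `g` is bounded along `u`: contradiction.
`eventually_ge`: `g ≠ 0`, `g⁻¹ ∈ OL` by `OL_or` (for `g⁻¹`: `g⁻¹ ∈ OL` or `g ∈ ML`), apply `eventually_le` to `g⁻¹`.
-/

set_option linter.unusedSectionVars false

open Filter Topology
open scoped NNReal KaehlerDifferential

noncomputable section

namespace Pool.Agent.NG

variable {K : Type*} [NontriviallyNormedField K] [IsUltrametricDist K] [CompleteSpace K]
  [IsAlgClosed K] [CharZero K] {L : Type*} [Field L] [Algebra K L] {N : ℕ}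

/-- The supremum of all ultrafilters of radii which are centred at `p`. -/
def cenF (ι : L →ₐ[K] Mer K) (A : Subalgebra K L) (p : Ideal A) : Filter ℝ :=
  ⨆ (u : Ultrafilter ℝ) (_ : Cen ι u A p), (u : Filter ℝ)

theorem mem_cenF {ι : L →ₐ[K] Mer K} {A : Subalgebra K L} {p : Ideal A} {T : Set ℝ} :
    T ∈ cenF ι A p ↔ ∀ u : Ultrafilter ℝ, Cen ι u A p → T ∈ u := by
  simp only [cenF, Filter.mem_iSup, Ultrafilter.mem_coe]

variable {x : Fin (N + 1) → L} {f : Fin (N + 1) → An K}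

theorem cen_of_le (S : Flow x f) {i : Fin (N + 1)} (hi : x i ≠ 0) {p : Ideal (chart K x i)}
    [p.IsPrime] (hp : p ≠ ⊥) (hn : ¬ IsPoint K (chart K x i) p) (u : Ultrafilter ℝ)
    (hu : (u : Filter ℝ) ≤ cenF S.ι (chart K x i) p) : Cen S.ι u (chart K x i) p := by
  have hA : Surf K (chart K x i) := surf_chart S.surf hi
  obtain ⟨j, hj, hju⟩ := exists_chart S.toEmb u
  have hA' : Surf K (chart K x j) := surf_chart S.surf hj
  -- an ultrafilter centred at `p` which contains `Tmax f j`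
  obtain ⟨u', hu', hju'⟩ : ∃ u' : Ultrafilter ℝ, Cen S.ι u' (chart K x i) p ∧ Tmax f j ∈ u' := by
    by_contra hcon
    push Not at hcon
    have h1 : (Tmax f j)ᶜ ∈ cenF S.ι (chart K x i) p := by
      rw [mem_cenF]
      intro u' hu'
      exact Ultrafilter.compl_mem_iff_notMem.2 (hcon u' hu')
    have h2 : (Tmax f j)ᶜ ∈ u := hu h1
    exact Ultrafilter.compl_mem_iff_notMem.1 h2 hju
  have hbdT := S.toEmb.bdOn_chart hj
  obtain ⟨p', hp'pr, hcen'⟩ := exists_cen (bd_of_bdOn hbdT hju')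
  haveI := hp'pr
  have hreg : S.θ₁ ∈ regA K (chart K x j) := S.reg₁ j hj
  have hnp' : ¬ IsPoint K (chart K x j) p' := no_point hcen' S.flow hreg S.h11
  have hp'0 : p' ≠ ⊥ := by
    rintro rfl
    obtain ⟨a, ha, ha0⟩ := Submodule.exists_mem_ne_zero_of_ne_bot hp
    have h1 : Tz S.ι u' (a : L) := (hu'.2 a).2 ha
    have h2 : Bd S.ι u' ((a : L)⁻¹) := bd_of_cen_bot hA' hcen' _
    have h3 := h1.mul_bd h2
    rw [mul_inv_cancel₀ (by simpa using ha0)] at h3
    exact not_tz_one h3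
  obtain ⟨p'', hp''pr, hcen''⟩ := exists_cen (bd_of_bdOn hbdT hju)
  haveI := hp''pr
  have hle : p' ≤ p'' := by
    intro a ha
    have h1 : Tz S.ι u' (a : L) := (hcen'.2 a).2 ha
    have h2 : (a : L) ∈ ML K (chart K x i) p := (tz_iff hA hp hn hu' _).1 h1
    rw [← hcen''.2 a]
    intro ε hε
    have h3 : {t | mv t (S.ι (a : L)) < ε} ∈ cenF S.ι (chart K x i) p := by
      rw [mem_cenF]
      intro u'' hu''
      exact (tz_iff hA hp hn hu'' _).2 h2 ε hε
    exact hu h3
  have hpp : p' = p'' := by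
    by_contra hne
    exact no_point hcen'' S.flow hreg S.h11 (isPoint_of_lt hA' hp'0 (lt_of_le_of_ne hle hne))
  subst hpp
  have hB : ∀ g : L, Bd S.ι u g ↔ Bd S.ι u' g := fun g => by
    rw [bd_iff hA' hp'0 hnp' hcen'', bd_iff hA' hp'0 hnp' hcen']
  have hT : ∀ g : L, Tz S.ι u g ↔ Tz S.ι u' g := fun g => by
    rw [tz_iff hA' hp'0 hnp' hcen'', tz_iff hA' hp'0 hnp' hcen']
  exact ⟨fun g hg => (hB g).2 (hu'.1 g hg), fun a => (hT a).trans (hu'.2 a)⟩

theorem eventually_le (S : Flow x f) {i : Fin (N + 1)} (hi : x i ≠ 0) {p : Ideal (chart K x i)}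
    [p.IsPrime] (hp : p ≠ ⊥) (hn : ¬ IsPoint K (chart K x i) p) {g : L}
    (hg : g ∈ OL K (chart K x i) p) :
    ∃ R : ℝ≥0, {t | mv t (S.ι g) ≤ R} ∈ cenF S.ι (chart K x i) p := by
  have hA : Surf K (chart K x i) := surf_chart S.surf hi
  by_contra hcon
  push Not at hcon
  have hne : (cenF S.ι (chart K x i) p ⊓
      Filter.comap (fun t => mv t (S.ι g)) atTop).NeBot := by
    rw [Filter.inf_neBot_iff]
    intro s hs s' hs'
    obtain ⟨r, hr, hrs⟩ := Filter.mem_comap.1 hs'
    obtain ⟨R, hR⟩ := Filter.mem_atTop_sets.1 hr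
    by_contra hemp
    rw [Set.not_nonempty_iff_eq_empty] at hemp
    refine hcon R (Filter.mem_of_superset hs fun t ht => ?_)
    change mv t (S.ι g) ≤ R
    by_contra hlt
    push Not at hlt
    have h1 : t ∈ s ∩ s' := ⟨ht, hrs (hR _ hlt.le)⟩
    rw [hemp] at h1
    exact h1
  set u : Ultrafilter ℝ := Ultrafilter.of (cenF S.ι (chart K x i) p ⊓
      Filter.comap (fun t => mv t (S.ι g)) atTop) with hu
  have hle : (u : Filter ℝ) ≤ cenF S.ι (chart K x i) p ⊓
      Filter.comap (fun t => mv t (S.ι g)) atTop := Ultrafilter.of_le _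
  have hcen := cen_of_le S hi hp hn u (hle.trans inf_le_left)
  obtain ⟨C, hC⟩ := (bd_iff hA hp hn hcen g).2 hg
  have h2 : {t | C + 1 ≤ mv t (S.ι g)} ∈ u :=
    (hle.trans inf_le_right) (Filter.mem_comap.2 ⟨Set.Ici (C + 1), Filter.mem_atTop _, fun t ht => ht⟩)
  obtain ⟨t, ht1, ht2⟩ := u.neBot.nonempty_of_mem (Filter.inter_mem hC h2)
  have h3 : C + 1 ≤ C := le_trans ht2 ht1
  have h4 : C < C + 1 := lt_add_one C
  exact absurd h3 (not_le.2 h4)

theorem eventually_ge (S : Flow x f) {i : Fin (N + 1)} (hi : x i ≠ 0) {p : Ideal (chart K x i)}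
    [p.IsPrime] (hp : p ≠ ⊥) (hn : ¬ IsPoint K (chart K x i) p) {g : L}
    (hg : g ∉ ML K (chart K x i) p) :
    ∃ β : ℝ≥0, 0 < β ∧ {t | β ≤ mv t (S.ι g)} ∈ cenF S.ι (chart K x i) p := by
  have hA : Surf K (chart K x i) := surf_chart S.surf hi
  have hg0 : g ≠ 0 := by
    rintro rfl
    refine hg ⟨0, 1, p.zero_mem, fun h1 => ?_, by simp⟩
    exact (inferInstance : p.IsPrime).ne_top ((Ideal.eq_top_iff_one p).2 h1)
  have hinv : g⁻¹ ∈ OL K (chart K x i) p := by
    rcases OL_or hA hp hn g⁻¹ with h | h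
    · exact h
    · rw [inv_inv] at h
      exact absurd h hg
  obtain ⟨R, hR⟩ := eventually_le S hi hp hn hinv
  have hR0 : (0 : ℝ≥0) < R + 1 := lt_of_le_of_lt zero_le (lt_add_one R)
  refine ⟨(R + 1)⁻¹, inv_pos.2 hR0, Filter.mem_of_superset hR fun t ht => ?_⟩
  change mv t (S.ι g⁻¹) ≤ R at ht
  change (R + 1)⁻¹ ≤ mv t (S.ι g)
  have h0 : S.ι g ≠ 0 := by
    rw [Ne, map_eq_zero]
    exact hg0
  rw [map_inv₀, mv_inv] at ht
  have h1 : (mv t (S.ι g))⁻¹ ≤ R + 1 := ht.trans (lt_add_one R).le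
  rwa [inv_le_comm₀ (mv_pos t h0) hR0] at h1

end Pool.Agent.NG
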