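import Pool.Agent.NG.Ultra
import Pool.Agent.NG.FlowEx

/-!
# NG GENUS: curves of meromorphic functions have genus at most one (module to prove)

`E` is a subfield of `Mer K` of transcendence degree one, `ι := E.val`.
(1) `pb_const'`: `ω` regular everywhere. Regularity of `pb ι ω` at `z`: `V := {h ∈ E | RegAt z h}` is a valuation subring (`regAt_or_inv`) which contains `K`; as in `pb_reg` (`ω` is in the span over `V` of the `d a`, `a ∈ V`; `RegAt.der`).
    Boundedness: otherwise for every `n` there is `t_n` with `mv t_n (pb ι ω) > n`; `u` := image of the hyperfilter; `V := {h ∈ E | Bd ι u h}` is a valuation subring (`tz_inv_of_not_bd`, `Tz.bd`) containing `K`; `ω` is in the span over `V` of the `d a`, `a ∈ V`, and `mv t (der K (ι a)) ≤ mv t (ι a)`, so `pb ι ω` is bounded along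
    `u`: contradiction. `liouville`: `pb ι ω` is constant.
(2) `pb ι` is injective: `finrank_kaehler` with `n = 1`; there is `a ∈ E` not constant, `d a ≠ 0` (`eq_const_of_d_eq_zero`) is a basis, `pb ι (d a) = der K a ≠ 0` (`der_eq_zero`).
(3) `c₁`, `c₂` the constants of `ω₁`, `ω₂`: `c₂ • ω₁ - c₁ • ω₂` is in the kernel of `pb`, so it is zero; if `c₁ = 0` then `ω₁ = 0`. So `ω₁`, `ω₂` are dependent.
-/

set_option linter.unusedSectionVars false

open Filter Topology
open scoped NNReal KaehlerDifferential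

noncomputable section

namespace Pool.Agent.NG

variable {K : Type*} [NontriviallyNormedField K] [IsUltrametricDist K] [CompleteSpace K]
  [IsAlgClosed K] [CharZero K] {L : Type*} [Field L] [Algebra K L] {N : ℕ}

/-- spans over valuation subrings -/
theorem pb_span (E : IntermediateField K (Mer K)) (V : ValuationSubring E)
    (P : Mer K → Prop) (h0 : P 0) (hadd : ∀ g h, P g → P h → P (g + h))
    (hmul : ∀ a : E, a ∈ V → ∀ h, P h → P ((a : Mer K) * h))
    (hder : ∀ a : E, a ∈ V → P (der K (a : Mer K))) {ω : Ω[E⁄K]}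
    (hω : ω ∈ Submodule.span V {θ : Ω[E⁄K] | ∃ a ∈ V, θ = KaehlerDifferential.D K E a}) :
    P (pb E.val ω) := by
  induction hω using Submodule.span_induction with
  | mem ω h =>
    obtain ⟨a, ha, rfl⟩ := h
    rw [pb_d]
    exact hder a ha
  | zero => rw [map_zero]; exact h0
  | add ω ω' _ _ h h' =>
    rw [map_add]
    exact hadd _ _ h h'
  | smul a ω _ h =>
    have e : (a • ω : Ω[E⁄K]) = (a : E) • ω := rfl
    rw [e, pb_smul]
    exact hmul a a.2 _ h

/-- the valuation ring of the functions of `E` which are regular at `z` -/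
def regV (E : IntermediateField K (Mer K)) (z : Kˣ) : ValuationSubring E where
  carrier := {h | RegAt z (h : Mer K)}
  mul_mem' := fun ha hb => RegAt.mul ha hb
  one_mem' := by
    have := regAt_const (K := K) z 1
    rwa [map_one] at this
  add_mem' := fun ha hb => RegAt.add ha hb
  zero_mem' := by
    have := regAt_const (K := K) z 0
    rwa [map_zero] at this
  neg_mem' := by
    intro h hh
    have h1 := (regAt_const (K := K) z 0).sub hh
    rw [map_zero, zero_sub] at h1
    exact h1
  mem_or_inv_mem' := fun h => regAt_or_inv z (h : Mer K)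

/-- the valuation ring of the functions of `E` which are bounded along an ultrafilter -/
def bdV (E : IntermediateField K (Mer K)) (u : Ultrafilter ℝ) : ValuationSubring E where
  carrier := {h | Bd E.val u h}
  mul_mem' := fun ha hb => Bd.mul ha hb
  one_mem' := by
    have := Bd.const (ι := E.val) (u := u) 1
    rwa [map_one] at this
  add_mem' := fun ha hb => Bd.add ha hb
  zero_mem' := by
    have := Bd.const (ι := E.val) (u := u) 0
    rwa [map_zero] at this
  neg_mem' := by
    intro h hh
    have h1 := Bd.mul (Bd.const (ι := E.val) (u := u) (-1)) hh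
    rwa [map_neg, map_one, neg_one_mul] at h1
  mem_or_inv_mem' := fun h => by
    by_cases hh : Bd E.val u h
    · exact Or.inl hh
    · exact Or.inr (tz_inv_of_not_bd hh).bd

theorem pb_const' (E : IntermediateField K (Mer K)) {ω : Ω[E⁄K]}
    (hω : IsRegularEverywhere K ω) : ∃ c : K, pb E.val ω = algebraMap K (Mer K) c := by
  have hbd : ∃ C : ℝ≥0, ∀ t, mv t (pb E.val ω) ≤ C := by
    by_contra hc
    push Not at hc
    choose τ hτ using fun n : ℕ => hc n
    let u : Ultrafilter ℝ := (Filter.hyperfilter ℕ).map τ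
    have h1 := pb_span E (bdV E u) (fun g => ∃ C : ℝ≥0, ∀ᶠ t in (u : Filter ℝ), mv t g ≤ C)
      ⟨0, Eventually.of_forall fun t => by rw [mv_zero]⟩
      (fun g h ⟨C, hC⟩ ⟨C', hC'⟩ => ⟨max C C', (hC.and hC').mono fun t ht =>
        (mv_add t _ _).trans (max_le_max ht.1 ht.2)⟩)
      (fun a ha h ⟨C', hC'⟩ => by
        obtain ⟨C, hC⟩ : Bd E.val u a := ha
        exact ⟨C * C', (hC.and hC').mono fun t ht => by
          rw [mv_mul]
          exact mul_le_mul' ht.1 ht.2⟩)
      (fun a ha => by
        obtain ⟨C, hC⟩ : Bd E.val u a := ha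
        exact ⟨C, hC.mono fun t ht => (mv_der t _).trans ht⟩)
      (hω (bdV E u) (fun c => Bd.const c))
    obtain ⟨C, hC⟩ := h1
    have h2 : ∀ᶠ n in (Filter.hyperfilter ℕ : Filter ℕ), mv (τ n) (pb E.val ω) ≤ C := hC
    obtain ⟨m, hm⟩ := exists_nat_ge C
    have h3 : ∀ᶠ n in (Filter.hyperfilter ℕ : Filter ℕ), m ≤ n := by
      have : ∀ᶠ n in Filter.cofinite, m ≤ n := by
        rw [Nat.cofinite_eq_atTop]
        exact Filter.eventually_ge_atTop m
      exact Filter.hyperfilter_le_cofinite this
    obtain ⟨n, hn1, hn2⟩ := (h2.and h3).exists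
    have h4 : C ≤ (n : ℝ≥0) := hm.trans (by exact_mod_cast hn2)
    exact absurd (hn1.trans h4) (not_le.2 (hτ n))
  obtain ⟨C, hC⟩ := hbd
  refine liouville (fun z => ?_) C hC
  exact pb_span E (regV E z) (fun g => RegAt z g)
    (by
      have := regAt_const (K := K) z 0
      rwa [map_zero] at this)
    (fun g h hg hh => hg.add hh) (fun a ha h hh => RegAt.mul ha hh) (fun a ha => RegAt.der ha)
    (hω (regV E z) (fun c => regAt_const z c))

theorem pb_injective (E : IntermediateField K (Mer K)) (hE : Algebra.trdeg K E = 1)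
    {ω : Ω[E⁄K]} (h : pb E.val ω = 0) : ω = 0 := by
  have hfin : Module.finrank E (Ω[E⁄K]) = 1 := finrank_kaehler 1 one_ne_zero (by simpa using hE)
  -- a non-constant element
  have hne : ∃ a : E, ∀ c : K, a ≠ algebraMap K E c := by
    by_contra hc
    push Not at hc
    have h1 : Function.Surjective (algebraMap K E) := fun a => by
      obtain ⟨c, hc⟩ := hc a
      exact ⟨c, hc.symm⟩
    have h2 : Algebra.IsAlgebraic K E := ⟨fun a => by
      obtain ⟨c, rfl⟩ := h1 a
      exact isAlgebraic_algebraMap c⟩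
    have h3 : Algebra.trdeg K E = 0 := trdeg_eq_zero_iff.2 h2
    rw [h3] at hE
    exact zero_ne_one hE
  obtain ⟨a, ha⟩ := hne
  have hda : KaehlerDifferential.D K E a ≠ 0 := fun h0 => by
    obtain ⟨c, hc⟩ := eq_const_of_d_eq_zero a h0
    exact ha c hc
  obtain ⟨c, hc⟩ := (finrank_eq_one_iff_of_nonzero' (KaehlerDifferential.D K E a) hda).1 hfin ω
  rw [← hc, pb_smul, pb_d] at h
  rcases mul_eq_zero.1 h with h1 | h1
  · have h2 : c = 0 := Subtype.ext h1
    rw [← hc, h2, zero_smul]
  · obtain ⟨d, hd⟩ := der_eq_zero h1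
    exact absurd (Subtype.ext hd) (ha d)

theorem genus_le_one (E : IntermediateField K (Mer K)) (hE : Algebra.trdeg K E = 1)
    (ω₁ ω₂ : Ω[E⁄K]) (h₁ : IsRegularEverywhere K ω₁) (h₂ : IsRegularEverywhere K ω₂) :
    ¬ LinearIndependent K ![ω₁, ω₂] := by
  obtain ⟨c₁, hc₁⟩ := pb_const' E h₁
  obtain ⟨c₂, hc₂⟩ := pb_const' E h₂
  intro hli
  have h0 : c₂ • ω₁ - c₁ • ω₂ = 0 := by
    refine pb_injective E hE ?_
    rw [map_sub, map_smul, map_smul, hc₁, hc₂, Algebra.smul_def, Algebra.smul_def]
    ring
  have h1 := LinearIndependent.pair_iff.1 hli c₂ (-c₁) (by rw [neg_smul, ← sub_eq_add_neg]; exact h0)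
  have h2 : pb E.val ω₁ = 0 := by rw [hc₁, neg_eq_zero.1 h1.2, map_zero]
  have h3 := pb_injective E hE h2
  exact hli.ne_zero 0 h3

end Pool.Agent.NG
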