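import Pool.Agent.NG.Ring

/-!
# GN: the Gauss norm (module to prove)

`gn t F` is the supremum of the terms `term t (coeff F) n = ‖a n‖ exp (n t)`; the terms tend to zero
along `cofinite` (`coeff_decay`), so they are bounded, the supremum is a maximum if `F ≠ 0`
(`exists_max`, `coeff_eq_zero`), and it is attained at finitely many indices only (`finite_ge`).
So the set in the definition of `nplus`, `nminus` is finite and nonempty and its `sSup`, `sInf`
belong to it (`Set.Finite.csSup_mem`-type lemmas, `Int` is conditionally complete).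

`gn_mul`, `nplus_mul`, `nminus_mul`: let `p = nplus t F`, `q = nplus t G`, `n₀ = p + q`. For
`i ≠ p` we have `term F i * term G (n₀ - i) < gn F * gn G`: if `i > p` then the first factor is
smaller than `gn F`; if `i < p` then `n₀ - i > q` and the second factor is smaller than `gn G`
(treat the case that a term is zero with care: `gn F`, `gn G` are positive). By
`term_conv_dominant` the coefficient of index `n₀` of the product has the term `gn F * gn G`. For
`n > n₀` and every `i` either `i > p` or `n - i > q`, so all products are `< gn F * gn G`; they tend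
to zero along `cofinite`, so their supremum is attained or zero, and `term_conv_le` gives a term
`< gn F * gn G`. Every term is `≤ gn F * gn G` by `term_conv_le`. Symmetrically for `nminus`.
-/

open Filter Topology
open scoped NNReal

noncomputable section

namespace Pool.Agent.NG

variable {K : Type*} [NontriviallyNormedField K] [IsUltrametricDist K] [CompleteSpace K]
  [IsAlgClosed K] [CharZero K]

omit [IsUltrametricDist K] [CompleteSpace K] [IsAlgClosed K] [CharZero K] in
private lemma gn_bdd {a : ℤ → K} (ha : Decay a) (t : ℝ) : BddAbove (Set.range (term t a)) := by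
  by_cases h0 : a = 0
  · refine ⟨0, ?_⟩
    rintro _ ⟨n, rfl⟩
    rw [h0]
    unfold term
    simp
  · obtain ⟨n, -, hn⟩ := exists_max ha h0 t
    refine ⟨term t a n, ?_⟩
    rintro _ ⟨m, rfl⟩
    exact hn m

theorem term_le_gn (t : ℝ) (F : An K) (n : ℤ) : term t (coeff F) n ≤ gn t F :=
  le_ciSup (gn_bdd (coeff_decay F) t) n

theorem gn_le (t : ℝ) (F : An K) (C : ℝ≥0) (h : ∀ n, term t (coeff F) n ≤ C) : gn t F ≤ C :=
  ciSup_le h

private lemma gn_attained (t : ℝ) {F : An K} (hF : F ≠ 0) :
    ∃ n, 0 < term t (coeff F) n ∧ term t (coeff F) n = gn t F := by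
  obtain ⟨n, h0, hn⟩ := exists_max (coeff_decay F) (fun h => hF (coeff_eq_zero.1 h)) t
  exact ⟨n, h0, le_antisymm (term_le_gn t F n) (gn_le t F _ hn)⟩

private lemma gn_pos (t : ℝ) {F : An K} (hF : F ≠ 0) : 0 < gn t F := by
  obtain ⟨n, h0, hn⟩ := gn_attained t hF
  rw [← hn]
  exact h0

theorem gn_eq_zero (t : ℝ) (F : An K) : gn t F = 0 ↔ F = 0 := by
  constructor
  · intro h
    by_contra hF
    exact (gn_pos t hF).ne' h
  · rintro rfl
    refine le_antisymm (gn_le t _ _ fun n => ?_) zero_le
    rw [coeff_zero]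
    unfold term
    simp

theorem gn_algebraMap (t : ℝ) (c : K) : gn t (algebraMap K (An K) c) = ‖c‖₊ := by
  apply le_antisymm
  · apply gn_le
    intro n
    rw [coeff_algebraMap]
    unfold term
    by_cases hn : n = 0
    · subst hn
      simp
    · rw [Pi.single_eq_of_ne hn, nnnorm_zero, zero_mul]
      exact zero_le
  · refine le_trans (le_of_eq ?_) (term_le_gn t _ 0)
    rw [coeff_algebraMap]
    unfold term
    simp

theorem gn_add (t : ℝ) (F G : An K) : gn t (F + G) ≤ max (gn t F) (gn t G) := by
  apply gn_le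
  intro n
  rw [coeff_add]
  have h1 := term_le_gn t F n
  have h2 := term_le_gn t G n
  unfold term at h1 h2 ⊢
  have h3 := IsUltrametricDist.nnnorm_add_le_max (coeff F n) (coeff G n)
  calc ‖(coeff F + coeff G) n‖₊ * ex (n * t)
      ≤ max ‖coeff F n‖₊ ‖coeff G n‖₊ * ex (n * t) := by
        rw [Pi.add_apply]
        gcongr
    _ = max (‖coeff F n‖₊ * ex (n * t)) (‖coeff G n‖₊ * ex (n * t)) :=
        max_mul_of_nonneg _ _ zero_le
    _ ≤ _ := max_le_max h1 h2

private lemma gn_finite (t : ℝ) {F : An K} (hF : F ≠ 0) :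
    {n | term t (coeff F) n = gn t F}.Finite := by
  refine (finite_ge (coeff_decay F) t (gn_pos t hF)).subset fun n hn => ?_
  exact (show term t (coeff F) n = gn t F from hn).ge

private lemma gn_nonempty (t : ℝ) {F : An K} (hF : F ≠ 0) :
    {n | term t (coeff F) n = gn t F}.Nonempty := by
  obtain ⟨n, -, hn⟩ := gn_attained t hF
  exact ⟨n, hn⟩

theorem term_nplus (t : ℝ) {F : An K} (hF : F ≠ 0) : term t (coeff F) (nplus t F) = gn t F :=
  (gn_nonempty t hF).csSup_mem (gn_finite t hF)

theorem term_nminus (t : ℝ) {F : An K} (hF : F ≠ 0) : term t (coeff F) (nminus t F) = gn t F :=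
  (gn_nonempty t hF).csInf_mem (gn_finite t hF)

theorem lt_of_nplus_lt (t : ℝ) {F : An K} (hF : F ≠ 0) {n : ℤ} (h : nplus t F < n) :
    term t (coeff F) n < gn t F := by
  refine lt_of_le_of_ne (term_le_gn t F n) fun he => ?_
  exact absurd (le_csSup (gn_finite t hF).bddAbove he) (not_le.2 h)

theorem lt_of_lt_nminus (t : ℝ) {F : An K} (hF : F ≠ 0) {n : ℤ} (h : n < nminus t F) :
    term t (coeff F) n < gn t F := by
  refine lt_of_le_of_ne (term_le_gn t F n) fun he => ?_
  exact absurd (csInf_le (gn_finite t hF).bddBelow he) (not_le.2 h)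

theorem nminus_le_nplus (t : ℝ) {F : An K} (hF : F ≠ 0) : nminus t F ≤ nplus t F :=
  csInf_le (gn_finite t hF).bddBelow (term_nplus t hF)

/-- Characterisation of `nplus`. -/
theorem nplus_eq (t : ℝ) {F : An K} (hF : F ≠ 0) (n : ℤ) (h : term t (coeff F) n = gn t F)
    (h2 : ∀ m, n < m → term t (coeff F) m < gn t F) : nplus t F = n := by
  apply le_antisymm
  · by_contra hcon
    exact (h2 _ (not_le.1 hcon)).ne (term_nplus t hF)
  · exact le_csSup (gn_finite t hF).bddAbove h

/-- Characterisation of `nminus`. -/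
theorem nminus_eq (t : ℝ) {F : An K} (hF : F ≠ 0) (n : ℤ) (h : term t (coeff F) n = gn t F)
    (h2 : ∀ m, m < n → term t (coeff F) m < gn t F) : nminus t F = n := by
  apply le_antisymm
  · exact csInf_le (gn_finite t hF).bddBelow h
  · by_contra hcon
    exact (h2 _ (not_le.1 hcon)).ne (term_nminus t hF)

/-- products of terms -/
private lemma gn_prod_lt {x y A B : ℝ≥0} (hA : 0 < A) (hB : 0 < B) (hx : x ≤ A) (hy : y ≤ B)
    (h : x < A ∨ y < B) : x * y < A * B := by
  rcases h with h | h
  · calc x * y ≤ x * B := by gcongr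
      _ < A * B := by gcongr
  · calc x * y ≤ A * y := by gcongr
      _ < A * B := by gcongr

private lemma gn_dom_plus (t : ℝ) {F G : An K} (hF : F ≠ 0) (hG : G ≠ 0) :
    term t (coeff (F * G)) (nplus t F + nplus t G) = gn t F * gn t G := by
  rw [coeff_mul, term_conv_dominant (coeff_decay F) (coeff_decay G) t _ (nplus t F),
    add_sub_cancel_left, term_nplus t hF, term_nplus t hG]
  intro i hi
  rw [add_sub_cancel_left, term_nplus t hF, term_nplus t hG]
  apply gn_prod_lt (gn_pos t hF) (gn_pos t hG) (term_le_gn t F _) (term_le_gn t G _)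
  rcases lt_or_gt_of_ne hi with h | h
  · right
    apply lt_of_nplus_lt t hG
    linarith
  · left
    exact lt_of_nplus_lt t hF h

private lemma gn_dom_minus (t : ℝ) {F G : An K} (hF : F ≠ 0) (hG : G ≠ 0) :
    term t (coeff (F * G)) (nminus t F + nminus t G) = gn t F * gn t G := by
  rw [coeff_mul, term_conv_dominant (coeff_decay F) (coeff_decay G) t _ (nminus t F),
    add_sub_cancel_left, term_nminus t hF, term_nminus t hG]
  intro i hi
  rw [add_sub_cancel_left, term_nminus t hF, term_nminus t hG]
  apply gn_prod_lt (gn_pos t hF) (gn_pos t hG) (term_le_gn t F _) (term_le_gn t G _)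
  rcases lt_or_gt_of_ne hi with h | h
  · left
    exact lt_of_lt_nminus t hF h
  · right
    apply lt_of_lt_nminus t hG
    linarith

theorem gn_mul (t : ℝ) (F G : An K) : gn t (F * G) = gn t F * gn t G := by
  by_cases hF : F = 0
  · rw [hF, zero_mul, (gn_eq_zero t 0).2 rfl, zero_mul]
  by_cases hG : G = 0
  · rw [hG, mul_zero, (gn_eq_zero t 0).2 rfl, mul_zero]
  apply le_antisymm
  · apply gn_le
    intro n
    rw [coeff_mul]
    apply term_conv_le (coeff_decay F) (coeff_decay G)
    intro i
    exact mul_le_mul' (term_le_gn t F _) (term_le_gn t G _)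
  · rw [← gn_dom_plus t hF hG]
    exact term_le_gn t _ _

/-- families which tend to zero with all members below a bound -/
private lemma gn_strict {f : ℤ → ℝ≥0} (hf : Tendsto f cofinite (𝓝 0)) {D : ℝ≥0} (hD : 0 < D)
    (h : ∀ i, f i < D) : ∃ C < D, ∀ i, f i ≤ C := by
  have h2 : 0 < D / 2 := half_pos hD
  have h1 := hf.eventually (gt_mem_nhds h2)
  rw [eventually_cofinite] at h1
  refine ⟨max (D / 2) (h1.toFinset.sup f), ?_, fun i => ?_⟩
  · rw [max_lt_iff]
    refine ⟨half_lt_self hD, ?_⟩
    rw [Finset.sup_lt_iff hD]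
    exact fun b _ => h b
  · by_cases hi : f i < D / 2
    · exact hi.le.trans (le_max_left _ _)
    · exact (Finset.le_sup (f := f) (h1.mem_toFinset.2 hi)).trans (le_max_right _ _)

private lemma gn_conv_lt (t : ℝ) {F G : An K} (hF : F ≠ 0) (hG : G ≠ 0) (n : ℤ)
    (h : ∀ i, term t (coeff F) i < gn t F ∨ term t (coeff G) (n - i) < gn t G) :
    term t (coeff (F * G)) n < gn t F * gn t G := by
  have h1 : Tendsto (fun i => term t (coeff F) i * term t (coeff G) (n - i)) cofinite (𝓝 0) := by
    have h2 := (coeff_decay F t).mul_const (gn t G)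
    rw [zero_mul] at h2
    exact tendsto_of_tendsto_of_tendsto_of_le_of_le tendsto_const_nhds h2 (fun _ => zero_le)
      (fun i => mul_le_mul' le_rfl (term_le_gn t G _))
  obtain ⟨C, hC, hle⟩ := gn_strict h1 (mul_pos (gn_pos t hF) (gn_pos t hG)) (fun i =>
    gn_prod_lt (gn_pos t hF) (gn_pos t hG) (term_le_gn t F _) (term_le_gn t G _) (h i))
  rw [coeff_mul]
  exact lt_of_le_of_lt (term_conv_le (coeff_decay F) (coeff_decay G) t n C hle) hC

private lemma gn_mul_ne {F G : An K} (hF : F ≠ 0) (hG : G ≠ 0) : F * G ≠ 0 := by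
  intro h
  have h1 := gn_mul 0 F G
  rw [h, (gn_eq_zero 0 0).2 rfl] at h1
  exact (mul_pos (gn_pos 0 hF) (gn_pos 0 hG)).ne h1

theorem nplus_mul (t : ℝ) {F G : An K} (hF : F ≠ 0) (hG : G ≠ 0) :
    nplus t (F * G) = nplus t F + nplus t G := by
  apply nplus_eq t (gn_mul_ne hF hG)
  · rw [gn_mul, gn_dom_plus t hF hG]
  · intro m hm
    rw [gn_mul]
    apply gn_conv_lt t hF hG
    intro i
    rcases lt_or_ge (nplus t F) i with h | h
    · exact Or.inl (lt_of_nplus_lt t hF h)
    · exact Or.inr (lt_of_nplus_lt t hG (by linarith))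

theorem nminus_mul (t : ℝ) {F G : An K} (hF : F ≠ 0) (hG : G ≠ 0) :
    nminus t (F * G) = nminus t F + nminus t G := by
  apply nminus_eq t (gn_mul_ne hF hG)
  · rw [gn_mul, gn_dom_minus t hF hG]
  · intro m hm
    rw [gn_mul]
    apply gn_conv_lt t hF hG
    intro i
    rcases lt_or_ge i (nminus t F) with h | h
    · exact Or.inl (lt_of_lt_nminus t hF h)
    · exact Or.inr (lt_of_lt_nminus t hG (by linarith))

/-- A function is bounded by its Gauss norm on the circle. -/
theorem nnnorm_apply_le (F : An K) (z : Kˣ) : ‖F.1 z‖₊ ≤ gn (Real.log ‖(z : K)‖) F := by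
  rw [← ser_coeff]
  exact nnnorm_ser_le (coeff_decay F) z _ (fun n => term_le_gn _ F n)

end Pool.Agent.NG
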