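import Pool.Agent.NG.Surf

/-!
# NG KDIM: differentials of a field extension in characteristic zero (module to prove)

`finrank_kaehler`: let `v : Fin n → L` be a transcendence basis. `K(v)` is the fraction field of the
polynomial ring, whose differentials are free on `d v_i` (`KaehlerDifferential.mvPolynomialBasis`,
localisation: `IsLocalizedModule`/`KaehlerDifferential.isLocalizedModule` or formal étaleness), and `L / K(v)` is algebraic
and separable, so formally étale (`Algebra.FormallyEtale.of_isSeparable`), so
`Ω[L⁄K] = L ⊗ Ω[K(v)⁄K]` (`KaehlerDifferential.tensorKaehlerEquivOfFormallyEtale`).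
Elementary alternative: spanning: for `a` algebraic over `K(v)` with minimal relation `P(v, a) = 0`, `P_a da + ∑ P_i dv_i = 0`
with `P_a ≠ 0`; independence: extend the derivations `∂_i` of `K(v)` to `L` (`Derivation` extension along separable
algebraic extensions, i.e. `FormallyEtale`).
`eq_const_of_d_eq_zero`: `K` is algebraically closed; if `a` is transcendental over `K` it is part of a
transcendence basis, so `da ≠ 0`.
-/

open scoped KaehlerDifferential

noncomputable section

namespace Pool.Agent.NG

variable {K : Type*} [Field K] [CharZero K] {L : Type*} [Field L] [Algebra K L]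

open scoped IntermediateField.algebraAdjoinAdjoin in
private theorem kd_basis {ι : Type*} (v : ι → L) (hv : IsTranscendenceBasis K v) :
    ∃ b : Module.Basis ι L (Ω[L⁄K]), ∀ i, b i = KaehlerDifferential.D K L (v i) := by
  letI alg : Algebra (MvPolynomial ι K) L := (MvPolynomial.aeval v).toRingHom.toAlgebra
  haveI tower : IsScalarTower K (MvPolynomial ι K) L :=
    IsScalarTower.of_algebraMap_eq fun c => ((MvPolynomial.aeval v).commutes c).symm
  haveI : CharZero L := charZero_of_injective_algebraMap (algebraMap K L).injective
  haveI : CharZero (IntermediateField.adjoin K (Set.range v)) :=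
    charZero_of_injective_algebraMap (algebraMap K _).injective
  haveI : Algebra.IsAlgebraic (IntermediateField.adjoin K (Set.range v)) L := hv.isAlgebraic_field
  haveI : Algebra.FormallyEtale (Algebra.adjoin K (Set.range v))
      (IntermediateField.adjoin K (Set.range v)) :=
    .of_isLocalization (nonZeroDivisors _)
  haveI : Algebra.FormallyEtale (IntermediateField.adjoin K (Set.range v)) L :=
    Algebra.FormallyEtale.of_isSeparable _ L
  haveI : Algebra.FormallyEtale (Algebra.adjoin K (Set.range v)) L :=
    .comp _ (IntermediateField.adjoin K (Set.range v)) _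
  letI alg2 : Algebra (MvPolynomial ι K) (Algebra.adjoin K (Set.range v)) :=
    hv.1.aevalEquiv.toRingEquiv.toRingHom.toAlgebra
  haveI : Algebra.FormallyEtale (MvPolynomial ι K) (Algebra.adjoin K (Set.range v)) := by
    have e : MvPolynomial ι K ≃ₐ[MvPolynomial ι K] Algebra.adjoin K (Set.range v) :=
      AlgEquiv.ofRingEquiv (f := hv.1.aevalEquiv.toRingEquiv) fun _ => rfl
    exact Algebra.FormallyEtale.of_equiv e
  haveI : IsScalarTower (MvPolynomial ι K) (Algebra.adjoin K (Set.range v)) L :=
    IsScalarTower.of_algebraMap_eq fun q => by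
      exact (AlgebraicIndependent.algebraMap_aevalEquiv hv.1 q).symm
  haveI : Algebra.FormallyEtale (MvPolynomial ι K) L :=
    .comp _ (Algebra.adjoin K (Set.range v)) _
  have hB := KaehlerDifferential.isBaseChange_of_formallyEtale K (MvPolynomial ι K) L
  refine ⟨(Algebra.TensorProduct.basis L (KaehlerDifferential.mvPolynomialBasis K ι)).map hB.equiv,
    fun i => ?_⟩
  rw [Module.Basis.map_apply, Algebra.TensorProduct.basis_apply, IsBaseChange.equiv_tmul, one_smul,
    KaehlerDifferential.mvPolynomialBasis_apply, KaehlerDifferential.map_D]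
  congr 1
  exact MvPolynomial.aeval_X v i

theorem finrank_kaehler (n : ℕ) (hn : n ≠ 0) (h : Algebra.trdeg K L = n) :
    Module.finrank L (Ω[L⁄K]) = n := by
  obtain ⟨ι, v, hv⟩ := exists_isTranscendenceBasis' K L
  obtain ⟨b, -⟩ := kd_basis v hv
  rw [Module.finrank_eq_nat_card_basis b]
  have h1 := hv.cardinalMk_eq_trdeg
  rw [h] at h1
  unfold Nat.card
  rw [h1, Cardinal.toNat_natCast]

theorem eq_const_of_d_eq_zero [IsAlgClosed K] (a : L) (h : KaehlerDifferential.D K L a = 0) :
    ∃ c : K, a = algebraMap K L c := by
  by_cases ha : IsAlgebraic K a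
  · have h1 : IsIntegral K a := ha.isIntegral
    have h2 : Algebra.IsIntegral K (Algebra.adjoin K {a}) := Algebra.IsIntegral.adjoin (by
      intro x hx
      rw [Set.mem_singleton_iff.1 hx]
      exact h1)
    have h3 := IsAlgClosed.algebraMap_bijective_of_isIntegral (k := K) (K := Algebra.adjoin K {a})
    obtain ⟨c, hc⟩ := h3.2 ⟨a, Algebra.subset_adjoin rfl⟩
    refine ⟨c, ?_⟩
    have := congrArg Subtype.val hc
    exact this.symm
  · exfalso
    have h1 : Transcendental K a := ha
    have h2 : AlgebraicIndepOn K id ({a} : Set L) := by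
      exact (algebraicIndependent_unique_type_iff (ι := ({a} : Set L))).2 h1
    obtain ⟨t, hst, ht⟩ := exists_isTranscendenceBasis_superset h2
    obtain ⟨b, hb⟩ := kd_basis _ ht
    have h3 := b.ne_zero ⟨a, hst rfl⟩
    rw [hb] at h3
    exact h3 h

end Pool.Agent.NG
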