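import Pool.Agent.NG.EmbDefs
import Pool.Agent.NG.Kdim
import Pool.Agent.NG.Supp

/-!
# NG PB: pull back of one-forms (module to prove)

`exists_pb`: make `Mer K` an `L`-algebra by `ι` (`letI := ι.toRingHom.toAlgebra`, scalar tower over `K`);
`(der K).compAlgebraMap L : Derivation K L (Mer K)`, `pb := liftKaehlerDifferential` of it, as a `K`-linear map.
`pb_reg`, `pb_bdd`: induction on the span (`Submodule.span_induction`): `pb (a • ω) = ι a * pb ω`, `pb (d a) = der K (ι a)`,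
`RegAt.der`, `mv_der`.
`bdOn_adjoin`: `Algebra.adjoin_induction` with `mv_add`, `mv_mul`, `mv_const`.
`pb_const`: `ω` is a regular form on `X`. For every `z` some `f_i(z) ≠ 0`, so the ratios `f_j / f_i = ι (x_j / x_i)` are regular at `z` and so
is `ι a` for `a ∈ chart K x i`; hence `pb ω` is regular at every `z`. It is bounded on `Tmax f i` for every `i` (`bdOn_chart`), hence bounded, so
it is constant (`liouville`).
-/

set_option linter.unusedSectionVars false

open Filter Topology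
open scoped NNReal KaehlerDifferential

noncomputable section

namespace Pool.Agent.NG

variable {K : Type*} [NontriviallyNormedField K] [IsUltrametricDist K] [CompleteSpace K]
  [IsAlgClosed K] [CharZero K] {L : Type*} [Field L] [Algebra K L] {N : ℕ}

theorem exists_pb (ι : L →ₐ[K] Mer K) : ∃ P : Ω[L⁄K] →ₗ[K] Mer K,
    (∀ (a : L) (ω : Ω[L⁄K]), P (a • ω) = ι a * P ω) ∧
      ∀ a : L, P (KaehlerDifferential.D K L a) = der K (ι a) := by
  letI : Algebra L (Mer K) := ι.toRingHom.toAlgebra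
  haveI : IsScalarTower K L (Mer K) := IsScalarTower.of_algebraMap_eq fun c => (ι.commutes c).symm
  let d : Derivation K L (Mer K) := (der K).compAlgebraMap L
  refine ⟨d.liftKaehlerDifferential.restrictScalars K, fun a ω => ?_, fun a => ?_⟩
  · change d.liftKaehlerDifferential (a • ω) = _
    rw [map_smul]
    rfl
  · exact d.liftKaehlerDifferential_comp_D a

/-- The pull back of one-forms. -/
def pb (ι : L →ₐ[K] Mer K) : Ω[L⁄K] →ₗ[K] Mer K := (exists_pb ι).choose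

theorem pb_smul (ι : L →ₐ[K] Mer K) (a : L) (ω : Ω[L⁄K]) : pb ι (a • ω) = ι a * pb ι ω :=
  (exists_pb ι).choose_spec.1 a ω

theorem pb_d (ι : L →ₐ[K] Mer K) (a : L) :
    pb ι (KaehlerDifferential.D K L a) = der K (ι a) :=
  (exists_pb ι).choose_spec.2 a

theorem pb_reg (ι : L →ₐ[K] Mer K) {A : Subalgebra K L} {z : Kˣ}
    (hA : ∀ a ∈ A, RegAt z (ι a)) {ω : Ω[L⁄K]} (hω : ω ∈ regA K A) : RegAt z (pb ι ω) := by
  induction hω using Submodule.span_induction with
  | mem ω h =>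
    obtain ⟨a, ha, rfl⟩ := h
    rw [pb_d]
    exact (hA a ha).der
  | zero =>
    rw [map_zero]
    have := regAt_const (K := K) z 0
    rwa [map_zero] at this
  | add ω ω' _ _ h h' =>
    rw [map_add]
    exact h.add h'
  | smul a ω _ h =>
    have e : (a • ω : Ω[L⁄K]) = (a : L) • ω := rfl
    rw [e, pb_smul]
    exact (hA a a.2).mul h

theorem pb_bdd (ι : L →ₐ[K] Mer K) {A : Subalgebra K L} {T : Set ℝ} (hA : BdOn ι T A)
    {ω : Ω[L⁄K]} (hω : ω ∈ regA K A) : ∃ C : ℝ≥0, ∀ t ∈ T, mv t (pb ι ω) ≤ C := by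
  induction hω using Submodule.span_induction with
  | mem ω h =>
    obtain ⟨a, ha, rfl⟩ := h
    rw [pb_d]
    obtain ⟨C, hC⟩ := hA a ha
    exact ⟨C, fun t ht => (mv_der t _).trans (hC t ht)⟩
  | zero => exact ⟨0, fun t _ => by rw [map_zero, mv_zero]⟩
  | add ω ω' _ _ h h' =>
    obtain ⟨C, hC⟩ := h
    obtain ⟨C', hC'⟩ := h'
    refine ⟨max C C', fun t ht => ?_⟩
    rw [map_add]
    exact (mv_add t _ _).trans (max_le_max (hC t ht) (hC' t ht))
  | smul a ω _ h =>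
    obtain ⟨C, hC⟩ := h
    obtain ⟨C', hC'⟩ := hA a a.2
    refine ⟨C' * C, fun t ht => ?_⟩
    have e : (a • ω : Ω[L⁄K]) = (a : L) • ω := rfl
    rw [e, pb_smul, mv_mul]
    exact mul_le_mul' (hC' t ht) (hC t ht)

theorem bdOn_adjoin (ι : L →ₐ[K] Mer K) (T : Set ℝ) (s : Set L)
    (h : ∀ g ∈ s, ∃ C : ℝ≥0, ∀ t ∈ T, mv t (ι g) ≤ C) : BdOn ι T (Algebra.adjoin K s) := by
  intro g hg
  induction hg using Algebra.adjoin_induction with
  | mem g hg => exact h g hg
  | algebraMap c => exact ⟨‖c‖₊, fun t _ => by rw [ι.commutes, mv_const]⟩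
  | add g g' _ _ h h' =>
    obtain ⟨C, hC⟩ := h
    obtain ⟨C', hC'⟩ := h'
    refine ⟨max C C', fun t ht => ?_⟩
    rw [map_add]
    exact (mv_add t _ _).trans (max_le_max (hC t ht) (hC' t ht))
  | mul g g' _ _ h h' =>
    obtain ⟨C, hC⟩ := h
    obtain ⟨C', hC'⟩ := h'
    refine ⟨C * C', fun t ht => ?_⟩
    rw [map_mul, mv_mul]
    exact mul_le_mul' (hC t ht) (hC' t ht)

theorem reg_adjoin (ι : L →ₐ[K] Mer K) (z : Kˣ) (s : Set L) (h : ∀ g ∈ s, RegAt z (ι g)) :
    ∀ g ∈ Algebra.adjoin K s, RegAt z (ι g) := by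
  intro g hg
  induction hg using Algebra.adjoin_induction with
  | mem g hg => exact h g hg
  | algebraMap c =>
    rw [ι.commutes]
    exact regAt_const z c
  | add g g' _ _ h h' =>
    rw [map_add]
    exact h.add h'
  | mul g g' _ _ h h' =>
    rw [map_mul]
    exact h.mul h'

variable {x : Fin (N + 1) → L} {f : Fin (N + 1) → An K}

theorem Emb.ι_ne (E : Emb x f) {i : Fin (N + 1)} (hi : x i ≠ 0) : E.ι (x i) ≠ 0 := fun h =>
  hi (E.ι.toRingHom.injective (by
    change E.ι (x i) = E.ι 0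
    rw [h, map_zero]))

theorem Emb.ratio (E : Emb x f) (i j : Fin (N + 1)) (hj : x j ≠ 0) :
    E.ι (x i / x j) * am (f j) = am (f i) := by
  rw [map_div₀, div_mul_eq_mul_div, div_eq_iff (E.ι_ne hj), E.prop i j, mul_comm]

theorem Emb.am_ne (E : Emb x f) {i : Fin (N + 1)} (hi : x i ≠ 0) : am (f i) ≠ 0 := fun h =>
  hi ((E.zero_iff i).2 (am_eq_zero.1 h))

theorem Emb.reg_chart (E : Emb x f) {i : Fin (N + 1)} {z : Kˣ} (h : (f i).1 z ≠ 0) :
    ∀ a ∈ chart K x i, RegAt z (E.ι a) := by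
  refine reg_adjoin E.ι z _ ?_
  rintro g ⟨j, rfl⟩
  have hi : x i ≠ 0 := fun h0 => h (by rw [(E.zero_iff i).1 h0]; rfl)
  exact ⟨f j, f i, h, E.ratio j i hi⟩

theorem Emb.mv_ratio (E : Emb x f) {i : Fin (N + 1)} (hi : x i ≠ 0) (j : Fin (N + 1)) (t : ℝ) :
    mv t (E.ι (x j / x i)) * gn t (f i) = gn t (f j) := by
  rw [← mv_am, ← mv_am, ← mv_mul, E.ratio j i hi]

theorem Emb.mv_ratio_le (E : Emb x f) {i : Fin (N + 1)} (hi : x i ≠ 0) {t : ℝ} :
    t ∈ Tmax f i ↔ ∀ j, mv t (E.ι (x j / x i)) ≤ 1 := by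
  have h0 : 0 < gn t (f i) := by
    rw [← mv_am]
    exact mv_pos t (E.am_ne hi)
  constructor
  · intro h j
    by_contra hc
    push Not at hc
    have h1 := E.mv_ratio hi j t
    have h2 : gn t (f i) < mv t (E.ι (x j / x i)) * gn t (f i) := by
      calc gn t (f i) = 1 * gn t (f i) := (one_mul _).symm
        _ < _ := mul_lt_mul_of_pos_right hc h0
    rw [h1] at h2
    exact absurd (h j) (not_le.2 h2)
  · intro h j
    rw [← E.mv_ratio hi j t]
    calc _ ≤ 1 * gn t (f i) := mul_le_mul_left (h j) _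
      _ = _ := one_mul _

theorem Emb.bdOn_chart (E : Emb x f) {i : Fin (N + 1)} (hi : x i ≠ 0) :
    BdOn E.ι (Tmax f i) (chart K x i) := by
  refine bdOn_adjoin E.ι _ _ ?_
  rintro g ⟨j, rfl⟩
  exact ⟨1, fun t ht => (E.mv_ratio_le hi).1 ht j⟩

theorem Emb.ne_zero_of_mem (E : Emb x f) {i : Fin (N + 1)} {t : ℝ} (ht : t ∈ Tmax f i) :
    x i ≠ 0 := by
  intro h0
  obtain ⟨j, hj⟩ := E.nz 1
  have h1 : f j ≠ 0 := fun h => hj (by rw [h]; rfl)
  have h2 := ht j
  rw [(E.zero_iff i).1 h0, (gn_eq_zero t 0).2 rfl] at h2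
  exact h1 ((gn_eq_zero t (f j)).1 (le_antisymm h2 zero_le'))

theorem pb_const (E : Emb x f) {ω : Ω[L⁄K]} (hω : IsRegularForm K x ω) :
    ∃ c : K, pb E.ι ω = algebraMap K (Mer K) c := by
  have h1 : ∀ i, ∃ C : ℝ≥0, ∀ t ∈ Tmax f i, mv t (pb E.ι ω) ≤ C := by
    intro i
    by_cases hi : x i = 0
    · exact ⟨0, fun t ht => absurd hi (E.ne_zero_of_mem ht)⟩
    · exact pb_bdd E.ι (E.bdOn_chart hi) (hω i hi)
  choose C hC using h1
  refine liouville (fun z => ?_) (∑ i, C i) fun t => ?_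
  · obtain ⟨i, hi⟩ := E.nz z
    have hxi : x i ≠ 0 := fun h0 => hi (by rw [(E.zero_iff i).1 h0]; rfl)
    exact pb_reg E.ι (E.reg_chart hi) (hω i hxi)
  · obtain ⟨i, hi⟩ := exists_mem_Tmax f t
    exact (hC i t hi).trans (Finset.single_le_sum (f := C) (fun j _ => zero_le') (Finset.mem_univ i))

end Pool.Agent.NG
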