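import Pool.Agent.NG.EmbDefs
import Pool.Agent.NG.Pb

/-!
# NG GROW: growth of iterated derivatives (module to prove)

`B` is generated by `y_1, ..., y_m`. For `i ≤ m` choose `Q_i ∈ K[Y_1, ..., Y_m]` with `Q_i(y) = δ y_i`. The derivation
`δ' = ∑ Q_i ∂/∂Y_i` of the polynomial ring (`MvPolynomial.mkDerivation`) satisfies `(δ' P)(y) = δ (P(y))`. Let `C₀ ≥ 1` be a common bound of the norms of the `y_i` on `T` and
`|P| := max over the coefficients of ‖c‖ C₀ ^ (degree of the monomial)`; this norm is ultrametric and submultiplicative, and `mv t (ι (P(y))) ≤ |P|` for `t ∈ T`. Since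
`|∂P/∂Y_i| ≤ |P| / C₀ ≤ |P|` (integers have norm at most one) we get `|δ' P| ≤ M |P|` with `M = max |Q_i|`, so `mv t (ι (δ^[n] h)) ≤ |P| M ^ n` for `h = P(y)`.
-/

set_option linter.unusedSectionVars false

open Filter Topology
open scoped NNReal KaehlerDifferential

noncomputable section

namespace Pool.Agent.NG

variable {K : Type*} [NontriviallyNormedField K] [IsUltrametricDist K] [CompleteSpace K]
  [IsAlgClosed K] [CharZero K] {L : Type*} [Field L] [Algebra K L] {N : ℕ}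

private def gw (σ : Type*) (C₀ C : ℝ≥0) (P : MvPolynomial σ K) : Prop :=
  ∀ m : σ →₀ ℕ, ‖MvPolynomial.coeff m P‖₊ * C₀ ^ m.degree ≤ C

omit [CompleteSpace K] [IsAlgClosed K] [CharZero K] in
private lemma gw_nnnorm_sum {α : Type*} (s : Finset α) (f : α → K) (C : ℝ≥0)
    (h : ∀ i ∈ s, ‖f i‖₊ ≤ C) : ‖∑ i ∈ s, f i‖₊ ≤ C := by
  classical
  induction s using Finset.induction_on with
  | empty => rw [Finset.sum_empty, nnnorm_zero]; exact zero_le
  | insert a s ha ih =>
    rw [Finset.sum_insert ha]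
    exact (IsUltrametricDist.nnnorm_add_le_max _ _).trans
      (max_le (h a (Finset.mem_insert_self a s))
        (ih fun i hi => h i (Finset.mem_insert_of_mem hi)))

omit [CompleteSpace K] [IsAlgClosed K] [CharZero K] in
private lemma gw_sum {σ : Type*} {α : Type*} {C₀ C : ℝ≥0} (hC₀ : 1 ≤ C₀) (s : Finset α)
    (f : α → MvPolynomial σ K) (h : ∀ i ∈ s, gw σ C₀ C (f i)) : gw σ C₀ C (∑ i ∈ s, f i) := by
  intro m
  have hpos : 0 < C₀ ^ m.degree := pow_pos (lt_of_lt_of_le one_pos hC₀) _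
  rw [MvPolynomial.coeff_sum, ← le_div_iff₀ hpos]
  refine gw_nnnorm_sum s _ _ fun i hi => ?_
  rw [le_div_iff₀ hpos]
  exact h i hi m

omit [CompleteSpace K] [IsAlgClosed K] [CharZero K] in
private lemma gw_mul {σ : Type*} {C₀ C D : ℝ≥0} (hC₀ : 1 ≤ C₀)
    {P Q : MvPolynomial σ K} (hP : gw σ C₀ C P) (hQ : gw σ C₀ D Q) :
    gw σ C₀ (C * D) (P * Q) := by
  classical
  intro m
  have hpos : 0 < C₀ ^ m.degree := pow_pos (lt_of_lt_of_le one_pos hC₀) _
  rw [MvPolynomial.coeff_mul, ← le_div_iff₀ hpos]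
  refine gw_nnnorm_sum _ _ _ fun x hx => ?_
  have hx2 : x.1 + x.2 = m := by simpa using hx
  rw [le_div_iff₀ hpos, ← hx2, map_add, pow_add, nnnorm_mul]
  calc ‖MvPolynomial.coeff x.1 P‖₊ * ‖MvPolynomial.coeff x.2 Q‖₊ *
        (C₀ ^ x.1.degree * C₀ ^ x.2.degree)
      = (‖MvPolynomial.coeff x.1 P‖₊ * C₀ ^ x.1.degree) *
        (‖MvPolynomial.coeff x.2 Q‖₊ * C₀ ^ x.2.degree) := by ring
    _ ≤ C * D := mul_le_mul' (hP x.1) (hQ x.2)

omit [IsUltrametricDist K] [CompleteSpace K] [IsAlgClosed K] [CharZero K] in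
private lemma gw_exists {σ : Type*} (C₀ : ℝ≥0) (P : MvPolynomial σ K) : ∃ C, gw σ C₀ C P := by
  refine ⟨∑ m ∈ P.support, ‖MvPolynomial.coeff m P‖₊ * C₀ ^ m.degree, fun m => ?_⟩
  by_cases hm : m ∈ P.support
  · exact Finset.single_le_sum (f := fun m => ‖MvPolynomial.coeff m P‖₊ * C₀ ^ m.degree)
      (fun _ _ => zero_le) hm
  · rw [MvPolynomial.notMem_support_iff.1 hm, nnnorm_zero, zero_mul]
    exact zero_le

omit [IsUltrametricDist K] [CompleteSpace K] [IsAlgClosed K] [CharZero K] in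
private lemma gw_mono {σ : Type*} {C₀ C D : ℝ≥0} (h : C ≤ D) {P : MvPolynomial σ K}
    (hP : gw σ C₀ C P) : gw σ C₀ D P := fun m => (hP m).trans h

omit [CompleteSpace K] [IsAlgClosed K] [CharZero K] in
private lemma gw_pderiv {σ : Type*} {C₀ C : ℝ≥0} (hC₀ : 1 ≤ C₀) (i : σ)
    {P : MvPolynomial σ K} (hP : gw σ C₀ C P) : gw σ C₀ C (MvPolynomial.pderiv i P) := by
  intro m
  rw [MvPolynomial.coeff_pderiv, nnnorm_mul]
  have h1 : ‖((m i : K) + 1)‖₊ ≤ 1 := by
    have h2 := IsUltrametricDist.norm_natCast_le_one K (m i + 1)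
    rw [Nat.cast_add, Nat.cast_one] at h2
    rw [← NNReal.coe_le_coe, coe_nnnorm, NNReal.coe_one]
    exact h2
  have h3 := hP (m + Finsupp.single i 1)
  rw [map_add, Finsupp.degree_single, pow_add, pow_one] at h3
  calc ‖MvPolynomial.coeff (m + Finsupp.single i 1) P‖₊ * ‖((m i : K) + 1)‖₊ * C₀ ^ m.degree
      ≤ ‖MvPolynomial.coeff (m + Finsupp.single i 1) P‖₊ * C₀ * C₀ ^ m.degree := by
        gcongr
        exact h1.trans hC₀
    _ = ‖MvPolynomial.coeff (m + Finsupp.single i 1) P‖₊ * (C₀ ^ m.degree * C₀) := by ring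
    _ ≤ C := h3

private lemma gw_mv (ι : L →ₐ[K] Mer K) {σ : Type*} {C₀ C : ℝ≥0} {y : σ → L} {t : ℝ}
    (hy : ∀ i, mv t (ι (y i)) ≤ C₀) {P : MvPolynomial σ K} (hP : gw σ C₀ C P) :
    mv t (ι (MvPolynomial.aeval y P)) ≤ C := by
  rw [MvPolynomial.aeval_def, MvPolynomial.eval₂_eq, map_sum]
  refine mv_sum_le t _ _ _ fun m _ => ?_
  rw [map_mul, AlgHom.commutes, mv_mul, mv_const, map_prod, mv_prod]
  refine le_trans ?_ (hP m)
  refine mul_le_mul' le_rfl ?_
  rw [Finsupp.degree_apply, ← Finset.prod_pow_eq_pow_sum]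
  refine Finset.prod_le_prod' fun i _ => ?_
  rw [map_pow, mv_pow]
  exact pow_le_pow_left' (hy i) _

private lemma gw_chain {σ : Type*} [Fintype σ] {y : σ → L} {δ : Derivation K L L}
    {Q : σ → MvPolynomial σ K} (hQ : ∀ i, MvPolynomial.aeval y (Q i) = δ (y i))
    (P : MvPolynomial σ K) :
    MvPolynomial.aeval y (∑ i, MvPolynomial.pderiv i P * Q i) = δ (MvPolynomial.aeval y P) := by
  classical
  induction P using MvPolynomial.induction_on with
  | C a =>
    simp only [MvPolynomial.pderiv_C, zero_mul, Finset.sum_const_zero, map_zero,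
      MvPolynomial.algHom_C, Derivation.map_algebraMap]
  | add p q hp hq =>
    simp only [map_add, add_mul, Finset.sum_add_distrib] at hp hq ⊢
    rw [hp, hq]
  | mul_X p j hp =>
    have h1 : ∀ i, MvPolynomial.pderiv i (p * MvPolynomial.X j) * Q i =
        MvPolynomial.X j * (MvPolynomial.pderiv i p * Q i) +
          p * (if i = j then Q i else 0) := by
      intro i
      rw [Derivation.leibniz, smul_eq_mul, smul_eq_mul, MvPolynomial.pderiv_X]
      by_cases hij : i = j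
      · subst hij
        rw [Pi.single_eq_same, if_pos rfl]
        ring
      · rw [Pi.single_eq_of_ne (fun h => hij h.symm), if_neg hij]
        ring
    rw [Finset.sum_congr rfl fun i _ => h1 i, Finset.sum_add_distrib, ← Finset.mul_sum,
      ← Finset.mul_sum, Finset.sum_ite_eq' Finset.univ j, if_pos (Finset.mem_univ j), map_add,
      map_mul, map_mul, hp, map_mul, MvPolynomial.aeval_X, hQ, Derivation.leibniz,
      smul_eq_mul, smul_eq_mul]
    ring

theorem grow (ι : L →ₐ[K] Mer K) {B : Subalgebra K L} (hB : B.FG) {T : Set ℝ}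
    (hT : BdOn ι T B) {δ : Derivation K L L} (hδ : ∀ g ∈ B, δ g ∈ B) {h : L} (hh : h ∈ B) :
    ∃ C M : ℝ≥0, ∀ n : ℕ, ∀ t ∈ T, mv t (ι (δ^[n] h)) ≤ C * M ^ n := by
  classical
  obtain ⟨s, hs⟩ := hB
  have hsB : ∀ i : s, (i : L) ∈ B := fun i => hs ▸ Algebra.subset_adjoin i.2
  have hrange : ∀ g ∈ B, ∃ P : MvPolynomial s K,
      MvPolynomial.aeval (fun i : s => (i : L)) P = g := by
    intro g hg
    rw [← hs] at hg
    have h1 := Algebra.adjoin_eq_range K (s : Set L)
    rw [h1] at hg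
    obtain ⟨P, hP⟩ := hg
    exact ⟨P, hP⟩
  choose Cy hCy using fun i : s => hT i (hsB i)
  have hle : ∀ i : s, Cy i ≤ 1 + ∑ j, Cy j := fun i =>
    (Finset.single_le_sum (f := Cy) (fun _ _ => zero_le) (Finset.mem_univ i)).trans
      (le_add_of_nonneg_left zero_le)
  have hC₀ : 1 ≤ 1 + ∑ j, Cy j := le_add_of_nonneg_right zero_le
  choose Q hQ using fun i : s => hrange _ (hδ _ (hsB i))
  choose M hM using fun i : s => gw_exists (1 + ∑ j, Cy j) (Q i)
  obtain ⟨P, hP⟩ := hrange h hh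
  obtain ⟨C, hC⟩ := gw_exists (1 + ∑ j, Cy j) P
  have hiter : ∀ n : ℕ, ∃ R : MvPolynomial s K,
      MvPolynomial.aeval (fun i : s => (i : L)) R = δ^[n] h ∧
        gw s (1 + ∑ j, Cy j) (C * (∑ i, M i) ^ n) R := by
    intro n
    induction n with
    | zero => exact ⟨P, hP, by rw [pow_zero, mul_one]; exact hC⟩
    | succ n ih =>
      obtain ⟨R, hR, hR2⟩ := ih
      refine ⟨∑ i, MvPolynomial.pderiv i R * Q i, ?_, ?_⟩
      · rw [gw_chain hQ, hR, Function.iterate_succ_apply']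
      · refine gw_sum hC₀ _ _ fun i _ => ?_
        rw [pow_succ, ← mul_assoc]
        refine gw_mono ?_ (gw_mul hC₀ (gw_pderiv hC₀ i hR2) (hM i))
        exact mul_le_mul' le_rfl
          (Finset.single_le_sum (f := M) (fun _ _ => zero_le) (Finset.mem_univ i))
  refine ⟨C, ∑ i, M i, fun n t ht => ?_⟩
  obtain ⟨R, hR, hR2⟩ := hiter n
  rw [← hR]
  exact gw_mv ι (fun i => (hCy i t ht).trans (hle i)) hR2

end Pool.Agent.NG
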