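import Pool.Agent.NG.Locf
import Pool.Agent.NG.Trd

/-!
# NG H1: the local ring of a curve on a smooth surface is a discrete valuation ring

`F` is a frame at `p`, `R₀ = K[t₀, t₁] ⊆ A` (a polynomial ring: `d t₀`, `d t₁` are linearly independent, characteristic
zero: if `P(t₀, t₁) = 0` with `P` of minimal degree then `P_j(t₀, t₁) = d j (P(t₀, t₁)) = 0`).
(1) Choose `P ≠ 0` of minimal total degree with `P(t₀, t₁) ∈ p`; it exists by the argument of `alg_mod` (any two elements of
    `A` are algebraically dependent modulo `p`). `s := P(t₀, t₁)`. Some partial derivative `P_j` is nonzero (`P` is not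
    constant, characteristic zero) and of smaller degree, so `d j s = P_j(t₀, t₁) ∉ p`. `P` is irreducible.
(2) `p₀ = p ∩ R₀ = (s)`: by (3) below and `Algebra.isUnramifiedAt_iff_map_eq` the residue field of `A_p` is algebraic over the
    residue field of `R₀` at `p₀`; if `p₀` were a point of the plane (i.e. `t₀`, `t₁` congruent to constants modulo `p`), every element of
    `A` would be algebraic over `K` modulo `p`, so `IsPoint p`, a contradiction. A nonzero prime of `R₀` (two variables, `K` algebraically
    closed) which is not a point is generated by an irreducible polynomial: if `h ∈ p₀` is not divisible by the irreducible `s`,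
    then `s` and `h` are coprime in `K(t₀)[t₁]` and in `K(t₁)[t₀]` (Gauss), so `p₀` contains nonzero polynomials in `t₀` alone and in
    `t₁` alone, which split into linear factors: `p₀` is a point.
(3) `A_p` is formally unramified over `R₀`: its differentials over `K` are generated by `d t₀`, `d t₁`
    (`F.pres`, `F.expand` are statements in `Ω[L⁄K]`; `Ω[A⁄K]` is projective, hence torsion free and embeds into `Ω[L⁄K]`). By
    `Algebra.isUnramifiedAt_iff_map_eq` the maximal ideal of `A_p` is generated by `p ∩ R₀ = (s)`.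
`exists_unif` is the result in terms of elements. `unif_val`: `A` is noetherian, Krull's intersection theorem: for `a ∈ A` nonzero there
is a largest `n` with `c a = s ^ n u`, `c ∉ p`, and then `u ∉ p`.
-/

open scoped KaehlerDifferential

set_option linter.unusedSectionVars false

noncomputable section

namespace Pool.Agent.NG

section Poly

variable {K : Type*} [Field K]

theorem h1_pderiv_dvd {σ : Type*} (P : MvPolynomial σ K) (j : σ) (h : P ∣ MvPolynomial.pderiv j P) :
    MvPolynomial.pderiv j P = 0 := by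
  classical
  by_contra hne
  obtain ⟨R, hR⟩ := h
  have hP : P ≠ 0 := by
    rintro rfl
    exact hne (by simp)
  have hR0 : R ≠ 0 := by
    rintro rfl
    exact hne (by rw [hR, mul_zero])
  have h1 : MvPolynomial.degreeOf j P ≤ MvPolynomial.degreeOf j (MvPolynomial.pderiv j P) := by
    rw [hR, MvPolynomial.degreeOf_mul_eq hP hR0]
    exact Nat.le_add_right _ _
  have key : ∀ m ∈ (MvPolynomial.pderiv j P).support, m j < MvPolynomial.degreeOf j P := by
    intro m hm
    rw [MvPolynomial.mem_support_iff, MvPolynomial.coeff_pderiv] at hm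
    have h2 : MvPolynomial.coeff (m + Finsupp.single j 1) P ≠ 0 := left_ne_zero_of_mul hm
    have h3 := MvPolynomial.le_degreeOf_of_mem_support j (MvPolynomial.mem_support_iff.2 h2)
    simp only [Finsupp.add_apply, Finsupp.single_eq_same] at h3
    omega
  obtain ⟨m, hm⟩ := MvPolynomial.support_nonempty.2 hne
  have h4 : 0 < MvPolynomial.degreeOf j P := lt_of_le_of_lt (Nat.zero_le _) (key m hm)
  have h5 := (MvPolynomial.degreeOf_lt_iff h4).2 key
  omega

theorem h1_pderiv_zero {σ : Type*} [CharZero K] (P : MvPolynomial σ K)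
    (h : ∀ j, MvPolynomial.pderiv j P = 0) : P = MvPolynomial.C (MvPolynomial.coeff 0 P) := by
  classical
  ext m
  rw [MvPolynomial.coeff_C]
  split_ifs with h0
  · rw [← h0]
  · obtain ⟨i, hi⟩ : ∃ i, m i ≠ 0 := by
      by_contra hcon
      push Not at hcon
      exact h0 (Finsupp.ext fun i => (hcon i).symm)
    have h1 : m = (m - Finsupp.single i 1) + Finsupp.single i 1 := by
      ext k
      simp only [Finsupp.add_apply, Finsupp.tsub_apply, Finsupp.single_apply]
      split_ifs with hk
      · subst hk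
        omega
      · omega
    have h2 := congrArg (MvPolynomial.coeff (m - Finsupp.single i 1)) (h i)
    rw [MvPolynomial.coeff_pderiv, ← h1, MvPolynomial.coeff_zero] at h2
    rcases mul_eq_zero.1 h2 with h3 | h3
    · exact h3
    · exact absurd h3 (Nat.cast_add_one_ne_zero _)

theorem h1_prime_pderiv {σ : Type*} [CharZero K] {P : MvPolynomial σ K} (hP : Prime P) :
    ∃ j, ¬ P ∣ MvPolynomial.pderiv j P := by
  by_contra hcon
  push Not at hcon
  have h1 := h1_pderiv_zero P (fun j => h1_pderiv_dvd P j (hcon j))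
  have h2 : MvPolynomial.coeff 0 P ≠ 0 := by
    intro h0
    rw [h0, map_zero] at h1
    exact hP.ne_zero h1
  apply hP.not_isUnit
  rw [h1]
  exact (isUnit_iff_ne_zero.2 h2).map MvPolynomial.C

theorem h1_principal {q : Ideal (MvPolynomial (Fin 2) K)} [hq : q.IsPrime] {P : MvPolynomial (Fin 2) K}
    (hP : Prime P) (hPq : P ∈ q) (hmax : ¬ q.IsMaximal) : q = Ideal.span {P} := by
  by_contra hne
  have hprime : (Ideal.span {P}).IsPrime := (Ideal.span_singleton_prime hP.ne_zero).2 hP
  obtain ⟨m, hm, hqm⟩ := Ideal.exists_le_maximal q hq.ne_top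
  have hlt3 : q < m := lt_of_le_of_ne hqm (fun h => hmax (h ▸ hm))
  have hlt2 : Ideal.span {P} < q := lt_of_le_of_ne ((Ideal.span_singleton_le_iff_mem q).2 hPq)
    (fun h => hne h.symm)
  have hlt1 : (⊥ : Ideal (MvPolynomial (Fin 2) K)) < Ideal.span {P} := by
    rw [bot_lt_iff_ne_bot, Ne, Ideal.span_singleton_eq_bot]
    exact hP.ne_zero
  let x0 : PrimeSpectrum (MvPolynomial (Fin 2) K) := ⟨⊥, Ideal.isPrime_bot⟩
  let x1 : PrimeSpectrum (MvPolynomial (Fin 2) K) := ⟨Ideal.span {P}, hprime⟩
  let x2 : PrimeSpectrum (MvPolynomial (Fin 2) K) := ⟨q, hq⟩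
  let x3 : PrimeSpectrum (MvPolynomial (Fin 2) K) := ⟨m, hm.isPrime⟩
  have h01 : x0 < x1 := hlt1
  have h12 : x1 < x2 := hlt2
  have h23 : x2 < x3 := hlt3
  let s : LTSeries (PrimeSpectrum (MvPolynomial (Fin 2) K)) :=
    (((RelSeries.singleton _ x0).snoc x1 h01).snoc x2 (by simpa using h12)).snoc x3 (by simpa using h23)
  have h1 : ((3 : ℕ) : WithBot ℕ∞) ≤ ringKrullDim (MvPolynomial (Fin 2) K) := Order.LTSeries.length_le_krullDim s
  rw [MvPolynomial.ringKrullDim_of_isNoetherianRing, ringKrullDim_eq_zero_of_field, zero_add] at h1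
  have h2 : Nat.card (Fin 2) = 2 := by simp
  rw [h2] at h1
  have h3 : (3 : ℕ) ≤ 2 := by exact_mod_cast h1
  omega

end Poly

section Unram

theorem h1_unram {R B : Type*} [CommRing R] [CommRing B] [Algebra R B] (p : Ideal B) [p.IsPrime]
    {b : B} (hb : b ∉ p) (h : ∀ a : B, b • KaehlerDifferential.D R B a = 0) :
    Algebra.FormallyUnramified R (Localization.AtPrime p) := by
  have h1 : ∀ a : B, KaehlerDifferential.D R (Localization.AtPrime p)
      (algebraMap B (Localization.AtPrime p) a) = 0 := by
    intro a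
    have h2 := congrArg (KaehlerDifferential.map R R B (Localization.AtPrime p)) (h a)
    rw [map_smul, map_zero, KaehlerDifferential.map_D] at h2
    have hu : IsUnit (algebraMap B (Localization.AtPrime p) b) :=
      IsLocalization.map_units (M := p.primeCompl) (Localization.AtPrime p) ⟨b, hb⟩
    rw [← algebraMap_smul (Localization.AtPrime p) b] at h2
    exact (IsUnit.smul_eq_zero hu).1 h2
  have h3 : ∀ x : Localization.AtPrime p, KaehlerDifferential.D R (Localization.AtPrime p) x = 0 := by
    intro x
    obtain ⟨⟨a, c⟩, hx⟩ := IsLocalization.surj p.primeCompl x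
    have h4 := congrArg (KaehlerDifferential.D R (Localization.AtPrime p)) hx
    rw [Derivation.leibniz, h1, h1, smul_zero, zero_add] at h4
    exact (IsUnit.smul_eq_zero (IsLocalization.map_units (Localization.AtPrime p) c)).1 h4
  refine ⟨?_⟩
  refine ⟨fun a b => ?_⟩
  have h5 : (⊤ : Submodule (Localization.AtPrime p) (Ω[Localization.AtPrime p⁄R])) = ⊥ := by
    rw [← KaehlerDifferential.span_range_derivation, Submodule.span_eq_bot]
    rintro _ ⟨x, rfl⟩
    exact h3 x
  have h6 : ∀ z : Ω[Localization.AtPrime p⁄R], z = 0 := by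
    intro z
    have : z ∈ (⊤ : Submodule (Localization.AtPrime p) (Ω[Localization.AtPrime p⁄R])) := trivial
    rwa [h5] at this
  rw [h6 a, h6 b]

end Unram

theorem h1_gen {K R B : Type*} [Field K] [IsAlgClosed K] [CommRing R] [CommRing B] [Algebra K R]
    [Algebra K B] [Algebra R B] [IsScalarTower K R B] [Algebra.EssFiniteType R B] (q : Ideal B)
    [q.IsPrime] (hU : Algebra.FormallyUnramified R (Localization.AtPrime q)) :
    (q.comap (algebraMap R B)).map (algebraMap R (Localization.AtPrime q)) =
      IsLocalRing.maximalIdeal (Localization.AtPrime q) ∧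
    ((∀ r : R, ∃ c : K, r - algebraMap K R c ∈ q.comap (algebraMap R B)) →
      ∀ a : B, ∃ c : K, a - algebraMap K B c ∈ q) := by
  let p₀ : Ideal R := q.under R
  let := Localization.AtPrime.algebraOfLiesOver p₀ q
  have ⟨h₁, h₂⟩ := (Algebra.isUnramifiedAt_iff_map_eq R p₀ q).mp hU
  refine ⟨h₂, fun hp a => ?_⟩
  have hmax : p₀.IsMaximal := by
    refine Ideal.isMaximal_iff.2 ⟨fun h => (inferInstance : p₀.IsPrime).ne_top
      ((Ideal.eq_top_iff_one _).2 h), ?_⟩
    intro J x hJ hx hxJ
    obtain ⟨c, hc⟩ := hp x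
    have hc0 : c ≠ 0 := by
      rintro rfl
      apply hx
      change algebraMap R B x ∈ q
      simpa using hc
    have h3 : algebraMap K R c ∈ J := by
      have := J.sub_mem hxJ (hJ hc)
      simpa using this
    have h4 := J.mul_mem_left (algebraMap K R c⁻¹) h3
    rw [← map_mul, inv_mul_cancel₀ hc0, map_one] at h4
    exact h4
  have hsur : Function.Surjective (algebraMap K p₀.ResidueField) := by
    intro y
    obtain ⟨r, rfl⟩ := p₀.algebraMap_residueField_surjective y
    obtain ⟨c, hc⟩ := hp r
    refine ⟨c, ?_⟩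
    have h3 : algebraMap R p₀.ResidueField (r - algebraMap K R c) = 0 :=
      Ideal.algebraMap_residueField_eq_zero.2 hc
    rw [map_sub, sub_eq_zero, ← IsScalarTower.algebraMap_apply] at h3
    exact h3.symm
  have hint0 : Algebra.IsIntegral K p₀.ResidueField :=
    ⟨fun y => by
      obtain ⟨c, rfl⟩ := hsur y
      exact isIntegral_algebraMap⟩
  have hint1 : Algebra.IsIntegral p₀.ResidueField q.ResidueField := inferInstance
  have hint : Algebra.IsIntegral K q.ResidueField := Algebra.IsIntegral.trans p₀.ResidueField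
  obtain ⟨c, hc⟩ := (IsAlgClosed.algebraMap_bijective_of_isIntegral (k := K) (K := q.ResidueField)).2
    (algebraMap B q.ResidueField a)
  refine ⟨c, ?_⟩
  rw [← Ideal.algebraMap_residueField_eq_zero, map_sub, ← hc, ← IsScalarTower.algebraMap_apply,
    sub_self]

variable {K : Type*} [Field K] [CharZero K] [IsAlgClosed K] {L : Type*} [Field L] [Algebra K L]
  {A : Subalgebra K L}

omit [CharZero K] [IsAlgClosed K] in
theorem h1_fraction (hA : Surf K A) : IsFractionRing A L where
  map_units := by
    rintro ⟨y, hy⟩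
    have hy0 : y ≠ 0 := nonZeroDivisors.ne_zero hy
    exact isUnit_iff_ne_zero.2 (fun h => hy0 (Subtype.ext h))
  surj := by
    intro z
    obtain ⟨a, b, hb, h⟩ := hA.frac z
    exact ⟨(a, ⟨b, mem_nonZeroDivisors_of_ne_zero hb⟩), h⟩
  exists_of_eq := by
    intro x y h
    exact ⟨1, by rw [Subtype.ext h]⟩

omit [CharZero K] [IsAlgClosed K] in
theorem h1_rel (hA : Surf K A) {p : Ideal A} (F : Frame K A p) (a : A) :
    ∃ c : Fin 2 → A, F.b • KaehlerDifferential.D K A a = c 0 • KaehlerDifferential.D K A (F.t 0) +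
      c 1 • KaehlerDifferential.D K A (F.t 1) := by
  have := h1_fraction hA
  have := hA.smooth
  choose c hc using fun j => F.pres j a
  refine ⟨c, ?_⟩
  have hinj : Function.Injective (KaehlerDifferential.map K K A L) := by
    have : IsLocalizedModule (nonZeroDivisors A) (KaehlerDifferential.map K K A L) := inferInstance
    have : Module.Projective A (Ω[A⁄K]) := inferInstance
    have : Module.IsTorsionFree A (Ω[A⁄K]) := inferInstance
    rw [injective_iff_map_eq_zero]
    intro m hm
    obtain ⟨s, hs⟩ := (IsLocalizedModule.eq_zero_iff (nonZeroDivisors A)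
      (KaehlerDifferential.map K K A L)).1 hm
    have hs0 : (s : A) ≠ 0 := nonZeroDivisors.ne_zero s.2
    exact (smul_eq_zero_iff_right hs0).1 hs
  apply hinj
  have h1 := F.expand (KaehlerDifferential.D K L (a : L))
  rw [pair_d, pair_d] at h1
  simp only [map_smul, map_add, KaehlerDifferential.map_D]
  change F.b • KaehlerDifferential.D K L (a : L) = c 0 • KaehlerDifferential.D K L (F.t 0 : L) +
      c 1 • KaehlerDifferential.D K L (F.t 1 : L)
  have e : ∀ (x : A) (m : Ω[L⁄K]), x • m = (x : L) • m := fun x m => rfl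
  rw [e, e, e, ← hc, ← hc, mul_smul, mul_smul, ← smul_add, ← h1]

omit [CharZero K] [IsAlgClosed K] in
theorem h1_deriv {p : Ideal A} (F : Frame K A p) (j : Fin 2) (P : MvPolynomial (Fin 2) K) :
    F.d j ((MvPolynomial.aeval F.t P : A) : L) = (MvPolynomial.aeval F.t (MvPolynomial.pderiv j P) : A) := by
  induction P using MvPolynomial.induction_on with
  | C a =>
    rw [MvPolynomial.pderiv_C, map_zero]
    have : (((MvPolynomial.aeval F.t) (MvPolynomial.C a) : A) : L) = algebraMap K L a := by
      rw [MvPolynomial.aeval_C]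
      rfl
    rw [this, Derivation.map_algebraMap]
    rfl
  | add P Q hP hQ =>
    rw [map_add, map_add, map_add]
    push_cast
    rw [map_add, hP, hQ]
  | mul_X P i hP =>
    rw [map_mul, MvPolynomial.pderiv_mul, map_add, map_mul, map_mul]
    push_cast
    rw [Derivation.leibniz, hP, MvPolynomial.aeval_X, F.dual, MvPolynomial.pderiv_X,
      smul_eq_mul, smul_eq_mul]
    by_cases h : j = i
    · subst h
      simp
      ring
    · simp [h]
      ring

theorem exists_unif (hA : Surf K A) {p : Ideal A} [p.IsPrime] (hp : p ≠ ⊥)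
    (hn : ¬ IsPoint K A p) (F : Frame K A p) :
    ∃ s : A, s ∈ p ∧ (∀ h ∈ p, ∃ c u : A, c ∉ p ∧ c * h = s * u) ∧
      ∃ j, F.d j s ∈ OL K A p ∧ F.d j s ∉ ML K A p := by
  let φ : MvPolynomial (Fin 2) K →ₐ[K] A := MvPolynomial.aeval F.t
  let _ : Algebra (MvPolynomial (Fin 2) K) A := φ.toRingHom.toAlgebra
  have halg : ∀ P : MvPolynomial (Fin 2) K, algebraMap (MvPolynomial (Fin 2) K) A P = MvPolynomial.aeval F.t P :=
    fun P => rfl
  have htow : IsScalarTower K (MvPolynomial (Fin 2) K) A := IsScalarTower.of_algebraMap_eq fun x => by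
    rw [halg, MvPolynomial.algebraMap_eq, MvPolynomial.aeval_C]
  have hft : Algebra.FiniteType K A := (Subalgebra.fg_iff_finiteType A).1 hA.fg
  have hft' : Algebra.FiniteType (MvPolynomial (Fin 2) K) A :=
    Algebra.FiniteType.of_restrictScalars_finiteType K _ _
  have hess : Algebra.EssFiniteType (MvPolynomial (Fin 2) K) A := inferInstance
  have hb : ∀ a : A, F.b • KaehlerDifferential.D (MvPolynomial (Fin 2) K) A a = 0 := by
    intro a
    obtain ⟨c, hc⟩ := h1_rel hA F a
    have h1 := congrArg (KaehlerDifferential.map K (MvPolynomial (Fin 2) K) A A) hc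
    simp only [map_smul, map_add, KaehlerDifferential.map_D, Algebra.algebraMap_self, RingHom.id_apply] at h1
    rw [h1]
    have h2 : ∀ i, KaehlerDifferential.D (MvPolynomial (Fin 2) K) A (F.t i) = 0 := by
      intro i
      have : F.t i = algebraMap (MvPolynomial (Fin 2) K) A (MvPolynomial.X i) := by
        rw [halg, MvPolynomial.aeval_X]
      rw [this, Derivation.map_algebraMap]
    rw [h2, h2, smul_zero, smul_zero, add_zero]
  have hU := h1_unram (R := MvPolynomial (Fin 2) K) p F.hb hb
  obtain ⟨hmap, hpt⟩ := h1_gen (K := K) (R := MvPolynomial (Fin 2) K) p hU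
  set q : Ideal (MvPolynomial (Fin 2) K) := p.comap (algebraMap (MvPolynomial (Fin 2) K) A) with hq
  have hqprime : q.IsPrime := Ideal.comap_isPrime _ _
  -- `q ≠ ⊥`
  have hinjA : Function.Injective (algebraMap A (Localization.AtPrime p)) :=
    IsLocalization.injective (Localization.AtPrime p) (Ideal.primeCompl_le_nonZeroDivisors p)
  have hq0 : q ≠ ⊥ := by
    intro h0
    rw [h0, Ideal.map_bot] at hmap
    apply hp
    rw [eq_bot_iff]
    intro x hx
    have h1 : algebraMap A (Localization.AtPrime p) x ∈ IsLocalRing.maximalIdeal (Localization.AtPrime p) :=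
      (IsLocalization.AtPrime.to_map_mem_maximal_iff _ p x).2 hx
    rw [← hmap, Ideal.mem_bot] at h1
    rw [Ideal.mem_bot]
    exact hinjA (by rw [h1, map_zero])
  have hqmax : ¬ q.IsMaximal := by
    intro hmax
    apply hn
    apply hpt
    obtain ⟨x, hx⟩ := MvPolynomial.isMaximal_iff_eq_vanishingIdeal_singleton.1 hmax
    intro r
    refine ⟨MvPolynomial.eval x r, ?_⟩
    rw [hx, MvPolynomial.mem_vanishingIdeal_singleton_iff]
    simp
  obtain ⟨P, hPq, hP⟩ := Ideal.IsPrime.exists_mem_prime_of_ne_bot hqprime hq0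
  have hspan := h1_principal hP hPq hqmax
  refine ⟨MvPolynomial.aeval F.t P, hPq, ?_, ?_⟩
  · intro h hh
    have h1 : algebraMap A (Localization.AtPrime p) h ∈ IsLocalRing.maximalIdeal (Localization.AtPrime p) :=
      (IsLocalization.AtPrime.to_map_mem_maximal_iff _ p h).2 hh
    rw [← hmap, hspan, Ideal.map_span, Set.image_singleton, Ideal.mem_span_singleton] at h1
    obtain ⟨y, hy⟩ := h1
    obtain ⟨⟨u, c⟩, hx⟩ := IsLocalization.surj p.primeCompl y
    refine ⟨c, u, c.2, hinjA ?_⟩
    rw [map_mul, map_mul, ← hx, hy, IsScalarTower.algebraMap_apply (MvPolynomial (Fin 2) K) A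
      (Localization.AtPrime p), halg]
    ring
  · obtain ⟨j, hj⟩ := h1_prime_pderiv hP
    refine ⟨j, ?_, ?_⟩
    · rw [h1_deriv]
      exact ⟨MvPolynomial.aeval F.t (MvPolynomial.pderiv j P), 1, fun h => Ideal.IsPrime.ne_top inferInstance
        ((Ideal.eq_top_iff_one p).2 h), by simp⟩
    · rw [h1_deriv]
      rintro ⟨a, c, ha, hc, h⟩
      apply hj
      have h2 : MvPolynomial.aeval F.t (MvPolynomial.pderiv j P) * c ∈ p := by
        have : MvPolynomial.aeval F.t (MvPolynomial.pderiv j P) * c = a := Subtype.ext (by push_cast; exact h)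
        rw [this]
        exact ha
      have h3 : MvPolynomial.pderiv j P ∈ q := ((inferInstance : p.IsPrime).mem_or_mem h2).resolve_right hc
      rw [hspan, Ideal.mem_span_singleton] at h3
      exact h3

omit [CharZero K] [IsAlgClosed K] in
theorem h1_val (hA : Surf K A) {p : Ideal A} [p.IsPrime] (hp : p ≠ ⊥) {s : A} (hs : s ∈ p)
    (h : ∀ h ∈ p, ∃ c u : A, c ∉ p ∧ c * h = s * u) {a : A} (ha : a ≠ 0) :
    ∃ (n : ℕ) (u c : A), u ∉ p ∧ c ∉ p ∧ c * a = s ^ n * u := by
  have hinjA : Function.Injective (algebraMap A (Localization.AtPrime p)) :=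
    IsLocalization.injective (Localization.AtPrime p) (Ideal.primeCompl_le_nonZeroDivisors p)
  have hft : Algebra.FiniteType K A := (Subalgebra.fg_iff_finiteType A).1 hA.fg
  have hnoe : IsNoetherianRing A := Algebra.FiniteType.isNoetherianRing K A
  have hnoe' : IsNoetherianRing (Localization.AtPrime p) :=
    IsLocalization.isNoetherianRing p.primeCompl _ hnoe
  have hdom : IsDomain (Localization.AtPrime p) := inferInstance
  have hmax : IsLocalRing.maximalIdeal (Localization.AtPrime p) =
      Ideal.span {algebraMap A (Localization.AtPrime p) s} := by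
    apply le_antisymm
    · intro y hy
      obtain ⟨⟨u, c⟩, hx⟩ := IsLocalization.surj p.primeCompl y
      have hu : u ∈ p := by
        rw [← IsLocalization.AtPrime.to_map_mem_maximal_iff (Localization.AtPrime p) p, ← hx]
        exact Ideal.mul_mem_right _ _ hy
      obtain ⟨c', u', hc', e⟩ := h u hu
      have h1 : IsUnit (algebraMap A (Localization.AtPrime p) c * algebraMap A (Localization.AtPrime p) c') :=
        (IsLocalization.map_units _ c).mul
          (IsLocalization.map_units (M := p.primeCompl) (Localization.AtPrime p) ⟨c', hc'⟩)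
      rw [← Ideal.mul_unit_mem_iff_mem _ h1, ← mul_assoc]
      dsimp only at hx
      rw [hx, ← map_mul, mul_comm u c', e, map_mul]
      exact Ideal.mul_mem_right _ _ (Ideal.mem_span_singleton_self _)
    · rw [Ideal.span_singleton_le_iff_mem]
      exact (IsLocalization.AtPrime.to_map_mem_maximal_iff _ p s).2 hs
  have hfield : ¬ IsField (Localization.AtPrime p) := by
    intro hF
    rw [IsLocalRing.isField_iff_maximalIdeal_eq] at hF
    apply hp
    rw [eq_bot_iff]
    intro x hx
    have h1 : algebraMap A (Localization.AtPrime p) x ∈ IsLocalRing.maximalIdeal (Localization.AtPrime p) :=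
      (IsLocalization.AtPrime.to_map_mem_maximal_iff _ p x).2 hx
    rw [hF, Ideal.mem_bot] at h1
    rw [Ideal.mem_bot]
    exact hinjA (by rw [h1, map_zero])
  have hpr : (IsLocalRing.maximalIdeal (Localization.AtPrime p)).IsPrincipal := ⟨_, hmax⟩
  have hdvr : IsDiscreteValuationRing (Localization.AtPrime p) :=
    ((IsDiscreteValuationRing.TFAE (Localization.AtPrime p) hfield).out 4 0).1 hpr
  have hirr : Irreducible (algebraMap A (Localization.AtPrime p) s) :=
    (IsDiscreteValuationRing.irreducible_iff_uniformizer _).2 hmax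
  have ha0 : algebraMap A (Localization.AtPrime p) a ≠ 0 := fun h0 => ha (hinjA (by rw [h0, map_zero]))
  obtain ⟨n, w, hw⟩ := IsDiscreteValuationRing.eq_unit_mul_pow_irreducible ha0 hirr
  obtain ⟨⟨u, c⟩, hx⟩ := IsLocalization.surj p.primeCompl (w : Localization.AtPrime p)
  refine ⟨n, u, c, ?_, c.2, hinjA ?_⟩
  · intro hu
    rw [← IsLocalization.AtPrime.to_map_mem_maximal_iff (Localization.AtPrime p) p, ← hx] at hu
    exact (IsLocalRing.maximalIdeal.isMaximal _).ne_top (Ideal.eq_top_of_isUnit_mem _ hu
      (w.isUnit.mul (IsLocalization.map_units _ c)))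
  · dsimp only at hx
    rw [map_mul, map_mul, map_pow, hw, ← hx]
    ring

theorem unif_val (hA : Surf K A) {p : Ideal A} [p.IsPrime] (hp : p ≠ ⊥) {s : A} (hs : s ∈ p)
    (h : ∀ h ∈ p, ∃ c u : A, c ∉ p ∧ c * h = s * u) {g : L} (hg : g ≠ 0) :
    ∃ (n : ℤ) (a c : A), a ∉ p ∧ c ∉ p ∧ g * c = (s : L) ^ n * a := by
  obtain ⟨x, y, hy, e⟩ := hA.frac g
  have hx : x ≠ 0 := by
    rintro rfl
    have h1 : (y : L) ≠ 0 := fun h => hy (Subtype.ext h)
    exact mul_ne_zero hg h1 (by rw [e]; rfl)
  obtain ⟨n, u, c, hu, hc, e1⟩ := h1_val hA hp hs h hx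
  obtain ⟨m, u', c', hu', hc', e2⟩ := h1_val hA hp hs h hy
  have hs0 : s ≠ 0 := by
    rintro rfl
    apply hp
    rw [eq_bot_iff]
    intro z hz
    obtain ⟨c, u, hc, e⟩ := h z hz
    rw [zero_mul] at e
    rw [Ideal.mem_bot]
    refine (mul_eq_zero.1 e).resolve_left ?_
    rintro rfl
    exact hc p.zero_mem
  have hs1 : (s : L) ≠ 0 := fun h => hs0 (Subtype.ext h)
  have hy1 : (y : L) ≠ 0 := fun h => hy (Subtype.ext h)
  refine ⟨(n : ℤ) - m, c' * u, c * u', fun hm => ?_, fun hm => ?_, ?_⟩
  · rcases (inferInstance : p.IsPrime).mem_or_mem hm with h1 | h1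
    · exact hc' h1
    · exact hu h1
  · rcases (inferInstance : p.IsPrime).mem_or_mem hm with h1 | h1
    · exact hc h1
    · exact hu' h1
  · have e1' : (c : L) * x = (s : L) ^ n * u := by
      have := congrArg (fun z : A => (z : L)) e1
      push_cast at this
      exact this
    have e2' : (c' : L) * y = (s : L) ^ m * u' := by
      have := congrArg (fun z : A => (z : L)) e2
      push_cast at this
      exact this
    rw [zpow_sub₀ hs1, zpow_natCast, zpow_natCast]
    push_cast
    field_simp
    have h3 : g * y * (c * (c' * y)) = (c' : L) * (c * x) * y := by rw [e]; ring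
    apply mul_right_cancel₀ hy1
    linear_combination (c' : L) * c * e * y + (c' : L) * e1' * y - g * c * e2' * y

/-- the local ring is a valuation ring -/
theorem OL_or (hA : Surf K A) {p : Ideal A} [p.IsPrime] (hp : p ≠ ⊥)
    (hn : ¬ IsPoint K A p) (g : L) : g ∈ OL K A p ∨ g⁻¹ ∈ ML K A p := by
  obtain ⟨F⟩ := exists_frame hA p
  obtain ⟨s, hs, h, -⟩ := exists_unif hA hp hn F
  by_cases hg : g = 0
  · left
    rw [hg]
    exact (OL K A p).zero_mem
  obtain ⟨n, a, c, ha, hc, e⟩ := unif_val hA hp hs h hg
  rcases le_or_gt 0 n with hn0 | hn0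
  · left
    obtain ⟨k, rfl⟩ := Int.eq_ofNat_of_zero_le hn0
    refine ⟨s ^ k * a, c, hc, ?_⟩
    rw [e]
    push_cast
    rw [zpow_natCast]
  · right
    obtain ⟨k, hk⟩ := Int.eq_ofNat_of_zero_le (show 0 ≤ -n by omega)
    have hk0 : k ≠ 0 := by
      rintro rfl
      simp at hk
      omega
    refine ⟨c * s ^ k, a, Ideal.mul_mem_left _ _ (Ideal.pow_mem_of_mem _ hs _ (Nat.pos_of_ne_zero hk0)), ha, ?_⟩
    have hn1 : n = -(k : ℤ) := by
      have : -n = (k : ℤ) := hk
      omega
    have hs1 : (s : L) ≠ 0 := by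
      intro h0
      rw [h0, hn1, zpow_neg, zpow_natCast, zero_pow hk0, inv_zero, zero_mul] at e
      have hc0 : (c : L) ≠ 0 := by
        intro h1
        apply hc
        have : c = 0 := Subtype.ext h1
        rw [this]
        exact p.zero_mem
      exact mul_ne_zero hg hc0 e
    rw [hn1, zpow_neg, zpow_natCast] at e
    push_cast
    have h3 : (s : L) ^ k ≠ 0 := pow_ne_zero _ hs1
    field_simp at e ⊢
    linear_combination -e

end Pool.Agent.NG
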