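import Pool.Agent.NG.Pb
import Pool.Agent.NG.Ultra

/-!
# NG NOHIT: no hits at the good points of a curve (module to prove)

Suppose `b ∉ q`, i.e. `ev z (ι b) ≠ 0`. All elements of `B` are regular at `z` (`b ^ n g ∈ A`, `RegAt.inv`). `s ∈ B` vanishes at `z`: `b ^ n s ∈ A` for some `n` and `b ^ n s ∈ p ≤ q` by
`c.s_sub`. `0 = pair θ₂ D = D s * s ^ k γ + D t * s ^ (k+1) w` (`c.expandω`, `S.h21`, `c.θ₁`, `c.θ₂`), `s ≠ 0`, so `D s = - s * D t * w * γ'`. Apply `ι` (`S.flow`):
`der K (ι s) = H * ι s` with `H = - der K (ι t) * ι w * ι γ'` regular at `z`: contradiction to `der_ne_mul`.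
-/

set_option linter.unusedSectionVars false

open Filter Topology
open scoped NNReal KaehlerDifferential

noncomputable section

namespace Pool.Agent.NG

variable {K : Type*} [NontriviallyNormedField K] [IsUltrametricDist K] [CompleteSpace K]
  [IsAlgClosed K] [CharZero K] {L : Type*} [Field L] [Algebra K L] {N : ℕ}

variable {x : Fin (N + 1) → L} {f : Fin (N + 1) → An K}

private lemma nohit_pow {z : Kˣ} {h : Mer K} (hh : RegAt z h) (n : ℕ) : RegAt z (h ^ n) := by
  induction n with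
  | zero =>
    rw [pow_zero]
    have := regAt_const z (1 : K)
    rwa [map_one] at this
  | succ n ih =>
    rw [pow_succ]
    exact ih.mul hh

private lemma nohit_ev_zero (z : Kˣ) : ev z (0 : Mer K) = 0 := by
  have := ev_const z (0 : K)
  rwa [map_zero] at this

private lemma nohit_ev_pow {z : Kˣ} {h : Mer K} (hh : RegAt z h) (h0 : ev z h ≠ 0) (n : ℕ) :
    ev z (h ^ n) ≠ 0 := by
  induction n with
  | zero =>
    rw [pow_zero]
    have := ev_const z (1 : K)
    rw [map_one] at this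
    rw [this]
    exact one_ne_zero
  | succ n ih =>
    rw [pow_succ, ev_mul (nohit_pow hh n) hh]
    exact mul_ne_zero ih h0

theorem no_hit (S : Flow x f) {A : Subalgebra K L} {p q : Ideal A} (c : Curve K A p S.θ₂)
    {z : Kˣ} (hz : At S.ι z A q) (hpq : p ≤ q) : c.b ∈ q := by
  by_contra hb
  have hev : ev z (S.ι (c.b : L)) ≠ 0 := fun h => hb ((hz.2 c.b).2 h)
  have hbreg : RegAt z (S.ι (c.b : L)) := hz.1 _ c.b.2
  have hinv : RegAt z (S.ι (c.b : L))⁻¹ := hbreg.inv hev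
  have hb0 : S.ι (c.b : L) ≠ 0 := by
    intro h
    apply hev
    rw [h]
    exact nohit_ev_zero z
  -- the elements of `B` are regular at `z`
  have hB : ∀ g ∈ c.B, RegAt z (S.ι g) := by
    intro g hg
    obtain ⟨n, hn⟩ := (c.memB g).1 hg
    have h1 := hz.1 _ hn
    rw [map_mul, map_pow] at h1
    have h2 : S.ι g = (S.ι (c.b : L))⁻¹ ^ n * (S.ι (c.b : L) ^ n * S.ι g) := by
      rw [← mul_assoc, ← mul_pow, inv_mul_cancel₀ hb0, one_pow, one_mul]
    rw [h2]
    exact (nohit_pow hinv n).mul h1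
  have hAB : ∀ g ∈ A, g ∈ c.B := fun g hg => (c.memB g).2 ⟨0, by simpa using hg⟩
  -- `s` vanishes at `z`
  have hs0 : ev z (S.ι c.s) = 0 := by
    obtain ⟨n, hn⟩ := (c.memB c.s).1 c.s_mem
    have h1 : (⟨(c.b : L) ^ n * c.s, hn⟩ : A) ∈ p :=
      c.s_sub _ ⟨(c.b : L) ^ n, c.B.pow_mem (hAB _ c.b.2) n, by
        show (c.b : L) ^ n * c.s = c.s * (c.b : L) ^ n
        ring⟩
    have h2 := (hz.2 _).1 (hpq h1)
    change ev z (S.ι ((c.b : L) ^ n * c.s)) = 0 at h2
    rw [map_mul, map_pow, ev_mul (nohit_pow hbreg n) (hB _ c.s_mem)] at h2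
    exact (mul_eq_zero.1 h2).resolve_left (nohit_ev_pow hbreg hev n)
  have hsne : S.ι c.s ≠ 0 := by
    rw [Ne, map_eq_zero]
    exact c.s_ne
  -- the differential equation
  have hD : S.D c.s = -(S.D c.t * c.w * c.γ') * c.s := by
    have h1 := c.expandω S.D
    rw [S.h21, c.θ₁, c.θ₂] at h1
    have h2 : c.s ^ c.k * (S.D c.s * c.γ + S.D c.t * (c.s * c.w)) = 0 := by
      rw [h1]
      ring
    have h3 := (mul_eq_zero.1 h2).resolve_left (pow_ne_zero _ c.s_ne)
    have h4 : S.D c.s * (c.γ * c.γ') + S.D c.t * c.s * c.w * c.γ' = 0 := by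
      linear_combination c.γ' * h3
    rw [c.γγ', mul_one] at h4
    linear_combination h4
  have hD2 : der K (S.ι c.s) =
      -(der K (S.ι c.t) * S.ι c.w * S.ι c.γ') * S.ι c.s := by
    rw [← S.flow, ← S.flow, hD, map_mul, map_neg, map_mul, map_mul]
  refine der_ne_mul (hB _ c.s_mem) hsne hs0 ?_ hD2
  have h5 : RegAt z (der K (S.ι c.t) * S.ι c.w * S.ι c.γ') :=
    ((hB _ c.t_mem).der.mul (hB _ c.w_mem)).mul (hB _ c.γ'_mem)
  have h6 : RegAt z (0 - der K (S.ι c.t) * S.ι c.w * S.ι c.γ') := by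
    refine RegAt.sub ?_ h5
    have := regAt_const z (0 : K)
    rwa [map_zero] at this
  rwa [zero_sub] at h6

end Pool.Agent.NG
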