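import Pool.Agent.NG.Fibre
import Pool.Agent.NG.Nohit

/-!
# NG HITFIN: finitely many hits (module to prove)

For every `z` choose `i` with `f_i(z) ≠ 0`; it is enough that for every `i` with `f i ≠ 0` there are finitely many hits with `f_i(z) ≠ 0`. `A := chart K x i`, `Surf K A`. For such a `z` let `q_z := {a : A | ev z (ι a) = 0}`, so `At S.ι z A q_z` (`Emb.reg_chart`). By
`fibre_finite` it is enough that the set of ideals `q_z` of hits is finite. `I := span {c : A | ∃ δ preserving A, (c : L) = pair θ₂ δ}` is contained in `q_z` for every hit `z`. `I ≠ ⊥`: let `F` be a frame at the prime `⊥`; `b • F.d j` preserves `A`, and `pair θ₂ (F.d j) ≠ 0` for some `j`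
(`S.h22`, `F.expand`). `A` is noetherian (`Surf.isNoetherianRing`), so there are finitely many minimal primes `p` over `I` and each `q_z` contains one of them; `p ≠ ⊥`.
* If `p` is a point it is maximal, `q_z = p`.
* If `p` is not a point: `exists_curve` (the hypothesis `hz` is `I ≤ p`), `no_hit`: `c.b ∈ q_z`, `c.b ∉ p`: finitely many `q_z` by `finite_points`.
-/

set_option linter.unusedSectionVars false

open Filter Topology
open scoped NNReal KaehlerDifferential

noncomputable section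

namespace Pool.Agent.NG

variable {K : Type*} [NontriviallyNormedField K] [IsUltrametricDist K] [CompleteSpace K]
  [IsAlgClosed K] [CharZero K] {L : Type*} [Field L] [Algebra K L] {N : ℕ}

variable {x : Fin (N + 1) → L} {f : Fin (N + 1) → An K}

/-- the ideal of the functions on a chart which vanish at `z` -/
private def hitIdeal (ι : L →ₐ[K] Mer K) (z : Kˣ) (A : Subalgebra K L)
    (h : ∀ a ∈ A, RegAt z (ι a)) : Ideal A where
  carrier := {a | ev z (ι (a : L)) = 0}
  add_mem' := by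
    intro a b ha hb
    change ev z (ι ((a + b : A) : L)) = 0
    rw [Subalgebra.coe_add, map_add, ev_add (h a a.2) (h b b.2), ha, hb, add_zero]
  zero_mem' := by
    change ev z (ι ((0 : A) : L)) = 0
    have h1 := ev_const (K := K) z 0
    rw [map_zero] at h1
    rw [Subalgebra.coe_zero, map_zero]
    exact h1
  smul_mem' := by
    intro a b hb
    change ev z (ι ((a * b : A) : L)) = 0
    rw [Subalgebra.coe_mul, map_mul, ev_mul (h a a.2) (h b b.2), hb, mul_zero]

private theorem at_hitIdeal (ι : L →ₐ[K] Mer K) (z : Kˣ) (A : Subalgebra K L)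
    (h : ∀ a ∈ A, RegAt z (ι a)) : At ι z A (hitIdeal ι z A h) :=
  ⟨h, fun _ => Iff.rfl⟩

/-- the ideal generated by the values of `θ₂` -/
private def valIdeal (A : Subalgebra K L) (θ : Ω[L⁄K]) : Ideal A :=
  Ideal.span {c : A | ∃ δ : Derivation K L L, (∀ a ∈ A, δ a ∈ A) ∧ (c : L) = pair K θ δ}

private theorem theta_ne (S : Flow x f) : S.θ₂ ≠ 0 := by
  intro h
  have h1 := S.h22
  rw [h] at h1
  have h2 := pair_smul (K := K) (0 : L) (0 : Ω[L⁄K]) S.D'
  rw [zero_smul, zero_mul] at h2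
  rw [h2] at h1
  exact zero_ne_one h1

private theorem valIdeal_ne_bot {A : Subalgebra K L} (hA : Surf K A) {θ : Ω[L⁄K]} (hθ : θ ≠ 0)
    (hreg : θ ∈ regA K A) : valIdeal A θ ≠ ⊥ := by
  intro hI
  have hp : (⊥ : Ideal A).IsPrime := Ideal.isPrime_bot
  obtain ⟨F⟩ := exists_frame hA (⊥ : Ideal A)
  have hb : (F.b : L) ≠ 0 := by
    intro h
    apply F.hb
    rw [Ideal.mem_bot]
    exact Subtype.ext h
  have hpres : ∀ j, ∀ a ∈ A, ((F.b : L) • F.d j) a ∈ A := by
    intro j a ha
    obtain ⟨c, hc⟩ := F.pres j ⟨a, ha⟩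
    have h1 : ((F.b : L) • F.d j) a = c := hc
    rw [h1]
    exact c.2
  have h0 : ∀ j, pair K θ (F.d j) = 0 := by
    intro j
    have h1 : pair K θ ((F.b : L) • F.d j) ∈ A := pair_mem_of_regA hreg le_rfl (hpres j)
    have h2 : (⟨pair K θ ((F.b : L) • F.d j), h1⟩ : A) ∈ valIdeal A θ :=
      Ideal.subset_span ⟨_, hpres j, rfl⟩
    rw [hI, Ideal.mem_bot] at h2
    have h3 : pair K θ ((F.b : L) • F.d j) = 0 := congrArg Subtype.val h2
    rw [pair_smul_right] at h3
    exact (mul_eq_zero.1 h3).resolve_left hb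
  apply hθ
  rw [F.expand θ, h0 0, h0 1, zero_smul, zero_smul, add_zero]

private theorem finite_ideals (S : Flow x f) {i : Fin (N + 1)} (hi : x i ≠ 0) :
    {q : Ideal (chart K x i) | ∃ z : Kˣ, S.Hit z ∧ (f i).1 z ≠ 0 ∧
      At S.ι z (chart K x i) q}.Finite := by
  have hA : Surf K (chart K x i) := surf_chart S.surf hi
  have hreg : S.θ₂ ∈ regA K (chart K x i) := S.reg₂ i hi
  have hθ := theta_ne S
  have hI := valIdeal_ne_bot hA hθ hreg
  have hle : ∀ (q : Ideal (chart K x i)) (z : Kˣ), S.Hit z → (f i).1 z ≠ 0 →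
      At S.ι z (chart K x i) q → valIdeal (chart K x i) S.θ₂ ≤ q := by
    intro q z h1 h2 h3
    rw [valIdeal, Ideal.span_le]
    rintro c ⟨δ, hδ, hc⟩
    rw [SetLike.mem_coe, h3.2 c, hc]
    exact h1 i h2 δ hδ
  have hN : IsNoetherianRing (chart K x i) := hA.isNoetherianRing
  have hfin : (valIdeal (chart K x i) S.θ₂).minimalPrimes.Finite :=
    Ideal.finite_minimalPrimes_of_isNoetherianRing _ _
  refine Set.Finite.subset (Set.Finite.biUnion hfin (t := fun p =>
    {q : Ideal (chart K x i) | p ≤ q ∧ ∃ z : Kˣ, S.Hit z ∧ (f i).1 z ≠ 0 ∧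
      At S.ι z (chart K x i) q}) ?_) ?_
  · intro p hp
    have hpp : p.IsPrime := hp.1.1
    have hIp : valIdeal (chart K x i) S.θ₂ ≤ p := hp.1.2
    have hp0 : p ≠ ⊥ := by
      intro h
      rw [h, le_bot_iff] at hIp
      exact hI hIp
    by_cases hpt : IsPoint K (chart K x i) p
    · have hmax := isMaximal_of_isPoint hpt
      refine (Set.finite_singleton p).subset ?_
      rintro q ⟨hpq, z, h1, h2, h3⟩
      exact (hmax.eq_of_le h3.isPrime.ne_top hpq).symm
    · obtain ⟨c⟩ := exists_curve hA hp0 hpt hθ hreg S.cl₂ (fun δ hδ c hc =>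
        hIp (Ideal.subset_span ⟨δ, hδ, hc⟩))
      refine (finite_points hA hp0 c.hb).subset ?_
      rintro q ⟨hpq, z, h1, h2, h3⟩
      exact ⟨h3.isPrime, hpq, no_hit S c h3 hpq⟩
  · rintro q ⟨z, h1, h2, h3⟩
    have hq : q.IsPrime := h3.isPrime
    obtain ⟨p, hp, hpq⟩ := Ideal.exists_minimalPrimes_le (hle q z h1 h2 h3)
    exact Set.mem_biUnion hp ⟨hpq, z, h1, h2, h3⟩

theorem hits_finite (S : Flow x f) : {z : Kˣ | S.Hit z}.Finite := by
  have key : ∀ i : Fin (N + 1), {z : Kˣ | S.Hit z ∧ (f i).1 z ≠ 0}.Finite := by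
    intro i
    by_cases hi : x i = 0
    · have hf : f i = 0 := (S.zero_iff i).1 hi
      refine Set.Finite.subset Set.finite_empty ?_
      rintro z ⟨-, hz⟩
      rw [hf] at hz
      exact hz rfl
    · refine Set.Finite.subset (Set.Finite.biUnion (finite_ideals S hi) (t := fun q =>
        {z : Kˣ | (f i).1 z ≠ 0 ∧ At S.ι z (chart K x i) q}) fun q _ => fibre_finite S i q) ?_
      rintro z ⟨h1, h2⟩
      have h3 := at_hitIdeal S.ι z (chart K x i) (S.toEmb.reg_chart h2)
      exact Set.mem_biUnion (show _ ∈ {q : Ideal (chart K x i) | ∃ z : Kˣ, S.Hit z ∧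
        (f i).1 z ≠ 0 ∧ At S.ι z (chart K x i) q} from ⟨z, h1, h2, h3⟩) ⟨h2, h3⟩
  refine Set.Finite.subset (Set.finite_iUnion key) ?_
  intro z hz
  obtain ⟨i, hi⟩ := S.nz z
  exact Set.mem_iUnion.2 ⟨i, hz, hi⟩

end Pool.Agent.NG
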