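import Pool.Agent.NG.EmbDefs
import Pool.Agent.NG.Ultra
import Pool.Agent.NG.PointD

/-!
# NG HITPT: Taylor expansion in the coordinates of a point (module to prove)

`At.isPrime`: `1 ∉ q` and `q` is the kernel of the evaluation. `At.isPoint`: `a - ev z (ι a) ∈ q`.
`At.reg_OL`: `g c = a` with `c ∉ q`, `ι c` is regular with value `≠ 0`. `At.ev_eq`: for `g ∈ OL K A q` with `g c = a`: `ev z (ι g) = ev z (ι a) / ev z (ι c)`, and the values of `a`, `c` are the constants to which they are
congruent modulo `q`, so they do not depend on `z`.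
`hitpt`: put `Δ(g) := tay z (ι g) - ∑_n υ ^ n / n! ser1 δ₁ (δ₂^[n] g)` for `g ∈ O := OL K A q` (`υ = ups`, constant coefficient zero, so the sum converges coefficientwise; the finite sums up to `m` have the right
coefficient of index `m`, as `X ^ n ∣ υ ^ n`). The derivative of a `ser1`: `ser1 δ₁ (δ₁ g) = d/dX ser1 δ₁ g`; `υ' = tay (der (ι t)) = tay (ι (D t))`; `D g = δ₁ g + D t * δ₂ g` (`P.expand`, `h1`); `tay_der`, `tay_mul`; `D` preserves regularity: `ι (D g) = der (ι g)`.
So `Δ(g)' = Δ(δ₁ g) + υ' Δ(δ₂ g)` (`P.comm`), and `Δ(g)` has constant coefficient zero. By induction on `m`: the coefficients of index `≤ m` of `Δ(g)` vanish for all `g ∈ O` (characteristic zero).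
Suggestion: define truncated statements, or define the sum as a power series by `PowerSeries.mk fun m => coeff m (∑ n ∈ range (m+1), ...)` and show first that its coefficient of index `m` equals that of the finite sum up to any `M ≥ m`.
-/

set_option linter.unusedSectionVars false

open Filter Topology
open scoped NNReal KaehlerDifferential

noncomputable section

namespace Pool.Agent.NG

variable {K : Type*} [NontriviallyNormedField K] [IsUltrametricDist K] [CompleteSpace K]
  [IsAlgClosed K] [CharZero K] {L : Type*} [Field L] [Algebra K L] {N : ℕ}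

variable {ι : L →ₐ[K] Mer K} {z z' : Kˣ} {A : Subalgebra K L} {q : Ideal A}

private theorem hp_iota (ι : L →ₐ[K] Mer K) (c : K) :
    ι (algebraMap K L c) = algebraMap K (Mer K) c := ι.commutes c

private theorem hp_sub (h : At ι z A q) (a : A) (c : K) :
    ev z (ι ((a - algebraMap K A c : A) : L)) = ev z (ι (a : L)) - c := by
  have e : ((a - algebraMap K A c : A) : L) = (a : L) - algebraMap K L c := rfl
  rw [e, map_sub, hp_iota, ev_sub (h.1 a a.2) (regAt_const z c), ev_const]

theorem At.isPrime (h : At ι z A q) : q.IsPrime := by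
  refine ⟨?_, ?_⟩
  · intro ht
    have h1 : (1 : A) ∈ q := ht ▸ Submodule.mem_top
    rw [h.2 1] at h1
    have h2 : ev z (ι ((1 : A) : L)) = 1 := by
      have e : ι ((1 : A) : L) = algebraMap K (Mer K) 1 := by
        rw [map_one]
        exact map_one ι
      rw [e, ev_const]
    rw [h2] at h1
    exact one_ne_zero h1
  · intro a b hab
    rw [h.2] at hab
    have e : ι ((a * b : A) : L) = ι (a : L) * ι (b : L) := by
      rw [← map_mul]
      rfl
    rw [e, ev_mul (h.1 a a.2) (h.1 b b.2)] at hab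
    rcases mul_eq_zero.1 hab with h1 | h1
    · exact Or.inl ((h.2 a).2 h1)
    · exact Or.inr ((h.2 b).2 h1)

theorem At.isPoint (h : At ι z A q) : IsPoint K A q := by
  intro a
  refine ⟨ev z (ι (a : L)), ?_⟩
  rw [h.2, hp_sub h, sub_self]

theorem At.reg_OL [q.IsPrime] (h : At ι z A q) {g : L} (hg : g ∈ OL K A q) :
    RegAt z (ι g) := by
  obtain ⟨a, c, hc, e⟩ := (mem_OL K A q g).1 hg
  have hc0 : ev z (ι (c : L)) ≠ 0 := fun h0 => hc ((h.2 c).2 h0)
  have hcL : ι (c : L) ≠ 0 := by
    intro h0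
    rw [h0] at hc0
    have : ev z (0 : Mer K) = 0 := by
      have := ev_const z (0 : K)
      rwa [map_zero] at this
    exact hc0 this
  have e2 : ι g = ι (a : L) * (ι (c : L))⁻¹ := by
    rw [← e, map_mul, mul_assoc, mul_inv_cancel₀ hcL, mul_one]
  rw [e2]
  exact (h.1 a a.2).mul ((h.1 c c.2).inv hc0)

private theorem hp_evA (h : At ι z A q) (h' : At ι z' A q) (a : A) :
    ev z (ι (a : L)) = ev z' (ι (a : L)) := by
  have h1 : a - algebraMap K A (ev z (ι (a : L))) ∈ q := by
    rw [h.2, hp_sub h, sub_self]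
  rw [h'.2, hp_sub h', sub_eq_zero] at h1
  exact h1.symm

theorem At.ev_eq [q.IsPrime] (h : At ι z A q) (h' : At ι z' A q) {g : L}
    (hg : g ∈ OL K A q) : ev z (ι g) = ev z' (ι g) := by
  obtain ⟨a, c, hc, e⟩ := (mem_OL K A q g).1 hg
  have hc0 : ev z (ι (c : L)) ≠ 0 := fun h0 => hc ((h.2 c).2 h0)
  have e1 : ev z (ι g) * ev z (ι (c : L)) = ev z (ι (a : L)) := by
    rw [← ev_mul (h.reg_OL hg) (h.1 c c.2), ← map_mul, e]
  have e2 : ev z' (ι g) * ev z' (ι (c : L)) = ev z' (ι (a : L)) := by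
    rw [← ev_mul (h'.reg_OL hg) (h'.1 c c.2), ← map_mul, e]
  rw [← hp_evA h h' a, ← hp_evA h h' c, ← e1] at e2
  exact (mul_right_cancel₀ hc0 e2).symm

private theorem hp_iter [q.IsPrime] {δ : Derivation K L L}
    (hδ : ∀ g ∈ OL K A q, δ g ∈ OL K A q) {g : L} (hg : g ∈ OL K A q) (n : ℕ) :
    δ^[n] g ∈ OL K A q := by
  induction n with
  | zero => exact hg
  | succ n ih =>
    rw [Function.iterate_succ_apply']
    exact hδ _ ih

theorem At.ser1_eq [q.IsPrime] (h : At ι z A q) (h' : At ι z' A q) {δ : Derivation K L L}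
    (hδ : ∀ g ∈ OL K A q, δ g ∈ OL K A q) {g : L} (hg : g ∈ OL K A q) :
    ser1 ι z δ g = ser1 ι z' δ g := by
  unfold ser1
  ext n
  rw [PowerSeries.coeff_mk, PowerSeries.coeff_mk, At.ev_eq h h' (hp_iter hδ hg n)]

theorem constantCoeff_ups (ι : L →ₐ[K] Mer K) (z : Kˣ) (t : L) :
    PowerSeries.constantCoeff (ups ι z t) = 0 := by
  unfold ups
  rw [map_sub, constantCoeff_tay, PowerSeries.constantCoeff_C, sub_self]

private theorem hp_ser1_der (ι : L →ₐ[K] Mer K) (z : Kˣ) (δ : Derivation K L L) (g : L) :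
    PowerSeries.derivative K (ser1 ι z δ g) = ser1 ι z δ (δ g) := by
  ext n
  have h1 : ((n : K) + 1) ≠ 0 := Nat.cast_add_one_ne_zero n
  have h2 : ((n.factorial : ℕ) : K) ≠ 0 := Nat.cast_ne_zero.2 n.factorial_ne_zero
  rw [PowerSeries.coeff_derivative]
  unfold ser1
  rw [PowerSeries.coeff_mk, PowerSeries.coeff_mk, Function.iterate_succ_apply,
    Nat.factorial_succ]
  push_cast
  field_simp

/-- the finite sums -/
private def hp_S (ι : L →ₐ[K] Mer K) (z : Kˣ) (υ : PowerSeries K) (δ₁ δ₂ : Derivation K L L)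
    (M : ℕ) (g : L) : PowerSeries K :=
  ∑ n ∈ Finset.range M, PowerSeries.C ((n.factorial : K)⁻¹) * υ ^ n * ser1 ι z δ₁ (δ₂^[n] g)

private theorem hp_S_der (ι : L →ₐ[K] Mer K) (z : Kˣ) (υ : PowerSeries K)
    (δ₁ δ₂ : Derivation K L L) (hc : ∀ g, δ₁ (δ₂ g) = δ₂ (δ₁ g)) (M : ℕ) (g : L) :
    PowerSeries.derivative K (hp_S ι z υ δ₁ δ₂ (M + 1) g) =
      hp_S ι z υ δ₁ δ₂ (M + 1) (δ₁ g) +
        PowerSeries.derivative K υ * hp_S ι z υ δ₁ δ₂ M (δ₂ g) := by
  have hcn : ∀ (n : ℕ) (g : L), δ₂^[n] (δ₁ g) = δ₁ (δ₂^[n] g) := by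
    intro n
    induction n with
    | zero => intro g; rfl
    | succ n ih =>
      intro g
      rw [Function.iterate_succ_apply, Function.iterate_succ_apply, ← hc, ih]
  have hterm : ∀ n : ℕ, PowerSeries.derivative K
      (PowerSeries.C ((n.factorial : K)⁻¹) * υ ^ n * ser1 ι z δ₁ (δ₂^[n] g)) =
      PowerSeries.C ((n.factorial : K)⁻¹) * υ ^ n * ser1 ι z δ₁ (δ₂^[n] (δ₁ g)) +
      PowerSeries.C ((n.factorial : K)⁻¹) * ((n : PowerSeries K) * υ ^ (n - 1) *
        PowerSeries.derivative K υ) * ser1 ι z δ₁ (δ₂^[n] g) := by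
    intro n
    have e1 : PowerSeries.derivative K (PowerSeries.C ((n.factorial : K)⁻¹)) = 0 :=
      PowerSeries.derivative_C
    rw [Derivation.leibniz, Derivation.leibniz, e1, Derivation.leibniz_pow, hp_ser1_der,
      hcn]
    simp only [smul_eq_mul, nsmul_eq_mul, mul_zero, add_zero]
    ring
  unfold hp_S
  rw [map_sum, Finset.sum_congr rfl fun n _ => hterm n, Finset.sum_add_distrib]
  congr 1
  rw [Finset.sum_range_succ', Finset.mul_sum]
  simp only [Nat.cast_zero, zero_mul, mul_zero, add_zero, Nat.add_sub_cancel,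
    Function.iterate_succ_apply]
  refine Finset.sum_congr rfl fun n _ => ?_
  have h1 : ((n : K) + 1) ≠ 0 := Nat.cast_add_one_ne_zero n
  have h2 : ((n.factorial : ℕ) : K) ≠ 0 := Nat.cast_ne_zero.2 n.factorial_ne_zero
  have e2 : PowerSeries.C (((n + 1).factorial : K)⁻¹) * (((n + 1 : ℕ) : PowerSeries K)) =
      PowerSeries.C ((n.factorial : K)⁻¹) := by
    have e3 : (((n + 1 : ℕ) : PowerSeries K)) = PowerSeries.C ((n : K) + 1) := by
      rw [map_add, map_one, map_natCast]
      push_cast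
      rfl
    rw [e3, ← map_mul]
    congr 1
    rw [Nat.factorial_succ]
    push_cast
    field_simp
  rw [← e2]
  ring

private theorem hp_main [q.IsPrime] {D : Derivation K L L} (hD : ∀ a, ι (D a) = der K (ι a))
    {θ : Ω[L⁄K]} (P : Pt K A q θ) (h1 : pair K θ D = 1) (hz : At ι z A q) (m : ℕ) :
    ∀ b ≤ m, ∀ M, b < M → ∀ g ∈ OL K A q,
      PowerSeries.coeff b (tay z (ι g)) =
        PowerSeries.coeff b (hp_S ι z (ups ι z P.t) P.δ₁ P.δ₂ M g) := by
  have hzero : ∀ M, 0 < M → ∀ g : L, PowerSeries.coeff 0 (tay z (ι g)) =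
        PowerSeries.coeff 0 (hp_S ι z (ups ι z P.t) P.δ₁ P.δ₂ M g) := by
    intro M hM g
    obtain ⟨M', rfl⟩ : ∃ M', M = M' + 1 := ⟨M - 1, by omega⟩
    rw [PowerSeries.coeff_zero_eq_constantCoeff_apply,
      PowerSeries.coeff_zero_eq_constantCoeff_apply, constantCoeff_tay]
    unfold hp_S
    rw [map_sum, Finset.sum_range_succ', Finset.sum_eq_zero]
    · rw [zero_add, map_mul, map_mul, pow_zero, map_one, mul_one, PowerSeries.constantCoeff_C,
        Nat.factorial_zero, Nat.cast_one, inv_one, one_mul,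
        ← PowerSeries.coeff_zero_eq_constantCoeff_apply]
      unfold ser1
      rw [PowerSeries.coeff_mk]
      simp
    · intro n _
      rw [map_mul, map_mul, map_pow, constantCoeff_ups, zero_pow (Nat.succ_ne_zero n), mul_zero,
        zero_mul]
  induction m with
  | zero =>
    intro b hb M hM g _
    obtain rfl : b = 0 := by omega
    exact hzero M hM g
  | succ m ih =>
    intro b hb M hM g hg
    rcases Nat.lt_or_ge b (m + 1) with hb' | hb'
    · exact ih b (by omega) M hM g hg
    · obtain rfl : b = m + 1 := by omega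
      obtain ⟨M', rfl⟩ : ∃ M', M = M' + 1 := ⟨M - 1, by omega⟩
      have htO : P.t ∈ OL K A q := (mem_OL K A q P.t).2
        ⟨⟨P.t, P.t_mem⟩, 1, fun h => (inferInstance : q.IsPrime).ne_top
          ((Ideal.eq_top_iff_one q).2 h), by simp⟩
      have hr : RegAt z (ι (D P.t)) := by
        rw [hD]
        exact (hz.reg_OL htO).der
      have hυ : PowerSeries.derivative K (ups ι z P.t) = tay z (ι (D P.t)) := by
        unfold ups
        rw [map_sub, hD, tay_der]
        have e1 : PowerSeries.derivative K (PowerSeries.C (ev z (ι P.t))) = 0 :=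
          PowerSeries.derivative_C
        rw [e1, sub_zero]
      have h2 : PowerSeries.derivative K (tay z (ι g)) =
          tay z (ι (P.δ₁ g)) + PowerSeries.derivative K (ups ι z P.t) * tay z (ι (P.δ₂ g)) := by
        rw [← tay_der, ← hD, P.expand D g, h1, one_mul, map_add, map_mul,
          tay_add (hz.reg_OL (P.pres₁ g hg)) (hr.mul (hz.reg_OL (P.pres₂ g hg))),
          tay_mul hr (hz.reg_OL (P.pres₂ g hg)), hυ]
      have h3 := hp_S_der ι z (ups ι z P.t) P.δ₁ P.δ₂ P.comm M' g
      have h4 : PowerSeries.coeff m (PowerSeries.derivative K (tay z (ι g))) =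
          PowerSeries.coeff m (PowerSeries.derivative K
            (hp_S ι z (ups ι z P.t) P.δ₁ P.δ₂ (M' + 1) g)) := by
        rw [h2, h3, map_add, map_add, PowerSeries.coeff_mul, PowerSeries.coeff_mul,
          ih m le_rfl (M' + 1) (by omega) _ (P.pres₁ g hg)]
        congr 1
        refine Finset.sum_congr rfl fun p hp => ?_
        have hp2 : p.2 ≤ m := by
          have := Finset.HasAntidiagonal.mem_antidiagonal.1 hp
          omega
        rw [ih p.2 hp2 M' (by omega) _ (P.pres₂ g hg)]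
      rw [PowerSeries.coeff_derivative, PowerSeries.coeff_derivative] at h4
      exact mul_right_cancel₀ (Nat.cast_add_one_ne_zero m) h4

theorem hitpt [q.IsPrime] {D : Derivation K L L} (hD : ∀ a, ι (D a) = der K (ι a))
    {θ : Ω[L⁄K]} (P : Pt K A q θ) (h1 : pair K θ D = 1) (hz : At ι z A q) {g : L}
    (hg : g ∈ OL K A q) (m : ℕ) :
    PowerSeries.coeff m (tay z (ι g)) = ∑ n ∈ Finset.range (m + 1), PowerSeries.coeff m
      (PowerSeries.C ((n.factorial : K)⁻¹) * ups ι z P.t ^ n * ser1 ι z P.δ₁ (P.δ₂^[n] g)) := by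
  rw [hp_main hD P h1 hz m m le_rfl (m + 1) (Nat.lt_succ_self m) g hg]
  unfold hp_S
  rw [map_sum]

end Pool.Agent.NG
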