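import Pool.Agent.NG.Mer

/-!
# LEIB: the derivation `z d/dz` on analytic functions (module to prove)

`dA F` has the coefficients `n * a n`.

`dA_mul`: compare coefficients: `coeff (F * G) n = conv (coeff F) (coeff G) n = ∑ a i b (n - i)`
(`coeff_mul`) and `n = i + (n - i)`; all families are summable (`summable_conv`, applied to the
decaying families `coeff F`, `coeff G`, `coeff (dA F)`, `coeff (dA G)`), so
`n ∑ a i b (n - i) = ∑ i a i b (n - i) + ∑ a i (n - i) b (n - i)`. Conclude with
`coeff_injective`, `coeff_add`, `coeff_mul`, `coeff_dA`.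

`gn_dA`: `‖(n : K)‖ ≤ 1` for integers `n` in an ultrametric field
(`IsUltrametricDist.norm_intCast_le_one`), so every term of `dA F` is at most the term of `F`.

`dA_const`, `dA_Zc`: coefficients.
`dA_eq_zero`: `n * a n = 0` for all `n` gives `a n = 0` for `n ≠ 0` (characteristic zero), so `F` is
the constant `a 0`.
-/

open Filter Topology
open scoped NNReal

noncomputable section

namespace Pool.Agent.NG

variable {K : Type*} [NontriviallyNormedField K] [IsUltrametricDist K] [CompleteSpace K]
  [IsAlgClosed K] [CharZero K]

/-- The derivation `z d/dz` of an analytic function. -/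
def dA (F : An K) : An K :=
  ofCoeff (fun n => (n : K) * coeff F n) ((coeff_decay F).of_le fun n => by
    rw [norm_mul]
    exact mul_le_of_le_one_left (norm_nonneg _) (IsUltrametricDist.norm_intCast_le_one K n))

theorem coeff_dA (F : An K) (n : ℤ) : coeff (dA F) n = (n : K) * coeff F n := by
  rw [dA, coeff_ofCoeff]

theorem dA_add (F G : An K) : dA (F + G) = dA F + dA G := by
  apply coeff_injective
  funext n
  rw [coeff_dA, coeff_add, coeff_add, Pi.add_apply, Pi.add_apply, coeff_dA, coeff_dA]
  ring

theorem dA_smul (c : K) (F : An K) : dA (c • F) = c • dA F := by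
  apply coeff_injective
  funext n
  rw [coeff_dA, coeff_smul, coeff_smul, Pi.smul_apply, Pi.smul_apply, coeff_dA, smul_eq_mul,
    smul_eq_mul]
  ring

theorem dA_mul (F G : An K) : dA (F * G) = F * dA G + G * dA F := by
  apply coeff_injective
  funext n
  rw [mul_comm G, coeff_dA, coeff_add, Pi.add_apply, coeff_mul, coeff_mul, coeff_mul]
  unfold conv
  have h1 := summable_conv (coeff_decay F) (coeff_decay G) n
  have h2 := summable_conv (coeff_decay F) (coeff_decay (dA G)) n
  have h3 := summable_conv (coeff_decay (dA F)) (coeff_decay G) n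
  rw [← h2.tsum_add h3, ← tsum_mul_left]
  refine tsum_congr fun i => ?_
  rw [coeff_dA, coeff_dA]
  push_cast
  ring

theorem gn_dA (t : ℝ) (F : An K) : gn t (dA F) ≤ gn t F := by
  apply gn_le
  intro n
  refine le_trans ?_ (term_le_gn t F n)
  unfold term
  rw [coeff_dA, nnnorm_mul]
  apply mul_le_mul_left
  apply mul_le_of_le_one_left zero_le
  exact IsUltrametricDist.norm_intCast_le_one K n

theorem dA_Zc : dA (Zc : An K) = Zc := by
  apply coeff_injective
  funext n
  rw [coeff_dA, coeff_Zc]
  by_cases hn : n = 1
  · subst hn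
    simp
  · rw [Pi.single_eq_of_ne hn, mul_zero]

theorem dA_eq_zero {F : An K} (h : dA F = 0) : ∃ c : K, F = algebraMap K (An K) c := by
  refine ⟨coeff F 0, ?_⟩
  apply coeff_injective
  funext n
  rw [coeff_algebraMap]
  by_cases hn : n = 0
  · subst hn
    rw [Pi.single_eq_same]
  · rw [Pi.single_eq_of_ne hn]
    have h1 := congrFun (congrArg coeff h) n
    rw [coeff_dA, coeff_zero] at h1
    exact (mul_eq_zero.1 h1).resolve_left (Int.cast_ne_zero.2 hn)

end Pool.Agent.NG
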