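import Pool.Agent.NG.Fac

/-!
# LOC: local rings of meromorphic functions (module to prove)

`RegAt z₀ h`: `h = F / G` with `G z₀ ≠ 0`; `ev z₀ h` is the value `F z₀ / G z₀`.

`ev_eq`: if `h * am G = am F` and `h * am G' = am F'` with `G z₀, G' z₀ ≠ 0` then `F G' = F' G` in `An K`
(`am_injective`, `An K` is a domain), evaluate at `z₀`. The closure properties are obtained from
common denominators. `RegAt.inv`: `h = F / G`, `ev z₀ h ≠ 0` gives `F z₀ ≠ 0`. `RegAt.der`: `F / G` has the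
derivative `(G dA F - F dA G) / G ^ 2`.

`exists_order`: `h = F / G`, factor `F = Zs ^ a F'`, `G = Zs ^ b G'` (`exists_ord`). Everything else
follows: `regAt_or_inv`, `exists_pow_reg`.
`exists_factor_reg`: `h` regular with value zero: `h = F / G` with `F z₀ = 0`, `F = Zs z₀ * F'`.
`ev_am`, `ev_const` are clear. `der_mul_not`: if `s ≠ 0` is regular with `s(z₀) = 0` then
`der s ≠ H s` for regular `H`: write `s = Zs ^ n u` with `n ≥ 1` and `u` regular, `u(z₀) ≠ 0`; then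
`der s = n Zs ^ (n - 1) (der Zs) u + Zs ^ n der u`, `der Zs = Zc` has the value `z₀ ≠ 0` at `z₀`; divide
`der s = H s` by `Zs ^ (n - 1)` and evaluate: `n z₀ u(z₀) = 0`, contradiction in characteristic zero.

`finite_bad`: the points of a closed annulus where `h` is not regular are zeros of a denominator.
`finite_ev_zero`: the points of a closed annulus where `h ≠ 0` is regular with value zero are zeros
of a numerator or of the denominator (`finite_zeros`).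
-/

open Filter Topology
open scoped NNReal

noncomputable section

namespace Pool.Agent.NG

variable {K : Type*} [NontriviallyNormedField K] [IsUltrametricDist K] [CompleteSpace K]
  [IsAlgClosed K] [CharZero K]

/-- The meromorphic function `h` is regular at `z₀`. -/
def RegAt (z₀ : Kˣ) (h : Mer K) : Prop := ∃ F G : An K, G.1 z₀ ≠ 0 ∧ h * am G = am F

open Classical in
/-- The value of a meromorphic function at a regular point. -/
def ev (z₀ : Kˣ) (h : Mer K) : K :=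
  if hh : RegAt z₀ h then hh.choose.1 z₀ / hh.choose_spec.choose.1 z₀ else 0

private lemma loc_cross {h : Mer K} {F G F' G' : An K} (e : h * am G = am F)
    (e' : h * am G' = am F') : F * G' = F' * G := by
  apply am_injective
  rw [am_mul, am_mul, ← e, ← e']
  ring

private lemma loc_mul_apply (F G : An K) (z : Kˣ) : (F * G).1 z = F.1 z * G.1 z := rfl

private lemma loc_add_apply (F G : An K) (z : Kˣ) : (F + G).1 z = F.1 z + G.1 z := rfl

private lemma loc_sub_apply (F G : An K) (z : Kˣ) : (F - G).1 z = F.1 z - G.1 z := rfl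

private lemma loc_am_ne {G : An K} {z₀ : Kˣ} (hG : G.1 z₀ ≠ 0) : am G ≠ 0 := by
  intro h
  apply hG
  rw [am_eq_zero.1 h]
  rfl

theorem ev_eq {z₀ : Kˣ} {h : Mer K} {F G : An K} (hG : G.1 z₀ ≠ 0) (e : h * am G = am F) :
    ev z₀ h = F.1 z₀ / G.1 z₀ := by
  have hh : RegAt z₀ h := ⟨F, G, hG, e⟩
  unfold ev
  rw [dif_pos hh]
  obtain ⟨hG', e'⟩ := hh.choose_spec.choose_spec
  have h1 := loc_cross e' e
  have h2 := congrArg (fun F : An K => F.1 z₀) h1
  simp only [loc_mul_apply] at h2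
  rw [div_eq_div_iff hG' hG]
  exact h2

theorem regAt_am (z₀ : Kˣ) (F : An K) : RegAt z₀ (am F) :=
  ⟨F, 1, one_ne_zero, by rw [am_one, mul_one]⟩

theorem ev_am (z₀ : Kˣ) (F : An K) : ev z₀ (am F) = F.1 z₀ := by
  have h1 : (1 : An K).1 z₀ = 1 := rfl
  rw [ev_eq (G := 1) (F := F) (by rw [h1]; exact one_ne_zero) (by rw [am_one, mul_one]), h1,
    div_one]

theorem regAt_const (z₀ : Kˣ) (c : K) : RegAt z₀ (algebraMap K (Mer K) c) := by
  rw [← am_algebraMap]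
  exact regAt_am z₀ _

theorem ev_const (z₀ : Kˣ) (c : K) : ev z₀ (algebraMap K (Mer K) c) = c := by
  rw [← am_algebraMap, ev_am]
  rfl

private lemma loc_add_eq {g h : Mer K} {F G F' G' : An K} (e : g * am G = am F)
    (e' : h * am G' = am F') : (g + h) * am (G * G') = am (F * G' + F' * G) := by
  rw [am_mul, am_add, am_mul, am_mul, ← e, ← e']
  ring

private lemma loc_sub_eq {g h : Mer K} {F G F' G' : An K} (e : g * am G = am F)
    (e' : h * am G' = am F') : (g - h) * am (G * G') = am (F * G' - F' * G) := by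
  rw [am_mul, am_sub, am_mul, am_mul, ← e, ← e']
  ring

private lemma loc_ev_add {z₀ : Kˣ} {g h : Mer K} {F G F' G' : An K} (hG : G.1 z₀ ≠ 0)
    (hG' : G'.1 z₀ ≠ 0) (e : (g + h) * am (G * G') = am (F * G' + F' * G)) :
    ev z₀ (g + h) = F.1 z₀ / G.1 z₀ + F'.1 z₀ / G'.1 z₀ := by
  have hGG : (G * G').1 z₀ ≠ 0 := mul_ne_zero hG hG'
  have h1 : (F * G' + F' * G).1 z₀ = F.1 z₀ * G'.1 z₀ + F'.1 z₀ * G.1 z₀ := by
    rw [loc_add_apply, loc_mul_apply, loc_mul_apply]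
  have h2 : (G * G').1 z₀ = G.1 z₀ * G'.1 z₀ := loc_mul_apply G G' z₀
  rw [ev_eq (F := F * G' + F' * G) (G := G * G') hGG e, h1, h2]
  field_simp

private lemma loc_ev_sub {z₀ : Kˣ} {g h : Mer K} {F G F' G' : An K} (hG : G.1 z₀ ≠ 0)
    (hG' : G'.1 z₀ ≠ 0) (e : (g - h) * am (G * G') = am (F * G' - F' * G)) :
    ev z₀ (g - h) = F.1 z₀ / G.1 z₀ - F'.1 z₀ / G'.1 z₀ := by
  have hGG : (G * G').1 z₀ ≠ 0 := mul_ne_zero hG hG'
  have h1 : (F * G' - F' * G).1 z₀ = F.1 z₀ * G'.1 z₀ - F'.1 z₀ * G.1 z₀ := by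
    rw [loc_sub_apply, loc_mul_apply, loc_mul_apply]
  have h2 : (G * G').1 z₀ = G.1 z₀ * G'.1 z₀ := loc_mul_apply G G' z₀
  rw [ev_eq (F := F * G' - F' * G) (G := G * G') hGG e, h1, h2]
  field_simp

private lemma loc_mul_eq {g h : Mer K} {F G F' G' : An K} (e : g * am G = am F)
    (e' : h * am G' = am F') : (g * h) * am (G * G') = am (F * F') := by
  rw [am_mul, am_mul, ← e, ← e']
  ring

theorem RegAt.add {z₀ : Kˣ} {g h : Mer K} (hg : RegAt z₀ g) (hh : RegAt z₀ h) :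
    RegAt z₀ (g + h) := by
  obtain ⟨F, G, hG, e⟩ := hg
  obtain ⟨F', G', hG', e'⟩ := hh
  have hGG : (G * G').1 z₀ ≠ 0 := mul_ne_zero hG hG'
  exact ⟨F * G' + F' * G, G * G', hGG, loc_add_eq e e'⟩

theorem RegAt.sub {z₀ : Kˣ} {g h : Mer K} (hg : RegAt z₀ g) (hh : RegAt z₀ h) :
    RegAt z₀ (g - h) := by
  obtain ⟨F, G, hG, e⟩ := hg
  obtain ⟨F', G', hG', e'⟩ := hh
  have hGG : (G * G').1 z₀ ≠ 0 := mul_ne_zero hG hG'
  exact ⟨F * G' - F' * G, G * G', hGG, loc_sub_eq e e'⟩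

theorem RegAt.mul {z₀ : Kˣ} {g h : Mer K} (hg : RegAt z₀ g) (hh : RegAt z₀ h) :
    RegAt z₀ (g * h) := by
  obtain ⟨F, G, hG, e⟩ := hg
  obtain ⟨F', G', hG', e'⟩ := hh
  have hGG : (G * G').1 z₀ ≠ 0 := mul_ne_zero hG hG'
  exact ⟨F * F', G * G', hGG, loc_mul_eq e e'⟩

theorem ev_add {z₀ : Kˣ} {g h : Mer K} (hg : RegAt z₀ g) (hh : RegAt z₀ h) :
    ev z₀ (g + h) = ev z₀ g + ev z₀ h := by
  obtain ⟨F, G, hG, e⟩ := hg
  obtain ⟨F', G', hG', e'⟩ := hh
  rw [ev_eq hG e, ev_eq hG' e']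
  exact loc_ev_add hG hG' (loc_add_eq e e')

theorem ev_sub {z₀ : Kˣ} {g h : Mer K} (hg : RegAt z₀ g) (hh : RegAt z₀ h) :
    ev z₀ (g - h) = ev z₀ g - ev z₀ h := by
  obtain ⟨F, G, hG, e⟩ := hg
  obtain ⟨F', G', hG', e'⟩ := hh
  rw [ev_eq hG e, ev_eq hG' e']
  exact loc_ev_sub hG hG' (loc_sub_eq e e')

theorem ev_mul {z₀ : Kˣ} {g h : Mer K} (hg : RegAt z₀ g) (hh : RegAt z₀ h) :
    ev z₀ (g * h) = ev z₀ g * ev z₀ h := by
  obtain ⟨F, G, hG, e⟩ := hg
  obtain ⟨F', G', hG', e'⟩ := hh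
  have hGG : (G * G').1 z₀ ≠ 0 := mul_ne_zero hG hG'
  rw [ev_eq hG e, ev_eq hG' e', ev_eq hGG (loc_mul_eq e e'), loc_mul_apply, loc_mul_apply]
  field_simp

private lemma loc_inv {z₀ : Kˣ} {h : Mer K} {F G : An K} (e : h * am G = am F)
    (hF : F.1 z₀ ≠ 0) : h⁻¹ * am F = am G := by
  have h1 : h ≠ 0 := by
    rintro rfl
    rw [zero_mul] at e
    exact loc_am_ne hF e.symm
  rw [← e]
  field_simp

theorem RegAt.inv {z₀ : Kˣ} {h : Mer K} (hh : RegAt z₀ h) (h0 : ev z₀ h ≠ 0) : RegAt z₀ h⁻¹ := by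
  obtain ⟨F, G, hG, e⟩ := hh
  rw [ev_eq hG e] at h0
  have hF : F.1 z₀ ≠ 0 := by
    intro h1
    rw [h1, zero_div] at h0
    exact h0 rfl
  exact ⟨G, F, hF, loc_inv e hF⟩

theorem RegAt.der {z₀ : Kˣ} {h : Mer K} (hh : RegAt z₀ h) : RegAt z₀ (der K h) := by
  obtain ⟨F, G, hG, e⟩ := hh
  refine ⟨G * dA F - F * dA G, G * G, mul_ne_zero hG hG, ?_⟩
  have e1 := congrArg (Pool.Agent.NG.der K) e
  rw [Derivation.leibniz, der_am, der_am, smul_eq_mul, smul_eq_mul] at e1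
  rw [am_sub, am_mul, am_mul, am_mul, ← e1, ← e]
  ring

/-- The local ring at `z₀` as a subalgebra. -/
def locR (z₀ : Kˣ) : Subalgebra K (Mer K) where
  carrier := {h | RegAt z₀ h}
  add_mem' := RegAt.add
  mul_mem' := RegAt.mul
  algebraMap_mem' := regAt_const z₀

/-- Evaluation as an algebra homomorphism. -/
def evHom (z₀ : Kˣ) : locR (K := K) z₀ →ₐ[K] K where
  toFun h := ev z₀ h.1
  map_one' := by
    have := ev_const z₀ (1 : K)
    rwa [map_one] at this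
  map_mul' g h := ev_mul g.2 h.2
  map_zero' := by
    have := ev_const z₀ (0 : K)
    rwa [map_zero] at this
  map_add' g h := ev_add g.2 h.2
  commutes' c := ev_const z₀ c

private lemma loc_Zs_ne (z₀ : Kˣ) : am (Zs z₀) ≠ 0 := fun h => Zs_ne_zero z₀ (am_eq_zero.1 h)

private lemma loc_Zs_self (z₀ : Kˣ) : (Zs z₀).1 z₀ = 0 := by rw [Zs_apply, sub_self]

theorem exists_order {h : Mer K} (hh : h ≠ 0) (z₀ : Kˣ) :
    ∃ (n : ℤ) (u : Mer K), RegAt z₀ u ∧ ev z₀ u ≠ 0 ∧ h = am (Zs z₀) ^ n * u := by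
  obtain ⟨F, G, hG, e⟩ := exists_frac h
  have hF : F ≠ 0 := by
    rintro rfl
    rw [am_zero] at e
    rcases mul_eq_zero.1 e with h1 | h1
    · exact hh h1
    · exact hG (am_eq_zero.1 h1)
  obtain ⟨a, F', hF', eF⟩ := exists_ord hF z₀
  obtain ⟨b, G', hG', eG⟩ := exists_ord hG z₀
  have hG2 := loc_am_ne hG'
  have hF2 := loc_am_ne hF'
  have hZ := loc_Zs_ne (K := K) z₀
  have hu : am F' / am G' * am G' = am F' := by field_simp
  refine ⟨(a : ℤ) - b, am F' / am G', ⟨F', G', hG', hu⟩, ?_, ?_⟩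
  · rw [ev_eq hG' hu]
    exact div_ne_zero hF' hG'
  · rw [eF, eG, am_mul, am_mul, am_pow, am_pow] at e
    rw [zpow_sub₀ hZ, zpow_natCast, zpow_natCast]
    have hZa := pow_ne_zero a hZ
    have hZb := pow_ne_zero b hZ
    field_simp
    linear_combination e

private lemma loc_reg_zpow {z₀ : Kˣ} {u : Mer K} (hu : RegAt z₀ u) {n : ℤ} (hn : 0 ≤ n) :
    RegAt z₀ (am (Zs z₀) ^ n * u) := by
  obtain ⟨m, rfl⟩ := Int.eq_ofNat_of_zero_le hn
  rw [zpow_natCast, ← am_pow]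
  exact (regAt_am z₀ _).mul hu

theorem regAt_or_inv (z₀ : Kˣ) (h : Mer K) : RegAt z₀ h ∨ RegAt z₀ h⁻¹ := by
  by_cases hh : h = 0
  · left
    rw [hh, ← am_zero]
    exact regAt_am z₀ _
  · obtain ⟨n, u, hu, hu0, e⟩ := exists_order hh z₀
    rcases le_total 0 n with hn | hn
    · left
      rw [e]
      exact loc_reg_zpow hu hn
    · right
      rw [e, mul_inv, ← zpow_neg]
      exact loc_reg_zpow (hu.inv hu0) (by omega)

theorem exists_pow_reg (z₀ : Kˣ) (h : Mer K) : ∃ n : ℕ, RegAt z₀ (am (Zs z₀) ^ n * h) := by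
  by_cases hh : h = 0
  · refine ⟨0, ?_⟩
    rw [hh, mul_zero, ← am_zero]
    exact regAt_am z₀ _
  · obtain ⟨n, u, hu, hu0, e⟩ := exists_order hh z₀
    refine ⟨n.natAbs, ?_⟩
    rw [e, ← mul_assoc, ← zpow_natCast, ← zpow_add₀ (loc_Zs_ne z₀)]
    exact loc_reg_zpow hu (by omega)

theorem exists_factor_reg {z₀ : Kˣ} {h : Mer K} (hh : RegAt z₀ h) (h0 : ev z₀ h = 0) :
    ∃ h' : Mer K, RegAt z₀ h' ∧ h = am (Zs z₀) * h' := by
  obtain ⟨F, G, hG, e⟩ := hh
  rw [ev_eq hG e, div_eq_zero_iff] at h0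
  have hF : F.1 z₀ = 0 := h0.resolve_right hG
  obtain ⟨F', eF⟩ := exists_factor F z₀ hF
  have hG2 := loc_am_ne hG
  have hu : am F' / am G * am G = am F' := by field_simp
  refine ⟨am F' / am G, ⟨F', G, hG, hu⟩, ?_⟩
  rw [eF, am_mul] at e
  field_simp
  exact e

private lemma loc_der_Zs (z₀ : Kˣ) : der K (am (Zs z₀)) = am (Zc : An K) := by
  unfold Zs
  rw [am_sub, am_algebraMap, map_sub, Derivation.map_algebraMap, sub_zero, der_am, dA_Zc]

private lemma loc_ev_ne_of_zpow {z₀ : Kˣ} {h u : Mer K} {n : ℤ} (hh : RegAt z₀ h)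
    (hu : RegAt z₀ u) (hu0 : ev z₀ u ≠ 0) (e : h = am (Zs z₀) ^ n * u) : 0 ≤ n := by
  by_contra hn
  have hZ := loc_Zs_ne (K := K) z₀
  obtain ⟨m, hm⟩ : ∃ m : ℕ, -n = (m : ℤ) + 1 := ⟨(-n - 1).toNat, by omega⟩
  have h1 : u = am (Zs z₀ ^ m * Zs z₀) * h := by
    rw [e, ← mul_assoc, am_mul, am_pow, ← pow_succ, ← zpow_natCast, ← zpow_add₀ hZ]
    rw [show ((m + 1 : ℕ) : ℤ) + n = 0 by push_cast; omega, zpow_zero, one_mul]
  apply hu0
  rw [h1, ev_mul (regAt_am z₀ _) hh, ev_am, loc_mul_apply, loc_Zs_self, mul_zero, zero_mul]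

theorem der_ne_mul {z₀ : Kˣ} {s H : Mer K} (hs : RegAt z₀ s) (hs0 : s ≠ 0) (h0 : ev z₀ s = 0)
    (hH : RegAt z₀ H) : der K s ≠ H * s := by
  intro hder
  have hZ := loc_Zs_ne (K := K) z₀
  obtain ⟨n, u, hu, hu0, e⟩ := exists_order hs0 z₀
  have hn := loc_ev_ne_of_zpow hs hu hu0 e
  obtain ⟨m, hm⟩ := Int.eq_ofNat_of_zero_le hn
  have hm' : n = (m : ℤ) := hm
  rw [hm', zpow_natCast] at e
  rcases m with _ | m
  · rw [pow_zero, one_mul] at e
    rw [e] at h0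
    exact hu0 h0
  · have h1 : der K s = (m + 1 : ℕ) * (am (Zs z₀) ^ m * am (Zc : An K) * u) +
        am (Zs z₀) ^ (m + 1) * der K u := by
      rw [e, Derivation.leibniz, Derivation.leibniz_pow, loc_der_Zs]
      simp only [smul_eq_mul, nsmul_eq_mul, Nat.add_sub_cancel]
      ring
    rw [hder, e] at h1
    have hZm := pow_ne_zero m hZ
    have h2 : H * am (Zs z₀) * u = (m + 1 : ℕ) * (am (Zc : An K) * u) + am (Zs z₀) * der K u := by
      apply mul_left_cancel₀ hZm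
      linear_combination h1
    have h3 := congrArg (ev z₀) h2
    have hc : ((m + 1 : ℕ) : Mer K) = algebraMap K (Mer K) ((m + 1 : ℕ) : K) := by
      rw [map_natCast]
    rw [hc, ev_mul (hH.mul (regAt_am z₀ _)) hu, ev_mul hH (regAt_am z₀ _), ev_am, loc_Zs_self,
      mul_zero, zero_mul, ev_add ((regAt_const z₀ _).mul ((regAt_am z₀ _).mul hu))
        ((regAt_am z₀ _).mul hu.der), ev_mul (regAt_const z₀ _) ((regAt_am z₀ _).mul hu),
      ev_const, ev_mul (regAt_am z₀ _) hu, ev_am, ev_mul (regAt_am z₀ _) hu.der, ev_am,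
      loc_Zs_self, zero_mul, add_zero, Zc_apply] at h3
    have h4 : ((m + 1 : ℕ) : K) ≠ 0 := Nat.cast_ne_zero.2 (Nat.succ_ne_zero m)
    exact mul_ne_zero h4 (mul_ne_zero z₀.ne_zero hu0) h3.symm

theorem finite_bad (h : Mer K) (t₁ t₂ : ℝ) :
    {z : Kˣ | t₁ ≤ Real.log ‖(z : K)‖ ∧ Real.log ‖(z : K)‖ ≤ t₂ ∧ ¬ RegAt z h}.Finite := by
  obtain ⟨F, G, hG, e⟩ := exists_frac h
  refine (finite_zeros hG t₁ t₂).subset fun z hz => ⟨hz.1, hz.2.1, ?_⟩
  by_contra hne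
  exact hz.2.2 ⟨F, G, hne, e⟩

theorem finite_ev_zero {h : Mer K} (hh : h ≠ 0) (t₁ t₂ : ℝ) :
    {z : Kˣ | t₁ ≤ Real.log ‖(z : K)‖ ∧ Real.log ‖(z : K)‖ ≤ t₂ ∧ RegAt z h ∧
      ev z h = 0}.Finite := by
  obtain ⟨F, G, hG, e⟩ := exists_frac h
  have hF : F ≠ 0 := by
    rintro rfl
    rw [am_zero] at e
    rcases mul_eq_zero.1 e with h1 | h1
    · exact hh h1
    · exact hG (am_eq_zero.1 h1)
  refine ((finite_zeros hG t₁ t₂).union (finite_zeros hF t₁ t₂)).subset fun z hz => ?_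
  by_cases hz0 : G.1 z = 0
  · exact Or.inl ⟨hz.1, hz.2.1, hz0⟩
  · right
    refine ⟨hz.1, hz.2.1, ?_⟩
    have h1 := hz.2.2.2
    rw [ev_eq hz0 e, div_eq_zero_iff] at h1
    exact h1.resolve_right hz0

/-- Away from finitely many points of a closed annulus, `h ≠ 0` is regular. At a point where it is
not regular, its inverse is regular with value zero. -/
theorem inv_of_not_reg {z₀ : Kˣ} {h : Mer K} (hh : ¬ RegAt z₀ h) :
    RegAt z₀ h⁻¹ ∧ ev z₀ h⁻¹ = 0 := by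
  have h1 := (regAt_or_inv z₀ h).resolve_left hh
  refine ⟨h1, ?_⟩
  by_contra h2
  have h3 := h1.inv h2
  rw [inv_inv] at h3
  exact hh h3

end Pool.Agent.NG
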