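import Pool.Agent.NG.Kdim
import Pool.Agent.NG.Dual

/-!
# NG LOCF: local frames on a smooth affine surface (module to prove)

`A` is smooth over `K`, so `Ω[A⁄K]` is a finitely generated projective `A`-module; its localisation at
the zero ideal is `Ω[L⁄K]` (`L` is the fraction field of `A`), of dimension two (`finrank_kaehler`), so the
localisation at the prime `p` is free of rank two over the local ring (constant rank: a projective module over a
domain; or: the localisation at `p` is free of some rank `r`, and `r = 2` after tensoring with `L`). The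
elements `d a` generate it, so by Nakayama two of them `d t₀`, `d t₁` (whose images in the fibre over the residue field
are a basis) are a basis of the localisation. `A` is finitely generated over `K`, so there is a common denominator
`b ∉ p`: `b d a ∈ A d t₀ + A d t₁` in `Ω[L⁄K]` for the generators `a`, hence (Leibniz rule) for all `a`.
In `Ω[L⁄K]`: `d t₀`, `d t₁` span, so they are a basis; take the dual derivations `exists_dual_d`:
`b d a = c₀ d t₀ + c₁ d t₁` gives `b * d j a = c_j`.
-/

open scoped KaehlerDifferential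

noncomputable section

namespace Pool.Agent.NG

variable {K : Type*} [Field K] [CharZero K] {L : Type*} [Field L] [Algebra K L]

private theorem LOCF_one {A : Subalgebra K L} (p : Ideal A) [hp : p.IsPrime] : (1 : A) ∉ p :=
  fun h => hp.ne_top ((Ideal.eq_top_iff_one p).2 h)

private theorem LOCF_le (A : Subalgebra K L) (p : Ideal A) [p.IsPrime] : A ≤ OL K A p :=
  fun a ha => ⟨⟨a, ha⟩, 1, LOCF_one p, by simp⟩

private theorem LOCF_basis {A : Subalgebra K L} (hA : Surf K A) (p : Ideal A) [hp : p.IsPrime] :
    ∃ (t : Fin 2 → A) (bL : Module.Basis (Fin 2) L (Ω[L⁄K])),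
      (∀ i, bL i = KaehlerDifferential.D K L (t i : L)) ∧
      ∀ a : A, ∃ c : Fin 2 → OL K A p,
        KaehlerDifferential.D K L (a : L) =
          ∑ i, (c i : L) • KaehlerDifferential.D K L (t i : L) := by
  have hle := LOCF_le A p
  let : Algebra A (OL K A p) := (Subalgebra.inclusion hle).toRingHom.toAlgebra
  have : IsScalarTower K A (OL K A p) := IsScalarTower.of_algebraMap_eq fun _ => rfl
  have : IsScalarTower A (OL K A p) L := IsScalarTower.of_algebraMap_eq fun _ => rfl
  have hc0 : ∀ c : A, c ∉ p → (c : L) ≠ 0 := by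
    intro c hc h0
    apply hc
    have : c = 0 := Subtype.ext h0
    rw [this]
    exact p.zero_mem
  have hloc : IsLocalization p.primeCompl (OL K A p) := by
    refine ⟨?_, ?_, ?_⟩
    · rintro ⟨c, hc⟩
      have hc' : c ∉ p := hc
      have h1 : (c : L)⁻¹ ∈ OL K A p := ⟨1, c, hc', by
        rw [inv_mul_cancel₀ (hc0 c hc')]
        simp⟩
      refine IsUnit.of_mul_eq_one ⟨(c : L)⁻¹, h1⟩ (Subtype.ext ?_)
      exact mul_inv_cancel₀ (hc0 c hc')
    · rintro ⟨g, a, c, hc, h⟩
      exact ⟨(a, ⟨c, hc⟩), Subtype.ext h⟩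
    · intro x y h
      refine ⟨1, ?_⟩
      have h1 : (x : L) = y := congrArg (fun z : OL K A p => (z : L)) h
      rw [Subtype.ext h1]
  have : IsLocalRing (OL K A p) := IsLocalization.AtPrime.isLocalRing (OL K A p) p
  have hfrac : IsFractionRing (OL K A p) L := by
    refine ⟨?_, ?_, ?_⟩
    · rintro ⟨c, hc⟩
      rw [isUnit_iff_ne_zero]
      intro h0
      have h1 : (c : L) = 0 := h0
      exact nonZeroDivisors.ne_zero hc (Subtype.ext h1)
    · intro g
      obtain ⟨a, b, hb, h⟩ := hA.frac g
      refine ⟨(⟨a, hle a.2⟩, ⟨⟨b, hle b.2⟩, mem_nonZeroDivisors_of_ne_zero fun h0 => hb ?_⟩), h⟩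
      exact Subtype.ext (congrArg (fun z : OL K A p => (z : L)) h0)
    · intro x y h
      refine ⟨1, ?_⟩
      have h1 : (x : L) = y := h
      rw [Subtype.ext h1]
  have : Algebra.Smooth K A := hA.smooth
  have : Algebra.FormallySmooth A (OL K A p) :=
    Algebra.FormallySmooth.of_isLocalization p.primeCompl
  have : Algebra.FormallySmooth K (OL K A p) := Algebra.FormallySmooth.comp K A (OL K A p)
  have : Algebra.EssFiniteType A (OL K A p) :=
    Algebra.EssFiniteType.of_isLocalization (OL K A p) p.primeCompl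
  have : Algebra.EssFiniteType K (OL K A p) := Algebra.EssFiniteType.comp K A (OL K A p)
  have : Module.Projective (OL K A p) (Ω[(OL K A p)⁄K]) := inferInstance
  have : Module.Finite (OL K A p) (Ω[(OL K A p)⁄K]) := inferInstance
  have : Module.FinitePresentation (OL K A p) (Ω[(OL K A p)⁄K]) :=
    Module.finitePresentation_of_projective _ _
  have hspan := KaehlerDifferential.span_range_map_derivation_of_isLocalization K A (OL K A p)
    p.primeCompl
  obtain ⟨κ, u, bB, hbB⟩ := Module.exists_basis_of_span_of_flat _ hspan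
  have hbB' : ∀ i, bB i = KaehlerDifferential.D K (OL K A p) (algebraMap A (OL K A p) (u i)) := by
    intro i
    rw [hbB]
    exact KaehlerDifferential.map_D K K A (OL K A p) (u i)
  have : Finite κ := Module.Finite.finite_basis bB
  let : Fintype κ := Fintype.ofFinite κ
  have : Algebra.FormallyEtale (OL K A p) L :=
    Algebra.FormallyEtale.of_isLocalization (nonZeroDivisors (OL K A p))
  let e := KaehlerDifferential.tensorKaehlerEquivOfFormallyEtale K (OL K A p) L
  let bL : Module.Basis κ L (Ω[L⁄K]) := (bB.baseChange L).map e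
  have hbL : ∀ i, bL i = KaehlerDifferential.D K L (u i : L) := by
    intro i
    have h1 : bL i = e ((1 : L) ⊗ₜ bB i) := by
      simp only [bL, Module.Basis.map_apply, Module.Basis.baseChange_apply]
    rw [h1, hbB', KaehlerDifferential.tensorKaehlerEquivOfFormallyEtale_apply,
      KaehlerDifferential.mapBaseChange_tmul, one_smul, KaehlerDifferential.map_D]
    rfl
  have hcard : Fintype.card κ = 2 := by
    rw [← Module.finrank_eq_card_basis bL]
    exact finrank_kaehler 2 two_ne_zero (by rw [hA.dim]; rfl)
  let ε : κ ≃ Fin 2 := Fintype.equivFinOfCardEq hcard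
  refine ⟨fun i => u (ε.symm i), bL.reindex ε, fun i => ?_, fun a => ?_⟩
  · rw [Module.Basis.reindex_apply, hbL]
  · refine ⟨fun i => bB.repr (KaehlerDifferential.D K (OL K A p) (algebraMap A (OL K A p) a))
      (ε.symm i), ?_⟩
    have h1 := bB.sum_repr (KaehlerDifferential.D K (OL K A p) (algebraMap A (OL K A p) a))
    have h2 := congrArg (KaehlerDifferential.map K K (OL K A p) L) h1
    rw [map_sum, KaehlerDifferential.map_D] at h2
    have h3 : KaehlerDifferential.D K L (a : L) = ∑ i, ((bB.repr (KaehlerDifferential.D K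
        (OL K A p) (algebraMap A (OL K A p) a)) i : OL K A p) : L) •
          KaehlerDifferential.D K L (u i : L) := by
      refine h2.symm.trans (Finset.sum_congr rfl fun i _ => ?_)
      rw [map_smul, hbB', KaehlerDifferential.map_D]
      rfl
    rw [h3]
    exact (Equiv.sum_comp ε.symm _).symm

theorem exists_frame {A : Subalgebra K L} (hA : Surf K A) (p : Ideal A) [p.IsPrime] :
    Nonempty (Frame K A p) := by
  obtain ⟨t, bL, hbL, hc⟩ := LOCF_basis hA p
  have hfin : Module.finrank L (Ω[L⁄K]) = 2 :=
    finrank_kaehler 2 two_ne_zero (by rw [hA.dim]; rfl)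
  have hli : LinearIndependent L ![KaehlerDifferential.D K L (t 0 : L),
      KaehlerDifferential.D K L (t 1 : L)] := by
    have h1 := bL.linearIndependent
    have h2 : (bL : Fin 2 → Ω[L⁄K]) = ![KaehlerDifferential.D K L (t 0 : L),
        KaehlerDifferential.D K L (t 1 : L)] := by
      funext i
      rw [hbL]
      fin_cases i <;> rfl
    rwa [h2] at h1
  obtain ⟨δ₁, δ₂, h11, h21, h12, h22, hexp, hexpD, -, -⟩ := exists_dual_d hfin hli
  set d : Fin 2 → Derivation K L L := ![δ₁, δ₂] with hd
  have hdual : ∀ i j, d i (t j : L) = if i = j then 1 else 0 := by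
    intro i j
    fin_cases i <;> fin_cases j <;> simp [hd, h11, h21, h12, h22]
  have hOL : ∀ (j : Fin 2) (a : A), d j (a : L) ∈ OL K A p := by
    intro j a
    obtain ⟨c, h1⟩ := hc a
    have h2 : d j (a : L) = c j := by
      rw [← pair_d (K := K) (a : L) (d j), h1, Fin.sum_univ_two, pair_add, pair_smul, pair_smul,
        pair_d, pair_d, hdual, hdual]
      fin_cases j <;> simp
    rw [h2]
    exact (c j).2
  have hden : ∀ a : A, ∃ c : A, c ∉ p ∧ ∀ j, d j (a : L) * c ∈ A := by
    intro a
    obtain ⟨a₀, c₀, hc₀, h₀⟩ := hOL 0 a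
    obtain ⟨a₁, c₁, hc₁, h₁⟩ := hOL 1 a
    refine ⟨c₀ * c₁, fun hm => ?_, fun j => ?_⟩
    · rcases Ideal.IsPrime.mem_or_mem ‹p.IsPrime› hm with h | h
      · exact hc₀ h
      · exact hc₁ h
    · fin_cases j
      · have : d 0 (a : L) * ((c₀ * c₁ : A) : L) = (a₀ * c₁ : A) := by
          push_cast
          rw [← h₀]
          ring
        exact this ▸ (a₀ * c₁ : A).2
      · have : d 1 (a : L) * ((c₀ * c₁ : A) : L) = (a₁ * c₀ : A) := by
          push_cast
          rw [← h₁]
          ring
        exact this ▸ (a₁ * c₀ : A).2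
  choose c hcp hcd using hden
  obtain ⟨s, hs⟩ := hA.fg
  have hsA : ∀ g ∈ s, g ∈ A := fun g hg => by
    rw [← hs]
    exact Algebra.subset_adjoin hg
  let b : A := ∏ g ∈ s.attach, c ⟨g.1, hsA g.1 g.2⟩
  have hb : b ∉ p := by
    have : b ∈ p.primeCompl := Submonoid.prod_mem _ fun g _ => hcp _
    exact this
  have hgen : ∀ g ∈ s, ∀ j, (b : L) * d j g ∈ A := by
    intro g hg j
    obtain ⟨r, hr⟩ := Finset.dvd_prod_of_mem (fun g : s => c ⟨g.1, hsA g.1 g.2⟩)
      (Finset.mem_attach s ⟨g, hg⟩)
    have h1 : (b : L) * d j g = (d j g * c ⟨g, hsA g hg⟩) * r := by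
      have h2 : b = c ⟨g, hsA g hg⟩ * r := hr
      rw [h2]
      push_cast
      ring
    rw [h1]
    exact A.mul_mem (hcd ⟨g, hsA g hg⟩ j) r.2
  have hall : ∀ x ∈ Algebra.adjoin K (s : Set L), x ∈ A ∧ ∀ j, (b : L) * d j x ∈ A := by
    intro x hx
    induction hx using Algebra.adjoin_induction with
    | mem x hx => exact ⟨hsA x hx, hgen x hx⟩
    | algebraMap r =>
      refine ⟨A.algebraMap_mem r, fun j => ?_⟩
      rw [Derivation.map_algebraMap, mul_zero]
      exact A.zero_mem
    | add x y _ _ hx hy =>
      refine ⟨A.add_mem hx.1 hy.1, fun j => ?_⟩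
      rw [map_add, mul_add]
      exact A.add_mem (hx.2 j) (hy.2 j)
    | mul x y _ _ hx hy =>
      refine ⟨A.mul_mem hx.1 hy.1, fun j => ?_⟩
      rw [Derivation.leibniz, smul_eq_mul, smul_eq_mul, mul_add]
      have e1 : (b : L) * (x * d j y) = x * (b * d j y) := by ring
      have e2 : (b : L) * (y * d j x) = y * (b * d j x) := by ring
      rw [e1, e2]
      exact A.add_mem (A.mul_mem hx.1 (hy.2 j)) (A.mul_mem hy.1 (hx.2 j))
  exact ⟨{ t := t
           b := b
           hb := hb
           d := d
           dual := hdual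
           pres := fun j a => ⟨⟨_, (hall a (by rw [hs]; exact a.2)).2 j⟩, rfl⟩
           expand := hexp
           expandD := hexpD }⟩

end Pool.Agent.NG
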