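import Pool.Agent.NG.Fin
import Pool.Agent.NG.Genus
import Pool.Agent.NG.EmbEx

/-!
# NG: the main theorem (assembly; module to prove)

`F i := ⟨f i, hf.an i⟩ : An K`. `E := ratF F`.
(1) If `E` contains two algebraically independent elements, `exists_emb`, `exists_flow`, `no_flow` give a contradiction.
(2) Otherwise `trdeg K E` is `0` or `1`. If it is `0`: `E = K` (`IsAlgClosed`), all ratios are constant: `f i = c_i f_j` for a `j` with `f j ≠ 0`: constant map.
(3) If it is `1`: `y i := am (F i) / am (F j)` for a fixed `j` with `F j ≠ 0`, an element of `E`. `IsCurveOfGenusLEOne`: `gen`: the ratios `y p.1 / y p.2` generate `E` (as a subfield of `Mer K`; transport to `⊤` of `IntermediateField K E`), `dim`, `genus` by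
`genus_le_one`. Relations: `G` homogeneous of degree `d`: `aeval (am ∘ F) G = am (F j) ^ d * aeval y G`; `aeval (am ∘ F) G = am (aeval F G)` and `(aeval F G).1 z = eval (fun i => f i z) G`.
-/

open Filter Topology
open scoped NNReal KaehlerDifferential

noncomputable section

namespace Pool.Agent.NG

universe u v

private theorem main_hom_scale {K : Type*} [Field K] {R : Type*} [CommRing R] [Algebra K R]
    {n d : ℕ} (c : R) (g : Fin n → R) {G : MvPolynomial (Fin n) K} (hG : G.IsHomogeneous d) :
    MvPolynomial.aeval (fun i => c * g i) G = c ^ d * MvPolynomial.aeval g G := by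
  rw [MvPolynomial.aeval_def, MvPolynomial.aeval_def, MvPolynomial.eval₂_eq',
    MvPolynomial.eval₂_eq', Finset.mul_sum]
  refine Finset.sum_congr rfl fun s hs => ?_
  have hd : ∑ i, s i = d := by
    have h1 := hG (MvPolynomial.mem_support_iff.1 hs)
    rw [Finsupp.weight_apply, Finsupp.sum_fintype _ _ (by simp)] at h1
    simpa using h1
  have h2 : ∏ i, (c * g i) ^ s i = c ^ d * ∏ i, g i ^ s i := by
    rw [← hd, ← Finset.prod_pow_eq_pow_sum, ← Finset.prod_mul_distrib]
    exact Finset.prod_congr rfl fun i _ => mul_pow _ _ _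
  rw [h2]
  ring

section

set_option linter.unusedSectionVars false

variable {K : Type*} [NontriviallyNormedField K] [IsUltrametricDist K] [CompleteSpace K]
  [IsAlgClosed K] [CharZero K] {N : ℕ}

private theorem main_eval (F : Fin (N + 1) → An K) (G : MvPolynomial (Fin (N + 1)) K) (z : Kˣ) :
    (MvPolynomial.aeval F G).1 z = MvPolynomial.eval (fun i => (F i).1 z) G := by
  let e : An K →ₐ[K] K := (Pi.evalAlgHom K (fun _ : Kˣ => K) z).comp (An K).val
  have h1 : e (MvPolynomial.aeval F G) = MvPolynomial.aeval (fun i => e (F i)) G := by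
    rw [← MvPolynomial.comp_aeval_apply]
  have h2 : MvPolynomial.aeval (fun i => e (F i)) G =
      MvPolynomial.eval (fun i => (F i).1 z) G := by
    rw [MvPolynomial.aeval_def, MvPolynomial.eval, MvPolynomial.coe_eval₂Hom]
    rfl
  exact h1.trans h2

private theorem main_am (F : Fin (N + 1) → An K) (G : MvPolynomial (Fin (N + 1)) K) :
    MvPolynomial.aeval (fun i => am (F i)) G = am (MvPolynomial.aeval F G) := by
  let e : An K →ₐ[K] Mer K := IsScalarTower.toAlgHom K (An K) (Mer K)
  have h1 : e (MvPolynomial.aeval F G) = MvPolynomial.aeval (fun i => e (F i)) G := by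
    rw [← MvPolynomial.comp_aeval_apply]
  exact h1.symm

/-- An intermediate field without two independent elements has transcendence degree at most one. -/
private theorem main_trdeg (E : IntermediateField K (Mer K))
    (hno : ¬ ∃ u ∈ E, ∃ v ∈ E, AlgebraicIndependent K ![u, v]) :
    Algebra.IsAlgebraic K E ∨ Algebra.trdeg K E = 1 := by
  obtain ⟨s, hs⟩ := exists_isTranscendenceBasis K E
  have hsub : s.Subsingleton := by
    intro a ha b hb
    by_contra hne
    apply hno
    refine ⟨a, a.2, b, b.2, ?_⟩
    have h1 : AlgebraicIndependent K (fun i : Fin 2 => (![(⟨a, ha⟩ : s), ⟨b, hb⟩] i : E)) := by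
      refine hs.1.comp (fun i : Fin 2 => (![(⟨a, ha⟩ : s), ⟨b, hb⟩] i)) ?_
      intro i j hij
      fin_cases i <;> fin_cases j
      · rfl
      · exact absurd (congrArg Subtype.val hij) hne
      · exact absurd (congrArg Subtype.val hij).symm hne
      · rfl
    have h2 := h1.map' (f := E.val) E.val.injective
    have h3 : (E.val ∘ fun i : Fin 2 => (![(⟨a, ha⟩ : s), ⟨b, hb⟩] i : E)) =
        ![(a : Mer K), (b : Mer K)] := by
      funext i
      fin_cases i <;> rfl
    rwa [h3] at h2
  rcases hsub.eq_empty_or_singleton with h0 | ⟨a, ha⟩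
  · left
    rw [← hs.isEmpty_iff_isAlgebraic, h0]
    exact Set.isEmpty_coe_sort.2 rfl
  · right
    rw [← hs.cardinalMk_eq_trdeg, ha]
    exact Cardinal.mk_singleton a

end

theorem main_theorem {K : Type u} [NontriviallyNormedField K] [IsUltrametricDist K]
    [CompleteSpace K] [IsAlgClosed K] [CharZero K] {L : Type v} [Field L] [Algebra K L] {N : ℕ}
    {x : Fin (N + 1) → L} (hx : IsSmoothSurface K x) (hK : CanonicalBig K x)
    {ω₁ ω₂ : Ω[L⁄K]} (h₁ : IsRegularForm K x ω₁) (h₂ : IsRegularForm K x ω₂)
    (hc₁ : IsClosedForm K ω₁) (hc₂ : IsClosedForm K ω₂) (hli : LinearIndependent K ![ω₁, ω₂])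
    {f : Fin (N + 1) → Kˣ → K} (hf : IsAnalyticMap K x f) :
    (∀ z w i j, f i z * f j w = f j z * f i w) ∨
      ∃ (F : Type u) (_ : Field F) (_ : Algebra K F) (y : Fin (N + 1) → F),
        IsCurveOfGenusLEOne K y ∧
        (∀ G, Rel K x G → MvPolynomial.aeval y G = 0) ∧
        ∀ G, Rel K y G → ∀ z, MvPolynomial.eval (fun i => f i z) G = 0 := by
  classical
  obtain ⟨F, hF⟩ : ∃ F : Fin (N + 1) → An K, ∀ i, (F i).1 = f i := ⟨fun i => ⟨f i, hf.an i⟩, fun _ => rfl⟩
  have hev : ∀ G z, (MvPolynomial.aeval F G).1 z = MvPolynomial.eval (fun i => f i z) G := by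
    intro G z
    rw [main_eval]
    simp only [hF]
  have hnz : ∀ z, ∃ i, (F i).1 z ≠ 0 := by
    intro z
    obtain ⟨i, hi⟩ := hf.ne z
    exact ⟨i, by rwa [hF]⟩
  have hrel : ∀ G : MvPolynomial (Fin (N + 1)) K, Rel K x G → MvPolynomial.aeval F G = 0 := by
    intro G hG
    refine An.ext' fun z => ?_
    rw [hev, hf.rel G hG z]
    rfl
  by_cases hno : ∃ u ∈ ratF F, ∃ v ∈ ratF F, AlgebraicIndependent K ![u, v]
  · exfalso
    obtain ⟨u, hu, v, hv, huv⟩ := hno
    obtain ⟨E⟩ := exists_emb hx hnz hrel hu hv huv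
    obtain ⟨S⟩ := exists_flow E hx h₁ h₂ hc₁ hc₂ hli
    exact no_flow S hK
  · obtain ⟨j, hj⟩ : ∃ j, F j ≠ 0 := by
      obtain ⟨j, hj⟩ := hnz 1
      refine ⟨j, fun h => hj ?_⟩
      rw [h]
      rfl
    have hamj : am (F j) ≠ 0 := fun h => hj (am_eq_zero.1 h)
    have hmem : ∀ i l, am (F i) / am (F l) ∈ ratF F := fun i l =>
      IntermediateField.subset_adjoin K _ ⟨(i, l), rfl⟩
    rcases main_trdeg (ratF F) hno with halg | htr
    · left
      intro z w i l
      by_cases hl : F l = 0
      · have h0 : ∀ z, f l z = 0 := by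
          intro z
          rw [← hF, hl]
          rfl
        rw [h0, h0, mul_zero, zero_mul]
      · have haml : am (F l) ≠ 0 := fun h => hl (am_eq_zero.1 h)
        obtain ⟨c, hc⟩ : ∃ c : K, algebraMap K (ratF F) c = ⟨am (F i) / am (F l), hmem i l⟩ :=
          (IsAlgClosed.algebraMap_bijective_of_isIntegral (k := K) (K := ratF F)).2
            ⟨am (F i) / am (F l), hmem i l⟩
        have hc2 : algebraMap K (Mer K) c = am (F i) / am (F l) := by
          have := congrArg (fun t : ratF F => (t : Mer K)) hc
          exact this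
        have hc3 : F i = algebraMap K (An K) c * F l := by
          apply am_injective
          rw [am_mul, am_algebraMap, hc2, div_mul_cancel₀ _ haml]
        have hc4 : ∀ z, f i z = c * f l z := by
          intro z
          rw [← hF i, ← hF l, hc3]
          rfl
        rw [hc4 z, hc4 w]
        ring
    · right
      obtain ⟨y, hy⟩ : ∃ y : Fin (N + 1) → ratF F, ∀ i, (y i : Mer K) = am (F i) / am (F j) :=
        ⟨fun i => ⟨am (F i) / am (F j), hmem i j⟩, fun _ => rfl⟩
      have hcoe : ∀ G : MvPolynomial (Fin (N + 1)) K, ((MvPolynomial.aeval y G : ratF F) : Mer K) =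
          MvPolynomial.aeval (fun i => (am (F j))⁻¹ * am (F i)) G := by
        intro G
        have h1 : (ratF F).val (MvPolynomial.aeval y G) =
            MvPolynomial.aeval (fun i => (ratF F).val (y i)) G := by
          rw [← MvPolynomial.comp_aeval_apply]
        refine h1.trans ?_
        congr 2
        funext i
        exact (hy i).trans (by rw [div_eq_mul_inv, mul_comm])
      refine ⟨ratF F, inferInstance, inferInstance, y, ⟨?_, htr, ?_⟩, ?_, ?_⟩
      · apply IntermediateField.map_injective (ratF F).val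
        rw [IntermediateField.adjoin_map, ← AlgHom.fieldRange_eq_map,
          IntermediateField.fieldRange_val]
        have h1 : (ratF F).val '' (Set.range fun p : Fin (N + 1) × Fin (N + 1) =>
            y p.1 / y p.2) = Set.range fun p : Fin (N + 1) × Fin (N + 1) =>
            am (F p.1) / am (F p.2) := by
          rw [← Set.range_comp]
          congr 1
          funext p
          show ((y p.1 / y p.2 : ratF F) : Mer K) = _
          have h2 : ((y p.1 / y p.2 : ratF F) : Mer K) = (y p.1 : Mer K) / (y p.2 : Mer K) := rfl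
          rw [h2, hy, hy, div_div_div_cancel_right₀ hamj]
        rw [h1]
        rfl
      · intro ω₁ ω₂ hω₁ hω₂
        exact genus_le_one (ratF F) htr ω₁ ω₂ hω₁ hω₂
      · intro G hG
        obtain ⟨⟨d, hd⟩, -⟩ := id hG
        have h1 := hcoe G
        rw [main_hom_scale _ _ hd, main_am, hrel G hG, am_zero, mul_zero] at h1
        exact Subtype.ext h1
      · intro G hG z
        obtain ⟨⟨d, hd⟩, hG0⟩ := hG
        have h1 := hcoe G
        rw [main_hom_scale _ _ hd, main_am, hG0] at h1
        have h2 : am (MvPolynomial.aeval F G) = 0 := by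
          have h3 : (am (F j))⁻¹ ^ d ≠ 0 := pow_ne_zero _ (inv_ne_zero hamj)
          have h4 : (am (F j))⁻¹ ^ d * am (MvPolynomial.aeval F G) = 0 := h1.symm
          exact (mul_eq_zero.1 h4).resolve_left h3
        rw [← hev, am_eq_zero.1 h2]
        rfl

end Pool.Agent.NG
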