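import Pool.Agent.NG.Gn

/-!
# Meromorphic functions on `G_m` and their Gauss valuations (definitions, proved by helper31)
-/

open Filter Topology
open scoped NNReal nonZeroDivisors

set_option linter.unusedSectionVars false

noncomputable section

namespace Pool.Agent.NG

variable (K : Type*) [NontriviallyNormedField K] [IsUltrametricDist K] [CompleteSpace K]
  [IsAlgClosed K] [CharZero K]

instance : Nontrivial (An K) := by
  refine ⟨⟨0, 1, fun h => ?_⟩⟩
  have := congrArg (fun F : An K => F.1 1) h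
  simp at this

instance : NoZeroDivisors (An K) where
  eq_zero_or_eq_zero_of_mul_eq_zero := by
    intro F G h
    have h1 := gn_mul 0 F G
    rw [h, (gn_eq_zero 0 (0 : An K)).2 rfl] at h1
    rcases mul_eq_zero.1 h1.symm with h2 | h2
    · exact Or.inl ((gn_eq_zero 0 F).1 h2)
    · exact Or.inr ((gn_eq_zero 0 G).1 h2)

instance : IsDomain (An K) := NoZeroDivisors.to_isDomain _

/-- The field of meromorphic functions on `G_m`. -/
abbrev Mer := FractionRing (An K)

variable {K}

/-- The embedding of analytic functions into meromorphic functions. -/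
def am (F : An K) : Mer K := algebraMap (An K) (Mer K) F

theorem am_injective : Function.Injective (am (K := K)) := IsFractionRing.injective (An K) (Mer K)

theorem am_eq_zero {F : An K} : am F = 0 ↔ F = 0 := by
  rw [← map_zero (algebraMap (An K) (Mer K))]
  exact am_injective.eq_iff

@[simp] theorem am_zero : am (0 : An K) = 0 := map_zero _
@[simp] theorem am_one : am (1 : An K) = 1 := map_one _
@[simp] theorem am_add (F G : An K) : am (F + G) = am F + am G := map_add _ _ _
@[simp] theorem am_sub (F G : An K) : am (F - G) = am F - am G := map_sub _ _ _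
@[simp] theorem am_mul (F G : An K) : am (F * G) = am F * am G := map_mul _ _ _
@[simp] theorem am_pow (F : An K) (n : ℕ) : am (F ^ n) = am F ^ n := map_pow _ _ _
@[simp] theorem am_neg (F : An K) : am (-F) = -am F := map_neg _ _

theorem am_algebraMap (c : K) : am (algebraMap K (An K) c) = algebraMap K (Mer K) c :=
  (IsScalarTower.algebraMap_apply K (An K) (Mer K) c).symm

theorem exists_frac (h : Mer K) : ∃ F G : An K, G ≠ 0 ∧ h * am G = am F := by
  obtain ⟨⟨F, G⟩, hFG⟩ := IsLocalization.surj (An K)⁰ h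
  exact ⟨F, G, nonZeroDivisors.ne_zero G.2, hFG⟩

variable (K) in
/-- The Gauss valuation on analytic functions. -/
def gval (t : ℝ) : Valuation (An K) ℝ≥0 where
  toFun := gn t
  map_zero' := (gn_eq_zero t 0).2 rfl
  map_one' := by
    have := gn_algebraMap t (1 : K)
    rw [map_one] at this
    rw [this]
    simp
  map_mul' := gn_mul t
  map_add_le_max' := gn_add t

theorem gval_apply (t : ℝ) (F : An K) : gval K t F = gn t F := rfl

variable (K) in
/-- The Gauss valuation of radius `exp t` on meromorphic functions. -/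
def mval (t : ℝ) : Valuation (Mer K) ℝ≥0 :=
  (gval K t).extendToLocalization (S := (An K)⁰) (by
    intro F hF
    change F ∉ (gval K t).supp
    intro h
    rw [Valuation.mem_supp_iff, gval_apply, gn_eq_zero] at h
    exact nonZeroDivisors.ne_zero hF h) (Mer K)

/-- The Gauss norm of radius `exp t` of a meromorphic function. -/
def mv (t : ℝ) (h : Mer K) : ℝ≥0 := mval K t h

@[simp] theorem mv_am (t : ℝ) (F : An K) : mv t (am F) = gn t F :=
  (gval K t).extendToLocalization_apply_map_apply _ _ F

@[simp] theorem mv_const (t : ℝ) (c : K) : mv t (algebraMap K (Mer K) c) = ‖c‖₊ := by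
  rw [← am_algebraMap, mv_am, gn_algebraMap]

@[simp] theorem mv_zero (t : ℝ) : mv t (0 : Mer K) = 0 := map_zero (mval K t)

@[simp] theorem mv_one (t : ℝ) : mv t (1 : Mer K) = 1 := map_one (mval K t)

theorem mv_mul (t : ℝ) (g h : Mer K) : mv t (g * h) = mv t g * mv t h := map_mul (mval K t) g h

theorem mv_inv (t : ℝ) (h : Mer K) : mv t h⁻¹ = (mv t h)⁻¹ := map_inv₀ (mval K t) h

theorem mv_div (t : ℝ) (g h : Mer K) : mv t (g / h) = mv t g / mv t h := map_div₀ (mval K t) g h

theorem mv_pow (t : ℝ) (h : Mer K) (n : ℕ) : mv t (h ^ n) = mv t h ^ n := map_pow (mval K t) h n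

@[simp] theorem mv_neg (t : ℝ) (h : Mer K) : mv t (-h) = mv t h := Valuation.map_neg _ h

theorem mv_add (t : ℝ) (g h : Mer K) : mv t (g + h) ≤ max (mv t g) (mv t h) :=
  Valuation.map_add (mval K t) g h

theorem mv_sub (t : ℝ) (g h : Mer K) : mv t (g - h) ≤ max (mv t g) (mv t h) :=
  Valuation.map_sub (mval K t) g h

theorem mv_sum_le {ι : Type*} (t : ℝ) (s : Finset ι) (f : ι → Mer K) (C : ℝ≥0)
    (h : ∀ i ∈ s, mv t (f i) ≤ C) : mv t (∑ i ∈ s, f i) ≤ C :=
  Valuation.map_sum_le (mval K t) h

theorem mv_prod {ι : Type*} (t : ℝ) (s : Finset ι) (f : ι → Mer K) :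
    mv t (∏ i ∈ s, f i) = ∏ i ∈ s, mv t (f i) := map_prod (mval K t) f s

theorem mv_eq_of_sub_lt (t : ℝ) {g h : Mer K} (hlt : mv t (g - h) < mv t h) : mv t g = mv t h :=
  Valuation.map_eq_of_sub_lt (mval K t) hlt

theorem mv_eq_zero {t : ℝ} {h : Mer K} : mv t h = 0 ↔ h = 0 := Valuation.zero_iff (mval K t)

theorem mv_eq_div (t : ℝ) {h : Mer K} {F G : An K} (hG : G ≠ 0) (e : h * am G = am F) :
    mv t h = gn t F / gn t G := by
  have h1 := congrArg (mv t) e
  rw [mv_mul, mv_am, mv_am] at h1
  rw [← h1, mul_div_cancel_right₀]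
  exact fun h0 => hG ((gn_eq_zero t G).1 h0)

theorem mv_ne_zero (t : ℝ) {h : Mer K} (hh : h ≠ 0) : mv t h ≠ 0 := fun e => hh (mv_eq_zero.1 e)

theorem mv_pos (t : ℝ) {h : Mer K} (hh : h ≠ 0) : 0 < mv t h :=
  pos_iff_ne_zero.2 (mv_ne_zero t hh)

end Pool.Agent.NG
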