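import Pool.Agent.NG.Sum

/-!
# MUL: the product of two everywhere convergent Laurent series (module to prove)

Let `a`, `b` have decay.

`summable_conv`: for fixed `n` the family `i ↦ a i * b (n - i)` tends to zero along `cofinite`:
`‖a i‖` tends to zero (`Decay` at `t = 0`) and `‖b (n - i)‖` is bounded. Hence it is summable
(`NonarchimedeanAddGroup.summable_of_tendsto_cofinite_zero`).

`term_conv_le`: `conv a b n` is the sum of the `a i * b (n - i)`, and
`‖a i * b (n - i)‖₊ * ex (n t) = term t a i * term t b (n - i)`; use the ultrametric estimate for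
infinite sums.

`term_conv_dominant`: write `conv a b n = a i₀ * b (n - i₀) + (sum over i ≠ i₀)`; the second sum has
norm at most the maximum of the other terms, which is attained (they tend to zero) and is strictly
smaller than the `i₀`-th one.

`decay_conv`: let `ε > 0` and let `A`, `B` bound the terms of `a` and `b` on the circle `t`. All but
finitely many `i` have `term t a i * B < ε`, all but finitely many `j` have `A * term t b j < ε`.
If `n` is not a sum of an exceptional `i` and an exceptional `j` then all products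
`term t a i * term t b (n - i)` are smaller than `ε`, so `term t (conv a b) n ≤ ε`.

`ser_conv`: the double family `(i, j) ↦ a i * b j * z ^ (i + j)` tends to zero along `cofinite` on
`ℤ × ℤ` (product of two families tending to zero, see `Summable.mul_of_nonarchimedean` or
`HasSum.mul` in Mathlib, `Mathlib.Topology.Algebra.InfiniteSum.Nonarchimedean`), so it is summable
with sum `ser a z * ser b z`. Reindex by the equivalence `(i, n) ↦ (i, n - i)` of `ℤ × ℤ` and sum
first over `i` (`HasSum.prod_fiberwise` / `HasSum.sigma`).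
-/

open Filter Topology
open scoped NNReal

noncomputable section

namespace Pool.Agent.NG

variable {K : Type*} [NontriviallyNormedField K] [IsUltrametricDist K] [CompleteSpace K]

omit [IsUltrametricDist K] [CompleteSpace K] in
private lemma mul_bdd {a : ℤ → K} (ha : Decay a) (t : ℝ) : ∃ B : ℝ≥0, ∀ n, term t a n ≤ B := by
  by_cases h0 : a = 0
  · refine ⟨0, fun n => ?_⟩
    rw [h0]
    unfold term
    simp
  · obtain ⟨n, -, hn⟩ := exists_max ha h0 t
    exact ⟨_, hn⟩

omit [IsUltrametricDist K] [CompleteSpace K] in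
private lemma mul_term (a b : ℤ → K) (t : ℝ) (n i : ℤ) :
    term t a i * term t b (n - i) = ‖a i * b (n - i)‖₊ * ex (n * t) := by
  unfold term
  have h : ex ((n : ℝ) * t) = ex ((i : ℝ) * t) * ex (((n - i : ℤ) : ℝ) * t) := by
    rw [← ex_add]
    congr 1
    push_cast
    ring
  rw [h, nnnorm_mul]
  ring

/-- families which tend to zero with all members below a bound -/
private lemma mul_strict {f : ℤ → ℝ≥0} (hf : Tendsto f cofinite (𝓝 0)) {D : ℝ≥0} (hD : 0 < D)
    (h : ∀ i, f i < D) : ∃ C < D, ∀ i, f i ≤ C := by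
  have h2 : 0 < D / 2 := half_pos hD
  have h1 := hf.eventually (gt_mem_nhds h2)
  rw [eventually_cofinite] at h1
  refine ⟨max (D / 2) (h1.toFinset.sup f), ?_, fun i => ?_⟩
  · rw [max_lt_iff]
    refine ⟨half_lt_self hD, ?_⟩
    rw [Finset.sup_lt_iff hD]
    exact fun b _ => h b
  · by_cases hi : f i < D / 2
    · exact hi.le.trans (le_max_left _ _)
    · exact (Finset.le_sup (f := f) (h1.mem_toFinset.2 hi)).trans (le_max_right _ _)

omit [IsUltrametricDist K] [CompleteSpace K] in
private lemma mul_tendsto {a b : ℤ → K} (ha : Decay a) (hb : Decay b) (n : ℤ) :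
    Tendsto (fun i => a i * b (n - i)) cofinite (𝓝 0) := by
  obtain ⟨B, hB⟩ := mul_bdd hb 0
  rw [tendsto_zero_iff_norm_tendsto_zero]
  have h1 := (ha 0).mul_const B
  rw [zero_mul] at h1
  have h2 := (NNReal.continuous_coe.tendsto 0).comp h1
  rw [NNReal.coe_zero] at h2
  refine squeeze_zero (fun i => norm_nonneg _) (fun i => ?_) h2
  rw [Function.comp_apply, ← coe_nnnorm, NNReal.coe_le_coe, nnnorm_mul]
  have h3 : term 0 a i = ‖a i‖₊ := by
    unfold term
    simp
  have h4 : ‖b (n - i)‖₊ ≤ B := by
    have := hB (n - i)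
    unfold term at this
    simpa using this
  rw [h3]
  gcongr

theorem summable_conv {a b : ℤ → K} (ha : Decay a) (hb : Decay b) (n : ℤ) :
    Summable fun i => a i * b (n - i) :=
  NonarchimedeanAddGroup.summable_of_tendsto_cofinite_zero (mul_tendsto ha hb n)

theorem term_conv_le {a b : ℤ → K} (ha : Decay a) (hb : Decay b) (t : ℝ) (n : ℤ) (C : ℝ≥0)
    (h : ∀ i, term t a i * term t b (n - i) ≤ C) : term t (conv a b) n ≤ C := by
  have _ := ha
  have _ := hb
  have h1 : ‖conv a b n‖₊ ≤ C / ex (n * t) := by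
    unfold conv
    apply IsUltrametricDist.nnnorm_tsum_le_of_forall_le
    intro i
    rw [le_div_iff₀ (ex_pos _), ← mul_term]
    exact h i
  unfold term
  rw [le_div_iff₀ (ex_pos _)] at h1
  exact h1

theorem term_conv_dominant {a b : ℤ → K} (ha : Decay a) (hb : Decay b) (t : ℝ) (n i₀ : ℤ)
    (h : ∀ i, i ≠ i₀ → term t a i * term t b (n - i) < term t a i₀ * term t b (n - i₀)) :
    term t (conv a b) n = term t a i₀ * term t b (n - i₀) := by
  classical
  set D := ‖a i₀ * b (n - i₀)‖₊ with hD
  have h' : ∀ i, i ≠ i₀ → ‖a i * b (n - i)‖₊ < D := by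
    intro i hi
    have := h i hi
    rw [mul_term, mul_term] at this
    exact lt_of_mul_lt_mul_right this zero_le
  have hDpos : 0 < D := lt_of_le_of_lt zero_le (h' (i₀ + 1) (by omega))
  have hs := summable_conv ha hb n
  have h1 : conv a b n = a i₀ * b (n - i₀) +
      ∑' i, (if i = i₀ then 0 else a i * b (n - i)) := by
    unfold conv
    exact hs.tsum_eq_add_tsum_ite i₀
  have h2 : Tendsto (fun i => ‖(if i = i₀ then 0 else a i * b (n - i))‖₊) cofinite (𝓝 0) := by
    have h3 := (continuous_nnnorm.tendsto (0 : K)).comp (mul_tendsto ha hb n)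
    rw [nnnorm_zero] at h3
    refine tendsto_of_tendsto_of_tendsto_of_le_of_le tendsto_const_nhds h3 (fun _ => zero_le)
      (fun i => ?_)
    simp only [Function.comp_apply]
    split_ifs
    · rw [nnnorm_zero]
      exact zero_le
    · exact le_rfl
  obtain ⟨C, hC, hle⟩ := mul_strict h2 hDpos (fun i => by
    split_ifs with hi
    · rw [nnnorm_zero]
      exact hDpos
    · exact h' i hi)
  have h4 : ‖∑' i, (if i = i₀ then 0 else a i * b (n - i))‖₊ < D :=
    lt_of_le_of_lt (IsUltrametricDist.nnnorm_tsum_le_of_forall_le hle) hC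
  have h5 : ‖conv a b n‖₊ = D := by
    rw [h1, IsUltrametricDist.nnnorm_add_eq_max_of_nnnorm_ne_nnnorm h4.ne']
    exact max_eq_left h4.le
  rw [mul_term]
  unfold term
  rw [h5]

theorem decay_conv {a b : ℤ → K} (ha : Decay a) (hb : Decay b) : Decay (conv a b) := by
  intro t
  obtain ⟨A, hA⟩ := mul_bdd ha t
  obtain ⟨B, hB⟩ := mul_bdd hb t
  have h1 := (ha t).mul_const B
  have h2 := (hb t).const_mul A
  rw [zero_mul] at h1
  rw [mul_zero] at h2
  rw [tendsto_order]
  refine ⟨fun c hc => absurd hc not_lt_zero, fun ε hε => ?_⟩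
  have hε2 : 0 < ε / 2 := half_pos hε
  have e1 := h1.eventually (gt_mem_nhds hε2)
  have e2 := h2.eventually (gt_mem_nhds hε2)
  rw [eventually_cofinite] at e1 e2 ⊢
  refine (e1.image2 (fun i j => i + j) e2).subset fun n hn => ?_
  by_contra hcon
  apply hn
  refine lt_of_le_of_lt (term_conv_le ha hb t n (ε / 2) fun i => ?_) (half_lt_self hε)
  by_cases hi : term t a i * B < ε / 2
  · exact (mul_le_mul_right (hB (n - i)) _).trans hi.le
  · by_cases hj : A * term t b (n - i) < ε / 2
    · exact (mul_le_mul_left (hA i) _).trans hj.le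
    · exact absurd ⟨i, hi, n - i, hj, by ring⟩ hcon

theorem ser_conv {a b : ℤ → K} (ha : Decay a) (hb : Decay b) (z : Kˣ) :
    ser (conv a b) z = ser a z * ser b z := by
  have : NonarchimedeanRing K :=
    { is_nonarchimedean := NonarchimedeanAddGroup.is_nonarchimedean }
  have h1 := HasSum.mul_of_nonarchimedean (hasSum_ser ha z) (hasSum_ser hb z)
  let e : ℤ × ℤ ≃ ℤ × ℤ :=
    { toFun := fun p => (p.2, p.1 - p.2)
      invFun := fun p => (p.1 + p.2, p.1)
      left_inv := fun p => by ext <;> simp
      right_inv := fun p => by ext <;> simp }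
  have h2 := (Equiv.hasSum_iff e).2 h1
  have h3 : HasSum (fun n : ℤ => conv a b n * ((z ^ n : Kˣ) : K)) (ser a z * ser b z) := by
    refine h2.prod_fiberwise fun n => ?_
    have h4 := (summable_conv ha hb n).hasSum.mul_right ((z ^ n : Kˣ) : K)
    have h5 : (fun i : ℤ => ((fun x : ℤ × ℤ => a x.1 * ((z ^ x.1 : Kˣ) : K) *
        (b x.2 * ((z ^ x.2 : Kˣ) : K))) ∘ e) (n, i)) =
        fun i => a i * b (n - i) * ((z ^ n : Kˣ) : K) := by
      funext i
      change a i * ((z ^ i : Kˣ) : K) * (b (n - i) * ((z ^ (n - i) : Kˣ) : K)) = _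
      have h6 : ((z ^ n : Kˣ) : K) = ((z ^ i : Kˣ) : K) * ((z ^ (n - i) : Kˣ) : K) := by
        rw [← Units.val_mul, ← zpow_add, add_sub_cancel]
      rw [h6]
      ring
    rw [h5]
    exact h4
  exact h3.tsum_eq

end Pool.Agent.NG
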