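import Pool.Agent.NG.Der

/-!
# NPL: dependence of the Gauss norm on the radius (module to prove)

Let `F ≠ 0`, `a = coeff F`, `p = nplus t F`, `q = nminus t F`.

`gn_support_plus` / `_minus`: `gn t' F ≥ term t' a p = term t a p * ex (p (t' - t)) = gn t F * ex (p (t' - t))`.

`gn_right`: for `t ≤ t' ≤ t + 1` put `l = t' - t`; `term t' a n = term t a n * ex (n l)`.
For `n ≤ p`: `term t' a n ≤ gn t F * ex (p l)`. For `n > p`: by decay at `t + 1` all but finitely
many `n` satisfy `term (t + 1) a n ≤ gn t F * ex p`, and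
`term t' a n = (term t a n) ^ (1 - l) * (term (t + 1) a n) ^ l ≤ gn t F * ex (p l)`. For each of the
finitely many remaining `n > p` we have `term t a n < gn t F` strictly, so by continuity
`term t' a n ≤ gn t F * ex (p l)` for `l` small. Symmetrically `gn_left`.

`nplus_le_nminus`: for `t < t'`, `p = nplus t F` and every `n < p` : `term t' a n < term t' a p`,
because `term t a n ≤ term t a p` and `ex (n (t' - t)) < ex (p (t' - t))`. So the indices where the
maximum is attained at `t'` are `≥ p`.

`nplus_eq_nminus_right`: with the `δ` of `gn_right`, for `t < t' < t + δ` the maximum at `t'` is attained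
only at `p`: an index `n > p` with `term t' a n = gn t' F` would give `gn t'' F > gn t F * ex (p (t'' - t))`
for `t'' > t'`, contradicting `gn_right`; indices `< p` are excluded by `nplus_le_nminus`.

`continuous_gn`: continuity from the right and from the left at every `t` by `gn_right`, `gn_left`.
`continuous_mv`: quotient (`mv_eq_div`, `exists_frac`).
-/

open Filter Topology
open scoped NNReal

noncomputable section

namespace Pool.Agent.NG

variable {K : Type*} [NontriviallyNormedField K] [IsUltrametricDist K] [CompleteSpace K]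
  [IsAlgClosed K] [CharZero K]

omit [IsUltrametricDist K] [CompleteSpace K] [IsAlgClosed K] [CharZero K] in
private theorem npl_shift (t t' : ℝ) (a : ℤ → K) (n : ℤ) :
    term t' a n = term t a n * ex (n * (t' - t)) := by
  unfold term
  rw [mul_assoc, ← ex_add]
  congr 2
  ring

private theorem npl_gn_pos (t : ℝ) {F : An K} (hF : F ≠ 0) : 0 < gn t F :=
  pos_iff_ne_zero.2 fun h => hF ((gn_eq_zero t F).1 h)

private theorem npl_ex_lt {s t : ℝ} (h : s < t) : ex s < ex t := by
  rw [← NNReal.coe_lt_coe]
  simpa using h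

theorem gn_support_plus {F : An K} (hF : F ≠ 0) (t t' : ℝ) :
    gn t F * ex (nplus t F * (t' - t)) ≤ gn t' F := by
  rw [← term_nplus t hF, ← npl_shift]
  exact term_le_gn _ _ _

theorem gn_support_minus {F : An K} (hF : F ≠ 0) (t t' : ℝ) :
    gn t F * ex (nminus t F * (t' - t)) ≤ gn t' F := by
  rw [← term_nminus t hF, ← npl_shift]
  exact term_le_gn _ _ _

/-- near `t` on the right the terms of index `> nplus t F` are smaller -/
private theorem npl_core_right {F : An K} (hF : F ≠ 0) (t : ℝ) :
    ∃ δ > 0, ∀ t' ∈ Set.Icc t (t + δ), ∀ n, nplus t F < n →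
      term t' (coeff F) n < gn t F * ex (nplus t F * (t' - t)) := by
  have hg := npl_gn_pos t hF
  have hfin := finite_ge (coeff_decay F) (t + 1)
    (ε := gn t F * ex (nplus t F)) (mul_pos hg (ex_pos _))
  have hev : ∀ n ∈ {n | gn t F * ex (nplus t F) ≤ term (t + 1) (coeff F) n}, ∀ᶠ l : ℝ in 𝓝 0,
      nplus t F < n → term t (coeff F) n * ex (n * l) < gn t F * ex (nplus t F * l) := by
    intro n _
    by_cases hn : nplus t F < n
    · have h1 : Tendsto (fun l : ℝ => term t (coeff F) n * ex (n * l)) (𝓝 0)
          (𝓝 (term t (coeff F) n)) := by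
        have h2 : Continuous fun l : ℝ => term t (coeff F) n * ex (n * l) :=
          continuous_const.mul (continuous_ex.comp (continuous_const.mul continuous_id))
        have h3 := h2.tendsto 0
        simpa using h3
      have h1' : Tendsto (fun l : ℝ => gn t F * ex (nplus t F * l)) (𝓝 0) (𝓝 (gn t F)) := by
        have h2 : Continuous fun l : ℝ => gn t F * ex (nplus t F * l) :=
          continuous_const.mul (continuous_ex.comp (continuous_const.mul continuous_id))
        have h3 := h2.tendsto 0
        simpa using h3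
      filter_upwards [h1.eventually_lt h1' (lt_of_nplus_lt t hF hn)] with l hl _
      exact hl
    · exact Eventually.of_forall fun _ h => absurd h hn
  have hev2 := (eventually_all_finite hfin).2 hev
  obtain ⟨ε, hε, hε2⟩ := Metric.eventually_nhds_iff.1 hev2
  refine ⟨min (ε / 2) 1, lt_min (by linarith) one_pos, fun t' ht' n hn => ?_⟩
  have h1 : 0 ≤ t' - t := by linarith [ht'.1]
  have h2 : t' - t ≤ ε / 2 := by linarith [ht'.2, min_le_left (ε / 2) 1]
  have h3 : t' - t ≤ 1 := by linarith [ht'.2, min_le_right (ε / 2) 1]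
  by_cases hT : gn t F * ex (nplus t F) ≤ term (t + 1) (coeff F) n
  · rw [npl_shift t t']
    refine hε2 ?_ n hT hn
    rw [Real.dist_eq, sub_zero, abs_of_nonneg h1]
    linarith
  · rw [npl_shift (t + 1) t']
    calc term (t + 1) (coeff F) n * ex (n * (t' - (t + 1)))
        < gn t F * ex (nplus t F) * ex (n * (t' - (t + 1))) :=
          mul_lt_mul_of_pos_right (not_le.1 hT) (ex_pos _)
      _ = gn t F * ex (nplus t F + n * (t' - (t + 1))) := by rw [mul_assoc, ← ex_add]
      _ ≤ gn t F * ex (nplus t F * (t' - t)) := by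
          refine mul_le_mul_right ?_ _
          rw [ex_le_ex]
          have h4 : (nplus t F : ℝ) < n := by exact_mod_cast hn
          nlinarith

/-- near `t` on the left the terms of index `< nminus t F` are smaller -/
private theorem npl_core_left {F : An K} (hF : F ≠ 0) (t : ℝ) :
    ∃ δ > 0, ∀ t' ∈ Set.Icc (t - δ) t, ∀ n, n < nminus t F →
      term t' (coeff F) n < gn t F * ex (nminus t F * (t' - t)) := by
  have hg := npl_gn_pos t hF
  have hfin := finite_ge (coeff_decay F) (t - 1)
    (ε := gn t F * ex (-nminus t F)) (mul_pos hg (ex_pos _))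
  have hev : ∀ n ∈ {n | gn t F * ex (-nminus t F) ≤ term (t - 1) (coeff F) n}, ∀ᶠ l : ℝ in 𝓝 0,
      n < nminus t F → term t (coeff F) n * ex (n * l) < gn t F * ex (nminus t F * l) := by
    intro n _
    by_cases hn : n < nminus t F
    · have h1 : Tendsto (fun l : ℝ => term t (coeff F) n * ex (n * l)) (𝓝 0)
          (𝓝 (term t (coeff F) n)) := by
        have h2 : Continuous fun l : ℝ => term t (coeff F) n * ex (n * l) :=
          continuous_const.mul (continuous_ex.comp (continuous_const.mul continuous_id))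
        have h3 := h2.tendsto 0
        simpa using h3
      have h1' : Tendsto (fun l : ℝ => gn t F * ex (nminus t F * l)) (𝓝 0) (𝓝 (gn t F)) := by
        have h2 : Continuous fun l : ℝ => gn t F * ex (nminus t F * l) :=
          continuous_const.mul (continuous_ex.comp (continuous_const.mul continuous_id))
        have h3 := h2.tendsto 0
        simpa using h3
      filter_upwards [h1.eventually_lt h1' (lt_of_lt_nminus t hF hn)] with l hl _
      exact hl
    · exact Eventually.of_forall fun _ h => absurd h hn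
  have hev2 := (eventually_all_finite hfin).2 hev
  obtain ⟨ε, hε, hε2⟩ := Metric.eventually_nhds_iff.1 hev2
  refine ⟨min (ε / 2) 1, lt_min (by linarith) one_pos, fun t' ht' n hn => ?_⟩
  have h1 : t' - t ≤ 0 := by linarith [ht'.2]
  have h2 : -(ε / 2) ≤ t' - t := by linarith [ht'.1, min_le_left (ε / 2) 1]
  have h3 : -1 ≤ t' - t := by linarith [ht'.1, min_le_right (ε / 2) 1]
  by_cases hT : gn t F * ex (-nminus t F) ≤ term (t - 1) (coeff F) n
  · rw [npl_shift t t']
    refine hε2 ?_ n hT hn
    rw [Real.dist_eq, sub_zero, abs_of_nonpos h1]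
    linarith
  · rw [npl_shift (t - 1) t']
    calc term (t - 1) (coeff F) n * ex (n * (t' - (t - 1)))
        < gn t F * ex (-nminus t F) * ex (n * (t' - (t - 1))) :=
          mul_lt_mul_of_pos_right (not_le.1 hT) (ex_pos _)
      _ = gn t F * ex (-nminus t F + n * (t' - (t - 1))) := by rw [mul_assoc, ← ex_add]
      _ ≤ gn t F * ex (nminus t F * (t' - t)) := by
          refine mul_le_mul_right ?_ _
          rw [ex_le_ex]
          have h4 : (n : ℝ) < nminus t F := by exact_mod_cast hn
          nlinarith

private theorem npl_right_aux {F : An K} (hF : F ≠ 0) {t t' : ℝ} (h : t ≤ t')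
    (h2 : ∀ n, nplus t F < n → term t' (coeff F) n < gn t F * ex (nplus t F * (t' - t))) :
    gn t' F = gn t F * ex (nplus t F * (t' - t)) := by
  refine le_antisymm (gn_le _ _ _ fun n => ?_) (gn_support_plus hF t t')
  rcases lt_or_ge (nplus t F) n with hn | hn
  · exact (h2 n hn).le
  · rw [npl_shift t t']
    refine mul_le_mul' (term_le_gn _ _ _) ?_
    rw [ex_le_ex]
    have h3 : (n : ℝ) ≤ nplus t F := by exact_mod_cast hn
    nlinarith

private theorem npl_left_aux {F : An K} (hF : F ≠ 0) {t t' : ℝ} (h : t' ≤ t)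
    (h2 : ∀ n, n < nminus t F → term t' (coeff F) n < gn t F * ex (nminus t F * (t' - t))) :
    gn t' F = gn t F * ex (nminus t F * (t' - t)) := by
  refine le_antisymm (gn_le _ _ _ fun n => ?_) (gn_support_minus hF t t')
  rcases lt_or_ge n (nminus t F) with hn | hn
  · exact (h2 n hn).le
  · rw [npl_shift t t']
    refine mul_le_mul' (term_le_gn _ _ _) ?_
    rw [ex_le_ex]
    have h3 : (nminus t F : ℝ) ≤ n := by exact_mod_cast hn
    nlinarith

theorem gn_right {F : An K} (hF : F ≠ 0) (t : ℝ) :
    ∃ δ > 0, ∀ t' ∈ Set.Icc t (t + δ), gn t' F = gn t F * ex (nplus t F * (t' - t)) := by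
  obtain ⟨δ, hδ, h⟩ := npl_core_right hF t
  exact ⟨δ, hδ, fun t' ht' => npl_right_aux hF ht'.1 (h t' ht')⟩

theorem gn_left {F : An K} (hF : F ≠ 0) (t : ℝ) :
    ∃ δ > 0, ∀ t' ∈ Set.Icc (t - δ) t, gn t' F = gn t F * ex (nminus t F * (t' - t)) := by
  obtain ⟨δ, hδ, h⟩ := npl_core_left hF t
  exact ⟨δ, hδ, fun t' ht' => npl_left_aux hF ht'.2 (h t' ht')⟩

private theorem npl_lt_right {F : An K} (hF : F ≠ 0) {t t' : ℝ} (h : t < t') {n : ℤ}
    (hn : n < nplus t F) : term t' (coeff F) n < gn t F * ex (nplus t F * (t' - t)) := by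
  rw [npl_shift t t']
  refine mul_lt_mul_of_le_of_lt_of_nonneg_of_pos (term_le_gn _ _ _) (npl_ex_lt ?_) zero_le
    (npl_gn_pos t hF)
  have h3 : (n : ℝ) < nplus t F := by exact_mod_cast hn
  nlinarith

private theorem npl_lt_left {F : An K} (hF : F ≠ 0) {t t' : ℝ} (h : t' < t) {n : ℤ}
    (hn : nminus t F < n) : term t' (coeff F) n < gn t F * ex (nminus t F * (t' - t)) := by
  rw [npl_shift t t']
  refine mul_lt_mul_of_le_of_lt_of_nonneg_of_pos (term_le_gn _ _ _) (npl_ex_lt ?_) zero_le
    (npl_gn_pos t hF)
  have h3 : (nminus t F : ℝ) < n := by exact_mod_cast hn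
  nlinarith

theorem nplus_le_nminus {F : An K} (hF : F ≠ 0) {t t' : ℝ} (h : t < t') :
    nplus t F ≤ nminus t' F := by
  by_contra hcon
  have h1 := npl_lt_right hF h (not_le.1 hcon)
  rw [term_nminus t' hF] at h1
  exact absurd h1 (not_lt.2 (gn_support_plus hF t t'))

theorem nplus_eq_nminus_right {F : An K} (hF : F ≠ 0) (t : ℝ) :
    ∃ δ > 0, ∀ t' ∈ Set.Ioo t (t + δ), nplus t' F = nplus t F ∧ nminus t' F = nplus t F := by
  obtain ⟨δ, hδ, h⟩ := npl_core_right hF t
  refine ⟨δ, hδ, fun t' ht' => ?_⟩
  have h1 := h t' ⟨ht'.1.le, ht'.2.le⟩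
  have h2 := npl_right_aux hF ht'.1.le h1
  have h3 : term t' (coeff F) (nplus t F) = gn t' F := by
    rw [npl_shift t t', term_nplus t hF, h2]
  refine ⟨nplus_eq t' hF _ h3 fun m hm => ?_, nminus_eq t' hF _ h3 fun m hm => ?_⟩
  · rw [h2]
    exact h1 m hm
  · rw [h2]
    exact npl_lt_right hF ht'.1 hm

theorem nplus_eq_nminus_left {F : An K} (hF : F ≠ 0) (t : ℝ) :
    ∃ δ > 0, ∀ t' ∈ Set.Ioo (t - δ) t, nplus t' F = nminus t F ∧ nminus t' F = nminus t F := by
  obtain ⟨δ, hδ, h⟩ := npl_core_left hF t
  refine ⟨δ, hδ, fun t' ht' => ?_⟩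
  have h1 := h t' ⟨ht'.1.le, ht'.2.le⟩
  have h2 := npl_left_aux hF ht'.2.le h1
  have h3 : term t' (coeff F) (nminus t F) = gn t' F := by
    rw [npl_shift t t', term_nminus t hF, h2]
  refine ⟨nplus_eq t' hF _ h3 fun m hm => ?_, nminus_eq t' hF _ h3 fun m hm => ?_⟩
  · rw [h2]
    exact npl_lt_left hF ht'.2 hm
  · rw [h2]
    exact h1 m hm

/-- If the two indices at the ends of an interval agree, the norm is a monomial on it. -/
theorem gn_of_nplus_eq {F : An K} (hF : F ≠ 0) {t₁ t₂ : ℝ} (h : nplus t₂ F = nminus t₁ F)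
    {t t' : ℝ} (ht : t ∈ Set.Icc t₁ t₂) (ht' : t' ∈ Set.Icc t₁ t₂) :
    gn t' F = gn t F * ex (nminus t₁ F * (t' - t)) := by
  have key : ∀ u ∈ Set.Icc t₁ t₂, term u (coeff F) (nminus t₁ F) = gn u F := by
    intro u hu
    rcases eq_or_lt_of_le hu.1 with h1 | h1
    · rw [← h1]
      exact term_nminus t₁ hF
    · rcases eq_or_lt_of_le hu.2 with h2 | h2
      · rw [h2, ← h]
        exact term_nplus t₂ hF
      · have e1 := nplus_le_nminus hF h1
        have e2 := nplus_le_nminus hF h2
        have e3 := nminus_le_nplus t₁ hF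
        have e4 := nminus_le_nplus u hF
        have e5 := nminus_le_nplus t₂ hF
        have e6 : nminus t₁ F = nminus u F := by omega
        rw [e6]
        exact term_nminus u hF
  rw [← key t' ht', ← key t ht]
  exact npl_shift _ _ _ _

theorem continuous_gn (F : An K) : Continuous fun t => gn t F := by
  by_cases hF : F = 0
  · have h : (fun t => gn t F) = fun _ => 0 := by
      funext t
      exact (gn_eq_zero t F).2 hF
    rw [h]
    exact continuous_const
  · rw [continuous_iff_continuousAt]
    intro t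
    rw [continuousAt_iff_continuous_left_right]
    constructor
    · obtain ⟨δ, hδ, h⟩ := gn_left hF t
      have h1 : ContinuousWithinAt (fun t' => gn t F * ex (nminus t F * (t' - t))) (Set.Iic t) t :=
        (continuous_const.mul (continuous_ex.comp (continuous_const.mul
          (continuous_id.sub continuous_const)))).continuousWithinAt
      refine h1.congr_of_eventuallyEq ?_ ?_
      · have h2 : Set.Icc (t - δ) t ∈ 𝓝[≤] t := Icc_mem_nhdsLE (by linarith)
        filter_upwards [h2] with t' ht'
        exact h t' ht'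
      · exact h t ⟨by linarith, le_rfl⟩
    · obtain ⟨δ, hδ, h⟩ := gn_right hF t
      have h1 : ContinuousWithinAt (fun t' => gn t F * ex (nplus t F * (t' - t))) (Set.Ici t) t :=
        (continuous_const.mul (continuous_ex.comp (continuous_const.mul
          (continuous_id.sub continuous_const)))).continuousWithinAt
      refine h1.congr_of_eventuallyEq ?_ ?_
      · have h2 : Set.Icc t (t + δ) ∈ 𝓝[≥] t := Icc_mem_nhdsGE (by linarith)
        filter_upwards [h2] with t' ht'
        exact h t' ht'
      · exact h t ⟨le_rfl, by linarith⟩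

theorem continuous_mv (h : Mer K) : Continuous fun t => mv t h := by
  obtain ⟨F, G, hG, e⟩ := exists_frac h
  have h1 : (fun t => mv t h) = fun t => gn t F / gn t G := by
    funext t
    exact mv_eq_div t hG e
  rw [h1]
  exact (continuous_gn F).div₀ (continuous_gn G) fun t h2 => hG ((gn_eq_zero t G).1 h2)

end Pool.Agent.NG
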