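import Pool.Agent.NG.Fip

/-!
# NG REGIONS: neighbourhoods of a curve (module to prove)

`A := chart K x i`. By `eventually_le` for the ratios `x_j / x_i ∈ A` and `eventually_ge` for `c.b ∉ ML` there are `R`, `β > 0` with
`{t | ∀ j, mv t (ι (x_j / x_i)) ≤ R} ∈ cenF`, `{t | β ≤ mv t (ι b)} ∈ cenF`. Put
  `T₀ := {t | (∀ j, mv t (ι (x_j / x_i)) < R + 1) ∧ β / 2 < mv t (ι b)}`, open by `continuous_mv`,
  `T₁ := {t | (∀ j, mv t (ι (x_j / x_i)) ≤ R + 1) ∧ β / 2 ≤ mv t (ι b)}`, closed.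
`BdOn S.ι T₁ A` by `bdOn_adjoin`, and `BdOn S.ι T₁ c.B` since `g ∈ B` means `b ^ n g ∈ A` and `b⁻¹` is bounded on `T₁`.
Last property: if it fails, for every `n : ℕ` there is `t_n ∈ T₁`, `t_n ∉ T₀` with `mv t_n (ι s) ≤ 1 / (n + 1)`; let `u` be the image of the hyperfilter on `ℕ` under
`n ↦ t_n`. `A` is bounded along `u`; let `p'` be its centre (`exists_cen`). `s` tends to zero and the elements of `B` are bounded along `u`, so `p ≤ p'` (`c.p_sub`); not `p < p'`, otherwise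
`p'` is a point (`isPoint_of_lt`, `no_point`). So `Cen u A p`, hence `T₀ ∈ u` (`mem_cenF`), but `t_n ∉ T₀` for all `n`.
-/

set_option linter.unusedSectionVars false

open Filter Topology
open scoped NNReal KaehlerDifferential

noncomputable section

namespace Pool.Agent.NG

variable {K : Type*} [NontriviallyNormedField K] [IsUltrametricDist K] [CompleteSpace K]
  [IsAlgClosed K] [CharZero K] {L : Type*} [Field L] [Algebra K L] {N : ℕ}

variable {x : Fin (N + 1) → L} {f : Fin (N + 1) → An K}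

theorem exists_regions (S : Flow x f) {i : Fin (N + 1)} (hi : x i ≠ 0)
    {p : Ideal (chart K x i)} [p.IsPrime] (hp : p ≠ ⊥) (hn : ¬ IsPoint K (chart K x i) p)
    (c : Curve K (chart K x i) p S.θ₂) :
    ∃ (T₀ T₁ : Set ℝ) (ε : ℝ≥0), IsOpen T₀ ∧ IsClosed T₁ ∧ T₀ ⊆ T₁ ∧ BdOn S.ι T₁ c.B ∧
      T₀ ∈ cenF S.ι (chart K x i) p ∧ 0 < ε ∧ ∀ t ∈ T₁, mv t (S.ι c.s) ≤ ε → t ∈ T₀ := by
  have hA : Surf K (chart K x i) := surf_chart S.surf hi
  have hpr : p.IsPrime := inferInstance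
  have h1p : (1 : chart K x i) ∉ p := fun h => hpr.ne_top ((Ideal.eq_top_iff_one p).2 h)
  have hratA : ∀ j, x j / x i ∈ chart K x i := fun j => Algebra.subset_adjoin ⟨j, rfl⟩
  have hAO : ∀ a ∈ chart K x i, a ∈ OL K (chart K x i) p := fun a ha =>
    ⟨⟨a, ha⟩, 1, h1p, by simp⟩
  -- the constants
  choose R' hR' using fun j => eventually_le S hi hp hn (hAO _ (hratA j))
  obtain ⟨R, hR⟩ : ∃ R : ℝ≥0, ∀ j, R' j ≤ R :=
    ⟨Finset.univ.sup R', fun j => Finset.le_sup (Finset.mem_univ j)⟩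
  have hbML : (c.b : L) ∉ ML K (chart K x i) p := by
    rintro ⟨a, d, ha, hd, e⟩
    have h1 : c.b * d = a := Subtype.ext (by push_cast; exact e)
    rw [← h1] at ha
    rcases hpr.mem_or_mem ha with h | h
    · exact c.hb h
    · exact hd h
  obtain ⟨β, hβ, hβF⟩ := eventually_ge S hi hp hn hbML
  have hβ2 : (0 : ℝ≥0) < β / 2 := half_pos hβ
  set T₀ : Set ℝ := {t | (∀ j, mv t (S.ι (x j / x i)) < R + 1) ∧ β / 2 < mv t (S.ι (c.b : L))}
    with hT₀
  set T₁ : Set ℝ := {t | (∀ j, mv t (S.ι (x j / x i)) ≤ R + 1) ∧ β / 2 ≤ mv t (S.ι (c.b : L))}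
    with hT₁
  have hopen : IsOpen T₀ := by
    have h1 : T₀ = (⋂ j, {t | mv t (S.ι (x j / x i)) < R + 1}) ∩
        {t | β / 2 < mv t (S.ι (c.b : L))} := by
      ext t
      simp [hT₀]
    rw [h1]
    exact (isOpen_iInter_of_finite fun j => isOpen_lt (continuous_mv _) continuous_const).inter
      (isOpen_lt continuous_const (continuous_mv _))
  have hclosed : IsClosed T₁ := by
    have h1 : T₁ = (⋂ j, {t | mv t (S.ι (x j / x i)) ≤ R + 1}) ∩
        {t | β / 2 ≤ mv t (S.ι (c.b : L))} := by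
      ext t
      simp [hT₁]
    rw [h1]
    exact (isClosed_iInter fun j => isClosed_le (continuous_mv _) continuous_const).inter
      (isClosed_le continuous_const (continuous_mv _))
  have hsub : T₀ ⊆ T₁ := fun t ht => ⟨fun j => (ht.1 j).le, ht.2.le⟩
  have hbdA : BdOn S.ι T₁ (chart K x i) := by
    apply bdOn_adjoin
    rintro g ⟨j, rfl⟩
    exact ⟨R + 1, fun t ht => ht.1 j⟩
  have hbdB : BdOn S.ι T₁ c.B := by
    intro g hg
    obtain ⟨n, hn'⟩ := (c.memB g).1 hg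
    obtain ⟨C, hC⟩ := hbdA _ hn'
    refine ⟨C / (β / 2) ^ n, fun t ht => ?_⟩
    rw [le_div_iff₀ (pow_pos hβ2 n)]
    have h1 := hC t ht
    rw [map_mul, map_pow, mv_mul, mv_pow] at h1
    calc mv t (S.ι g) * (β / 2) ^ n ≤ mv t (S.ι g) * mv t (S.ι (c.b : L)) ^ n := by
          gcongr
          exact ht.2
      _ = mv t (S.ι (c.b : L)) ^ n * mv t (S.ι g) := mul_comm _ _
      _ ≤ C := h1
  have hTF : T₀ ∈ cenF S.ι (chart K x i) p := by
    have h1 : ∀ᶠ t in cenF S.ι (chart K x i) p, ∀ j, mv t (S.ι (x j / x i)) ≤ R' j :=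
      Filter.eventually_all.2 hR'
    filter_upwards [h1, hβF] with t ht1 ht2
    refine ⟨fun j => ((ht1 j).trans (hR j)).trans_lt (lt_add_one R), ?_⟩
    exact (half_lt_self hβ).trans_le ht2
  refine ⟨T₀, T₁, ?_⟩
  by_contra hcon
  have hcon' : ∀ ε : ℝ≥0, 0 < ε → ∃ t ∈ T₁, mv t (S.ι c.s) ≤ ε ∧ t ∉ T₀ := by
    intro ε hε
    by_contra h
    push Not at h
    exact hcon ⟨ε, hopen, hclosed, hsub, hbdB, hTF, hε, h⟩
  have hpos : ∀ n : ℕ, (0 : ℝ≥0) < 1 / ((n : ℝ≥0) + 1) := fun n => by positivity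
  choose τ hτ1 hτ2 hτ3 using fun n : ℕ => hcon' _ (hpos n)
  set u : Ultrafilter ℝ := Ultrafilter.map τ (Filter.hyperfilter ℕ) with hu
  have hmem : ∀ T : Set ℝ, T ∈ u ↔ τ ⁻¹' T ∈ Filter.hyperfilter ℕ := fun T => Ultrafilter.mem_map
  have hT1u : T₁ ∈ u := by
    rw [hmem]
    exact Filter.mem_of_superset Filter.univ_mem fun n _ => hτ1 n
  have htz : Tz S.ι u c.s := by
    intro ε hε
    change {t | mv t (S.ι c.s) < ε} ∈ u
    rw [hmem]
    obtain ⟨n0, hn0⟩ := exists_nat_one_div_lt (show (0 : ℝ) < (ε : ℝ) from hε)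
    have h1 : {n : ℕ | n0 ≤ n} ∈ (Filter.hyperfilter ℕ : Filter ℕ) := by
      apply Filter.hyperfilter_le_cofinite
      rw [Nat.cofinite_eq_atTop]
      exact Filter.eventually_ge_atTop n0
    refine Filter.mem_of_superset h1 fun n hn1 => ?_
    change mv (τ n) (S.ι c.s) < ε
    refine (hτ2 n).trans_lt ?_
    rw [← NNReal.coe_lt_coe]
    push_cast
    refine lt_of_le_of_lt ?_ hn0
    have h2 : (n0 : ℝ) ≤ n := by exact_mod_cast hn1
    apply one_div_le_one_div_of_le (by positivity)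
    linarith
  obtain ⟨p', hp'pr, hcen'⟩ := exists_cen (bd_of_bdOn hbdA hT1u)
  haveI := hp'pr
  have hreg : S.θ₁ ∈ regA K (chart K x i) := S.reg₁ i hi
  have hnp : ¬ IsPoint K (chart K x i) p' := no_point hcen' S.flow hreg S.h11
  have hle : p ≤ p' := by
    intro h hh
    rw [← hcen'.2 h]
    obtain ⟨v, hv, e⟩ := c.p_sub h hh
    rw [e]
    exact htz.mul_bd (bd_of_bdOn hbdB hT1u v hv)
  have hpp : p = p' := by
    by_contra hne
    exact hnp (isPoint_of_lt hA hp (lt_of_le_of_ne hle hne))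
  subst hpp
  have h1 : T₀ ∈ u := mem_cenF.1 hTF u hcen'
  rw [hmem] at h1
  obtain ⟨n, hn1⟩ := (Filter.hyperfilter ℕ).neBot.nonempty_of_mem h1
  exact hτ3 n hn1

end Pool.Agent.NG
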