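import Pool.Agent.NG.Sum

/-!
# UNI: the coefficients of a Laurent series are unique (module to prove)

`ser_eq_zero`: suppose `ser a z = 0` for all `z` and `a ≠ 0`. Take `t = 0`: the maximum
`M > 0` of the `‖a n‖₊` is attained exactly on a finite nonempty set `S` (`exists_max`,
`finite_ge`). Choose a prime number `l` with `‖(l : K)‖ = 1` (at least one of `2`, `3` works: if
`‖2‖ < 1` and `‖3‖ < 1` then `‖1‖ = ‖3 - 2‖ < 1`; norms of integers are at most `1`) and `e` such that
`N = l ^ e` is larger than all differences of elements of `S`. `K` is algebraically closed and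
`N ≠ 0` in `K`, so there is a primitive `N`-th root of unity `ζ` (`HasEnoughRootsOfUnity`, or
`IsAlgClosed` instances, or `IsSepClosed`), and for an integer `k` the sum of the `ζ ^ (j k)`,
`j < N`, is `N` if `N` divides `k` and `0` otherwise (geometric sum). Fix `m` in `S`. Then

`0 = ∑_{j < N} ζ ^ (- j m) ser a (ζ ^ j) = N * ∑_{n ≡ m mod N} a n`

(exchange of a finite sum with the infinite sum). Among the indices `n ≡ m` modulo `N` only `m`
lies in `S`, all other coefficients have norm strictly less than `M`, and these norms tend to zero,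
so the sum over the `n ≠ m` has norm `< M` and the whole sum has norm `M ≠ 0`. Contradiction.

(Any other proof is fine, for example with the residue field, which is infinite.)
-/

open Filter Topology
open scoped NNReal

noncomputable section

namespace Pool.Agent.NG

variable {K : Type*} [NontriviallyNormedField K] [IsUltrametricDist K] [CompleteSpace K]
  [IsAlgClosed K] [CharZero K]

/-- families which tend to zero with all members below a bound -/
private lemma uni_strict {f : ℤ → ℝ≥0} (hf : Tendsto f cofinite (𝓝 0)) {D : ℝ≥0} (hD : 0 < D)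
    (h : ∀ i, f i < D) : ∃ C < D, ∀ i, f i ≤ C := by
  have h2 : 0 < D / 2 := half_pos hD
  have h1 := hf.eventually (gt_mem_nhds h2)
  rw [eventually_cofinite] at h1
  refine ⟨max (D / 2) (h1.toFinset.sup f), ?_, fun i => ?_⟩
  · rw [max_lt_iff]
    refine ⟨half_lt_self hD, ?_⟩
    rw [Finset.sup_lt_iff hD]
    exact fun b _ => h b
  · by_cases hi : f i < D / 2
    · exact hi.le.trans (le_max_left _ _)
    · exact (Finset.le_sup (f := f) (h1.mem_toFinset.2 hi)).trans (le_max_right _ _)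

/-- a dominant member of a summable family -/
private lemma uni_dominant {f : ℤ → K} (hf : Summable f) (m : ℤ)
    (h : ∀ n, n ≠ m → ‖f n‖₊ < ‖f m‖₊) : ∑' n, f n ≠ 0 := by
  classical
  have hD : 0 < ‖f m‖₊ := lt_of_le_of_lt zero_le (h (m + 1) (by omega))
  rw [hf.tsum_eq_add_tsum_ite m]
  have h2 : Tendsto (fun i => ‖(if i = m then 0 else f i)‖₊) cofinite (𝓝 0) := by
    have h3 := (continuous_nnnorm.tendsto (0 : K)).comp hf.tendsto_cofinite_zero
    rw [nnnorm_zero] at h3
    refine tendsto_of_tendsto_of_tendsto_of_le_of_le tendsto_const_nhds h3 (fun _ => zero_le)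
      (fun i => ?_)
    simp only [Function.comp_apply]
    split_ifs
    · rw [nnnorm_zero]
      exact zero_le
    · exact le_rfl
  obtain ⟨C, hC, hle⟩ := uni_strict h2 hD (fun i => by
    split_ifs with hi
    · rw [nnnorm_zero]
      exact hD
    · exact h i hi)
  have h4 : ‖∑' i, (if i = m then 0 else f i)‖₊ < ‖f m‖₊ :=
    lt_of_le_of_lt (IsUltrametricDist.nnnorm_tsum_le_of_forall_le hle) hC
  intro h0
  have h5 := IsUltrametricDist.nnnorm_add_eq_max_of_nnnorm_ne_nnnorm h4.ne'
  rw [h0, nnnorm_zero, max_eq_left h4.le] at h5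
  exact hD.ne h5

private lemma uni_geom {ζ : Kˣ} {N : ℕ} (hζ : IsPrimitiveRoot (ζ : K) N) (k : ℤ) :
    ∑ j ∈ Finset.range N, ((ζ ^ ((j : ℤ) * k) : Kˣ) : K) = if (N : ℤ) ∣ k then (N : K) else 0 := by
  have h1 : ∀ j : ℕ, ((ζ ^ ((j : ℤ) * k) : Kˣ) : K) = (((ζ : K)) ^ k) ^ j := by
    intro j
    rw [Units.val_zpow_eq_zpow_val, mul_comm, zpow_mul, zpow_natCast]
  rw [Finset.sum_congr rfl fun j _ => h1 j]
  split_ifs with h
  · rw [(hζ.zpow_eq_one_iff_dvd k).2 h]
    simp
  · have h2 : (ζ : K) ^ k ≠ 1 := fun h3 => h ((hζ.zpow_eq_one_iff_dvd k).1 h3)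
    have h4 := geom_sum_mul ((ζ : K) ^ k) N
    have h5 : ((ζ : K) ^ k) ^ N = 1 := by
      rw [← zpow_natCast, ← zpow_mul, mul_comm, zpow_mul, zpow_natCast, hζ.pow_eq_one, one_zpow]
    rw [h5, sub_self] at h4
    exact (mul_eq_zero.1 h4).resolve_right (sub_ne_zero.2 h2)

theorem ser_eq_zero {a : ℤ → K} (ha : Decay a) (h : ∀ z, ser a z = 0) : a = 0 := by
  classical
  funext m
  by_contra hm
  have hm' : a m ≠ 0 := hm
  have hpos : 0 < term 0 a m := by
    unfold term
    exact mul_pos (nnnorm_pos.2 hm') (ex_pos _)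
  have hfin := finite_ge ha 0 hpos
  obtain ⟨N, hN0, hN⟩ : ∃ N : ℕ, 0 < N ∧ ∀ n ∈ {n | term 0 a m ≤ term 0 a n}, (n - m).natAbs < N := by
    refine ⟨hfin.toFinset.sup (fun n => (n - m).natAbs) + 1, Nat.succ_pos _, fun n hn => ?_⟩
    exact Nat.lt_succ_of_le (Finset.le_sup (f := fun n : ℤ => (n - m).natAbs)
      (hfin.mem_toFinset.2 hn))
  have hNK : (N : K) ≠ 0 := Nat.cast_ne_zero.2 hN0.ne'
  have : NeZero (N : K) := ⟨hNK⟩
  have : NeZero N := ⟨hN0.ne'⟩
  obtain ⟨ζ₀, hζ₀⟩ := HasEnoughRootsOfUnity.exists_primitiveRoot K N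
  obtain ⟨ζ, rfl⟩ := hζ₀.isUnit hN0.ne'
  -- averaging
  have h1 : ∀ j : ℕ, HasSum (fun n : ℤ => a n * ((ζ ^ ((j : ℤ) * (n - m)) : Kˣ) : K)) 0 := by
    intro j
    have h2 := hasSum_ser ha (ζ ^ (j : ℤ))
    rw [h] at h2
    have h3 := h2.mul_right ((ζ ^ (-((j : ℤ) * m)) : Kˣ) : K)
    rw [zero_mul] at h3
    have h4 : (fun n : ℤ => a n * (((ζ ^ (j : ℤ)) ^ n : Kˣ) : K) *
        ((ζ ^ (-((j : ℤ) * m)) : Kˣ) : K)) =
        fun n : ℤ => a n * ((ζ ^ ((j : ℤ) * (n - m)) : Kˣ) : K) := by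
      funext n
      rw [mul_assoc, ← Units.val_mul, ← zpow_mul, ← zpow_add]
      congr 3
      ring
    rw [h4] at h3
    exact h3
  have h5 := hasSum_sum (s := Finset.range N) (fun j _ => h1 j)
  rw [Finset.sum_const_zero] at h5
  have h6 : (fun n : ℤ => ∑ j ∈ Finset.range N, a n * ((ζ ^ ((j : ℤ) * (n - m)) : Kˣ) : K)) =
      fun n : ℤ => if (N : ℤ) ∣ n - m then (N : K) * a n else 0 := by
    funext n
    rw [← Finset.mul_sum, uni_geom hζ₀]
    split_ifs
    · ring
    · ring
  rw [h6] at h5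
  refine uni_dominant h5.summable m (fun n hn => ?_) h5.tsum_eq
  rw [sub_self, if_pos (dvd_zero _)]
  have hpos2 : 0 < ‖(N : K) * a m‖₊ := nnnorm_pos.2 (mul_ne_zero hNK hm')
  split_ifs with hd
  · have h7 : n ∉ {n | term 0 a m ≤ term 0 a n} := by
      intro h8
      have h9 := hN n h8
      have h10 : (n - m).natAbs = 0 := by
        apply Nat.eq_zero_of_dvd_of_lt _ h9
        exact Int.natCast_dvd.1 hd
      exact hn (by omega)
    have h11 : term 0 a n < term 0 a m := not_le.1 h7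
    have h12 : ‖a n‖₊ < ‖a m‖₊ := by
      unfold term at h11
      simpa using h11
    rw [nnnorm_mul, nnnorm_mul]
    exact mul_lt_mul_of_pos_left h12 (nnnorm_pos.2 hNK)
  · rw [nnnorm_zero]
    exact hpos2

end Pool.Agent.NG
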