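import Pool.Agent.NG.Mul
import Pool.Agent.NG.Uni

/-!
# The ring of analytic functions on `G_m` (definitions, proved by helper31)

`An K` is the ring of all everywhere convergent Laurent series, as a subalgebra of the algebra of
functions on `K^*`.
-/

open Filter Topology
open scoped NNReal

set_option linter.unusedSectionVars false

noncomputable section

namespace Pool.Agent.NG

variable (K : Type*) [NontriviallyNormedField K] [IsUltrametricDist K] [CompleteSpace K]
  [IsAlgClosed K] [CharZero K]

/-- The ring of everywhere convergent Laurent series. -/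
def An : Subalgebra K (Kˣ → K) where
  carrier := {F | IsAn F}
  add_mem' := by
    intro F G hF hG
    obtain ⟨a, ha⟩ := hF
    obtain ⟨b, hb⟩ := hG
    refine ⟨a + b, fun z => ?_⟩
    have := (ha z).add (hb z)
    simpa [add_mul] using this
  mul_mem' := by
    intro F G hF hG
    obtain ⟨a, ha, ha2⟩ := (isAn_iff F).1 hF
    obtain ⟨b, hb, hb2⟩ := (isAn_iff G).1 hG
    exact (isAn_iff _).2 ⟨conv a b, decay_conv ha hb, fun z => by
      rw [ser_conv ha hb, Pi.mul_apply, ha2, hb2]⟩
  algebraMap_mem' := by
    intro c
    refine (isAn_iff _).2 ⟨Pi.single 0 c, decay_single 0 c, fun z => ?_⟩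
    rw [ser_single]
    simp

variable {K}

/-- The coefficients of an analytic function. -/
def coeff (F : An K) : ℤ → K := ((isAn_iff F.1).1 F.2).choose

theorem coeff_decay (F : An K) : Decay (coeff F) := ((isAn_iff F.1).1 F.2).choose_spec.1

theorem ser_coeff (F : An K) (z : Kˣ) : ser (coeff F) z = F.1 z :=
  (((isAn_iff F.1).1 F.2).choose_spec.2 z).symm

omit [IsAlgClosed K] [CharZero K] in
theorem ser_sub {a b : ℤ → K} (ha : Decay a) (hb : Decay b) (z : Kˣ) :
    ser (a - b) z = ser a z - ser b z := by
  have h1 : a - b = a + (-1 : K) • b := by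
    funext n
    simp [sub_eq_add_neg]
  have h2 : ser ((-1 : K) • b) z = - ser b z := by
    have h3 := hasSum_ser hb z
    have h4 : HasSum (fun n : ℤ => ((-1 : K) • b) n * ((z ^ n : Kˣ) : K)) (- ser b z) := by
      have := h3.neg
      simpa using this
    exact h4.tsum_eq
  rw [h1, ser_add ha (hb.smul _), h2, sub_eq_add_neg]

theorem coeff_unique {F : An K} {a : ℤ → K} (ha : Decay a) (h : ∀ z, F.1 z = ser a z) :
    coeff F = a := by
  have h1 : Decay (coeff F - a) := by
    have h2 : coeff F - a = coeff F + (-1 : K) • a := by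
      funext n
      simp [sub_eq_add_neg]
    rw [h2]
    exact (coeff_decay F).add (ha.smul _)
  have h3 : coeff F - a = 0 := by
    refine ser_eq_zero h1 fun z => ?_
    rw [ser_sub (coeff_decay F) ha, ser_coeff, h, sub_self]
  exact sub_eq_zero.1 h3

/-- The function with given coefficients. -/
def ofCoeff (a : ℤ → K) (h : Decay a) : An K := ⟨ser a, (isAn_iff _).2 ⟨a, h, fun _ => rfl⟩⟩

@[simp] theorem ofCoeff_apply (a : ℤ → K) (h : Decay a) (z : Kˣ) : (ofCoeff a h).1 z = ser a z :=
  rfl

@[simp] theorem coeff_ofCoeff (a : ℤ → K) (h : Decay a) : coeff (ofCoeff a h) = a :=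
  coeff_unique h fun _ => rfl

theorem An.ext' {F G : An K} (h : ∀ z, F.1 z = G.1 z) : F = G := Subtype.ext (funext h)

theorem coeff_injective {F G : An K} (h : coeff F = coeff G) : F = G := by
  refine An.ext' fun z => ?_
  rw [← ser_coeff, ← ser_coeff, h]

theorem coeff_add (F G : An K) : coeff (F + G) = coeff F + coeff G :=
  coeff_unique ((coeff_decay F).add (coeff_decay G)) fun z => by
    rw [ser_add (coeff_decay F) (coeff_decay G), ser_coeff, ser_coeff]
    rfl

theorem coeff_sub (F G : An K) : coeff (F - G) = coeff F - coeff G := by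
  have h := coeff_add (F - G) G
  rw [sub_add_cancel] at h
  rw [h, add_sub_cancel_right]

theorem coeff_mul (F G : An K) : coeff (F * G) = conv (coeff F) (coeff G) :=
  coeff_unique (decay_conv (coeff_decay F) (coeff_decay G)) fun z => by
    rw [ser_conv (coeff_decay F) (coeff_decay G), ser_coeff, ser_coeff]
    rfl

theorem coeff_smul (c : K) (F : An K) : coeff (c • F) = c • coeff F := by
  refine coeff_unique ((coeff_decay F).smul c) fun z => ?_
  have h3 := hasSum_ser (coeff_decay F) z
  have h4 : HasSum (fun n : ℤ => (c • coeff F) n * ((z ^ n : Kˣ) : K)) (c * ser (coeff F) z) := by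
    have := h3.mul_left c
    simpa [mul_assoc] using this
  have h5 : ser (c • coeff F) z = c * ser (coeff F) z := h4.tsum_eq
  rw [h5, ser_coeff]
  rfl

theorem coeff_algebraMap (c : K) : coeff (algebraMap K (An K) c) = Pi.single 0 c := by
  refine coeff_unique (decay_single 0 c) fun z => ?_
  rw [ser_single]
  simp

theorem coeff_one : coeff (1 : An K) = Pi.single 0 1 := by
  rw [← map_one (algebraMap K (An K)), coeff_algebraMap]

theorem coeff_zero : coeff (0 : An K) = 0 := by
  rw [← map_zero (algebraMap K (An K)), coeff_algebraMap]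
  simp

theorem coeff_eq_zero {F : An K} : coeff F = 0 ↔ F = 0 := by
  constructor
  · intro h
    apply coeff_injective
    rw [h, coeff_zero]
  · rintro rfl
    exact coeff_zero

/-- The coordinate function. -/
def Zc : An K := ofCoeff (Pi.single 1 1) (decay_single 1 1)

@[simp] theorem Zc_apply (z : Kˣ) : (Zc : An K).1 z = z := by
  rw [Zc, ofCoeff_apply, ser_single]
  simp

/-- The inverse of the coordinate function. -/
def Zi : An K := ofCoeff (Pi.single (-1) 1) (decay_single (-1) 1)

@[simp] theorem Zi_apply (z : Kˣ) : (Zi : An K).1 z = ((z⁻¹ : Kˣ) : K) := by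
  rw [Zi, ofCoeff_apply, ser_single]
  simp

theorem Zc_mul_Zi : (Zc : An K) * Zi = 1 := by
  refine An.ext' fun z => ?_
  change (Zc : An K).1 z * (Zi : An K).1 z = 1
  simp

@[simp] theorem coeff_Zc : coeff (Zc : An K) = Pi.single 1 1 := coeff_ofCoeff _ _

/-- The Gauss norm on the circle of radius `exp t`. -/
def gn (t : ℝ) (F : An K) : ℝ≥0 := ⨆ n, term t (coeff F) n

/-- The largest index at which the Gauss norm is attained. -/
def nplus (t : ℝ) (F : An K) : ℤ := sSup {n | term t (coeff F) n = gn t F}

/-- The smallest index at which the Gauss norm is attained. -/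
def nminus (t : ℝ) (F : An K) : ℤ := sInf {n | term t (coeff F) n = gn t F}

end Pool.Agent.NG
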