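import Pool.Agent.NG.Hitpt

/-!
# NG ROOT: the Taylor series of the coordinate is a root of a power series (module to prove)

`finite_roots` (pure algebra): by strong induction on `n₀(Φ)`, the least `n` for which `ord (Φ n)` (the `X`-adic order) is minimal. If `υ₁` is a root, divide:
`Φ(Y) = Φ(Y) - Φ(υ₁) = (Y - υ₁) Φ'(Y)` with `Φ'_n = ∑_{j > n} Φ_j υ₁ ^ (j-1-n)` (converges `X`-adically as `X ∣ υ₁`); every other root of `Φ` is a root of `Φ'` (`K⟦X⟧` is a domain), and `n₀(Φ') = n₀(Φ) - 1`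
(`Φ'_n ≡ Φ_{n+1}` modulo `X ^ (μ+1)` up to multiples; if `n₀(Φ) = 0` there is no root: `Φ(υ) = Φ_0 + υ(...)` has order `μ`). One may use `PowerSeries (PowerSeries K)` or Mathlib's Weierstrass preparation
(`PowerSeries.WeierstrassPreparation`: `IsWeierstrassFactorization`, over the complete local ring `K⟦X⟧`: after dividing by `X ^ μ` the series is a unit times a distinguished polynomial, whose roots are finitely many).
`hit_root`: if no `z` satisfies `At ι z A q` take `Φ = fun _ => 1`. Otherwise fix such a `z₀`, `O := OL K A q`, `a := pair ω P.δ₁`, `b := pair ω P.δ₂ ∈ O`, `T(g) := ser1 ι z₀ P.δ₁ g` (the same for all `z`, `At.ser1_eq`).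
`Φ 0 := ∫ T(a)` (formal primitive with constant coefficient zero), `Φ (n+1) := C (1/(n+1)!) T(δ₂^[n] b)`. Closedness and `comm`: `δ₁ b = δ₂ a`. So `d/dX (n! Φ n) = T(δ₂^[n] a)` for all `n` (for `n + 1`: `T(δ₁ δ₂^[n] b) = T(δ₂^[n] δ₂ a)`).
The series `Ψ = ∑ Φ n υ ^ n` (coefficientwise finite) has derivative `∑ υ^n/n! T(δ₂^[n] a) + υ' ∑ υ^n/n! T(δ₂^[n] b) = tay (ι a) + υ' tay (ι b)` by `hitpt`, `= tay (ι (a + D t * b)) = tay (ι (pair ω D)) = 0` (`P.expandω` with `pair θ D = 1`), and constant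
coefficient zero. So `Ψ = 0`. If all `Φ n = 0` then `T(δ₂^[n] a) = T(δ₂^[n] b) = 0` for all `n`, so `tay (ι a) = tay (ι b) = 0` (`hitpt`), `a = b = 0` (`tay_eq_zero`), and `ω` has the value `pair θ D' * a + D' t * b = 0` on every derivation `D'` (`P.expandω`): excluded by `hω`.
-/

set_option linter.unusedSectionVars false

open Filter Topology
open scoped NNReal KaehlerDifferential

noncomputable section

namespace Pool.Agent.NG

variable {K : Type*} [NontriviallyNormedField K] [IsUltrametricDist K] [CompleteSpace K]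
  [IsAlgClosed K] [CharZero K] {L : Type*} [Field L] [Algebra K L] {N : ℕ}

open PowerSeries (X)

/-- the value of the series `∑ a n Y ^ n` at `υ`, if the constant coefficient of `υ` is zero -/
private def rt_E (a : ℕ → PowerSeries K) (υ : PowerSeries K) : PowerSeries K :=
  PowerSeries.mk fun m => PowerSeries.coeff m (∑ n ∈ Finset.range (m + 1), a n * υ ^ n)

private theorem rt_zero {f : PowerSeries K} (h : ∀ M : ℕ, (X : PowerSeries K) ^ M ∣ f) :
    f = 0 := by
  ext m
  exact (PowerSeries.X_pow_dvd_iff.1 (h (m + 1))) m (Nat.lt_succ_self m)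

private theorem rt_spec (a : ℕ → PowerSeries K) {υ : PowerSeries K}
    (hυ : PowerSeries.constantCoeff υ = 0) (M : ℕ) :
    (X : PowerSeries K) ^ M ∣ rt_E a υ - ∑ n ∈ Finset.range M, a n * υ ^ n := by
  rw [PowerSeries.X_pow_dvd_iff]
  intro m hm
  obtain ⟨k, rfl⟩ : ∃ k, M = (m + 1) + k := ⟨M - (m + 1), by omega⟩
  rw [map_sub, Finset.sum_range_add, map_add]
  unfold rt_E
  rw [PowerSeries.coeff_mk]
  have h1 : PowerSeries.coeff m (∑ x ∈ Finset.range k, a (m + 1 + x) * υ ^ (m + 1 + x)) = 0 := by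
    have h2 : (X : PowerSeries K) ^ (m + 1) ∣
        ∑ x ∈ Finset.range k, a (m + 1 + x) * υ ^ (m + 1 + x) := by
      refine Finset.dvd_sum fun x _ => ?_
      refine Dvd.dvd.mul_left ?_ _
      refine dvd_trans (pow_dvd_pow X (by omega : m + 1 ≤ m + 1 + x)) ?_
      exact pow_dvd_pow_of_dvd (PowerSeries.X_dvd_iff.2 hυ) _
    exact (PowerSeries.X_pow_dvd_iff.1 h2) m (Nat.lt_succ_self m)
  rw [h1]
  ring

private theorem rt_succ (a : ℕ → PowerSeries K) {υ : PowerSeries K}
    (hυ : PowerSeries.constantCoeff υ = 0) :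
    rt_E a υ = a 0 + υ * rt_E (fun n => a (n + 1)) υ := by
  rw [← sub_eq_zero]
  refine rt_zero fun M => ?_
  have h1 := rt_spec a hυ (M + 1)
  have h2 := rt_spec (fun n => a (n + 1)) hυ M
  have e : rt_E a υ - (a 0 + υ * rt_E (fun n => a (n + 1)) υ) =
      (rt_E a υ - ∑ n ∈ Finset.range (M + 1), a n * υ ^ n) -
      υ * (rt_E (fun n => a (n + 1)) υ - ∑ n ∈ Finset.range M, a (n + 1) * υ ^ n) := by
    rw [Finset.sum_range_succ', mul_sub, Finset.mul_sum]
    have : ∑ n ∈ Finset.range M, a (n + 1) * υ ^ (n + 1) =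
        ∑ n ∈ Finset.range M, υ * (a (n + 1) * υ ^ n) :=
      Finset.sum_congr rfl fun n _ => by ring
    rw [this]
    ring
  rw [e]
  exact dvd_sub ((pow_dvd_pow X (Nat.le_succ M)).trans h1) (h2.mul_left υ)

private theorem rt_dvd {μ : ℕ} {a : ℕ → PowerSeries K} {υ : PowerSeries K}
    (hυ : PowerSeries.constantCoeff υ = 0) (ha : ∀ n, (X : PowerSeries K) ^ μ ∣ a n) :
    (X : PowerSeries K) ^ μ ∣ rt_E a υ := by
  have h1 := rt_spec a hυ μ
  have h2 : (X : PowerSeries K) ^ μ ∣ ∑ n ∈ Finset.range μ, a n * υ ^ n :=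
    Finset.dvd_sum fun n _ => (ha n).mul_right _
  have h3 := dvd_add h1 h2
  rwa [sub_add_cancel] at h3

/-- division by `Y - υ₁` -/
private theorem rt_div (a c : ℕ → PowerSeries K) {υ υ₁ : PowerSeries K}
    (hυ : PowerSeries.constantCoeff υ = 0) (h0 : a 0 = -(υ₁ * c 0))
    (h1 : ∀ n, a (n + 1) = c n - υ₁ * c (n + 1)) :
    rt_E a υ = (υ - υ₁) * rt_E c υ := by
  rw [← sub_eq_zero]
  refine rt_zero fun M => ?_
  have s1 := rt_spec a hυ (M + 1)
  have s2 := rt_spec c hυ M
  have s3 := rt_spec c hυ (M + 1)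
  have e : rt_E a υ - (υ - υ₁) * rt_E c υ =
      (rt_E a υ - ∑ n ∈ Finset.range (M + 1), a n * υ ^ n) -
      υ * (rt_E c υ - ∑ n ∈ Finset.range M, c n * υ ^ n) +
      υ₁ * (rt_E c υ - ∑ n ∈ Finset.range (M + 1), c n * υ ^ n) := by
    have e1 : ∑ n ∈ Finset.range (M + 1), a n * υ ^ n =
        υ * (∑ n ∈ Finset.range M, c n * υ ^ n) -
          υ₁ * ∑ n ∈ Finset.range (M + 1), c n * υ ^ n := by
      rw [Finset.sum_range_succ', Finset.sum_range_succ' (fun n => c n * υ ^ n), h0,
        mul_add, Finset.mul_sum, Finset.mul_sum]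
      have e2 : ∑ n ∈ Finset.range M, a (n + 1) * υ ^ (n + 1) =
          ∑ n ∈ Finset.range M, υ * (c n * υ ^ n) -
            ∑ n ∈ Finset.range M, υ₁ * (c (n + 1) * υ ^ (n + 1)) := by
        rw [← Finset.sum_sub_distrib]
        refine Finset.sum_congr rfl fun n _ => ?_
        rw [h1]
        ring
      rw [e2]
      ring
    rw [e1]
    ring
  rw [e]
  exact dvd_add (dvd_sub ((pow_dvd_pow X (Nat.le_succ M)).trans s1) (s2.mul_left υ))
    (((pow_dvd_pow X (Nat.le_succ M)).trans s3).mul_left υ₁)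

private theorem rt_fin (μ : ℕ) (N : ℕ) : ∀ a : ℕ → PowerSeries K,
    (∀ n, (X : PowerSeries K) ^ μ ∣ a n) → ¬ (X : PowerSeries K) ^ (μ + 1) ∣ a N →
    {υ : PowerSeries K | PowerSeries.constantCoeff υ = 0 ∧ rt_E a υ = 0}.Finite := by
  have key : ∀ {υ : PowerSeries K} {f : PowerSeries K}, PowerSeries.constantCoeff υ = 0 →
      (X : PowerSeries K) ^ μ ∣ f → (X : PowerSeries K) ^ (μ + 1) ∣ υ * f := by
    intro υ f hυ hf
    rw [pow_succ']
    exact mul_dvd_mul (PowerSeries.X_dvd_iff.2 hυ) hf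
  induction N with
  | zero =>
    intro a ha hN
    have : {υ : PowerSeries K | PowerSeries.constantCoeff υ = 0 ∧ rt_E a υ = 0} = ∅ := by
      rw [Set.eq_empty_iff_forall_notMem]
      rintro υ ⟨hυ, h0⟩
      rw [rt_succ a hυ] at h0
      apply hN
      have h1 := key hυ (rt_dvd hυ (fun n => ha (n + 1)))
      rw [add_eq_zero_iff_eq_neg] at h0
      rw [h0]
      exact h1.neg_right
    rw [this]
    exact Set.finite_empty
  | succ N ih =>
    intro a ha hN
    rcases Set.eq_empty_or_nonempty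
      {υ : PowerSeries K | PowerSeries.constantCoeff υ = 0 ∧ rt_E a υ = 0} with h | ⟨υ₁, hυ₁, h0⟩
    · rw [h]
      exact Set.finite_empty
    · set c : ℕ → PowerSeries K := fun n => rt_E (fun j => a (n + 1 + j)) υ₁ with hc
      have hrec : ∀ n, a (n + 1) = c n - υ₁ * c (n + 1) := by
        intro n
        have h1 := rt_succ (fun j => a (n + 1 + j)) hυ₁
        have h2 : (fun j => a (n + 1 + (j + 1))) = fun j => a (n + 1 + 1 + j) := by
          funext j
          congr 1
          omega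
        simp only [hc]
        rw [h1, h2]
        ring
      have hrec0 : a 0 = -(υ₁ * c 0) := by
        rw [rt_succ a hυ₁] at h0
        have h2 : (fun n => a (n + 1)) = fun j => a (0 + 1 + j) := by
          funext j
          congr 1
          omega
        rw [h2] at h0
        simp only [hc]
        rw [eq_neg_iff_add_eq_zero]
        exact h0
      have hcd : ∀ n, (X : PowerSeries K) ^ μ ∣ c n := fun n => rt_dvd hυ₁ fun j => ha _
      have hcN : ¬ (X : PowerSeries K) ^ (μ + 1) ∣ c N := by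
        intro h
        apply hN
        rw [hrec N]
        exact dvd_sub h (key hυ₁ (hcd (N + 1)))
      refine ((ih c hcd hcN).insert υ₁).subset ?_
      rintro υ ⟨hυ, h⟩
      rw [rt_div a c hυ hrec0 hrec, mul_eq_zero, sub_eq_zero] at h
      rcases h with h | h
      · exact Or.inl h
      · exact Or.inr ⟨hυ, h⟩

theorem finite_roots (Φ : ℕ → PowerSeries K) (hΦ : ∃ n, Φ n ≠ 0) :
    {υ : PowerSeries K | PowerSeries.constantCoeff υ = 0 ∧ ∀ m,
      PowerSeries.coeff m (∑ n ∈ Finset.range (m + 1), Φ n * υ ^ n) = 0}.Finite := by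
  classical
  have h1 : ∃ m, ∃ n, PowerSeries.coeff m (Φ n) ≠ 0 := by
    obtain ⟨n, hn⟩ := hΦ
    by_contra h
    push Not at h
    exact hn (PowerSeries.ext fun m => by rw [h m n, map_zero])
  obtain ⟨N, hN⟩ := Nat.find_spec h1
  have h2 : ∀ n, (X : PowerSeries K) ^ (Nat.find h1) ∣ Φ n := by
    intro n
    rw [PowerSeries.X_pow_dvd_iff]
    intro m hm
    by_contra h
    exact Nat.find_min h1 hm ⟨n, h⟩
  have h3 : ¬ (X : PowerSeries K) ^ (Nat.find h1 + 1) ∣ Φ N := by
    intro h
    exact hN ((PowerSeries.X_pow_dvd_iff.1 h) _ (Nat.lt_succ_self _))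
  refine (rt_fin (Nat.find h1) N Φ h2 h3).subset ?_
  rintro υ ⟨hυ, h⟩
  refine ⟨hυ, ?_⟩
  ext m
  unfold rt_E
  rw [PowerSeries.coeff_mk, h m, map_zero]

/-- the derivative of `rt_E` -/
private theorem rt_der (a a' b : ℕ → PowerSeries K) {υ : PowerSeries K}
    (hυ : PowerSeries.constantCoeff υ = 0) (ha : ∀ n, PowerSeries.derivative K (a n) = a' n)
    (hb : ∀ n : ℕ, ((n + 1 : ℕ) : PowerSeries K) * a (n + 1) = b n) :
    PowerSeries.derivative K (rt_E a υ) =
      rt_E a' υ + PowerSeries.derivative K υ * rt_E b υ := by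
  rw [← sub_eq_zero]
  refine rt_zero fun M => ?_
  have s1 := rt_spec a hυ (M + 1)
  have s2 := rt_spec a' hυ (M + 1)
  have s3 := rt_spec b hυ M
  have hd : ∀ f : PowerSeries K, (X : PowerSeries K) ^ (M + 1) ∣ f →
      (X : PowerSeries K) ^ M ∣ PowerSeries.derivative K f := by
    intro f hf
    rw [PowerSeries.X_pow_dvd_iff] at hf ⊢
    intro m hm
    rw [PowerSeries.coeff_derivative, hf (m + 1) (by omega), zero_mul]
  have e : PowerSeries.derivative K (rt_E a υ) -
      (rt_E a' υ + PowerSeries.derivative K υ * rt_E b υ) =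
      PowerSeries.derivative K (rt_E a υ - ∑ n ∈ Finset.range (M + 1), a n * υ ^ n) -
      (rt_E a' υ - ∑ n ∈ Finset.range (M + 1), a' n * υ ^ n) -
      PowerSeries.derivative K υ * (rt_E b υ - ∑ n ∈ Finset.range M, b n * υ ^ n) := by
    have e1 : PowerSeries.derivative K (∑ n ∈ Finset.range (M + 1), a n * υ ^ n) =
        (∑ n ∈ Finset.range (M + 1), a' n * υ ^ n) +
          PowerSeries.derivative K υ * ∑ n ∈ Finset.range M, b n * υ ^ n := by
      have e2 : ∀ n : ℕ, PowerSeries.derivative K (a n * υ ^ n) = a' n * υ ^ n +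
          a n * ((n : PowerSeries K) * υ ^ (n - 1) * PowerSeries.derivative K υ) := by
        intro n
        rw [Derivation.leibniz, Derivation.leibniz_pow, ha]
        simp only [smul_eq_mul, nsmul_eq_mul]
        ring
      rw [map_sum, Finset.sum_congr rfl fun n _ => e2 n, Finset.sum_add_distrib]
      congr 1
      rw [Finset.sum_range_succ', Finset.mul_sum]
      simp only [Nat.cast_zero, zero_mul, mul_zero, add_zero, Nat.add_sub_cancel]
      refine Finset.sum_congr rfl fun n _ => ?_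
      rw [← hb n]
      ring
    rw [map_sub, e1]
    ring
  rw [e]
  exact dvd_sub (dvd_sub (hd _ s1) ((pow_dvd_pow X (Nat.le_succ M)).trans s2))
    (s3.mul_left _)

private theorem rt_int (f : PowerSeries K) : ∃ F : PowerSeries K,
    PowerSeries.derivative K F = f ∧ PowerSeries.constantCoeff F = 0 := by
  refine ⟨PowerSeries.mk fun n => if n = 0 then 0 else PowerSeries.coeff (n - 1) f / (n : K),
    ?_, ?_⟩
  · ext n
    have h1 : ((n : K) + 1) ≠ 0 := Nat.cast_add_one_ne_zero n
    rw [PowerSeries.coeff_derivative, PowerSeries.coeff_mk, if_neg (Nat.succ_ne_zero n),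
      Nat.add_sub_cancel]
    push_cast
    field_simp
  · rw [← PowerSeries.coeff_zero_eq_constantCoeff_apply, PowerSeries.coeff_mk, if_pos rfl]

private theorem rt_pair_zero (ω : Ω[L⁄K]) : pair K ω (0 : Derivation K L L) = 0 := by
  have h : (0 : Derivation K L L).liftKaehlerDifferential = 0 := by
    apply Derivation.liftKaehlerDifferential_unique
    rw [Derivation.liftKaehlerDifferential_comp]
    ext x
    rfl
  unfold pair
  rw [h]
  rfl

private theorem rt_iter {A : Subalgebra K L} {q : Ideal A} [q.IsPrime] {δ : Derivation K L L}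
    (hδ : ∀ g ∈ OL K A q, δ g ∈ OL K A q) {g : L} (hg : g ∈ OL K A q) (n : ℕ) :
    δ^[n] g ∈ OL K A q := by
  induction n with
  | zero => exact hg
  | succ n ih =>
    rw [Function.iterate_succ_apply']
    exact hδ _ ih

private theorem rt_ser1_der (ι : L →ₐ[K] Mer K) (z : Kˣ) (δ : Derivation K L L) (g : L) :
    PowerSeries.derivative K (ser1 ι z δ g) = ser1 ι z δ (δ g) := by
  ext n
  have h1 : ((n : K) + 1) ≠ 0 := Nat.cast_add_one_ne_zero n
  have h2 : ((n.factorial : ℕ) : K) ≠ 0 := Nat.cast_ne_zero.2 n.factorial_ne_zero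
  rw [PowerSeries.coeff_derivative]
  unfold ser1
  rw [PowerSeries.coeff_mk, PowerSeries.coeff_mk, Function.iterate_succ_apply,
    Nat.factorial_succ]
  push_cast
  field_simp

/-- `hitpt` in terms of `rt_E` -/
private theorem rt_hitpt {ι : L →ₐ[K] Mer K} {z : Kˣ} {A : Subalgebra K L} {q : Ideal A}
    [q.IsPrime] {D : Derivation K L L} (hD : ∀ a, ι (D a) = der K (ι a))
    {θ : Ω[L⁄K]} (P : Pt K A q θ) (h1 : pair K θ D = 1) (hz : At ι z A q) {g : L}
    (hg : g ∈ OL K A q) :
    tay z (ι g) = rt_E (fun n => PowerSeries.C ((n.factorial : K)⁻¹) *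
      ser1 ι z P.δ₁ (P.δ₂^[n] g)) (ups ι z P.t) := by
  ext m
  rw [hitpt hD P h1 hz hg m]
  unfold rt_E
  rw [PowerSeries.coeff_mk, map_sum]
  refine Finset.sum_congr rfl fun n _ => ?_
  congr 1
  ring

theorem hit_root {ι : L →ₐ[K] Mer K} {A : Subalgebra K L} {q : Ideal A} [q.IsPrime]
    {D : Derivation K L L} (hD : ∀ a, ι (D a) = der K (ι a)) {θ : Ω[L⁄K]} (P : Pt K A q θ)
    (h1 : pair K θ D = 1) {ω : Ω[L⁄K]} (hcl : IsClosedForm K ω) (h0 : pair K ω D = 0)
    (hω : ∃ δ : Derivation K L L, pair K ω δ ≠ 0) (ha : pair K ω P.δ₁ ∈ OL K A q)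
    (hb : pair K ω P.δ₂ ∈ OL K A q) :
    ∃ Φ : ℕ → PowerSeries K, (∃ n, Φ n ≠ 0) ∧ ∀ z, At ι z A q → ∀ m,
      PowerSeries.coeff m (∑ n ∈ Finset.range (m + 1), Φ n * ups ι z P.t ^ n) = 0 := by
  by_cases hex : ∃ z₀, At ι z₀ A q
  swap
  · exact ⟨fun _ => 1, ⟨0, one_ne_zero⟩, fun z hz => absurd ⟨z, hz⟩ hex⟩
  obtain ⟨z₀, hz₀⟩ := hex
  set a : L := pair K ω P.δ₁ with hadef
  set b : L := pair K ω P.δ₂ with hbdef
  -- closedness
  have hcomm : ⁅P.δ₁, P.δ₂⁆ = 0 := by
    ext g
    rw [Derivation.commutator_apply, P.comm, sub_self]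
    rfl
  have hab : P.δ₁ b = P.δ₂ a := by
    have h2 := hcl P.δ₁ P.δ₂
    rw [hcomm, rt_pair_zero, sub_eq_zero] at h2
    exact h2
  have hcn : ∀ (n : ℕ) (g : L), P.δ₁ (P.δ₂^[n] g) = P.δ₂^[n] (P.δ₁ g) := by
    intro n
    induction n with
    | zero => intro g; rfl
    | succ n ih =>
      intro g
      rw [Function.iterate_succ_apply, Function.iterate_succ_apply, ← P.comm, ih]
  have hD0 : a + D P.t * b = 0 := by
    have h2 := P.expandω ω D
    rw [h0, h1, one_mul] at h2
    exact h2.symm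
  obtain ⟨F, hF, hF0⟩ := rt_int (ser1 ι z₀ P.δ₁ a)
  set Φ : ℕ → PowerSeries K := fun n => match n with
    | 0 => F
    | n + 1 => PowerSeries.C (((n + 1).factorial : K)⁻¹) * ser1 ι z₀ P.δ₁ (P.δ₂^[n] b) with hΦ
  set Φa : ℕ → PowerSeries K := fun n => PowerSeries.C ((n.factorial : K)⁻¹) *
      ser1 ι z₀ P.δ₁ (P.δ₂^[n] a) with hΦa
  set Φb : ℕ → PowerSeries K := fun n => PowerSeries.C ((n.factorial : K)⁻¹) *
      ser1 ι z₀ P.δ₁ (P.δ₂^[n] b) with hΦb
  have dΦ : ∀ n, PowerSeries.derivative K (Φ n) = Φa n := by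
    intro n
    cases n with
    | zero =>
      simp only [hΦ, hΦa]
      rw [hF, Nat.factorial_zero, Nat.cast_one, inv_one, map_one, one_mul]
      rfl
    | succ n =>
      simp only [hΦ, hΦa]
      have e1 : PowerSeries.derivative K (PowerSeries.C (((n + 1).factorial : K)⁻¹)) = 0 :=
        PowerSeries.derivative_C
      rw [Derivation.leibniz, e1, smul_zero, add_zero, rt_ser1_der, hcn, hab,
        Function.iterate_succ_apply, smul_eq_mul]
  have sΦ : ∀ n : ℕ, ((n + 1 : ℕ) : PowerSeries K) * Φ (n + 1) = Φb n := by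
    intro n
    simp only [hΦ, hΦb]
    have h2 : ((n : K) + 1) ≠ 0 := Nat.cast_add_one_ne_zero n
    have h3 : ((n.factorial : ℕ) : K) ≠ 0 := Nat.cast_ne_zero.2 n.factorial_ne_zero
    have e2 : (((n + 1 : ℕ) : PowerSeries K)) * PowerSeries.C (((n + 1).factorial : K)⁻¹) =
        PowerSeries.C ((n.factorial : K)⁻¹) := by
      have e3 : (((n + 1 : ℕ) : PowerSeries K)) = PowerSeries.C ((n : K) + 1) := by
        rw [map_add, map_one, map_natCast]
        push_cast
        rfl
      rw [e3, ← map_mul]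
      congr 1
      rw [Nat.factorial_succ]
      push_cast
      field_simp
    rw [← mul_assoc, e2]
  refine ⟨Φ, ?_, ?_⟩
  · by_contra hne
    push Not at hne
    have hA0 : ∀ n, Φa n = 0 := fun n => by rw [← dΦ n, hne n, map_zero]
    have hB0 : ∀ n, Φb n = 0 := fun n => by rw [← sΦ n, hne (n + 1), mul_zero]
    have hE0 : ∀ υ : PowerSeries K, rt_E (fun _ => (0 : PowerSeries K)) υ = 0 := by
      intro υ
      ext m
      unfold rt_E
      rw [PowerSeries.coeff_mk]
      simp
    have h2 : tay z₀ (ι a) = 0 := by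
      rw [rt_hitpt hD P h1 hz₀ ha]
      have : (fun n : ℕ => PowerSeries.C ((n.factorial : K)⁻¹) *
          ser1 ι z₀ P.δ₁ (P.δ₂^[n] a)) = fun _ => (0 : PowerSeries K) := funext hA0
      rw [this]
      exact hE0 _
    have h3 : tay z₀ (ι b) = 0 := by
      rw [rt_hitpt hD P h1 hz₀ hb]
      have : (fun n : ℕ => PowerSeries.C ((n.factorial : K)⁻¹) *
          ser1 ι z₀ P.δ₁ (P.δ₂^[n] b)) = fun _ => (0 : PowerSeries K) := funext hB0
      rw [this]
      exact hE0 _
    have hinj : Function.Injective ι := ι.toRingHom.injective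
    have ha0 : a = 0 := hinj (by rw [tay_eq_zero (hz₀.reg_OL ha) h2, map_zero])
    have hb0 : b = 0 := hinj (by rw [tay_eq_zero (hz₀.reg_OL hb) h3, map_zero])
    obtain ⟨δ, hδ⟩ := hω
    apply hδ
    rw [P.expandω ω δ]
    change pair K θ δ * a + δ P.t * b = 0
    rw [ha0, hb0, mul_zero, mul_zero, add_zero]
  · intro z hz
    set υ : PowerSeries K := ups ι z P.t with hυdef
    have hυ : PowerSeries.constantCoeff υ = 0 := constantCoeff_ups ι z P.t
    have htO : P.t ∈ OL K A q := (mem_OL K A q P.t).2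
      ⟨⟨P.t, P.t_mem⟩, 1, fun h => (inferInstance : q.IsPrime).ne_top
        ((Ideal.eq_top_iff_one q).2 h), by simp⟩
    have hr : RegAt z (ι (D P.t)) := by
      rw [hD]
      exact (hz.reg_OL htO).der
    have hυ' : PowerSeries.derivative K υ = tay z (ι (D P.t)) := by
      rw [hυdef]
      unfold ups
      rw [map_sub, hD, tay_der]
      have e1 : PowerSeries.derivative K (PowerSeries.C (ev z (ι P.t))) = 0 :=
        PowerSeries.derivative_C
      rw [e1, sub_zero]
    have hTa : rt_E Φa υ = tay z (ι a) := by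
      rw [rt_hitpt hD P h1 hz ha]
      congr 1
      funext n
      simp only [hΦa]
      rw [hz₀.ser1_eq hz P.pres₁ (rt_iter P.pres₂ ha n)]
    have hTb : rt_E Φb υ = tay z (ι b) := by
      rw [rt_hitpt hD P h1 hz hb]
      congr 1
      funext n
      simp only [hΦb]
      rw [hz₀.ser1_eq hz P.pres₁ (rt_iter P.pres₂ hb n)]
    have hder : PowerSeries.derivative K (rt_E Φ υ) = 0 := by
      rw [rt_der Φ Φa Φb hυ dΦ sΦ, hTa, hTb, hυ', ← tay_mul hr (hz.reg_OL hb),
        ← tay_add (hz.reg_OL ha) (hr.mul (hz.reg_OL hb)), ← map_mul, ← map_add, hD0, map_zero]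
      have := tay_const z (0 : K)
      rw [map_zero, map_zero] at this
      exact this
    have hΨ : rt_E Φ υ = 0 := by
      ext m
      cases m with
      | zero =>
        unfold rt_E
        rw [PowerSeries.coeff_mk, Finset.sum_range_one, pow_zero, mul_one,
          PowerSeries.coeff_zero_eq_constantCoeff_apply, map_zero]
        exact hF0
      | succ m =>
        have h2 := congrArg (PowerSeries.coeff m) hder
        rw [PowerSeries.coeff_derivative, map_zero] at h2
        rw [map_zero]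
        exact (mul_eq_zero.1 h2).resolve_right (Nat.cast_add_one_ne_zero m)
    intro m
    have h2 := congrArg (PowerSeries.coeff m) hΨ
    unfold rt_E at h2
    rw [PowerSeries.coeff_mk, map_zero] at h2
    exact h2

end Pool.Agent.NG
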