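import Pool.Agent.NG.Defs

/-!
# Everywhere convergent Laurent series: basic definitions (not a module to prove)
-/

open Filter Topology
open scoped NNReal

noncomputable section

namespace Pool.Agent.NG

/-- `exp t` as a nonnegative real. -/
def ex (t : ℝ) : ℝ≥0 := ⟨Real.exp t, (Real.exp_pos t).le⟩

@[simp] theorem coe_ex (t : ℝ) : (ex t : ℝ) = Real.exp t := rfl

theorem ex_pos (t : ℝ) : 0 < ex t := Real.exp_pos t

theorem ex_ne_zero (t : ℝ) : ex t ≠ 0 := (ex_pos t).ne'

@[simp] theorem ex_zero : ex 0 = 1 := by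
  apply NNReal.eq
  simp

theorem ex_add (s t : ℝ) : ex (s + t) = ex s * ex t := by
  apply NNReal.eq
  simp [Real.exp_add]

theorem ex_le_ex {s t : ℝ} : ex s ≤ ex t ↔ s ≤ t := by
  rw [← NNReal.coe_le_coe]
  simp

theorem continuous_ex : Continuous ex := by
  unfold ex
  exact Continuous.subtype_mk Real.continuous_exp _

variable {K : Type*} [NontriviallyNormedField K]

/-- The term of index `n` of a Laurent series on the circle of radius `exp t`. -/
def term (t : ℝ) (a : ℤ → K) (n : ℤ) : ℝ≥0 := ‖a n‖₊ * ex (n * t)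

/-- The coefficients decay fast enough for convergence on `K^*`. -/
def Decay (a : ℤ → K) : Prop := ∀ t : ℝ, Tendsto (term t a) cofinite (𝓝 0)

/-- The sum of a Laurent series. -/
def ser (a : ℤ → K) (z : Kˣ) : K := ∑' n : ℤ, a n * ((z ^ n : Kˣ) : K)

/-- The coefficients of a product. -/
def conv (a b : ℤ → K) (n : ℤ) : K := ∑' i : ℤ, a i * b (n - i)

end Pool.Agent.NG
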