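import Pool.Agent.NG.Taylor

/-!
# SHIFT: the automorphisms `h(z) ↦ h(q z)` (module to prove)

`shA q` has the coefficients `q ^ n * a n` (`Decay`: `‖q ^ n * a n‖ exp (n t) = term (t + log ‖q‖) a n`);
as functions `(shA q F)(z) = F (q z)`, so it is an algebra homomorphism, injective, and extends
to the fraction fields. The formulas are first proved on `An K`, then for fractions.

`germ`: let `h` be regular at `z₀` and at `q z₀` with the same Taylor series. Then `sh q h` is
regular at `z₀` with `tay z₀ (sh q h) = tay (q z₀) h` (`ev_sh`, `der_sh`), so `sh q h - h` has the Taylor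
series zero and vanishes (`tay_eq_zero`).
-/

open Filter Topology
open scoped NNReal nonZeroDivisors

noncomputable section

namespace Pool.Agent.NG

variable {K : Type*} [NontriviallyNormedField K] [IsUltrametricDist K] [CompleteSpace K]
  [IsAlgClosed K] [CharZero K]

omit [IsUltrametricDist K] [CompleteSpace K] [IsAlgClosed K] [CharZero K] in
private lemma shift_term (q : Kˣ) (a : ℤ → K) (t : ℝ) (n : ℤ) :
    term t (fun n => ((q ^ n : Kˣ) : K) * a n) n = term (t + Real.log ‖(q : K)‖) a n := by
  unfold term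
  have h1 : ‖((q ^ n : Kˣ) : K)‖₊ = ex (n * Real.log ‖(q : K)‖) := by
    rw [Units.val_zpow_eq_zpow_val, nnnorm_zpow]
    apply NNReal.eq
    rw [NNReal.coe_zpow, coe_nnnorm, coe_ex, mul_comm, Real.exp_mul, Real.exp_log
      (norm_pos_iff.2 q.ne_zero), Real.rpow_intCast]
  rw [nnnorm_mul, h1, mul_add, ex_add]
  ring

omit [IsUltrametricDist K] [CompleteSpace K] [IsAlgClosed K] [CharZero K] in
private lemma shift_decay (q : Kˣ) {a : ℤ → K} (ha : Decay a) :
    Decay (fun n => ((q ^ n : Kˣ) : K) * a n) := by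
  intro t
  refine (ha (t + Real.log ‖(q : K)‖)).congr fun n => ?_
  exact (shift_term q a t n).symm

omit [IsUltrametricDist K] [CompleteSpace K] [IsAlgClosed K] [CharZero K] in
private lemma shift_ser (q : Kˣ) (a : ℤ → K) (z : Kˣ) :
    ser a (q * z) = ser (fun n => ((q ^ n : Kˣ) : K) * a n) z := by
  unfold ser
  refine tsum_congr fun n => ?_
  rw [mul_zpow, Units.val_mul]
  ring

/-- The substitution `z ↦ q z` on analytic functions. -/
def shA (q : Kˣ) : An K →ₐ[K] An K where
  toFun F := ⟨fun z => F.1 (q * z), by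
    refine (isAn_iff _).2 ⟨fun n => ((q ^ n : Kˣ) : K) * coeff F n,
      shift_decay q (coeff_decay F), fun z => ?_⟩
    rw [← shift_ser, ser_coeff]⟩
  map_one' := rfl
  map_mul' _ _ := rfl
  map_zero' := rfl
  map_add' _ _ := rfl
  commutes' _ := rfl

@[simp] theorem shA_apply (q z : Kˣ) (F : An K) : (shA q F).1 z = F.1 (q * z) := rfl

theorem shA_injective (q : Kˣ) : Function.Injective (shA (K := K) q) := by
  intro F G h
  refine An.ext' fun z => ?_
  have h1 := congrArg (fun F : An K => F.1 (q⁻¹ * z)) h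
  simpa using h1

theorem coeff_shA (q : Kˣ) (F : An K) (n : ℤ) :
    coeff (shA q F) n = ((q ^ n : Kˣ) : K) * coeff F n := by
  have h : coeff (shA q F) = fun n => ((q ^ n : Kˣ) : K) * coeff F n :=
    coeff_unique (shift_decay q (coeff_decay F)) fun z => by
      rw [← shift_ser, ser_coeff, shA_apply]
  rw [h]

/-- The substitution `z ↦ q z` on meromorphic functions. -/
def sh (q : Kˣ) : Mer K →ₐ[K] Mer K :=
  IsFractionRing.liftAlgHom (g := (IsScalarTower.toAlgHom K (An K) (Mer K)).comp (shA q))
    ((IsFractionRing.injective (An K) (Mer K)).comp (shA_injective q))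

theorem sh_am (q : Kˣ) (F : An K) : sh q (am F) = am (shA q F) := by
  unfold sh am
  rw [IsFractionRing.liftAlgHom_apply, IsFractionRing.lift_algebraMap]
  rfl

private lemma shift_ne (q : Kˣ) {G : An K} (hG : G ≠ 0) : shA q G ≠ 0 := by
  intro h
  exact hG (shA_injective q (h.trans (map_zero _).symm))

private lemma shift_frac (q : Kˣ) {h : Mer K} {F G : An K} (e : h * am G = am F) :
    sh q h * am (shA q G) = am (shA q F) := by
  rw [← sh_am, ← sh_am, ← map_mul, e]

private lemma shift_gn (q : Kˣ) (t : ℝ) (F : An K) :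
    gn t (shA q F) = gn (t + Real.log ‖(q : K)‖) F := by
  unfold gn
  refine iSup_congr fun n => ?_
  rw [← shift_term]
  unfold term
  rw [coeff_shA]

theorem sh_inv (q : Kˣ) (h : Mer K) : sh q⁻¹ (sh q h) = h := by
  obtain ⟨F, G, hG, e⟩ := exists_frac h
  have h1 := shift_frac q⁻¹ (shift_frac q e)
  have h2 : ∀ F : An K, shA q⁻¹ (shA q F) = F := by
    intro F
    refine An.ext' fun z => ?_
    rw [shA_apply, shA_apply, mul_inv_cancel_left]
  rw [h2, h2, ← e] at h1
  exact mul_right_cancel₀ (fun h0 => hG (am_eq_zero.1 h0)) h1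

theorem mv_sh (q : Kˣ) (t : ℝ) (h : Mer K) :
    mv t (sh q h) = mv (t + Real.log ‖(q : K)‖) h := by
  obtain ⟨F, G, hG, e⟩ := exists_frac h
  rw [mv_eq_div _ hG e, mv_eq_div _ (shift_ne q hG) (shift_frac q e), shift_gn, shift_gn]

private lemma shift_reg (q z : Kˣ) {h : Mer K} (hh : RegAt (q * z) h) : RegAt z (sh q h) := by
  obtain ⟨F, G, hG, e⟩ := hh
  exact ⟨shA q F, shA q G, hG, shift_frac q e⟩

theorem regAt_sh (q z : Kˣ) (h : Mer K) : RegAt z (sh q h) ↔ RegAt (q * z) h := by
  constructor
  · intro h1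
    have h2 : RegAt (q⁻¹ * (q * z)) (sh q h) := by rwa [inv_mul_cancel_left]
    have h3 := shift_reg q⁻¹ (q * z) h2
    rwa [sh_inv] at h3
  · exact shift_reg q z

theorem ev_sh (q z : Kˣ) {h : Mer K} (hh : RegAt (q * z) h) : ev z (sh q h) = ev (q * z) h := by
  obtain ⟨F, G, hG, e⟩ := hh
  rw [ev_eq hG e, ev_eq (F := shA q F) (G := shA q G) hG (shift_frac q e)]
  rfl

private lemma shift_dA (q : Kˣ) (F : An K) : dA (shA q F) = shA q (dA F) := by
  apply coeff_injective
  funext n
  rw [coeff_dA, coeff_shA, coeff_shA, coeff_dA]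
  ring

theorem der_sh (q : Kˣ) (h : Mer K) : der K (sh q h) = sh q (der K h) := by
  obtain ⟨F, G, hG, e⟩ := exists_frac h
  have e1 := congrArg (der K) e
  rw [Derivation.leibniz, der_am, der_am, smul_eq_mul, smul_eq_mul] at e1
  have e2 := congrArg (sh q) e1
  rw [map_add, map_mul, map_mul, sh_am, sh_am, sh_am] at e2
  have e3 := congrArg (der K) (shift_frac q e)
  rw [Derivation.leibniz, der_am, der_am, smul_eq_mul, smul_eq_mul, shift_dA, shift_dA, ← e2] at e3
  have hG' : am (shA q G) ≠ 0 := fun h0 => shift_ne q hG (am_eq_zero.1 h0)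
  exact mul_left_cancel₀ hG' (add_left_cancel e3)

private lemma shift_iter (q : Kˣ) (h : Mer K) (n : ℕ) :
    (der K)^[n] (sh q h) = sh q ((der K)^[n] h) := by
  induction n with
  | zero => rfl
  | succ n ih => rw [Function.iterate_succ_apply', ih, der_sh, Function.iterate_succ_apply']

theorem germ (q z : Kˣ) {h : Mer K} (h1 : RegAt z h) (h2 : RegAt (q * z) h)
    (e : tay (q * z) h = tay z h) : sh q h = h := by
  have h3 : RegAt z (sh q h) := shift_reg q z h2
  have h4 : tay z (sh q h) = tay (q * z) h := by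
    unfold tay
    congr 1
    funext n
    rw [shift_iter, ev_sh q z (regAt_iterate h2 n)]
  have h5 : tay z (sh q h - h) = 0 := by
    rw [tay_sub h3 h1, h4, e, sub_self]
  exact sub_eq_zero.1 (tay_eq_zero (h3.sub h1) h5)

end Pool.Agent.NG
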