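import Pool.Agent.NG.Ser

/-!
# SUM: convergence of Laurent series (module to prove)

All statements are elementary.

`decay_of_summable`: given `t`, take `z` in `K^*` with `exp t ≤ ‖z‖` (`NormedField.exists_lt_norm`)
and `w` with `‖w‖ ≤ exp t`, `w ≠ 0` (`NormedField.exists_norm_lt`). The terms of a summable family
tend to zero along `cofinite` (`Summable.tendsto_cofinite_zero`), so `‖a n‖ ‖z‖ ^ n` and
`‖a n‖ ‖w‖ ^ n` tend to zero, and `term t a n ≤ max` of the two: for `n ≥ 0` we have
`exp (n t) ≤ ‖z‖ ^ n`, for `n ≤ 0` we have `exp (n t) ≤ ‖w‖ ^ n`. Squeeze.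

`summable_ser`: `NonarchimedeanAddGroup.summable_of_tendsto_cofinite_zero` (a complete
ultrametric normed group is a nonarchimedean group) and `nnnorm_mul_zpow`:
`‖a n * z ^ n‖₊ = term (log ‖z‖) a n`.

`nnnorm_ser_le`: `IsUltrametricDist.norm_tsum_le_of_forall_le` or the version for finite sums plus
closedness of balls.

`isAn_iff`: uniqueness of sums in a Hausdorff space.

`finite_ge`: the eventually-cofinite statement `term t a n < ε`.

`exists_max`: `a ≠ 0`, so some term is positive; only finitely many terms are at least this one;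
take the maximum over this finite set.
-/

open Filter Topology
open scoped NNReal

noncomputable section

namespace Pool.Agent.NG

variable {K : Type*} [NontriviallyNormedField K]

theorem nnnorm_mul_zpow (a : ℤ → K) (z : Kˣ) (n : ℤ) :
    ‖a n * ((z ^ n : Kˣ) : K)‖₊ = term (Real.log ‖(z : K)‖) a n := by
  unfold term
  rw [nnnorm_mul, Units.val_zpow_eq_zpow_val, nnnorm_zpow]
  congr 1
  apply NNReal.eq
  rw [NNReal.coe_zpow, coe_nnnorm, coe_ex, mul_comm, Real.exp_mul, Real.exp_log
    (norm_pos_iff.2 z.ne_zero), Real.rpow_intCast]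

private lemma sum_term_le (a : ℤ → K) {s t u : ℝ} (h1 : s ≤ t) (h2 : t ≤ u) (n : ℤ) :
    term t a n ≤ term u a n + term s a n := by
  unfold term
  rcases le_total 0 n with hn | hn
  · refine le_trans ?_ (le_add_of_nonneg_right zero_le)
    apply mul_le_mul_right
    rw [ex_le_ex]
    have : (0 : ℝ) ≤ n := by exact_mod_cast hn
    nlinarith
  · refine le_trans ?_ (le_add_of_nonneg_left zero_le)
    apply mul_le_mul_right
    rw [ex_le_ex]
    have : (n : ℝ) ≤ 0 := by exact_mod_cast hn
    nlinarith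

theorem decay_of_summable (a : ℤ → K)
    (h : ∀ z : Kˣ, Summable fun n : ℤ => a n * ((z ^ n : Kˣ) : K)) : Decay a := by
  have h1 : ∀ z : Kˣ, Tendsto (term (Real.log ‖(z : K)‖) a) cofinite (𝓝 0) := by
    intro z
    have h2 := (h z).tendsto_cofinite_zero
    have h3 := (continuous_nnnorm.tendsto (0 : K)).comp h2
    rw [nnnorm_zero] at h3
    refine h3.congr fun n => ?_
    exact nnnorm_mul_zpow a z n
  intro t
  obtain ⟨z, hz⟩ := NormedField.exists_lt_norm K (Real.exp t)
  obtain ⟨w, hw0, hw⟩ := NormedField.exists_norm_lt K (Real.exp_pos t)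
  have hz0 : z ≠ 0 := by
    rintro rfl
    rw [norm_zero] at hz
    exact absurd hz (not_lt.2 (Real.exp_pos t).le)
  have hw0' : w ≠ 0 := norm_pos_iff.1 hw0
  have h4 := h1 (Units.mk0 z hz0)
  have h5 := h1 (Units.mk0 w hw0')
  rw [Units.val_mk0] at h4 h5
  have h6 := h4.add h5
  rw [add_zero] at h6
  have e1 : Real.log ‖w‖ ≤ t := by
    rw [Real.log_le_iff_le_exp hw0]
    exact hw.le
  have e2 : t ≤ Real.log ‖z‖ := by
    rw [Real.le_log_iff_exp_le (norm_pos_iff.2 hz0)]
    exact hz.le
  exact tendsto_of_tendsto_of_tendsto_of_le_of_le tendsto_const_nhds h6 (fun _ => zero_le)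
    (fun n => sum_term_le a e1 e2 n)

theorem Decay.add {a b : ℤ → K} (ha : Decay a) (hb : Decay b) : Decay (a + b) := by
  intro t
  have h := (ha t).add (hb t)
  rw [add_zero] at h
  refine tendsto_of_tendsto_of_tendsto_of_le_of_le tendsto_const_nhds h (fun _ => zero_le)
    (fun n => ?_)
  unfold term
  rw [← add_mul]
  apply mul_le_mul_left
  exact nnnorm_add_le _ _

theorem Decay.smul (c : K) {a : ℤ → K} (ha : Decay a) : Decay (c • a) := by
  intro t
  have h := (ha t).const_mul ‖c‖₊
  rw [mul_zero] at h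
  refine h.congr fun n => ?_
  unfold term
  rw [Pi.smul_apply, smul_eq_mul, nnnorm_mul, mul_assoc]

theorem decay_zero : Decay (0 : ℤ → K) := by
  intro t
  refine tendsto_const_nhds.congr fun n => ?_
  unfold term
  simp

theorem decay_single (n : ℤ) (c : K) : Decay (Pi.single n c : ℤ → K) := by
  intro t
  refine tendsto_const_nhds.congr' ?_
  rw [EventuallyEq, eventually_cofinite]
  refine (Set.finite_singleton n).subset fun m hm => ?_
  by_contra hne
  apply hm
  unfold term
  have : m ≠ n := hne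
  simp [this]

/-- Comparison. -/
theorem Decay.of_le {a b : ℤ → K} (ha : Decay a) (h : ∀ n, ‖b n‖ ≤ ‖a n‖) : Decay b := by
  intro t
  refine tendsto_of_tendsto_of_tendsto_of_le_of_le tendsto_const_nhds (ha t) (fun _ => zero_le)
    (fun n => ?_)
  unfold term
  apply mul_le_mul_left
  exact h n

theorem finite_ge {a : ℤ → K} (ha : Decay a) (t : ℝ) {ε : ℝ≥0} (hε : 0 < ε) :
    {n | ε ≤ term t a n}.Finite := by
  have h := (ha t).eventually (gt_mem_nhds hε)
  rw [eventually_cofinite] at h
  refine h.subset fun n hn => ?_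
  exact not_lt.2 hn

theorem exists_max {a : ℤ → K} (ha : Decay a) (h0 : a ≠ 0) (t : ℝ) :
    ∃ n, 0 < term t a n ∧ ∀ m, term t a m ≤ term t a n := by
  obtain ⟨n₀, hn₀⟩ : ∃ n, a n ≠ 0 := by
    by_contra hcon
    push Not at hcon
    exact h0 (funext hcon)
  have hpos : 0 < term t a n₀ := by
    unfold term
    exact mul_pos (nnnorm_pos.2 hn₀) (ex_pos _)
  obtain ⟨n, hn, hmax⟩ := Set.exists_max_image {n | term t a n₀ ≤ term t a n} (term t a)
    (finite_ge ha t hpos) ⟨n₀, le_refl (term t a n₀)⟩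
  refine ⟨n, lt_of_lt_of_le hpos hn, fun m => ?_⟩
  rcases le_total (term t a n₀) (term t a m) with h | h
  · exact hmax m h
  · exact h.trans hn

variable [IsUltrametricDist K] [CompleteSpace K]

theorem summable_ser {a : ℤ → K} (ha : Decay a) (z : Kˣ) :
    Summable fun n : ℤ => a n * ((z ^ n : Kˣ) : K) := by
  apply NonarchimedeanAddGroup.summable_of_tendsto_cofinite_zero
  rw [tendsto_zero_iff_norm_tendsto_zero]
  have h := (NNReal.continuous_coe.tendsto 0).comp (ha (Real.log ‖(z : K)‖))
  rw [NNReal.coe_zero] at h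
  refine h.congr fun n => ?_
  rw [Function.comp_apply, ← nnnorm_mul_zpow a z n, coe_nnnorm]

theorem hasSum_ser {a : ℤ → K} (ha : Decay a) (z : Kˣ) :
    HasSum (fun n : ℤ => a n * ((z ^ n : Kˣ) : K)) (ser a z) := (summable_ser ha z).hasSum

theorem nnnorm_ser_le {a : ℤ → K} (ha : Decay a) (z : Kˣ) (C : ℝ≥0)
    (hC : ∀ n, term (Real.log ‖(z : K)‖) a n ≤ C) : ‖ser a z‖₊ ≤ C := by
  have _ := ha
  apply IsUltrametricDist.nnnorm_tsum_le_of_forall_le
  intro n
  rw [nnnorm_mul_zpow]
  exact hC n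

theorem ser_add {a b : ℤ → K} (ha : Decay a) (hb : Decay b) (z : Kˣ) :
    ser (a + b) z = ser a z + ser b z := by
  have h : HasSum (fun n : ℤ => (a + b) n * ((z ^ n : Kˣ) : K)) (ser a z + ser b z) := by
    have := (hasSum_ser ha z).add (hasSum_ser hb z)
    simpa [add_mul] using this
  exact h.tsum_eq

omit [IsUltrametricDist K] [CompleteSpace K] in
theorem ser_single (n : ℤ) (c : K) (z : Kˣ) :
    ser (Pi.single n c) z = c * ((z ^ n : Kˣ) : K) := by
  unfold ser
  rw [tsum_eq_single n]
  · rw [Pi.single_eq_same]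
  · intro m hm
    rw [Pi.single_eq_of_ne hm, zero_mul]

theorem isAn_iff (F : Kˣ → K) : IsAn F ↔ ∃ a : ℤ → K, Decay a ∧ ∀ z, F z = ser a z := by
  constructor
  · rintro ⟨a, ha⟩
    exact ⟨a, decay_of_summable a fun z => (ha z).summable, fun z => (ha z).tsum_eq.symm⟩
  · rintro ⟨a, ha, h⟩
    refine ⟨a, fun z => ?_⟩
    rw [h]
    exact hasSum_ser ha z

end Pool.Agent.NG
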