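import Pool.Agent.NG.Defs

/-!
# NG: affine smooth surfaces, local rings, local frames (definitions, not a module to prove)
-/

set_option linter.unusedSectionVars false

open scoped KaehlerDifferential

noncomputable section

namespace Pool.Agent.NG

variable (K : Type*) [Field K] {L : Type*} [Field L] [Algebra K L]

/-- `A` is the coordinate ring of a smooth affine surface with function field `L`. -/
structure Surf (A : Subalgebra K L) : Prop where
  fg : A.FG
  smooth : Algebra.Smooth K A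
  frac : ∀ g : L, ∃ a b : A, b ≠ 0 ∧ g * b = a
  dim : Algebra.trdeg K L = 2

/-- The one-forms which are regular on `A`. -/
def regA (A : Subalgebra K L) : Submodule A (Ω[L⁄K]) :=
  Submodule.span A {ω | ∃ a ∈ A, ω = KaehlerDifferential.D K L a}

/-- `p` is the ideal of a `K`-rational point. -/
def IsPoint (A : Subalgebra K L) (p : Ideal A) : Prop :=
  ∀ a : A, ∃ c : K, a - algebraMap K A c ∈ p

/-- The local ring of `A` at `p`. -/
def OL (A : Subalgebra K L) (p : Ideal A) [hp : p.IsPrime] : Subalgebra K L where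
  carrier := {g | ∃ a c : A, c ∉ p ∧ g * c = a}
  mul_mem' := by
    rintro g h ⟨a, c, hc, e⟩ ⟨a', c', hc', e'⟩
    refine ⟨a * a', c * c', fun hm => ?_, ?_⟩
    · rcases hp.mem_or_mem hm with h1 | h1
      · exact hc h1
      · exact hc' h1
    · push_cast
      rw [← e, ← e']
      ring
  add_mem' := by
    rintro g h ⟨a, c, hc, e⟩ ⟨a', c', hc', e'⟩
    refine ⟨a * c' + a' * c, c * c', fun hm => ?_, ?_⟩
    · rcases hp.mem_or_mem hm with h1 | h1
      · exact hc h1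
      · exact hc' h1
    · push_cast
      rw [← e, ← e']
      ring
  algebraMap_mem' := fun k => ⟨algebraMap K A k, 1, fun h => hp.ne_top
    ((Ideal.eq_top_iff_one p).2 h), by simp⟩

theorem mem_OL (A : Subalgebra K L) (p : Ideal A) [p.IsPrime] (g : L) :
    g ∈ OL K A p ↔ ∃ a c : A, c ∉ p ∧ g * c = a := Iff.rfl

/-- The maximal ideal of the local ring of `A` at `p`. -/
def ML (A : Subalgebra K L) (p : Ideal A) : Set L := {g | ∃ a c : A, a ∈ p ∧ c ∉ p ∧ g * c = a}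

/-- A local frame of the one-forms at the prime `p`. -/
structure Frame (A : Subalgebra K L) (p : Ideal A) where
  t : Fin 2 → A
  b : A
  hb : b ∉ p
  d : Fin 2 → Derivation K L L
  dual : ∀ i j, d i (t j : L) = if i = j then 1 else 0
  pres : ∀ (j : Fin 2) (a : A), ∃ c : A, (b : L) * d j a = c
  /-- the differentials of `t 0`, `t 1` are a basis, with dual basis `d 0`, `d 1` -/
  expand : ∀ ω : Ω[L⁄K], ω = pair K ω (d 0) • KaehlerDifferential.D K L (t 0 : L) +
    pair K ω (d 1) • KaehlerDifferential.D K L (t 1 : L)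
  /-- derivations in terms of the frame -/
  expandD : ∀ (δ : Derivation K L L) (g : L), δ g = δ (t 0) * d 0 g + δ (t 1) * d 1 g

/-- The data attached to a curve in the zero locus of the form `θ`: the prime `p` of `A`, a
localisation `B = A[1/b]`, a local equation `s` of the curve. -/
structure Curve (A : Subalgebra K L) (p : Ideal A) (θ : Ω[L⁄K]) where
  b : A
  hb : b ∉ p
  B : Subalgebra K L
  fg : B.FG
  memB : ∀ g : L, g ∈ B ↔ ∃ n : ℕ, (b : L) ^ n * g ∈ A
  s : L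
  t : L
  γ : L
  γ' : L
  w : L
  s_mem : s ∈ B
  t_mem : t ∈ B
  γ_mem : γ ∈ B
  γ'_mem : γ' ∈ B
  w_mem : w ∈ B
  s_ne : s ≠ 0
  /-- `p ⊆ sB` -/
  p_sub : ∀ h : A, h ∈ p → ∃ u ∈ B, (h : L) = s * u
  /-- `s` vanishes on the curve: `sB ∩ A ⊆ p` -/
  s_sub : ∀ h : A, (∃ u ∈ B, (h : L) = s * u) → h ∈ p
  δ₁ : Derivation K L L
  δ₂ : Derivation K L L
  pres₁ : ∀ g ∈ B, δ₁ g ∈ B
  pres₂ : ∀ g ∈ B, δ₂ g ∈ B
  δ₁s : δ₁ s = 1
  δ₂s : δ₂ s = 0
  δ₁t : δ₁ t = 0
  δ₂t : δ₂ t = 1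
  comm : ∀ g, δ₁ (δ₂ g) = δ₂ (δ₁ g)
  expand : ∀ (D : Derivation K L L) (g : L), D g = D s * δ₁ g + D t * δ₂ g
  expandω : ∀ (D : Derivation K L L), pair K θ D = D s * pair K θ δ₁ + D t * pair K θ δ₂
  k : ℕ
  hk : 1 ≤ k
  γγ' : γ * γ' = 1
  θ₁ : pair K θ δ₁ = s ^ k * γ
  θ₂ : pair K θ δ₂ = s ^ (k + 1) * w
  /-- closedness of `θ` in the coordinates `s`, `t` -/
  closed : δ₂ γ = ((k : L) + 1) * w + s * δ₁ w

/-- Local coordinates at a point where the closed form `θ` does not vanish: `θ` and `dt` are a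
basis, with dual basis `δ₁`, `δ₂`. -/
structure Pt (A : Subalgebra K L) (p : Ideal A) [p.IsPrime] (θ : Ω[L⁄K]) where
  t : L
  t_mem : t ∈ A
  δ₁ : Derivation K L L
  δ₂ : Derivation K L L
  pres₁ : ∀ g ∈ OL K A p, δ₁ g ∈ OL K A p
  pres₂ : ∀ g ∈ OL K A p, δ₂ g ∈ OL K A p
  δ₁t : δ₁ t = 0
  δ₂t : δ₂ t = 1
  θ₁ : pair K θ δ₁ = 1
  θ₂ : pair K θ δ₂ = 0
  comm : ∀ g, δ₁ (δ₂ g) = δ₂ (δ₁ g)
  expand : ∀ (D : Derivation K L L) (g : L), D g = pair K θ D * δ₁ g + D t * δ₂ g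
  expandω : ∀ (ω : Ω[L⁄K]) (D : Derivation K L L),
    pair K ω D = pair K θ D * pair K ω δ₁ + D t * pair K ω δ₂

end Pool.Agent.NG
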