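import Pool.Agent.NG.Surf

/-!
# NG SURFCH: the charts of a smooth projective surface (module to prove)

`chart K x i` is generated by finitely many elements; its fraction field is `L` because `x_p / x_q = (x_p / x_i) / (x_q / x_i)` generate
`L` (`IsSmoothSurface.gen`; `IntermediateField.adjoin` of the generators of a subalgebra is its fraction field:
`IntermediateField.algebraAdjoinAdjoin`/`mem_adjoin_iff_div`).
-/

open scoped KaehlerDifferential

noncomputable section

namespace Pool.Agent.NG

variable {K : Type*} [Field K] {L : Type*} [Field L] [Algebra K L] {N : ℕ}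

theorem surf_chart {x : Fin (N + 1) → L} (hx : IsSmoothSurface K x) {i : Fin (N + 1)}
    (hi : x i ≠ 0) : Surf K (chart K x i) where
  fg := by
    have h : (Set.range fun j => x j / x i).Finite := Set.finite_range _
    exact ⟨h.toFinset, by rw [Set.Finite.coe_toFinset]; rfl⟩
  smooth := hx.smooth i hi
  frac := by
    intro g
    have h1 : (⊤ : IntermediateField K L) ≤
        IntermediateField.adjoin K (Set.range fun j => x j / x i) := by
      rw [← hx.gen, IntermediateField.adjoin_le_iff]
      rintro _ ⟨p, rfl⟩
      have h2 : x p.1 / x p.2 = (x p.1 / x i) / (x p.2 / x i) := by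
        rw [div_div_div_cancel_right₀ hi]
      change x p.1 / x p.2 ∈ _
      rw [h2]
      exact div_mem (IntermediateField.subset_adjoin K _ ⟨p.1, rfl⟩)
        (IntermediateField.subset_adjoin K _ ⟨p.2, rfl⟩)
    have h3 : g ∈ IntermediateField.adjoin K (Set.range fun j => x j / x i) :=
      h1 IntermediateField.mem_top
    obtain ⟨r, hr, s, hs, rfl⟩ := (IntermediateField.mem_adjoin_iff_div).1 h3
    by_cases h0 : s = 0
    · refine ⟨0, 1, one_ne_zero, ?_⟩
      rw [h0, div_zero, zero_mul]
      rfl
    · exact ⟨⟨r, hr⟩, ⟨s, hs⟩, fun h => h0 (congrArg Subtype.val h), div_mul_cancel₀ r h0⟩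
  dim := hx.dim

theorem regOne_eq (x : Fin (N + 1) → L) (i : Fin (N + 1)) :
    regOne K x i = regA K (chart K x i) := rfl

end Pool.Agent.NG
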